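import Pool.Agent.H81.Defs

set_option autoImplicit false

open scoped MatrixGroups Topology

namespace Pool.Agent.H81

variable {g : ℕ} {H : Type*} [Group H]

theorem lift_relator (x y : Fin g → H) :
    FreeGroup.lift (Sum.elim x y) (relator g) = (List.ofFn fun i => comm (x i) (y i)).prod := by
  rw [relator, map_list_prod, List.map_ofFn]
  congr 1
  congr 1
  funext i
  simp [comm]

/-- Homomorphisms out of the surface group from images of generators. -/
def surfLift (x y : Fin g → H) (h : (List.ofFn fun i => comm (x i) (y i)).prod = 1) :
    SurfaceGroup g →* H :=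
  PresentedGroup.toGroup (f := Sum.elim x y) (by
    intro r hr
    rw [Set.mem_singleton_iff] at hr
    subst hr
    rw [lift_relator, h])

@[simp] theorem surfLift_genA (x y : Fin g → H)
    (h : (List.ofFn fun i => comm (x i) (y i)).prod = 1) (i : Fin g) :
    surfLift x y h (genA i) = x i := by
  simp [surfLift, genA]

@[simp] theorem surfLift_genB (x y : Fin g → H)
    (h : (List.ofFn fun i => comm (x i) (y i)).prod = 1) (i : Fin g) :
    surfLift x y h (genB i) = y i := by
  simp [surfLift, genB]

theorem surf_hom_ext {φ ψ : SurfaceGroup g →* H} (ha : ∀ i, φ (genA i) = ψ (genA i))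
    (hb : ∀ i, φ (genB i) = ψ (genB i)) : φ = ψ := by
  apply PresentedGroup.ext
  rintro (i | i)
  · exact ha i
  · exact hb i

theorem rel_eq_one (g : ℕ) :
    (List.ofFn fun i : Fin g => comm (genA i : SurfaceGroup g) (genB i)).prod = 1 := by
  have h := lift_relator (fun i : Fin g => (genA i : SurfaceGroup g)) (fun i => genB i)
  rw [← h]
  have h2 : FreeGroup.lift (Sum.elim (fun i : Fin g => (genA i : SurfaceGroup g))
      (fun i => genB i)) = PresentedGroup.mk _ := by
    ext x
    rcases x with i | i
    · simp [genA, PresentedGroup.of]
    · simp [genB, PresentedGroup.of]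
  rw [h2]
  exact PresentedGroup.one_of_mem (by simp)

theorem surf_closure (g : ℕ) (K : Subgroup (SurfaceGroup g)) (ha : ∀ i, genA i ∈ K)
    (hb : ∀ i, genB i ∈ K) (x : SurfaceGroup g) : x ∈ K := by
  apply PresentedGroup.generated_by
  rintro (i | i)
  · exact ha i
  · exact hb i

/-- Build an automorphism of the surface group from two mutually inverse assignments. -/
def mkAut (x y x' y' : Fin g → SurfaceGroup g)
    (h : (List.ofFn fun i => comm (x i) (y i)).prod = 1)
    (h' : (List.ofFn fun i => comm (x' i) (y' i)).prod = 1)
    (h1 : ∀ i, surfLift x y h (x' i) = genA i) (h2 : ∀ i, surfLift x y h (y' i) = genB i)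
    (h3 : ∀ i, surfLift x' y' h' (x i) = genA i) (h4 : ∀ i, surfLift x' y' h' (y i) = genB i) :
    SurfaceGroup g ≃* SurfaceGroup g :=
  MonoidHom.toMulEquiv (surfLift x y h) (surfLift x' y' h')
    (by apply surf_hom_ext <;> intro i <;> simp [h3, h4])
    (by apply surf_hom_ext <;> intro i <;> simp [h1, h2])

@[simp] theorem mkAut_genA (x y x' y' : Fin g → SurfaceGroup g)
    (h : (List.ofFn fun i => comm (x i) (y i)).prod = 1)
    (h' : (List.ofFn fun i => comm (x' i) (y' i)).prod = 1)
    (h1 h2 h3 h4) (i : Fin g) : mkAut x y x' y' h h' h1 h2 h3 h4 (genA i) = x i := by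
  simp [mkAut]

@[simp] theorem mkAut_genB (x y x' y' : Fin g → SurfaceGroup g)
    (h : (List.ofFn fun i => comm (x i) (y i)).prod = 1)
    (h' : (List.ofFn fun i => comm (x' i) (y' i)).prod = 1)
    (h1 h2 h3 h4) (i : Fin g) : mkAut x y x' y' h h' h1 h2 h3 h4 (genB i) = y i := by
  simp [mkAut]

/-! ### Homology -/

@[simp] theorem homologyCoord_one (x : Gen g) : homologyCoord (1 : SurfaceGroup g) x = 0 := by
  simp [homologyCoord]

@[simp] theorem homologyCoord_mul (γ δ : SurfaceGroup g) (x : Gen g) :
    homologyCoord (γ * δ) x = homologyCoord γ x + homologyCoord δ x := by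
  simp [homologyCoord]

@[simp] theorem homologyCoord_inv (γ : SurfaceGroup g) (x : Gen g) :
    homologyCoord γ⁻¹ x = - homologyCoord γ x := by
  simp [homologyCoord]

@[simp] theorem homologyCoord_zpow (γ : SurfaceGroup g) (n : ℤ) (x : Gen g) :
    homologyCoord (γ ^ n) x = n * homologyCoord γ x := by
  simp [homologyCoord]

@[simp] theorem homologyCoord_pow (γ : SurfaceGroup g) (n : ℕ) (x : Gen g) :
    homologyCoord (γ ^ n) x = n * homologyCoord γ x := by
  simp [homologyCoord]

@[simp] theorem homologyCoord_comm (γ δ : SurfaceGroup g) (x : Gen g) :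
    homologyCoord (comm γ δ) x = 0 := by
  simp only [comm, homologyCoord_mul, homologyCoord_inv]; ring

@[simp] theorem homologyCoord_genA (i : Fin g) (x : Gen g) :
    homologyCoord (genA i) x = if x = Sum.inl i then 1 else 0 := by
  simp [homologyCoord, homologyHom, genA, Pi.single_apply]

@[simp] theorem homologyCoord_genB (i : Fin g) (x : Gen g) :
    homologyCoord (genB i) x = if x = Sum.inr i then 1 else 0 := by
  simp [homologyCoord, homologyHom, genB, Pi.single_apply]

@[simp] theorem intersection_one_left (δ : SurfaceGroup g) : intersectionNumber 1 δ = 0 := by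
  simp [intersectionNumber]

@[simp] theorem intersection_one_right (δ : SurfaceGroup g) : intersectionNumber δ 1 = 0 := by
  simp [intersectionNumber]

theorem intersection_mul_left (γ γ' δ : SurfaceGroup g) :
    intersectionNumber (γ * γ') δ = intersectionNumber γ δ + intersectionNumber γ' δ := by
  simp only [intersectionNumber, homologyCoord_mul, ← Finset.sum_add_distrib]
  apply Finset.sum_congr rfl; intros; ring

theorem intersection_mul_right (γ δ δ' : SurfaceGroup g) :
    intersectionNumber γ (δ * δ') = intersectionNumber γ δ + intersectionNumber γ δ' := by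
  simp only [intersectionNumber, homologyCoord_mul, ← Finset.sum_add_distrib]
  apply Finset.sum_congr rfl; intros; ring

theorem intersection_inv_left (γ δ : SurfaceGroup g) :
    intersectionNumber γ⁻¹ δ = - intersectionNumber γ δ := by
  have := intersection_mul_left γ γ⁻¹ δ
  rw [mul_inv_cancel, intersection_one_left] at this
  linarith

theorem intersection_inv_right (γ δ : SurfaceGroup g) :
    intersectionNumber γ δ⁻¹ = - intersectionNumber γ δ := by
  have := intersection_mul_right γ δ δ⁻¹
  rw [mul_inv_cancel, intersection_one_right] at this
  linarith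

theorem intersection_swap (γ δ : SurfaceGroup g) :
    intersectionNumber γ δ = - intersectionNumber δ γ := by
  simp only [intersectionNumber, ← Finset.sum_neg_distrib]
  apply Finset.sum_congr rfl; intros; ring

theorem intersection_genA_genA (i j : Fin g) :
    intersectionNumber (genA i : SurfaceGroup g) (genA j) = 0 := by
  simp [intersectionNumber]

theorem intersection_genB_genB (i j : Fin g) :
    intersectionNumber (genB i : SurfaceGroup g) (genB j) = 0 := by
  simp [intersectionNumber]

theorem intersection_genA_genB (i j : Fin g) :
    intersectionNumber (genA i : SurfaceGroup g) (genB j) = if i = j then 1 else 0 := by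
  simp [intersectionNumber, eq_comm]

/-- It is enough to check preservation of intersection numbers on generators. -/
theorem orientationPreserving_of_gens (φ : SurfaceGroup g ≃* SurfaceGroup g)
    (haa : ∀ i j, intersectionNumber (φ (genA i)) (φ (genA j)) = 0)
    (hab : ∀ i j, intersectionNumber (φ (genA i)) (φ (genB j)) = if i = j then 1 else 0)
    (hbb : ∀ i j, intersectionNumber (φ (genB i)) (φ (genB j)) = 0) :
    OrientationPreserving φ := by
  -- for fixed second argument, the set of good first arguments is a subgroup
  have key : ∀ δ : SurfaceGroup g,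
      (∀ i, intersectionNumber (φ (genA i)) (φ δ) = intersectionNumber (genA i) δ) →
      (∀ i, intersectionNumber (φ (genB i)) (φ δ) = intersectionNumber (genB i) δ) →
      ∀ γ, intersectionNumber (φ γ) (φ δ) = intersectionNumber γ δ := by
    intro δ h1 h2 γ
    let K : Subgroup (SurfaceGroup g) :=
      { carrier := {γ | intersectionNumber (φ γ) (φ δ) = intersectionNumber γ δ}
        mul_mem' := by
          intro a b ha hb
          simp only [Set.mem_ofPred_eq] at ha hb ⊢
          rw [map_mul, intersection_mul_left, intersection_mul_left, ha, hb]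
        one_mem' := by simp
        inv_mem' := by
          intro a ha
          simp only [Set.mem_ofPred_eq] at ha ⊢
          rw [map_inv, intersection_inv_left, intersection_inv_left, ha] }
    exact surf_closure g K h1 h2 γ
  have keyA : ∀ (j : Fin g) γ,
      intersectionNumber (φ γ) (φ (genA j)) = intersectionNumber γ (genA j) := by
    intro j
    apply key
    · intro i; rw [haa, intersection_genA_genA]
    · intro i
      rw [intersection_swap, hab, intersection_swap, intersection_genA_genB]
  have keyB : ∀ (j : Fin g) γ,
      intersectionNumber (φ γ) (φ (genB j)) = intersectionNumber γ (genB j) := by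
    intro j
    apply key
    · intro i; rw [hab, intersection_genA_genB]
    · intro i; rw [hbb, intersection_genB_genB]
  intro γ δ
  apply key
  · intro i
    rw [intersection_swap, keyA, intersection_swap (genA i)]
  · intro i
    rw [intersection_swap, keyB, intersection_swap (genB i)]

theorem orientationPreserving_refl : OrientationPreserving (MulEquiv.refl (SurfaceGroup g)) :=
  fun _ _ => rfl

theorem OrientationPreserving.trans {φ ψ : SurfaceGroup g ≃* SurfaceGroup g}
    (h1 : OrientationPreserving φ) (h2 : OrientationPreserving ψ) :
    OrientationPreserving (φ.trans ψ) := fun γ δ => by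
  simp [h2 (φ γ) (φ δ), h1 γ δ]

theorem OrientationPreserving.symm {φ : SurfaceGroup g ≃* SurfaceGroup g}
    (h1 : OrientationPreserving φ) : OrientationPreserving φ.symm := fun γ δ => by
  have := h1 (φ.symm γ) (φ.symm δ)
  simpa using this.symm

end Pool.Agent.H81
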