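import Pool.Agent.H81.Space
import Pool.Agent.H81.Basic

/-!
# The action of `SL(2,ℂ)` on the space of circles
-/

set_option autoImplicit false
set_option linter.unusedSimpArgs false

open scoped MatrixGroups Topology ComplexConjugate

namespace Pool.Agent.H81

/-- The hermitian matrix of a vector. -/
noncomputable def toM (x : Sp) : Matrix (Fin 2) (Fin 2) ℂ :=
  !![(x.1 : ℂ), x.2.1; conj x.2.1, (x.2.2 : ℂ)]

theorem toM_injective : Function.Injective toM := by
  rintro ⟨p, q, r⟩ ⟨p', q', r'⟩ h
  have h1 : (p : ℂ) = p' := congr_fun (congr_fun h 0) 0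
  have h2 : q = q' := congr_fun (congr_fun h 0) 1
  have h3 : (r : ℂ) = r' := congr_fun (congr_fun h 1) 1
  rw [h2, Complex.ofReal_injective h1, Complex.ofReal_injective h3]

theorem toM_conjTranspose (x : Sp) : (toM x).conjTranspose = toM x := by
  ext i j
  fin_cases i <;> fin_cases j <;> simp [toM, Matrix.conjTranspose_apply]

theorem det_toM (x : Sp) : (toM x).det = - (BS x x : ℝ) := by
  rw [toM, Matrix.det_fin_two_of, Complex.mul_conj, Complex.normSq_apply, BS_apply]
  push_cast
  ring

/-- The action of a matrix on hermitian matrices. -/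
noncomputable def actF (A : Matrix (Fin 2) (Fin 2) ℂ) (x : Sp) : Sp :=
  (Complex.normSq (A 0 0) * x.1 + 2 * (A 0 0 * x.2.1 * conj (A 0 1)).re
      + Complex.normSq (A 0 1) * x.2.2,
   A 0 0 * conj (A 1 0) * x.1 + A 0 1 * conj (A 1 0) * conj x.2.1
      + A 0 0 * conj (A 1 1) * x.2.1 + A 0 1 * conj (A 1 1) * x.2.2,
   Complex.normSq (A 1 0) * x.1 + 2 * (A 1 0 * x.2.1 * conj (A 1 1)).re
      + Complex.normSq (A 1 1) * x.2.2)

theorem toM_actF (A : Matrix (Fin 2) (Fin 2) ℂ) (x : Sp) :
    toM (actF A x) = A * toM x * A.conjTranspose := by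
  have key : ∀ a b p q r : ℂ, (Complex.normSq a : ℂ) = a * conj a := fun a _ _ _ _ =>
    (Complex.mul_conj a).symm
  have hre : ∀ z : ℂ, ((2 * z.re : ℝ) : ℂ) = z + conj z := fun z => by
    rw [Complex.add_conj]
  ext i j
  rw [Matrix.mul_apply, Fin.sum_univ_two, Matrix.mul_apply, Matrix.mul_apply, Fin.sum_univ_two,
    Fin.sum_univ_two]
  simp only [Matrix.conjTranspose_apply]
  fin_cases i <;> fin_cases j
  · simp only [toM, actF, Matrix.of_apply, Matrix.cons_val', Matrix.cons_val_zero,
      Matrix.cons_val_one, Fin.zero_eta, Fin.mk_one, Matrix.cons_val_fin_one]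
    rw [Complex.ofReal_add, Complex.ofReal_add, hre, Complex.ofReal_mul, Complex.ofReal_mul,
      ← Complex.mul_conj, ← Complex.mul_conj]
    simp only [map_mul, Complex.conj_conj, RCLike.star_def]
    ring
  · simp only [toM, actF, Matrix.of_apply, Matrix.cons_val', Matrix.cons_val_zero,
      Matrix.cons_val_one, Fin.zero_eta, Fin.mk_one, Matrix.cons_val_fin_one]
    simp only [RCLike.star_def]
    ring
  · simp only [toM, actF, Matrix.of_apply, Matrix.cons_val', Matrix.cons_val_zero,
      Matrix.cons_val_one, Fin.zero_eta, Fin.mk_one, Matrix.cons_val_fin_one]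
    simp only [map_add, map_mul, Complex.conj_conj, Complex.conj_ofReal, RCLike.star_def]
    ring
  · simp only [toM, actF, Matrix.of_apply, Matrix.cons_val', Matrix.cons_val_zero,
      Matrix.cons_val_one, Fin.zero_eta, Fin.mk_one, Matrix.cons_val_fin_one]
    rw [Complex.ofReal_add, Complex.ofReal_add, hre, Complex.ofReal_mul, Complex.ofReal_mul,
      ← Complex.mul_conj, ← Complex.mul_conj]
    simp only [map_mul, Complex.conj_conj, RCLike.star_def]
    ring

theorem toM_add (x y : Sp) : toM (x + y) = toM x + toM y := by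
  ext i j
  fin_cases i <;> fin_cases j <;> simp [toM]

theorem toM_smul (c : ℝ) (x : Sp) : toM (c • x) = (c : ℂ) • toM x := by
  ext i j
  fin_cases i <;> fin_cases j <;> simp [toM]

theorem toM_sub (x y : Sp) : toM (x - y) = toM x - toM y := by
  ext i j
  fin_cases i <;> fin_cases j <;> simp [toM]

/-- The action as a linear equivalence. -/
noncomputable def TA (A : SL(2, ℂ)) : Sp ≃ₗ[ℝ] Sp where
  toFun := actF A
  invFun := actF (A⁻¹ : SL(2, ℂ))
  map_add' := by
    intro x y
    apply toM_injective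
    rw [toM_add, toM_actF, toM_actF, toM_actF, toM_add, mul_add, add_mul]
  map_smul' := by
    intro c x
    apply toM_injective
    simp only [RingHom.id_apply]
    rw [toM_smul, toM_actF, toM_actF, toM_smul, Matrix.mul_smul, Matrix.smul_mul]
  left_inv := by
    intro x
    apply toM_injective
    rw [toM_actF, toM_actF]
    have h1 : ((A⁻¹ : SL(2, ℂ)) : Matrix (Fin 2) (Fin 2) ℂ) * (A : Matrix (Fin 2) (Fin 2) ℂ) = 1 := by
      rw [← Matrix.SpecialLinearGroup.coe_mul, inv_mul_cancel]; rfl
    calc _ = (((A⁻¹ : SL(2, ℂ)) : Matrix (Fin 2) (Fin 2) ℂ) * (A : Matrix (Fin 2) (Fin 2) ℂ))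
          * toM x * (((A⁻¹ : SL(2, ℂ)) : Matrix (Fin 2) (Fin 2) ℂ)
            * (A : Matrix (Fin 2) (Fin 2) ℂ)).conjTranspose := by
          rw [Matrix.conjTranspose_mul]; simp only [mul_assoc]
      _ = toM x := by rw [h1]; simp
  right_inv := by
    intro x
    apply toM_injective
    rw [toM_actF, toM_actF]
    have h1 : (A : Matrix (Fin 2) (Fin 2) ℂ) * ((A⁻¹ : SL(2, ℂ)) : Matrix (Fin 2) (Fin 2) ℂ) = 1 := by
      rw [← Matrix.SpecialLinearGroup.coe_mul, mul_inv_cancel]; rfl
    calc _ = ((A : Matrix (Fin 2) (Fin 2) ℂ) * ((A⁻¹ : SL(2, ℂ)) : Matrix (Fin 2) (Fin 2) ℂ))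
          * toM x * ((A : Matrix (Fin 2) (Fin 2) ℂ)
            * ((A⁻¹ : SL(2, ℂ)) : Matrix (Fin 2) (Fin 2) ℂ)).conjTranspose := by
          rw [Matrix.conjTranspose_mul]; simp only [mul_assoc]
      _ = toM x := by rw [h1]; simp

theorem TA_apply (A : SL(2, ℂ)) (x : Sp) : TA A x = actF A x := rfl

theorem toM_TA (A : SL(2, ℂ)) (x : Sp) :
    toM (TA A x) = A * toM x * (A : Matrix (Fin 2) (Fin 2) ℂ).conjTranspose := toM_actF _ x

/-- The action as a homomorphism. -/
noncomputable def TH : SL(2, ℂ) →* (Sp ≃ₗ[ℝ] Sp) where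
  toFun := TA
  map_one' := by
    ext1 x
    apply toM_injective
    show toM (TA 1 x) = toM x
    rw [toM_TA]
    simp
  map_mul' A B := by
    ext1 x
    apply toM_injective
    show toM (TA (A * B) x) = toM (TA A (TA B x))
    rw [toM_TA, toM_TA, toM_TA, Matrix.SpecialLinearGroup.coe_mul, Matrix.conjTranspose_mul]
    simp only [mul_assoc]

theorem TH_apply (A : SL(2, ℂ)) (x : Sp) : TH A x = actF A x := rfl

theorem TH_neg (A : SL(2, ℂ)) : TH (-A) = TH A := by
  ext1 x
  apply toM_injective
  show toM (TA (-A) x) = toM (TA A x)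
  rw [toM_TA, toM_TA]
  simp

/-- The kernel of the action is `{1, -1}`. -/
theorem TH_ker (A : SL(2, ℂ)) (h : TH A = 1) : A = 1 ∨ A = -1 := by
  have h1 : actF A (1, 0, 0) = (1, 0, 0) := by
    have := DFunLike.congr_fun h ((1, 0, 0) : Sp)
    exact this
  have h2 : actF A (0, 0, 1) = (0, 0, 1) := by
    have := DFunLike.congr_fun h ((0, 0, 1) : Sp)
    exact this
  have h3 : actF A (0, 1, 0) = (0, 1, 0) := by
    have := DFunLike.congr_fun h ((0, 1, 0) : Sp)
    exact this
  simp only [actF, Prod.mk.injEq] at h1 h2 h3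
  obtain ⟨-, -, h1c⟩ := h1
  obtain ⟨h2a, -, h2c⟩ := h2
  obtain ⟨-, h3b, -⟩ := h3
  simp at h1c h2a h3b h2c
  rw [h1c, h2a] at h3b
  have hdet := A.2
  rw [Matrix.det_fin_two] at hdet
  have h1c' : (A : Matrix (Fin 2) (Fin 2) ℂ) 1 0 = 0 := h1c
  have h2a' : (A : Matrix (Fin 2) (Fin 2) ℂ) 0 1 = 0 := h2a
  rw [h1c', h2a'] at hdet
  simp only [mul_zero, sub_zero, zero_mul, add_zero, zero_add, map_zero] at hdet h3b
  set a : ℂ := A 0 0 with ha
  set d : ℂ := A 1 1 with hd
  have ha0 : a ≠ 0 := by intro h; rw [h] at hdet; simp at hdet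
  have h4 : conj d = d := by
    have : a * conj d = a * d := by rw [h3b]; exact hdet.symm
    exact mul_left_cancel₀ ha0 this
  have hd2 : d * d = 1 := by
    have : (Complex.normSq d : ℂ) = 1 := by exact_mod_cast h2c
    rw [← Complex.mul_conj, h4] at this
    exact this
  have had : a = d := by
    have h5 : a * d = d * d := by rw [hd2]; exact hdet
    have hd0 : d ≠ 0 := by intro h; rw [h] at hd2; simp at hd2
    exact mul_right_cancel₀ hd0 h5
  have hcases : d = 1 ∨ d = -1 := by
    have : (d - 1) * (d + 1) = 0 := by linear_combination hd2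
    rcases mul_eq_zero.1 this with h | h
    · left; linear_combination h
    · right; linear_combination h
  rcases hcases with h | h
  · left
    ext i j
    fin_cases i <;> fin_cases j
    · show a = 1
      rw [had, h]
    · exact h2a'
    · exact h1c'
    · exact h
  · right
    ext i j
    fin_cases i <;> fin_cases j
    · show a = -1
      rw [had, h]
    · show (A : Matrix (Fin 2) (Fin 2) ℂ) 0 1 = - (0 : ℂ)
      rw [h2a', neg_zero]
    · show (A : Matrix (Fin 2) (Fin 2) ℂ) 1 0 = - (0 : ℂ)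
      rw [h1c', neg_zero]
    · exact h

/-! ### Reflections -/

theorem toM_polar (u w : Sp) : toM u * (toM w).adjugate + toM w * (toM u).adjugate
    = ((-2 * BS u w : ℝ) : ℂ) • (1 : Matrix (Fin 2) (Fin 2) ℂ) := by
  obtain ⟨p, q, r⟩ := u
  obtain ⟨p', q', r'⟩ := w
  rw [BS_apply]
  simp only [toM, Matrix.adjugate_fin_two_of, Matrix.mul_fin_two]
  have hq := Complex.re_add_im q
  have hq' := Complex.re_add_im q'
  have hcq : conj q = (q.re : ℂ) - q.im * Complex.I := by
    apply Complex.ext <;> simp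
  have hcq' : conj q' = (q'.re : ℂ) - q'.im * Complex.I := by
    apply Complex.ext <;> simp
  ext i j
  fin_cases i <;> fin_cases j
  · simp
    rw [hcq, hcq']
    linear_combination (2 * q.im * q'.im : ℂ) * Complex.I_sq
      + ((q'.re : ℂ) - q'.im * Complex.I) * hq + ((q.re : ℂ) - q.im * Complex.I) * hq'
  · simp; ring
  · simp; ring
  · simp
    rw [hcq, hcq']
    linear_combination (2 * q.im * q'.im : ℂ) * Complex.I_sq
      + ((q'.re : ℂ) - q'.im * Complex.I) * hq + ((q.re : ℂ) - q.im * Complex.I) * hq'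

theorem toM_adj_mul (u : Sp) (hu : BS u u = 1) : (toM u).adjugate * toM u = -1 := by
  rw [Matrix.adjugate_mul, det_toM, hu]; simp

theorem toM_mul_adj (u : Sp) (hu : BS u u = 1) : toM u * (toM u).adjugate = -1 := by
  rw [Matrix.mul_adjugate, det_toM, hu]; simp

/-- Reflection in terms of matrices. -/
theorem toM_refl (u x : Sp) (hu : BS u u = 1) :
    toM u * (toM x).adjugate * toM u = toM (x - (2 * BS u x) • u) := by
  have h1 := toM_polar u x
  have h2 : toM u * (toM x).adjugate = ((-2 * BS u x : ℝ) : ℂ) • 1 - toM x * (toM u).adjugate := by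
    rw [← h1]; abel
  rw [h2, sub_mul, mul_assoc (toM x), toM_adj_mul u hu, toM_sub, toM_smul]
  simp only [Matrix.smul_mul, one_mul, mul_neg, mul_one, sub_neg_eq_add]
  push_cast
  rw [show (-2 * (BS u x : ℂ)) • toM u = - ((2 * (BS u x : ℂ)) • toM u) by
    rw [neg_mul, neg_smul]]
  abel

/-- The element `U adj(W)` of `SL(2,ℂ)`. -/
noncomputable def pr (U W : Matrix (Fin 2) (Fin 2) ℂ) (hU : U.det = -1) (hW : W.det = -1) :
    SL(2, ℂ) :=
  ⟨U * W.adjugate, by rw [Matrix.det_mul, Matrix.det_adjugate, hU, hW]; simp⟩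

theorem TH_pr (u w x : Sp) (hu : BS u u = 1) (hw : BS w w = 1) (hU : (toM u).det = -1)
    (hW : (toM w).det = -1) :
    TH (pr (toM u) (toM w) hU hW) x
      = (fun y => y - (2 * BS u y) • u) ((fun y => y - (2 * BS w y) • w) x) := by
  apply toM_injective
  show toM (TA _ x) = _
  rw [toM_TA]
  simp only
  rw [← toM_refl u _ hu, ← toM_refl w x hw]
  have hadj : (toM w).adjugate.conjTranspose = (toM w).adjugate := by
    rw [Matrix.adjugate_conjTranspose, toM_conjTranspose]
  show toM u * (toM w).adjugate * toM x * (toM u * (toM w).adjugate).conjTranspose = _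
  rw [Matrix.conjTranspose_mul, toM_conjTranspose, hadj, Matrix.adjugate_mul_distrib,
    Matrix.adjugate_mul_distrib]
  have : (toM x).adjugate.adjugate = toM x := by
    have := Matrix.adjugate_adjugate (toM x) (by simp)
    simpa using this
  rw [this]
  simp only [mul_assoc]

/-! ### Points of the sphere -/

/-- The light-like vector of a point of the Riemann sphere. -/
noncomputable def np : OnePoint ℂ → Sp
  | none => inft
  | some z => pt z

theorem np_infty : np OnePoint.infty = inft := rfl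
theorem np_coe (z : ℂ) : np (z : OnePoint ℂ) = pt z := rfl

/-- Light-like vector of homogeneous coordinates. -/
noncomputable def hp (x y : ℂ) : Sp := (Complex.normSq x, x * conj y, Complex.normSq y)

theorem hp_zero (x : ℂ) : hp x 0 = Complex.normSq x • inft := by
  simp [hp, inft]

theorem hp_ne (x y : ℂ) (hy : y ≠ 0) : hp x y = Complex.normSq y • pt (x / y) := by
  have hn : Complex.normSq y ≠ 0 := by simpa using hy
  simp only [hp, pt, Prod.smul_mk, smul_eq_mul, mul_one, Prod.mk.injEq, Complex.real_smul]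
  refine ⟨?_, ?_, trivial⟩
  · rw [Complex.normSq_div]; field_simp
  · rw [← Complex.mul_conj]; field_simp

theorem actF_pt (A : Matrix (Fin 2) (Fin 2) ℂ) (z : ℂ) :
    actF A (pt z) = hp (A 0 0 * z + A 0 1) (A 1 0 * z + A 1 1) := by
  have hn : ∀ a b : ℂ, Complex.normSq (a * z + b)
      = Complex.normSq a * Complex.normSq z + 2 * (a * z * conj b).re + Complex.normSq b := by
    intro a b
    rw [Complex.normSq_add, Complex.normSq_mul]; ring
  simp only [actF, pt, hp, Prod.mk.injEq]
  refine ⟨by rw [hn]; ring, ?_, by rw [hn]; ring⟩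
  rw [← Complex.mul_conj]
  simp only [map_add, map_mul, Complex.ofReal_one]
  ring

theorem actF_inft (A : Matrix (Fin 2) (Fin 2) ℂ) :
    actF A inft = hp (A 0 0) (A 1 0) := by
  simp [actF, inft, hp]

/-- The action on light-like vectors is the Möbius action. -/
theorem TH_np (A : SL(2, ℂ)) (z : OnePoint ℂ) :
    ∃ l : ℝ, 0 < l ∧ TH A (np z) = l • np (moebius A z) := by
  have hdet := A.2
  rw [Matrix.det_fin_two] at hdet
  have e00 : (A : GL (Fin 2) ℂ) 0 0 = A 0 0 := rfl
  have e01 : (A : GL (Fin 2) ℂ) 0 1 = A 0 1 := rfl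
  have e10 : (A : GL (Fin 2) ℂ) 1 0 = A 1 0 := rfl
  have e11 : (A : GL (Fin 2) ℂ) 1 1 = A 1 1 := rfl
  induction z using OnePoint.rec with
  | infty =>
    rw [TH_apply, np_infty, actF_inft, moebius, OnePoint.smul_infty_eq_ite, e00, e10]
    by_cases h : A 1 0 = 0
    · rw [if_pos h, h, hp_zero]
      refine ⟨_, ?_, rfl⟩
      rw [Complex.normSq_pos]
      intro h0
      rw [h, h0] at hdet
      simp at hdet
    · rw [if_neg h, hp_ne _ _ h]
      exact ⟨_, Complex.normSq_pos.2 h, rfl⟩
  | coe z =>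
    rw [TH_apply, np_coe, actF_pt, moebius, OnePoint.smul_some_eq_ite, e00, e10, e01, e11]
    by_cases h : A 1 0 * z + A 1 1 = 0
    · rw [if_pos h, h, hp_zero]
      refine ⟨_, ?_, rfl⟩
      rw [Complex.normSq_pos]
      intro h0
      have : (A 0 0 * A 1 1 - A 0 1 * A 1 0) = 0 := by
        linear_combination A 0 0 * h - A 1 0 * h0
      rw [this] at hdet
      exact zero_ne_one hdet
    · rw [if_neg h, hp_ne _ _ h]
      exact ⟨_, Complex.normSq_pos.2 h, rfl⟩

end Pool.Agent.H81
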