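import Pool.Agent.H81.Mat

/-!
# Limits of powers of nearly parabolic matrices
-/

set_option autoImplicit false
set_option linter.unusedSimpArgs false

open scoped MatrixGroups Topology ComplexConjugate

namespace Pool.Agent.H81

theorem tendsto_sl2_pow {A : ℕ → Matrix (Fin 2) (Fin 2) ℂ} {A0 : Matrix (Fin 2) (Fin 2) ℂ}
    {θ : ℕ → ℂ} {k : ℕ → ℕ} {S C : ℂ} (hA : Filter.Tendsto A Filter.atTop (𝓝 A0))
    (hdet : ∀ n, (A n).det = 1) (htr : ∀ n, (A n).trace = 2 * Complex.cos (θ n))
    (hs : ∀ n, Complex.sin (θ n) ≠ 0)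
    (h1 : Filter.Tendsto (fun n => Complex.sin (k n * θ n) / Complex.sin (θ n))
      Filter.atTop (𝓝 S))
    (h2 : Filter.Tendsto (fun n => Complex.cos (k n * θ n)) Filter.atTop (𝓝 C))
    (h3 : Filter.Tendsto (fun n => Complex.cos (θ n)) Filter.atTop (𝓝 1)) :
    Filter.Tendsto (fun n => A n ^ k n) Filter.atTop (𝓝 (S • A0 - (S * 1 - C) • 1)) := by
  have h : ∀ n, A n ^ k n = (Complex.sin (k n * θ n) / Complex.sin (θ n)) • A n
      - ((Complex.sin (k n * θ n) / Complex.sin (θ n)) * Complex.cos (θ n)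
        - Complex.cos (k n * θ n)) • 1 := fun n =>
    sl2_pow' (A n) (hdet n) (θ n) (htr n) (hs n) (k n)
  simp only [h]
  exact (h1.smul hA).sub (((h1.mul h3).sub h2).smul tendsto_const_nhds)

/-- The exponents. -/
def kn (n : ℕ) : ℕ := 2 * (n + 1)

theorem kn_even (n : ℕ) : Even (kn n) := ⟨n + 1, by unfold kn; ring⟩

theorem kn_ne (n : ℕ) : ((kn n : ℕ) : ℂ) ≠ 0 := by
  rw [Nat.cast_ne_zero]; unfold kn; omega

/-- The step. -/
noncomputable def hn (n : ℕ) : ℂ := 1 / (kn n : ℂ)

theorem hn_ne (n : ℕ) : hn n ≠ 0 := one_div_ne_zero (kn_ne n)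

theorem hn_tendsto : Filter.Tendsto hn Filter.atTop (𝓝 0) := by
  have h : Filter.Tendsto (fun n : ℕ => ((1 / (kn n : ℝ) : ℝ) : ℂ)) Filter.atTop (𝓝 0) := by
    rw [← Complex.ofReal_zero]
    apply (Complex.continuous_ofReal.tendsto 0).comp
    have h0 : Filter.Tendsto (fun n : ℕ => 1 / ((n : ℝ) + 1)) Filter.atTop (𝓝 0) :=
      tendsto_one_div_add_atTop_nhds_zero_nat
    refine squeeze_zero (fun n => by positivity) (fun n => ?_) h0
    apply one_div_le_one_div_of_le (by positivity)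
    unfold kn
    push_cast
    have : (0 : ℝ) ≤ n := Nat.cast_nonneg n
    linarith
  refine h.congr (fun n => ?_)
  unfold hn
  push_cast
  rfl

/-- The angles. -/
noncomputable def thn (κ : ℝ) (n : ℕ) : ℂ := Real.pi * hn n * (1 + Complex.I * κ * hn n)

theorem kn_mul_thn (κ : ℝ) (n : ℕ) :
    (kn n : ℂ) * thn κ n = Complex.I * Real.pi * κ * hn n + Real.pi := by
  have := kn_ne n
  unfold thn hn
  field_simp
  ring

theorem thn_tendsto (κ : ℝ) : Filter.Tendsto (thn κ) Filter.atTop (𝓝 0) := by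
  have h := hn_tendsto
  have h1 : Filter.Tendsto (fun n => (Real.pi : ℂ) * hn n * (1 + Complex.I * κ * hn n))
      Filter.atTop (𝓝 ((Real.pi : ℂ) * 0 * (1 + Complex.I * κ * 0))) :=
    (tendsto_const_nhds.mul h).mul (tendsto_const_nhds.add (tendsto_const_nhds.mul h))
  rw [mul_zero, zero_mul] at h1
  exact h1

theorem cos_thn_tendsto (κ : ℝ) :
    Filter.Tendsto (fun n => Complex.cos (thn κ n)) Filter.atTop (𝓝 1) := by
  have := (Complex.continuous_cos.tendsto 0).comp (thn_tendsto κ)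
  rwa [Complex.cos_zero] at this

theorem cos_kn_tendsto (κ : ℝ) :
    Filter.Tendsto (fun n => Complex.cos (kn n * thn κ n)) Filter.atTop (𝓝 (-1)) := by
  have h1 : Filter.Tendsto (fun n => Complex.cos (Complex.I * Real.pi * κ * hn n + Real.pi))
      Filter.atTop (𝓝 (Complex.cos (Complex.I * Real.pi * κ * 0 + Real.pi))) :=
    (Complex.continuous_cos.tendsto _).comp
      ((tendsto_const_nhds.mul hn_tendsto).add tendsto_const_nhds)
  rw [mul_zero, zero_add, Complex.cos_pi] at h1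
  refine h1.congr (fun n => ?_)
  rw [kn_mul_thn]

theorem hn_within : Filter.Tendsto hn Filter.atTop (𝓝[≠] 0) :=
  tendsto_nhdsWithin_iff.2 ⟨hn_tendsto, Filter.Eventually.of_forall hn_ne⟩

theorem slope_tendsto {f : ℂ → ℂ} {f' : ℂ} (hf : HasDerivAt f f' 0) (h0 : f 0 = 0) :
    Filter.Tendsto (fun n => f (hn n) / hn n) Filter.atTop (𝓝 f') := by
  have h1 := hf.tendsto_slope.comp hn_within
  refine h1.congr (fun n => ?_)
  simp only [Function.comp, slope_def_field, h0, sub_zero]

theorem sin_thn_slope (κ : ℝ) :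
    Filter.Tendsto (fun n => Complex.sin (thn κ n) / hn n) Filter.atTop (𝓝 (Real.pi : ℂ)) := by
  have hd : HasDerivAt (fun h : ℂ => Complex.sin ((Real.pi : ℂ) * h * (1 + Complex.I * κ * h)))
      (Real.pi : ℂ) 0 := by
    have h1 : HasDerivAt (fun h : ℂ => (Real.pi : ℂ) * h * (1 + Complex.I * κ * h))
        (Real.pi : ℂ) 0 := by
      have a1 : HasDerivAt (fun h : ℂ => (Real.pi : ℂ) * h) (Real.pi : ℂ) 0 := by
        simpa using (hasDerivAt_id (0 : ℂ)).const_mul (Real.pi : ℂ)
      have a2 : HasDerivAt (fun h : ℂ => 1 + Complex.I * κ * h) (Complex.I * κ) 0 := by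
        simpa using ((hasDerivAt_id (0 : ℂ)).const_mul (Complex.I * κ)).const_add 1
      have a3 := a1.fun_mul a2
      refine a3.congr_deriv ?_
      simp
    have h2 := h1.csin
    refine h2.congr_deriv ?_
    rw [mul_zero, zero_mul, Complex.cos_zero, one_mul]
  refine (slope_tendsto hd (by rw [mul_zero, zero_mul, Complex.sin_zero])).congr (fun n => ?_)
  rw [thn]

theorem sin_kn_slope (κ : ℝ) :
    Filter.Tendsto (fun n => Complex.sin (kn n * thn κ n) / hn n) Filter.atTop
      (𝓝 (-(Complex.I * Real.pi * κ))) := by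
  have hd : HasDerivAt (fun h : ℂ => - Complex.sin (Complex.I * Real.pi * κ * h))
      (-(Complex.I * Real.pi * κ)) 0 := by
    have a1 : HasDerivAt (fun h : ℂ => Complex.I * Real.pi * κ * h) (Complex.I * Real.pi * κ) 0 := by
      simpa using (hasDerivAt_id (0 : ℂ)).const_mul (Complex.I * Real.pi * κ)
    have h2 := a1.csin.fun_neg
    refine h2.congr_deriv ?_
    simp
  refine (slope_tendsto hd (by simp)).congr (fun n => ?_)
  rw [kn_mul_thn, Complex.sin_add_pi]

theorem sin_ratio_tendsto (κ : ℝ) :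
    Filter.Tendsto (fun n => Complex.sin (kn n * thn κ n) / Complex.sin (thn κ n)) Filter.atTop
      (𝓝 (-(Complex.I * κ))) := by
  have hpi : (Real.pi : ℂ) ≠ 0 := by exact_mod_cast Real.pi_ne_zero
  have h := (sin_kn_slope κ).div (sin_thn_slope κ) hpi
  have e : -(Complex.I * Real.pi * κ) / (Real.pi : ℂ) = -(Complex.I * κ) := by
    field_simp
  rw [e] at h
  refine h.congr (fun n => ?_)
  have := hn_ne n
  simp only [Pi.div_apply]
  rw [div_div_div_cancel_right₀ this]

theorem sin_thn_ne (κ : ℝ) : ∀ᶠ n in Filter.atTop, Complex.sin (thn κ n) ≠ 0 := by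
  have hpi : (Real.pi : ℂ) ≠ 0 := by exact_mod_cast Real.pi_ne_zero
  filter_upwards [(sin_thn_slope κ).eventually_ne hpi] with n hn h
  rw [h, zero_div] at hn
  exact hn rfl

end Pool.Agent.H81
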