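import Pool.Agent.H81.Space

/-!
# Comparison of the limit sets of two models
-/

set_option autoImplicit false
set_option linter.unusedSimpArgs false

open scoped MatrixGroups Topology ComplexConjugate

namespace Pool.Agent.H81

variable {ι : Type*} [DecidableEq ι] {adj : ι → ι → Prop} [DecidableRel adj]

/-- A model in the space of circles, with reference point at infinity. -/
structure IsSp (M : RModel adj Sp) : Prop where
  hB : M.B = BS
  hx : M.x0 = inft

namespace RModel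

variable (M : RModel adj Sp)

/-- Centre and radius of the disc of a path. -/
noncomputable def cp (p : List ι × ι) : ℂ := cen (M.root p.1 p.2)
noncomputable def rp (p : List ι × ι) : ℝ := rad (M.root p.1 p.2)

variable {M}

theorem root_unit (hM : IsSp M) (w : List ι) (j : ι) : BS (M.root w j) (M.root w j) = 1 := by
  rw [← hM.hB, root, M.B_evw, M.one]

theorem root_r_ge (hM : IsSp M) {w : List ι} {j : ι} (hv : Valid adj w j) :
    2 * M.c * (1 + 2 * w.length) ≤ (M.root w j).2.2 := by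
  have := (M.inv w j hv).h
  rw [hM.hB, hM.hx, BS_inft] at this
  linarith

theorem root_r_pos (hM : IsSp M) {w : List ι} {j : ι} (hv : Valid adj w j) :
    0 < (M.root w j).2.2 := by
  have := root_r_ge hM hv
  have hc := M.hc
  have : 0 < 2 * M.c * (1 + 2 * (w.length : ℝ)) := by positivity
  linarith

theorem rp_pos (hM : IsSp M) {p : List ι × ι} (hv : Valid adj p.1 p.2) : 0 < M.rp p :=
  rad_pos (root_r_pos hM hv)

theorem finite_rp [Finite ι] (hM : IsSp M) {ε : ℝ} (hε : 0 < ε) :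
    {p : List ι × ι | Valid adj p.1 p.2 ∧ ε ≤ M.rp p}.Finite := by
  apply (M.finite_paths (1 / (2 * ε))).subset
  rintro p ⟨hv, h⟩
  refine ⟨hv, ?_⟩
  rw [hM.hB, hM.hx, BS_inft]
  have h1 := root_r_pos hM hv
  unfold rp rad at h
  rw [le_div_iff₀ h1] at h
  rw [le_div_iff₀ (by positivity)]
  linarith

/-- Paths whose closed disc contains `z`. -/
def PS (M : RModel adj Sp) (z : ℂ) : Set (List ι × ι) :=
  {p | Valid adj p.1 p.2 ∧ ‖z - M.cp p‖ ≤ M.rp p}

/-- The points lying in infinitely many discs. -/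
def Lam (M : RModel adj Sp) : Set ℂ := {z | (M.PS z).Infinite}

theorem exists_small [Finite ι] (hM : IsSp M) {S : Set (List ι × ι)} (hS : S.Infinite)
    (hv : ∀ p ∈ S, Valid adj p.1 p.2) {ε : ℝ} (hε : 0 < ε) : ∃ p ∈ S, M.rp p < ε := by
  by_contra h
  push Not at h
  exact hS ((finite_rp hM hε).subset fun p hp => ⟨hv p hp, h p hp⟩)

theorem PS_uniq [Finite ι] (hM : IsSp M) {S : Set (List ι × ι)} (hS : S.Infinite) {z z' : ℂ}
    (h : S ⊆ M.PS z) (h' : S ⊆ M.PS z') : z = z' := by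
  by_contra hne
  have hpos : 0 < ‖z - z'‖ := norm_pos_iff.2 (sub_ne_zero.2 hne)
  obtain ⟨p, hp, hlt⟩ := exists_small hM hS (fun p hp => (h hp).1) (half_pos hpos)
  have h1 := (h hp).2
  have h2 := (h' hp).2
  have h3 : ‖z - z'‖ ≤ ‖z - M.cp p‖ + ‖z' - M.cp p‖ := by
    have : z - z' = (z - M.cp p) - (z' - M.cp p) := by ring
    rw [this]; exact norm_sub_le _ _
  linarith

theorem meet_of_mem (hM : IsSp M) {z : ℂ} {p q : List ι × ι} (hp : p ∈ M.PS z)
    (hq : q ∈ M.PS z) : ¬ M.B (M.root p.1 p.2) (M.root q.1 q.2) < -1 := by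
  rw [hM.hB, lt_neg_one_iff (root_r_pos hM hp.1) (root_r_pos hM hq.1) (root_unit hM _ _)
    (root_unit hM _ _)]
  push Not
  have h1 : ‖z - cen (M.root p.1 p.2)‖ ≤ rad (M.root p.1 p.2) := hp.2
  have h2 : ‖z - cen (M.root q.1 q.2)‖ ≤ rad (M.root q.1 q.2) := hq.2
  have : cen (M.root p.1 p.2) - cen (M.root q.1 q.2)
      = (z - cen (M.root q.1 q.2)) - (z - cen (M.root p.1 p.2)) := by ring
  rw [this]
  have := norm_sub_le (z - cen (M.root q.1 q.2)) (z - cen (M.root p.1 p.2))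
  linarith

theorem close_of_meet (hM : IsSp M) {p q : List ι × ι} (hp : Valid adj p.1 p.2)
    (hq : Valid adj q.1 q.2) (h : ¬ M.B (M.root p.1 p.2) (M.root q.1 q.2) < -1) :
    ‖M.cp p - M.cp q‖ ≤ M.rp p + M.rp q := by
  rw [hM.hB, lt_neg_one_iff (root_r_pos hM hp) (root_r_pos hM hq) (root_unit hM _ _)
    (root_unit hM _ _)] at h
  push Not at h
  exact h

theorem exists_point [Finite ι] (hM : IsSp M) {S : Set (List ι × ι)} (hS : S.Infinite)
    (hv : ∀ p ∈ S, Valid adj p.1 p.2)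
    (hm : ∀ p ∈ S, ∀ q ∈ S, ¬ M.B (M.root p.1 p.2) (M.root q.1 q.2) < -1) :
    ∃ z, S ⊆ M.PS z := by
  have hex : ∀ n : ℕ, ∃ p ∈ S, M.rp p < 1 / ((n : ℝ) + 1) := fun n =>
    exists_small hM hS hv (by positivity)
  choose p hp hr using hex
  have hcl : ∀ n k, ‖M.cp (p n) - M.cp (p k)‖ ≤ M.rp (p n) + M.rp (p k) := fun n k =>
    close_of_meet hM (hv _ (hp n)) (hv _ (hp k)) (hm _ (hp n) _ (hp k))
  have hr0 : Filter.Tendsto (fun n => M.rp (p n)) Filter.atTop (𝓝 0) := by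
    refine squeeze_zero (fun n => (rp_pos hM (hv _ (hp n))).le) (fun n => (hr n).le) ?_
    exact tendsto_one_div_add_atTop_nhds_zero_nat
  have hcauchy : CauchySeq (fun n => M.cp (p n)) := by
    rw [Metric.cauchySeq_iff']
    intro ε hε
    have h1 : ∀ᶠ n in Filter.atTop, M.rp (p n) < ε / 2 :=
      (tendsto_order.1 hr0).2 _ (half_pos hε)
    obtain ⟨N, hN⟩ := Filter.eventually_atTop.1 h1
    refine ⟨N, fun n hn => ?_⟩
    rw [dist_eq_norm]
    have := hcl n N
    have h2 := hN n hn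
    have h3 := hN N le_rfl
    linarith
  obtain ⟨z, hz⟩ := cauchySeq_tendsto_of_complete hcauchy
  refine ⟨z, fun q hq => ⟨hv q hq, ?_⟩⟩
  have h1 : Filter.Tendsto (fun n => ‖M.cp (p n) - M.cp q‖) Filter.atTop (𝓝 ‖z - M.cp q‖) :=
    (hz.sub tendsto_const_nhds).norm
  have h2 : Filter.Tendsto (fun n => M.rp (p n) + M.rp q) Filter.atTop (𝓝 (0 + M.rp q)) :=
    hr0.add tendsto_const_nhds
  rw [zero_add] at h2
  exact le_of_tendsto_of_tendsto' h1 h2 fun n =>
    close_of_meet hM (hv _ (hp n)) (hv _ hq) (hm _ (hp n) _ hq)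

/-! ### Two models -/

variable {M' : RModel adj Sp}

theorem transfer [Finite ι] (hM : IsSp M) (hM' : IsSp M') {z : ℂ} (hz : z ∈ M.Lam) :
    ∃ y, M.PS z ⊆ M'.PS y := by
  apply exists_point hM' hz (fun p hp => hp.1)
  intro p hp q hq
  have h := meet_of_mem hM hp hq
  rw [M.lt_iff_sgn hp.1 hq.1] at h
  rw [M'.lt_iff_sgn hp.1 hq.1]
  exact h

/-- The comparison map. -/
noncomputable def cmp (M M' : RModel adj Sp) (z : ℂ) : ℂ := by
  classical
  exact if h : ∃ y, M.PS z ⊆ M'.PS y then h.choose else 0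

theorem cmp_spec [Finite ι] (hM : IsSp M) (hM' : IsSp M') {z : ℂ} (hz : z ∈ M.Lam) :
    M.PS z ⊆ M'.PS (cmp M M' z) := by
  have h := transfer hM hM' hz
  unfold cmp
  rw [dif_pos h]
  exact h.choose_spec

theorem cmp_mem [Finite ι] (hM : IsSp M) (hM' : IsSp M') {z : ℂ} (hz : z ∈ M.Lam) :
    cmp M M' z ∈ M'.Lam := hz.mono (cmp_spec hM hM' hz)

theorem cmp_injOn [Finite ι] (hM : IsSp M) (hM' : IsSp M') :
    Set.InjOn (cmp M M') M.Lam := by
  intro z hz z' hz' h
  have h1 := cmp_spec hM hM' hz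
  have h2 := cmp_spec hM hM' hz'
  rw [← h] at h2
  have h3 := cmp_spec hM' hM (cmp_mem hM hM' hz)
  have e1 := PS_uniq hM hz subset_rfl (h1.trans h3)
  have e2 := PS_uniq hM hz' subset_rfl (h2.trans h3)
  rw [e1, e2]

theorem cmp_surj [Finite ι] (hM : IsSp M) (hM' : IsSp M') {y : ℂ} (hy : y ∈ M'.Lam) :
    ∃ z ∈ M.Lam, cmp M M' z = y := by
  refine ⟨cmp M' M y, cmp_mem hM' hM hy, ?_⟩
  have h1 := cmp_spec hM' hM hy
  have h2 := cmp_spec hM hM' (cmp_mem hM' hM hy)
  exact (PS_uniq hM' hy subset_rfl (h1.trans h2)).symm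

theorem cmp_continuousOn [Finite ι] (hM : IsSp M) (hM' : IsSp M')
    (hint : ∀ z ∈ M.Lam, {p : List ι × ι | Valid adj p.1 p.2 ∧ ‖z - M.cp p‖ < M.rp p}.Infinite) :
    ContinuousOn (cmp M M') M.Lam := by
  intro z hz
  rw [Metric.continuousWithinAt_iff]
  intro ε hε
  obtain ⟨p, hp, hlt⟩ := exists_small hM' (hint z hz) (fun p hp => hp.1) (show 0 < ε / 3 by positivity)
  refine ⟨M.rp p - ‖z - M.cp p‖, by linarith [hp.2], ?_⟩
  intro z' hz' hd
  have h1 : p ∈ M.PS z := ⟨hp.1, hp.2.le⟩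
  have h2 : p ∈ M.PS z' := by
    refine ⟨hp.1, ?_⟩
    rw [dist_eq_norm] at hd
    have : z' - M.cp p = (z' - z) + (z - M.cp p) := by ring
    rw [this]
    have := norm_add_le (z' - z) (z - M.cp p)
    linarith
  have h3 := (cmp_spec hM hM' hz h1).2
  have h4 := (cmp_spec hM hM' hz' h2).2
  rw [dist_eq_norm]
  have : cmp M M' z' - cmp M M' z = (cmp M M' z' - M'.cp p) - (cmp M M' z - M'.cp p) := by ring
  rw [this]
  have := norm_sub_le (cmp M M' z' - M'.cp p) (cmp M M' z - M'.cp p)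
  linarith

end RModel

end Pool.Agent.H81
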