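import Mathlib

/-!
# Definitions for problem MP_62a77c_gt

Surface groups, their `SL(2,ℂ)`-characters, the mapping class group action, unitary characters
and quasi-Fuchsian characters.
-/

set_option autoImplicit false

open scoped MatrixGroups Topology

namespace Pool.Agent.H81

/-- The `2g` generators of the standard presentation of the fundamental group of the closed
orientable surface of genus `g`: `Sum.inl i` stands for `a_i` and `Sum.inr i` for `b_i`. -/
abbrev Gen (g : ℕ) : Type := Fin g ⊕ Fin g

/-- The commutator `x y x⁻¹ y⁻¹`. -/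
def comm {H : Type*} [Group H] (x y : H) : H := x * y * x⁻¹ * y⁻¹

/-- The relator `[a_0,b_0] [a_1,b_1] ⋯ [a_{g-1},b_{g-1}]`. -/
def relator (g : ℕ) : FreeGroup (Gen g) :=
  (List.ofFn fun i : Fin g =>
    comm (FreeGroup.of (Sum.inl i : Gen g)) (FreeGroup.of (Sum.inr i : Gen g))).prod

/-- The fundamental group `π` of the closed connected orientable surface of genus `g`. -/
abbrev SurfaceGroup (g : ℕ) : Type :=
  PresentedGroup ({relator g} : Set (FreeGroup (Gen g)))

/-- The generator `a_i` of the surface group. -/
def genA {g : ℕ} (i : Fin g) : SurfaceGroup g := PresentedGroup.of (Sum.inl i)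

/-- The generator `b_i` of the surface group. -/
def genB {g : ℕ} (i : Fin g) : SurfaceGroup g := PresentedGroup.of (Sum.inr i)

/-- The character `γ ↦ tr ρ(γ)` of a representation `ρ : π → SL(2,ℂ)`. -/
def character {g : ℕ} (ρ : SurfaceGroup g →* SL(2, ℂ)) : SurfaceGroup g → ℂ :=
  fun γ => Matrix.trace (ρ γ : Matrix (Fin 2) (Fin 2) ℂ)

/-- The character variety `X = Hom(π, SL(2,ℂ)) // SL(2,ℂ)`.  Its points are the characters of
representations; its classical topology is the topology of pointwise convergence of
characters (all trace functions are polynomials in finitely many of them). -/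
abbrev CharVar (g : ℕ) : Type :=
  {χ : SurfaceGroup g → ℂ // ∃ ρ : SurfaceGroup g →* SL(2, ℂ), character ρ = χ}

/-- The point `[ρ]` of the character variety. -/
def charPoint {g : ℕ} (ρ : SurfaceGroup g →* SL(2, ℂ)) : CharVar g := ⟨character ρ, ρ, rfl⟩

theorem relator_homology (g : ℕ) : ∀ r ∈ ({relator g} : Set (FreeGroup (Gen g))),
    FreeGroup.lift (fun x : Gen g => Multiplicative.ofAdd (Pi.single x (1 : ℤ) : Gen g → ℤ)) r
      = 1 := by
  intro r hr
  rw [Set.mem_singleton_iff] at hr
  subst hr
  rw [relator, map_list_prod]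
  apply List.prod_eq_one
  intro x hx
  rw [List.mem_map] at hx
  obtain ⟨y, hy, rfl⟩ := hx
  rw [List.mem_ofFn] at hy
  obtain ⟨i, rfl⟩ := hy
  simp [comm]

/-- The class of an element of `π` in `H_1 = ℤ^{2g}`, written multiplicatively: the exponent
sums of the generators. -/
def homologyHom (g : ℕ) : SurfaceGroup g →* Multiplicative (Gen g → ℤ) :=
  PresentedGroup.toGroup (relator_homology g)

/-- The exponent sum of the generator `x` in `γ`. -/
def homologyCoord {g : ℕ} (γ : SurfaceGroup g) (x : Gen g) : ℤ :=
  Multiplicative.toAdd (homologyHom g γ) x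

/-- The algebraic intersection number of the homology classes of `γ` and `δ`. -/
def intersectionNumber {g : ℕ} (γ δ : SurfaceGroup g) : ℤ :=
  ∑ i : Fin g, (homologyCoord γ (Sum.inl i) * homologyCoord δ (Sum.inr i)
    - homologyCoord γ (Sum.inr i) * homologyCoord δ (Sum.inl i))

/-- An automorphism of `π` is orientation preserving if it preserves algebraic intersection
numbers.  (Every automorphism multiplies them by `1` or `-1`.) -/
def OrientationPreserving {g : ℕ} (φ : SurfaceGroup g ≃* SurfaceGroup g) : Prop :=
  ∀ γ δ : SurfaceGroup g, intersectionNumber (φ γ) (φ δ) = intersectionNumber γ δ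

/-- The orbit of a point of the character variety under the mapping class group: all
precompositions with orientation preserving automorphisms of `π` (inner automorphisms act
trivially on characters). -/
def modOrbit {g : ℕ} (x : CharVar g) : Set (CharVar g) :=
  {y | ∃ φ : SurfaceGroup g ≃* SurfaceGroup g, OrientationPreserving φ ∧
    ∀ γ, y.1 γ = x.1 (φ γ)}

/-- The unitary characters: characters of representations into `SU(2)`. -/
def unitaryCharacters (g : ℕ) : Set (CharVar g) :=
  {x | ∃ ρ : SurfaceGroup g →* SL(2, ℂ),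
    (∀ γ, (ρ γ : Matrix (Fin 2) (Fin 2) ℂ) ∈ Matrix.specialUnitaryGroup (Fin 2) ℂ) ∧
      charPoint ρ = x}

/-- The action of `SL(2,ℂ)` on the Riemann sphere `ℂ ∪ {∞}` by Möbius transformations. -/
noncomputable def moebius (A : SL(2, ℂ)) (z : OnePoint ℂ) : OnePoint ℂ :=
  (A : GL (Fin 2) ℂ) • z

/-- The limit set of a subgroup `Γ` of `SL(2,ℂ)`: the complement of its domain of
discontinuity in the Riemann sphere. -/
def limitSet (Γ : Subgroup SL(2, ℂ)) : Set (OnePoint ℂ) :=
  {z | ∀ U ∈ 𝓝 z, {A : SL(2, ℂ) | A ∈ Γ ∧ (moebius A '' U ∩ U).Nonempty}.Infinite}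

/-- A representation `ρ : π → SL(2,ℂ)` is quasi-Fuchsian if its composition with the projection
to `PSL(2,ℂ) = SL(2,ℂ)/{1,-1}` is injective, its image is discrete and the limit set of its
image is a Jordan curve. -/
structure IsQuasiFuchsian {g : ℕ} (ρ : SurfaceGroup g →* SL(2, ℂ)) : Prop where
  injective : ∀ γ, (ρ γ = 1 ∨ ρ γ = -1) → γ = 1
  discrete : DiscreteTopology ρ.range
  jordan : ∃ J : Circle → OnePoint ℂ, Continuous J ∧ Function.Injective J ∧
    Set.range J = limitSet ρ.range

/-- The set `𝒬` of quasi-Fuchsian characters. -/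
def quasiFuchsianCharacters (g : ℕ) : Set (CharVar g) :=
  {x | ∃ ρ : SurfaceGroup g →* SL(2, ℂ), IsQuasiFuchsian ρ ∧ charPoint ρ = x}

end Pool.Agent.H81
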