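import Mathlib

set_option autoImplicit false

open scoped Topology MatrixGroups

namespace Pool.Agent.H81

/-- The real number `ξ = ∑ 2^{-k²}`. -/
noncomputable def xiR : ℝ := ∑' k : ℕ, (1 / 2 : ℝ) ^ (k ^ 2)

/-- The real number `ζ = ∑ 2^{-(k²+k)}`. -/
noncomputable def zetaR : ℝ := ∑' k : ℕ, (1 / 2 : ℝ) ^ (k ^ 2 + k)

theorem summable_xi : Summable (fun k : ℕ => (1 / 2 : ℝ) ^ (k ^ 2)) := by
  apply Summable.of_nonneg_of_le (fun k => by positivity) (fun k => ?_) summable_geometric_two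
  apply pow_le_pow_of_le_one (by norm_num) (by norm_num)
  nlinarith [Nat.zero_le k, sq_nonneg k]

theorem summable_zeta : Summable (fun k : ℕ => (1 / 2 : ℝ) ^ (k ^ 2 + k)) := by
  apply Summable.of_nonneg_of_le (fun k => by positivity) (fun k => ?_) summable_geometric_two
  apply pow_le_pow_of_le_one (by norm_num) (by norm_num)
  nlinarith [Nat.zero_le k, sq_nonneg k]

noncomputable def delta (n : ℕ) : ℝ := 2 ^ (n ^ 2) * ∑' j : ℕ, (1 / 2 : ℝ) ^ ((j + (n + 1)) ^ 2)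
noncomputable def eta (n : ℕ) : ℝ := 2 ^ (n ^ 2) * ∑' j : ℕ, (1 / 2 : ℝ) ^ ((j + n) ^ 2 + (j + n))

theorem two_half (a : ℕ) : (2 : ℝ) ^ a * (1 / 2) ^ a = 1 := by
  rw [← mul_pow]; norm_num

theorem delta_pos (n : ℕ) : 0 < delta n := by
  unfold delta
  apply mul_pos (by positivity)
  exact ((summable_nat_add_iff (n + 1)).2 summable_xi).tsum_pos (fun j => by positivity) 0
    (by positivity)

theorem delta_le (n : ℕ) : delta n ≤ (1 / 4) ^ n := by
  have h1 : ∑' j : ℕ, (1 / 2 : ℝ) ^ ((j + (n + 1)) ^ 2)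
      ≤ ∑' j : ℕ, (1 / 2 : ℝ) ^ ((n + 1) ^ 2) * (1 / 2) ^ j := by
    apply Summable.tsum_le_tsum _ ((summable_nat_add_iff (n + 1)).2 summable_xi)
      (summable_geometric_two.mul_left _)
    intro j
    rw [← pow_add]
    apply pow_le_pow_of_le_one (by norm_num) (by norm_num)
    nlinarith [Nat.zero_le j, Nat.zero_le n, sq_nonneg j]
  rw [tsum_mul_left, tsum_geometric_two] at h1
  unfold delta
  calc (2 : ℝ) ^ (n ^ 2) * ∑' j : ℕ, (1 / 2 : ℝ) ^ ((j + (n + 1)) ^ 2)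
      ≤ 2 ^ (n ^ 2) * ((1 / 2 : ℝ) ^ ((n + 1) ^ 2) * 2) := by gcongr
    _ = (2 ^ (n ^ 2) * (1 / 2) ^ (n ^ 2)) * ((1 / 2 : ℝ) ^ (2 * n + 1) * 2) := by
        have : (n + 1) ^ 2 = n ^ 2 + (2 * n + 1) := by ring
        rw [this, pow_add]; ring
    _ = (1 / 4) ^ n := by
        rw [two_half, pow_succ, pow_mul]; norm_num; ring

theorem eta_ge (n : ℕ) : (1 / 2) ^ n ≤ eta n := by
  have hs := (summable_nat_add_iff n).2 summable_zeta
  have h1 : (1 / 2 : ℝ) ^ (n ^ 2 + n) ≤ ∑' j : ℕ, (1 / 2 : ℝ) ^ ((j + n) ^ 2 + (j + n)) := by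
    have := hs.le_tsum 0 (fun j _ => by positivity)
    simpa using this
  unfold eta
  calc (1 / 2 : ℝ) ^ n = (2 ^ (n ^ 2) * (1 / 2) ^ (n ^ 2)) * (1 / 2) ^ n := by
        rw [two_half, one_mul]
    _ = 2 ^ (n ^ 2) * (1 / 2 : ℝ) ^ (n ^ 2 + n) := by rw [pow_add]; ring
    _ ≤ _ := by gcongr

theorem eta_le (n : ℕ) : eta n ≤ 2 * (1 / 2) ^ n := by
  have hs := (summable_nat_add_iff n).2 summable_zeta
  have h1 : ∑' j : ℕ, (1 / 2 : ℝ) ^ ((j + n) ^ 2 + (j + n))
      ≤ ∑' j : ℕ, (1 / 2 : ℝ) ^ (n ^ 2 + n) * (1 / 2) ^ j := by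
    apply Summable.tsum_le_tsum _ hs (summable_geometric_two.mul_left _)
    intro j
    rw [← pow_add]
    apply pow_le_pow_of_le_one (by norm_num) (by norm_num)
    nlinarith [Nat.zero_le j, Nat.zero_le n, sq_nonneg j]
  rw [tsum_mul_left, tsum_geometric_two] at h1
  unfold eta
  calc (2 : ℝ) ^ (n ^ 2) * ∑' j : ℕ, (1 / 2 : ℝ) ^ ((j + n) ^ 2 + (j + n))
      ≤ 2 ^ (n ^ 2) * ((1 / 2 : ℝ) ^ (n ^ 2 + n) * 2) := by gcongr
    _ = (2 ^ (n ^ 2) * (1 / 2) ^ (n ^ 2)) * ((1 / 2 : ℝ) ^ n * 2) := by rw [pow_add]; ring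
    _ = 2 * (1 / 2) ^ n := by rw [two_half]; ring

theorem xi_split (n : ℕ) :
    ∃ R : ℤ, Odd R ∧ (2 : ℝ) ^ (n ^ 2) * xiR = R + delta n := by
  refine ⟨∑ k ∈ Finset.range (n + 1), 2 ^ (n ^ 2 - k ^ 2), ?_, ?_⟩
  · rw [Finset.sum_range_succ]
    have h1 : Even (∑ k ∈ Finset.range n, (2 : ℤ) ^ (n ^ 2 - k ^ 2)) := by
      apply Finset.even_sum
      intro k hk
      rw [Finset.mem_range] at hk
      apply Even.pow_of_ne_zero even_two
      have : k ^ 2 < n ^ 2 := Nat.pow_lt_pow_left hk (by norm_num)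
      omega
    simp only [le_refl, tsub_eq_zero_of_le, pow_zero]
    exact h1.add_one
  · have h := (summable_xi.sum_add_tsum_nat_add (n + 1))
    unfold xiR delta
    rw [← h, mul_add, Finset.mul_sum]
    congr 1
    push_cast
    apply Finset.sum_congr rfl
    intro k hk
    rw [Finset.mem_range] at hk
    have : k ^ 2 ≤ n ^ 2 := Nat.pow_le_pow_left (by omega) 2
    obtain ⟨c, hc⟩ := Nat.exists_eq_add_of_le this
    rw [hc, Nat.add_sub_cancel_left, pow_add]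
    rw [mul_assoc, mul_comm ((2 : ℝ) ^ c), ← mul_assoc, two_half, one_mul]

theorem zeta_split (n : ℕ) :
    ∃ t : ℤ, (2 : ℝ) ^ (n ^ 2) * zetaR = t + eta n := by
  refine ⟨∑ k ∈ Finset.range n, 2 ^ (n ^ 2 - (k ^ 2 + k)), ?_⟩
  have h := (summable_zeta.sum_add_tsum_nat_add n)
  unfold zetaR eta
  rw [← h, mul_add, Finset.mul_sum]
  congr 1
  push_cast
  apply Finset.sum_congr rfl
  intro k hk
  rw [Finset.mem_range] at hk
  have : k ^ 2 + k ≤ n ^ 2 := by nlinarith [hk]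
  obtain ⟨c, hc⟩ := Nat.exists_eq_add_of_le this
  rw [hc, Nat.add_sub_cancel_left]
  generalize hg : k ^ 2 + k = e at *
  rw [pow_add, mul_assoc, mul_comm ((2 : ℝ) ^ c), ← mul_assoc, two_half, one_mul]

/-- The second exponent `ξ + 2πiζ`. -/
noncomputable def expB : ℂ := (xiR : ℂ) + 2 * Real.pi * zetaR * Complex.I

theorem approx (L : ℂ) (ε : ℝ) (hε : 0 < ε) :
    ∃ p q r s : ℤ, p * s - q * r = 1 ∧
      (∃ a : ℤ, ‖(p : ℂ) + q * expB - L - a * (2 * Real.pi * Complex.I)‖ < ε) ∧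
      (∃ b : ℤ, ‖(r : ℂ) + s * expB - b * (2 * Real.pi * Complex.I)‖ < ε) := by
  obtain ⟨n, hn⟩ := exists_pow_lt_of_lt_one (show (0 : ℝ) < ε / 40 by positivity)
    (show (1 / 2 : ℝ) < 1 by norm_num)
  obtain ⟨R, hR, hξ⟩ := xi_split n
  obtain ⟨t, hζ⟩ := zeta_split n
  have hδ0 := delta_pos n
  have hδ1 := delta_le n
  have hη0 := eta_ge n
  have hη1 := eta_le n
  set δ := delta n
  set η := eta n
  have hpow : (0 : ℝ) < (1 / 2) ^ n := by positivity
  have hηpos : 0 < η := lt_of_lt_of_le hpow hη0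
  -- Bezout
  have hcop : IsCoprime ((2 : ℤ) ^ (n ^ 2)) R := by
    apply IsCoprime.pow_left
    rw [Int.isCoprime_iff_gcd_eq_one]
    obtain ⟨c, hc⟩ := hR
    rw [hc]
    have : IsCoprime (2 : ℤ) (2 * c + 1) := ⟨-c, 1, by ring⟩
    exact Int.isCoprime_iff_gcd_eq_one.1 this
  obtain ⟨p0, q0, hpq⟩ := hcop
  -- real data
  set x0 : ℝ := p0 + q0 * xiR with hx0
  set m0 : ℤ := ⌊(L.re - x0) / δ⌋ with hm0
  have hm1 : (m0 : ℝ) * δ ≤ L.re - x0 := by
    have := Int.floor_le ((L.re - x0) / δ)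
    rwa [le_div_iff₀ hδ0] at this
  have hm2 : L.re - x0 < (m0 + 1) * δ := by
    have := Int.lt_floor_add_one ((L.re - x0) / δ)
    rwa [div_lt_iff₀ hδ0] at this
  set θ : ℝ := q0 * zetaR + m0 * η - L.im / (2 * Real.pi) with hθ
  set a : ℤ := ⌈θ⌉ with ha
  have ha1 : θ ≤ a := Int.le_ceil θ
  have ha2 : (a : ℝ) < θ + 1 := Int.ceil_lt_add_one θ
  set j : ℤ := ⌊((a : ℝ) - θ) / η⌋ with hj
  have hj1 : (j : ℝ) * η ≤ a - θ := by
    have := Int.floor_le (((a : ℝ) - θ) / η)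
    rwa [le_div_iff₀ hηpos] at this
  have hj2 : (a : ℝ) - θ < (j + 1) * η := by
    have := Int.lt_floor_add_one (((a : ℝ) - θ) / η)
    rwa [div_lt_iff₀ hηpos] at this
  have hj0 : 0 ≤ j := Int.floor_nonneg.2 (div_nonneg (by linarith) hηpos.le)
  have hj0' : (0 : ℝ) ≤ j := by exact_mod_cast hj0
  have hjub : (j : ℝ) * (1 / 2) ^ n ≤ 1 := by nlinarith
  set m : ℤ := m0 + j with hm
  have hpi := Real.pi_pos
  have hpi4 := Real.pi_le_four
  have h4 : (1 / 4 : ℝ) ^ n = (1 / 2) ^ n * (1 / 2) ^ n := by rw [← mul_pow]; norm_num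
  have hle1 : (1 / 2 : ℝ) ^ n ≤ 1 := pow_le_one₀ (by norm_num) (by norm_num)
  have hB1 : ((j : ℝ) + 1) * δ ≤ 2 * (1 / 2) ^ n := by
    calc ((j : ℝ) + 1) * δ ≤ (j + 1) * ((1 / 2) ^ n * (1 / 2) ^ n) := by
          rw [← h4]; exact mul_le_mul_of_nonneg_left hδ1 (by linarith)
      _ = (j * (1 / 2) ^ n + (1 / 2) ^ n) * (1 / 2) ^ n := by ring
      _ ≤ (1 + 1) * (1 / 2) ^ n := by
          apply mul_le_mul_of_nonneg_right _ hpow.le
          linarith
      _ = 2 * (1 / 2) ^ n := by norm_num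
  have hB2 : 2 * Real.pi * η ≤ 16 * (1 / 2) ^ n := by
    calc 2 * Real.pi * η ≤ 2 * 4 * (2 * (1 / 2) ^ n) := by
          apply mul_le_mul _ hη1 hηpos.le (by norm_num)
          linarith
      _ = 16 * (1 / 2) ^ n := by ring
  have hB3 : δ ≤ (1 / 2) ^ n := by
    calc δ ≤ (1 / 2) ^ n * (1 / 2) ^ n := by rw [← h4]; exact hδ1
      _ ≤ (1 / 2) ^ n * 1 := mul_le_mul_of_nonneg_left hle1 hpow.le
      _ = (1 / 2) ^ n := mul_one _
  refine ⟨p0 + m * (-R), q0 + m * 2 ^ (n ^ 2), -R, 2 ^ (n ^ 2), by linear_combination hpq,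
    ⟨a + m * t, ?_⟩, ⟨t, ?_⟩⟩
  · have key : ((p0 + m * (-R) : ℤ) : ℂ) + ((q0 + m * 2 ^ (n ^ 2) : ℤ) : ℂ) * expB - L
        - ((a + m * t : ℤ) : ℂ) * (2 * Real.pi * Complex.I)
        = ((x0 + m * δ - L.re : ℝ) : ℂ) + ((2 * Real.pi * (θ + j * η - a) : ℝ) : ℂ) * Complex.I := by
      have e1 : ((2 : ℂ) ^ (n ^ 2)) * (xiR : ℂ) = R + δ := by exact_mod_cast hξ
      have e2 : ((2 : ℂ) ^ (n ^ 2)) * (zetaR : ℂ) = t + η := by exact_mod_cast hζ
      have e3 : L = (L.re : ℂ) + (L.im : ℂ) * Complex.I := (Complex.re_add_im L).symm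
      have e4 : (2 * Real.pi * (θ + j * η - a) : ℝ)
          = 2 * Real.pi * (q0 * zetaR + m * η - a) - L.im := by
        rw [hθ, hm]; push_cast; field_simp; ring
      rw [e4]
      conv_lhs => rw [e3]
      unfold expB
      rw [hx0]
      push_cast
      linear_combination (m : ℂ) * e1 + (m : ℂ) * (2 * Real.pi * Complex.I) * e2
    rw [key]
    have hre : |x0 + m * δ - L.re| ≤ (j + 1) * δ := by
      rw [hm, abs_le]
      push_cast
      constructor <;> nlinarith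
    have him : |2 * Real.pi * (θ + j * η - a)| ≤ 2 * Real.pi * η := by
      rw [abs_mul, abs_of_pos (by positivity : (0 : ℝ) < 2 * Real.pi)]
      apply mul_le_mul_of_nonneg_left _ (by positivity)
      rw [abs_le]
      constructor <;> nlinarith
    calc _ ≤ ‖((x0 + m * δ - L.re : ℝ) : ℂ)‖
          + ‖((2 * Real.pi * (θ + j * η - a) : ℝ) : ℂ) * Complex.I‖ := norm_add_le _ _
      _ = |x0 + m * δ - L.re| + |2 * Real.pi * (θ + j * η - a)| := by
          rw [norm_mul, Complex.norm_I, mul_one, Complex.norm_real, Complex.norm_real]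
          rfl
      _ ≤ (j + 1) * δ + 2 * Real.pi * η := add_le_add hre him
      _ ≤ 2 * (1 / 2) ^ n + 16 * (1 / 2) ^ n := add_le_add hB1 hB2
      _ < ε := by linarith
  · have key : ((-R : ℤ) : ℂ) + ((2 ^ (n ^ 2) : ℤ) : ℂ) * expB - (t : ℂ) * (2 * Real.pi * Complex.I)
        = ((δ : ℝ) : ℂ) + ((2 * Real.pi * η : ℝ) : ℂ) * Complex.I := by
      have e1 : ((2 : ℂ) ^ (n ^ 2)) * (xiR : ℂ) = R + δ := by exact_mod_cast hξ
      have e2 : ((2 : ℂ) ^ (n ^ 2)) * (zetaR : ℂ) = t + η := by exact_mod_cast hζ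
      unfold expB
      push_cast
      linear_combination e1 + (2 * Real.pi * Complex.I) * e2
    rw [key]
    calc _ ≤ ‖((δ : ℝ) : ℂ)‖ + ‖((2 * Real.pi * η : ℝ) : ℂ) * Complex.I‖ := norm_add_le _ _
      _ = δ + 2 * Real.pi * η := by
          rw [norm_mul, Complex.norm_I, mul_one, Complex.norm_real, Complex.norm_real,
            Real.norm_of_nonneg hδ0.le, Real.norm_of_nonneg (by positivity)]
      _ ≤ (1 / 2) ^ n + 16 * (1 / 2) ^ n := add_le_add hB3 hB2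
      _ < ε := by linarith

/-- The two eigenvalues of the example. -/
noncomputable def lamA : ℂ := Complex.exp 1
noncomputable def lamB : ℂ := Complex.exp expB

theorem lamA_ne : lamA ≠ 0 := Complex.exp_ne_zero _
theorem lamB_ne : lamB ≠ 0 := Complex.exp_ne_zero _

theorem exists_seq (w : ℂ) (hw : w ≠ 0) :
    ∃ γ : ℕ → SL(2, ℤ),
      Filter.Tendsto (fun n => lamA ^ (γ n 0 0) * lamB ^ (γ n 0 1)) Filter.atTop (𝓝 w) ∧
      Filter.Tendsto (fun n => lamA ^ (γ n 1 0) * lamB ^ (γ n 1 1)) Filter.atTop (𝓝 1) := by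
  have h := fun n : ℕ => approx (Complex.log w) (1 / (n + 1)) (by positivity)
  choose p q r s hdet ha hb using h
  choose a ha using ha
  choose b hb using hb
  refine ⟨fun n => ⟨!![p n, q n; r n, s n], by rw [Matrix.det_fin_two_of]; exact hdet n⟩, ?_, ?_⟩
  · have h1 : Filter.Tendsto (fun n => (p n : ℂ) + q n * expB
        - a n * (2 * Real.pi * Complex.I)) Filter.atTop (𝓝 (Complex.log w)) := by
      rw [tendsto_iff_norm_sub_tendsto_zero]
      apply squeeze_zero (fun n => norm_nonneg _) (fun n => ?_) tendsto_one_div_add_atTop_nhds_zero_nat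
      rw [sub_right_comm]
      exact (ha n).le
    have h2 := (Complex.continuous_exp.tendsto _).comp h1
    rw [Complex.exp_log hw] at h2
    refine h2.congr (fun n => ?_)
    simp only [Function.comp, lamA, lamB, Matrix.of_apply, Matrix.cons_val', Matrix.cons_val_zero,
      Matrix.cons_val_one]
    rw [Complex.exp_sub, Complex.exp_int_mul_two_pi_mul_I, div_one, Complex.exp_add,
      ← Complex.exp_int_mul, ← Complex.exp_int_mul, mul_one]
  · have h1 : Filter.Tendsto (fun n => (r n : ℂ) + s n * expB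
        - b n * (2 * Real.pi * Complex.I)) Filter.atTop (𝓝 0) := by
      rw [tendsto_iff_norm_sub_tendsto_zero]
      apply squeeze_zero (fun n => norm_nonneg _) (fun n => ?_) tendsto_one_div_add_atTop_nhds_zero_nat
      have := (hb n).le
      simpa using this
    have h2 := (Complex.continuous_exp.tendsto _).comp h1
    rw [Complex.exp_zero] at h2
    refine h2.congr (fun n => ?_)
    simp only [Function.comp, lamA, lamB, Matrix.of_apply, Matrix.cons_val', Matrix.cons_val_zero,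
      Matrix.cons_val_one]
    rw [Complex.exp_sub, Complex.exp_int_mul_two_pi_mul_I, div_one, Complex.exp_add,
      ← Complex.exp_int_mul, ← Complex.exp_int_mul, mul_one]

end Pool.Agent.H81
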