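import Pool.Agent.H81.Moves2
import Pool.Agent.H81.NumTh

set_option autoImplicit false
set_option linter.unusedSimpArgs false

open scoped MatrixGroups Topology

namespace Pool.Agent.H81

variable {m : ℕ}

/-- The diagonal torus. -/
noncomputable def Dh : ℂˣ →* SL(2, ℂ) where
  toFun w := ⟨!![(w : ℂ), 0; 0, (w : ℂ)⁻¹], by simp [Matrix.det_fin_two]⟩
  map_one' := by
    apply Subtype.ext
    simp [Matrix.one_fin_two]
  map_mul' u v := by
    apply Subtype.ext
    show _ = (!![(u : ℂ), 0; 0, (u : ℂ)⁻¹] : Matrix (Fin 2) (Fin 2) ℂ) *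
      !![(v : ℂ), 0; 0, (v : ℂ)⁻¹]
    rw [Matrix.mul_fin_two]
    simp [mul_comm]

theorem Dh_coe (w : ℂˣ) : (Dh w : Matrix (Fin 2) (Fin 2) ℂ) = !![(w : ℂ), 0; 0, (w : ℂ)⁻¹] := rfl

/-- The second torus `{(C,S;S,C)}`, `C = (w+w⁻¹)/2`, `S = (w-w⁻¹)/2`. -/
noncomputable def Rm (w : ℂˣ) : SL(2, ℂ) :=
  ⟨!![((w : ℂ) + (w : ℂ)⁻¹) / 2, ((w : ℂ) - (w : ℂ)⁻¹) / 2;
      ((w : ℂ) - (w : ℂ)⁻¹) / 2, ((w : ℂ) + (w : ℂ)⁻¹) / 2], by
    rw [Matrix.det_fin_two_of]
    field_simp
    ring⟩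

/-- The conjugating matrix. -/
noncomputable def k0 : SL(2, ℂ) := ⟨!![1, -1 / 2; 1, 1 / 2], by
  rw [Matrix.det_fin_two_of]; norm_num⟩

theorem k0_coe : (k0 : Matrix (Fin 2) (Fin 2) ℂ) = !![1, -1 / 2; 1, 1 / 2] := rfl

theorem Rm_coe (w : ℂˣ) : (Rm w : Matrix (Fin 2) (Fin 2) ℂ) =
    !![((w : ℂ) + (w : ℂ)⁻¹) / 2, ((w : ℂ) - (w : ℂ)⁻¹) / 2;
      ((w : ℂ) - (w : ℂ)⁻¹) / 2, ((w : ℂ) + (w : ℂ)⁻¹) / 2] := rfl

theorem Rm_eq (w : ℂˣ) : k0 * Dh w * k0⁻¹ = Rm w := by
  apply Subtype.ext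
  rw [Rm_coe, Matrix.SpecialLinearGroup.coe_mul, Matrix.SpecialLinearGroup.coe_mul,
    Matrix.SpecialLinearGroup.coe_inv, k0_coe, Dh_coe, Matrix.adjugate_fin_two_of,
    Matrix.mul_fin_two, Matrix.mul_fin_two]
  congr 1
  ext i j
  fin_cases i <;> fin_cases j <;> simp <;> ring

theorem continuous_Dh : Continuous Dh := by
  refine continuous_induced_rng.2 ?_
  refine continuous_matrix fun i j => ?_
  fin_cases i <;> fin_cases j
  · exact Units.continuous_val
  · exact continuous_const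
  · exact continuous_const
  · show Continuous fun w : ℂˣ => (w : ℂ)⁻¹
    simp_rw [← Units.val_inv_eq_inv_val]
    exact Units.continuous_val.comp continuous_inv

noncomputable def uA : ℂˣ := Units.mk0 lamA lamA_ne
noncomputable def uB : ℂˣ := Units.mk0 lamB lamB_ne

theorem exists_seq_units (w : ℂˣ) :
    ∃ γ : ℕ → SL(2, ℤ),
      Filter.Tendsto (fun n => uA ^ (γ n 0 0) * uB ^ (γ n 0 1)) Filter.atTop (𝓝 w) ∧
      Filter.Tendsto (fun n => uA ^ (γ n 1 0) * uB ^ (γ n 1 1)) Filter.atTop (𝓝 1) := by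
  obtain ⟨γ, h1, h2⟩ := exists_seq w w.ne_zero
  refine ⟨γ, ?_, ?_⟩
  · rw [Units.isEmbedding_val₀.tendsto_nhds_iff]
    refine h1.congr (fun n => ?_)
    simp [uA, uB]
  · rw [Units.isEmbedding_val₀.tendsto_nhds_iff]
    simp only [Units.val_one]
    refine h2.congr (fun n => ?_)
    simp [uA, uB]

/-- The basic commuting pair. -/
noncomputable def pA : CP := ⟨(Dh uA, Dh uB), by
  show Dh uA * Dh uB = Dh uB * Dh uA
  rw [← map_mul, ← map_mul, mul_comm]⟩

theorem actCP_pA_fst (γ : SL(2, ℤ)) :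
    (actCP γ pA).1.1 = Dh (uA ^ (γ 0 0) * uB ^ (γ 0 1)) := by
  simp [actCP, pA]

theorem actCP_pA_snd (γ : SL(2, ℤ)) :
    (actCP γ pA).1.2 = Dh (uA ^ (γ 1 0) * uB ^ (γ 1 1)) := by
  simp [actCP, pA]

theorem actCP_conj (γ : SL(2, ℤ)) (k : SL(2, ℂ)) (p : CP) :
    actCP γ (conjCP k p) = conjCP k (actCP γ p) := by
  apply Subtype.ext
  simp only [actCP, conjCP, Prod.mk.injEq]
  have h : ∀ (x : SL(2, ℂ)) (n : ℤ), (k * x * k⁻¹) ^ n = k * x ^ n * k⁻¹ := by
    intro x n
    have := map_zpow (MulAut.conj k) x n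
    simpa only [MulAut.conj_apply] using this.symm
  constructor
  · rw [h, h]; group
  · rw [h, h]; group

theorem TT.update_tendsto {P : Fin (m + 2) → CP} {Q : Fin (m + 2) → CP} (i : Fin (m + 2))
    (v : ℕ → CP) (v' : CP) (h : ∀ n, TT P (Function.update Q i (v n)))
    (hv : Filter.Tendsto v Filter.atTop (𝓝 v')) : TT P (Function.update Q i v') := by
  have hc : Continuous fun x : CP => Function.update Q i x :=
    Continuous.update (f := fun _ : CP => Q) continuous_const i continuous_id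
  exact TT.of_tendsto (l := Filter.atTop) (fun n => Function.update Q i (v n)) _ h
    ((hc.tendsto v').comp hv)

/-- A generic handle can be made into any element of its torus paired with `1`. -/
theorem TT.dense (P : Fin (m + 2) → CP) (i : Fin (m + 2)) (k : SL(2, ℂ))
    (hP : P i = conjCP k pA) (w : ℂˣ) :
    TT P (Function.update P i (sngl (k * Dh w * k⁻¹))) := by
  obtain ⟨γ, h1, h2⟩ := exists_seq_units w
  apply TT.update_tendsto i (fun n => actCP (γ n) (P i))
  · intro n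
    exact TT.act P i (γ n)
  · rw [tendsto_subtype_rng, nhds_prod_eq]
    apply Filter.Tendsto.prodMk
    · have : (fun n => (actCP (γ n) (P i)).1.1) = fun n =>
          k * Dh (uA ^ (γ n 0 0) * uB ^ (γ n 0 1)) * k⁻¹ := by
        funext n
        rw [hP, actCP_conj]
        simp only [conjCP]
        rw [actCP_pA_fst]
      show Filter.Tendsto (fun n => (actCP (γ n) (P i)).1.1) _ _
      rw [this]
      have hc : Continuous fun u : ℂˣ => k * Dh u * k⁻¹ :=
        (continuous_const.mul continuous_Dh).mul continuous_const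
      exact (hc.tendsto w).comp h1
    · have : (fun n => (actCP (γ n) (P i)).1.2) = fun n =>
          k * Dh (uA ^ (γ n 1 0) * uB ^ (γ n 1 1)) * k⁻¹ := by
        funext n
        rw [hP, actCP_conj]
        simp only [conjCP]
        rw [actCP_pA_snd]
      show Filter.Tendsto (fun n => (actCP (γ n) (P i)).1.2) _ _
      rw [this]
      have hc : Continuous fun u : ℂˣ => k * Dh u * k⁻¹ :=
        (continuous_const.mul continuous_Dh).mul continuous_const
      have h3 := (hc.tendsto 1).comp h2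
      have h4 : k * Dh 1 * k⁻¹ = (sngl (k * Dh w * k⁻¹)).1.2 := by
        rw [map_one]
        show k * 1 * k⁻¹ = 1
        group
      rw [h4] at h3
      exact h3

theorem tendsto_sngl {ι : Type*} {l : Filter ι} {x : ι → SL(2, ℂ)} {y : SL(2, ℂ)}
    (h : Filter.Tendsto x l (𝓝 y)) : Filter.Tendsto (fun n => sngl (x n)) l (𝓝 (sngl y)) := by
  rw [tendsto_subtype_rng, nhds_prod_eq]
  exact h.prodMk tendsto_const_nhds

/-- A handle with trivial second entry can be multiplied on the left by the torus of a generic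
handle. -/
theorem TT.mul_dense (P : Fin (m + 2) → CP) {i j : Fin (m + 2)} (hij : i ≠ j) (k x : SL(2, ℂ))
    (hP : P i = conjCP k pA) (hPj : P j = sngl x) (w : ℂˣ) :
    TT P (Function.update P j (sngl (k * Dh w * k⁻¹ * x))) := by
  obtain ⟨γ, h1, -⟩ := exists_seq_units w
  apply TT.update_tendsto j (fun n => sngl ((actCP (ModularGroup.S * γ n) (P i)).1.2 * x))
  · intro n
    exact TT.mul_act P hij x hPj _
  · apply tendsto_sngl
    have : (fun n => (actCP (ModularGroup.S * γ n) (P i)).1.2 * x) = fun n =>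
        k * Dh (uA ^ (γ n 0 0) * uB ^ (γ n 0 1)) * k⁻¹ * x := by
      funext n
      rw [hP, actCP_mul, actCP_conj, actCP_conj]
      simp only [conjCP]
      rw [show (actCP ModularGroup.S (actCP (γ n) pA)).1.2 = (actCP (γ n) pA).1.1 by
        simp [actCP, ModularGroup.coe_S]]
      rw [actCP_pA_fst]
    rw [this]
    have hc : Continuous fun u : ℂˣ => k * Dh u * k⁻¹ * x :=
      ((continuous_const.mul continuous_Dh).mul continuous_const).mul continuous_const
    exact (hc.tendsto w).comp h1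

/-! ### Matrices with nonzero entries -/

/-- The double coset `T₁ T₂ T₁`. -/
def TRT : Set SL(2, ℂ) := {g | ∃ u w v : ℂˣ, g = Dh u * Rm w * Dh v}

theorem mem_TRT_of_ne {g : SL(2, ℂ)} (ha : g 0 0 ≠ 0) (hb : g 0 1 ≠ 0) (hc : g 1 0 ≠ 0)
    (hd : g 1 1 ≠ 0) : g ∈ TRT := by
  obtain ⟨C, hC⟩ := IsAlgClosed.exists_pow_nat_eq (g 0 0 * g 1 1) (n := 2) (by norm_num)
  obtain ⟨S, hS⟩ := IsAlgClosed.exists_pow_nat_eq (g 0 1 * g 1 0) (n := 2) (by norm_num)
  have hdet : g 0 0 * g 1 1 - g 0 1 * g 1 0 = 1 := by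
    have := g.2; rwa [Matrix.det_fin_two] at this
  have hC0 : C ≠ 0 := by
    intro h; rw [h] at hC; simp at hC; tauto
  have hS0 : S ≠ 0 := by
    intro h; rw [h] at hS; simp at hS; tauto
  have hCS : (C + S) * (C - S) = 1 := by
    have : C ^ 2 - S ^ 2 = 1 := by rw [hC, hS, hdet]
    linear_combination this
  obtain ⟨l, hl⟩ := IsAlgClosed.exists_pow_nat_eq (g 0 0 * g 0 1 / (C * S)) (n := 2) (by norm_num)
  have hl0 : l ≠ 0 := by
    intro h; rw [h] at hl
    have : g 0 0 * g 0 1 / (C * S) ≠ 0 := div_ne_zero (mul_ne_zero ha hb) (mul_ne_zero hC0 hS0)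
    apply this; rw [← hl]; norm_num
  have hw0 : C + S ≠ 0 := by intro h; rw [h] at hCS; simp at hCS
  have hwinv : (C + S)⁻¹ = C - S := by
    field_simp; linear_combination -hCS
  have hmu : g 0 0 / (C * l) ≠ 0 := div_ne_zero ha (mul_ne_zero hC0 hl0)
  refine ⟨Units.mk0 l hl0, Units.mk0 (C + S) hw0, Units.mk0 (g 0 0 / (C * l)) hmu, ?_⟩
  have hl' : l ^ 2 * (C * S) = g 0 0 * g 0 1 := by rw [hl]; field_simp
  apply Subtype.ext
  rw [Matrix.SpecialLinearGroup.coe_mul, Matrix.SpecialLinearGroup.coe_mul, Dh_coe, Dh_coe,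
    Rm_coe, Matrix.mul_fin_two, Matrix.mul_fin_two]
  simp only [Units.val_mk0, hwinv]
  rw [Matrix.eta_fin_two (g : Matrix (Fin 2) (Fin 2) ℂ)]
  ext i j
  fin_cases i <;> fin_cases j
  · simp
    field_simp
  · simp
    field_simp
    linear_combination (-1 : ℂ) * hl'
  · simp
    field_simp
    have : g 0 1 * (g 1 0 * C * l ^ 2) = g 0 1 * (S * g 0 0) := by
      linear_combination (S : ℂ) * hl' - (C * l ^ 2) * hS
    have h2 := mul_left_cancel₀ hb this
    linear_combination h2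
  · simp
    field_simp
    linear_combination (-1 : ℂ) * hC

end Pool.Agent.H81
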