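import Pool.Agent.H81.Dense

set_option autoImplicit false
set_option linter.unusedSimpArgs false

open scoped MatrixGroups Topology

namespace Pool.Agent.H81

variable {m : ℕ}

theorem continuous_sngl : Continuous sngl := by
  refine Continuous.subtype_mk ?_ _
  exact continuous_id.prodMk continuous_const

theorem TRT_dense : Dense TRT := by
  -- the matrices `g * k_t` with `t → 0`
  intro g
  have hkt : ∀ t : ℂ, Matrix.det !![(1 : ℂ), t; t, 1 + t ^ 2] = 1 := by
    intro t; rw [Matrix.det_fin_two_of]; ring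
  set kt : ℂ → SL(2, ℂ) := fun t => ⟨!![(1 : ℂ), t; t, 1 + t ^ 2], hkt t⟩ with hktd
  have hc : Continuous kt := by
    refine continuous_induced_rng.2 ?_
    refine continuous_matrix fun i j => ?_
    fin_cases i <;> fin_cases j
    · exact continuous_const
    · exact continuous_id
    · exact continuous_id
    · exact continuous_const.add (continuous_id.pow 2)
  have hk0 : kt 0 = 1 := by
    apply Subtype.ext
    simp [hktd, Matrix.one_fin_two]
  have hlim : Filter.Tendsto (fun t => g * kt t) (𝓝[≠] 0) (𝓝 g) := by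
    have : Filter.Tendsto (fun t => g * kt t) (𝓝 0) (𝓝 (g * kt 0)) :=
      ((continuous_const.mul hc).tendsto 0)
    rw [hk0, mul_one] at this
    exact this.mono_left nhdsWithin_le_nhds
  have hdet : g 0 0 * g 1 1 - g 0 1 * g 1 0 = 1 := by
    have := g.2; rwa [Matrix.det_fin_two] at this
  have hent : ∀ t, ((g * kt t) 0 0 = g 0 0 + t * g 0 1) ∧
      ((g * kt t) 0 1 = t * g 0 0 + (1 + t ^ 2) * g 0 1) ∧
      ((g * kt t) 1 0 = g 1 0 + t * g 1 1) ∧
      ((g * kt t) 1 1 = t * g 1 0 + (1 + t ^ 2) * g 1 1) := by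
    intro t
    have : ((g * kt t : SL(2, ℂ)) : Matrix (Fin 2) (Fin 2) ℂ)
        = (g : Matrix (Fin 2) (Fin 2) ℂ) * !![(1 : ℂ), t; t, 1 + t ^ 2] := rfl
    rw [this]
    simp only [Matrix.mul_apply, Fin.sum_univ_two]
    refine ⟨?_, ?_, ?_, ?_⟩ <;> simp <;> ring
  -- nonvanishing of a polynomial near zero
  have key : ∀ p q : ℂ, (p ≠ 0 ∨ q ≠ 0) → (∀ᶠ t in 𝓝[≠] (0 : ℂ), p + t * q ≠ 0) ∧
      (∀ᶠ t in 𝓝[≠] (0 : ℂ), t * p + (1 + t ^ 2) * q ≠ 0) := by
    intro p q hpq
    have hgen : ∀ f : ℂ → ℂ, Continuous f → f 0 ≠ 0 → ∀ᶠ t in 𝓝[≠] (0 : ℂ), f t ≠ 0 := by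
      intro f hf h0
      exact ((hf.tendsto 0).mono_left nhdsWithin_le_nhds).eventually_ne h0
    have hne : ∀ᶠ t in 𝓝[≠] (0 : ℂ), t ≠ 0 := eventually_mem_nhdsWithin
    constructor
    · by_cases hp : p = 0
      · have hq : q ≠ 0 := by tauto
        filter_upwards [hne] with t ht
        rw [hp]; simp [ht, hq]
      · apply hgen (fun t => p + t * q) (by fun_prop); simpa using hp
    · by_cases hq : q = 0
      · have hp : p ≠ 0 := by tauto
        filter_upwards [hne] with t ht
        rw [hq]; simp [ht, hp]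
      · apply hgen (fun t => t * p + (1 + t ^ 2) * q) (by fun_prop); simpa using hq
  have r0 : g 0 0 ≠ 0 ∨ g 0 1 ≠ 0 := by
    by_contra h; push Not at h; rw [h.1, h.2] at hdet; simp at hdet
  have r1 : g 1 0 ≠ 0 ∨ g 1 1 ≠ 0 := by
    by_contra h; push Not at h; rw [h.1, h.2] at hdet; simp at hdet
  refine mem_closure_of_tendsto hlim ?_
  filter_upwards [(key _ _ r0).1, (key _ _ r0).2, (key _ _ r1).1, (key _ _ r1).2] with t h1 h2 h3 h4
  obtain ⟨e1, e2, e3, e4⟩ := hent t
  exact mem_TRT_of_ne (by rwa [e1]) (by rwa [e2]) (by rwa [e3]) (by rwa [e4])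

theorem conjCP_one (p : CP) : conjCP 1 p = p := by
  apply Subtype.ext
  simp [conjCP]

theorem conjCP_sngl (k x : SL(2, ℂ)) : conjCP k (sngl x) = sngl (k * x * k⁻¹) := by
  apply Subtype.ext
  simp [conjCP, sngl]

theorem conjCP_Dh_pA (v : ℂˣ) : conjCP (Dh v) pA = pA := by
  apply Subtype.ext
  simp only [conjCP, pA, ← map_inv, ← map_mul, mul_comm v, mul_assoc, mul_inv_cancel,
    inv_mul_cancel, mul_one]

/-- Setting all handles `≥ 2`. -/
theorem TT.set_one (P : Fin (m + 2) → CP) (h0 : P 0 = pA) (h1 : P 1 = conjCP k0 pA)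
    (j : Fin m) (x : SL(2, ℂ)) (hj : P j.succ.succ = sngl x) (y : SL(2, ℂ)) :
    TT P (Function.update P j.succ.succ (sngl y)) := by
  have hj0 : (0 : Fin (m + 2)) ≠ j.succ.succ := by simp [Fin.ext_iff]
  have hj1 : (1 : Fin (m + 2)) ≠ j.succ.succ := by simp [Fin.ext_iff]
  -- the set of good multipliers
  set M : Set SL(2, ℂ) := {g | ∀ x', TT (Function.update P j.succ.succ (sngl x'))
    (Function.update P j.succ.succ (sngl (g * x')))} with hM
  have hmul : ∀ a ∈ M, ∀ b ∈ M, a * b ∈ M := by
    intro a ha b hb x'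
    have := (hb x').trans (ha (b * x'))
    rwa [← mul_assoc] at this
  have hD : ∀ w, Dh w ∈ M := by
    intro w x'
    have := TT.mul_dense (Function.update P j.succ.succ (sngl x')) hj0 1 x'
      (by rw [Function.update_of_ne hj0, h0, conjCP_one]) (by rw [Function.update_self]) w
    simpa using this
  have hR : ∀ w, Rm w ∈ M := by
    intro w x'
    have := TT.mul_dense (Function.update P j.succ.succ (sngl x')) hj1 k0 x'
      (by rw [Function.update_of_ne hj1, h1]) (by rw [Function.update_self]) w
    rw [Rm_eq] at this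
    simpa using this
  have hTRT : TRT ⊆ M := by
    rintro _ ⟨u, w, v, rfl⟩
    exact hmul _ (hmul _ (hD u) _ (hR w)) _ (hD v)
  have hcl : IsClosed M := by
    rw [hM]
    simp only [Set.ofPred_forall]
    refine isClosed_iInter fun x' => ?_
    have hc : Continuous fun g : SL(2, ℂ) => Function.update P j.succ.succ (sngl (g * x')) :=
      Continuous.update (f := fun _ => P) continuous_const _
        (continuous_sngl.comp (continuous_id.mul continuous_const))
    exact (TT.isClosed (Function.update P j.succ.succ (sngl x'))).preimage hc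
  have huniv : M = Set.univ := by
    have := hcl.closure_subset_iff.2 hTRT
    rw [TRT_dense.closure_eq] at this
    exact Set.univ_subset_iff.1 this
  have hy : y * x⁻¹ ∈ M := by rw [huniv]; trivial
  have := hy x
  rw [← hj, Function.update_eq_self] at this
  simpa using this

theorem TT.set_all (x y : Fin m → SL(2, ℂ)) :
    TT (c2 pA (conjCP k0 pA) (fun j => sngl (x j))) (c2 pA (conjCP k0 pA) (fun j => sngl (y j))) := by
  -- by induction on the set of changed indices
  have key : ∀ s : Finset (Fin m), TT (c2 pA (conjCP k0 pA) (fun j => sngl (x j)))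
      (c2 pA (conjCP k0 pA) (fun j => sngl (if j ∈ s then y j else x j))) := by
    intro s
    induction s using Finset.induction_on with
    | empty => simpa using TT.refl _
    | insert a s ha ih =>
      refine ih.trans ?_
      have := TT.set_one (c2 pA (conjCP k0 pA) (fun j => sngl (if j ∈ s then y j else x j)))
        rfl rfl a (if a ∈ s then y a else x a) (by simp) (y a)
      convert this using 1
      funext i
      revert i
      apply forall_fin2
      · rw [Function.update_of_ne (by simp [Fin.ext_iff])]; rfl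
      · rw [Function.update_of_ne (by simp [Fin.ext_iff])]; rfl
      · intro i
        by_cases hi : i = a
        · subst hi; simp
        · rw [Function.update_of_ne (by simpa [Fin.ext_iff] using hi)]
          simp [hi]
  have := key Finset.univ
  simpa using this

/-- The initial tuple. -/
noncomputable def P0 (m : ℕ) : Fin (m + 2) → CP := c2 pA (conjCP k0 pA) (fun _ => sngl 1)

theorem TT.step3 (g : SL(2, ℂ)) (y : Fin m → SL(2, ℂ)) :
    TT (P0 m) (c2 pA (sngl g) (fun j => sngl (y j))) := by
  have h01 : (0 : Fin (m + 2)) ≠ 1 := by simp [Fin.ext_iff]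
  have hs1 : ∀ i : Fin m, i.succ.succ ≠ (1 : Fin (m + 2)) := by
    intro i; simp [Fin.ext_iff]
  have hup : ∀ (f : Fin m → CP) (a b c : CP), Function.update (c2 a b f) 1 c = c2 a c f := by
    intro f a b c
    funext i
    revert i
    apply forall_fin2
    · rw [Function.update_of_ne h01]; rfl
    · rw [Function.update_self]; rfl
    · intro i; rw [Function.update_of_ne (hs1 i)]; rfl
  -- the set of good `g` is closed and contains `TRT`
  set M : Set SL(2, ℂ) := {g | TT (P0 m) (c2 pA (sngl g) (fun j => sngl (y j)))} with hM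
  have hcl : IsClosed M := by
    have hc : Continuous fun g : SL(2, ℂ) => c2 pA (sngl g) (fun j : Fin m => sngl (y j)) := by
      apply continuous_pi
      apply forall_fin2
      · exact continuous_const
      · exact continuous_sngl
      · intro i; exact continuous_const
    exact (TT.isClosed (P0 m)).preimage hc
  have hTRT : TRT ⊆ M := by
    rintro _ ⟨u, w, v, rfl⟩
    have e1 : TT (P0 m) (c2 pA (conjCP k0 pA) (fun j => sngl (Dh v * y j * (Dh v)⁻¹))) :=
      TT.set_all _ _
    have e2 := TT.dense (c2 pA (conjCP k0 pA) (fun j => sngl (Dh v * y j * (Dh v)⁻¹))) 1 k0 rfl w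
    rw [hup, Rm_eq] at e2
    have e3 := TT.mul_dense (c2 pA (sngl (Rm w)) (fun j => sngl (Dh v * y j * (Dh v)⁻¹))) h01 1
      (Rm w) (by rw [conjCP_one]; rfl) rfl (v * u)
    rw [hup] at e3
    have e4 := TT.conj (c2 pA (sngl (1 * Dh (v * u) * 1⁻¹ * Rm w))
      (fun j => sngl (Dh v * y j * (Dh v)⁻¹))) (Dh v)⁻¹
    have e5 := ((e1.trans e2).trans e3).trans e4
    show TT _ _
    convert e5 using 1
    funext i
    revert i
    apply forall_fin2
    · simp only [c2_zero]
      rw [← map_inv, conjCP_Dh_pA]
    · simp only [c2_one, conjCP_sngl]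
      congr 1
      simp only [one_mul, inv_one, mul_one, inv_inv, map_mul]
      group
    · intro i
      simp only [c2_succ, conjCP_sngl]
      congr 1
      group
  have huniv : M = Set.univ := by
    have := hcl.closure_subset_iff.2 hTRT
    rw [TRT_dense.closure_eq] at this
    exact Set.univ_subset_iff.1 this
  have hy : g ∈ M := by rw [huniv]; trivial
  exact hy

/-- Every tuple of elements whose first element is diagonalizable is reachable. -/
theorem TT.all (q : SL(2, ℂ)) (w : ℂˣ) (s : Fin (m + 2) → SL(2, ℂ)) (hs : s 0 = q * Dh w * q⁻¹) :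
    TT (P0 m) (fun i => sngl (s i)) := by
  have h1 := TT.step3 (q⁻¹ * s 1 * q) (fun j : Fin m => q⁻¹ * s j.succ.succ * q)
  have h2 := TT.dense (c2 pA (sngl (q⁻¹ * s 1 * q)) (fun j : Fin m => sngl (q⁻¹ * s j.succ.succ * q)))
    0 1 (by rw [conjCP_one]; rfl) w
  have h3 := TT.conj (Function.update (c2 pA (sngl (q⁻¹ * s 1 * q))
    (fun j : Fin m => sngl (q⁻¹ * s j.succ.succ * q))) 0 (sngl (1 * Dh w * 1⁻¹))) q
  have h4 := (h1.trans h2).trans h3
  convert h4 using 1
  funext i
  revert i
  apply forall_fin2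
  · rw [Function.update_self, conjCP_sngl, hs]
    congr 1
    group
  · rw [Function.update_of_ne (by simp [Fin.ext_iff])]
    simp only [c2_one, conjCP_sngl]
    congr 1
    group
  · intro i
    rw [Function.update_of_ne (by simp [Fin.ext_iff])]
    simp only [c2_succ, conjCP_sngl]
    congr 1
    group

end Pool.Agent.H81
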