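import Pool.Agent.H81.Ident

/-!
# Assembly
-/

set_option autoImplicit false
set_option linter.unusedSimpArgs false

open scoped MatrixGroups Topology ComplexConjugate

namespace Pool.Agent.H81

variable {g m : ℕ}

theorem continuousAt_Am (hg : 2 ≤ g) (i j : ℕ) :
    ContinuousAt (fun β : ℂ => Am g β i j) (mu g : ℂ) := by
  have h1 := one_lt_mu hg
  have hne : (mu g : ℂ) * (mu g : ℂ) - 1 ≠ 0 := by
    have : mu g * mu g - 1 ≠ 0 := by nlinarith
    exact_mod_cast this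
  have hE : ∀ i, Continuous fun β : ℂ => Ep g β i := by
    intro i
    apply continuous_matrix
    intro a b
    fin_cases a <;> fin_cases b
    · exact continuous_const
    · exact continuous_const
    · exact continuous_id.mul continuous_const
    · exact continuous_const
  have hprod : Continuous fun β : ℂ => Ep g β i * (Ep g β j).adjugate :=
    (hE i).mul (hE j).matrix_adjugate
  have hinv : ContinuousAt (fun β : ℂ => ((mu g : ℂ) * β - 1)⁻¹) (mu g : ℂ) := by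
    apply ContinuousAt.inv₀
    · fun_prop
    · exact hne
  exact hinv.smul hprod.continuousAt

/-- The parameter as a function of the half trace. -/
noncomputable def bet (g : ℕ) (x : ℂ) : ℂ :=
  (1 + x) / (mu g * (x + (Real.cos (2 * phi g) : ℂ)))

theorem cos2_lt (hg : 2 ≤ g) : Real.cos (2 * phi g) < 1 := by
  have h1 := cos_phi_ge hg
  have h2 := cos_phi_lt hg
  rw [Real.cos_two_mul]
  nlinarith

theorem cos2_gt (hg : 2 ≤ g) : -1 < Real.cos (2 * phi g) := by
  have h1 := cos_phi_ge hg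
  rw [Real.cos_two_mul]
  nlinarith

theorem bet_mul (hg : 2 ≤ g) {x : ℂ} (hx : x + (Real.cos (2 * phi g) : ℂ) ≠ 0) :
    (mu g : ℂ) * bet g x - 1 = (1 - (Real.cos (2 * phi g) : ℂ)) / (x + (Real.cos (2 * phi g) : ℂ)) := by
  have hmu : (mu g : ℂ) ≠ 0 := by
    have := one_lt_mu hg
    have : mu g ≠ 0 := by linarith
    exact_mod_cast this
  unfold bet
  field_simp
  ring

theorem bet_ne (hg : 2 ≤ g) {x : ℂ} (hx : x + (Real.cos (2 * phi g) : ℂ) ≠ 0) :
    (mu g : ℂ) * bet g x - 1 ≠ 0 := by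
  rw [bet_mul hg hx]
  apply div_ne_zero _ hx
  have h := cos2_lt hg
  have : 1 - Real.cos (2 * phi g) ≠ 0 := by linarith
  exact_mod_cast this

theorem bet_trace (hg : 2 ≤ g) {x : ℂ} (hx : x + (Real.cos (2 * phi g) : ℂ) ≠ 0) :
    ((mu g : ℂ) * bet g x - 1)⁻¹ * (1 - (mu g : ℂ) * bet g x * (Real.cos (2 * phi g) : ℂ)) = x := by
  have h := cos2_lt hg
  have h1 : (1 - (Real.cos (2 * phi g) : ℂ)) ≠ 0 := by
    have : 1 - Real.cos (2 * phi g) ≠ 0 := by linarith
    exact_mod_cast this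
  have h2 := bet_mul hg hx
  have h3 : (mu g : ℂ) * bet g x
      = 1 + (1 - (Real.cos (2 * phi g) : ℂ)) / (x + (Real.cos (2 * phi g) : ℂ)) := by
    rw [← h2]; ring
  rw [h2, h3]
  field_simp
  ring

theorem bet_tendsto (hg : 2 ≤ g) {x : ℕ → ℂ} (hx : Filter.Tendsto x Filter.atTop (𝓝 1)) :
    Filter.Tendsto (fun n => bet g (x n)) Filter.atTop (𝓝 (mu g : ℂ)) := by
  have h1 := one_lt_mu hg
  have h2 := mu_mul hg
  have hmu : (mu g : ℂ) ≠ 0 := by
    have : mu g ≠ 0 := by linarith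
    exact_mod_cast this
  have h3 := cos2_gt hg
  have h4 : (1 : ℂ) + (Real.cos (2 * phi g) : ℂ) ≠ 0 := by
    have : 1 + Real.cos (2 * phi g) ≠ 0 := by linarith
    exact_mod_cast this
  have h5 : (1 + 1 : ℂ) / ((mu g : ℂ) * (1 + (Real.cos (2 * phi g) : ℂ))) = mu g := by
    rw [div_eq_iff (mul_ne_zero hmu h4)]
    have : (1 + 1 : ℝ) = mu g * (mu g * (1 + Real.cos (2 * phi g))) := by
      rw [Real.cos_two_mul]
      linear_combination (-2 * (mu g * Real.cos (phi g) + 1)) * h2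
    exact_mod_cast this
  rw [← h5]
  exact (tendsto_const_nhds.add hx).div (tendsto_const_nhds.mul (hx.add tendsto_const_nhds))
    (mul_ne_zero hmu h4)

theorem reach_q (m : ℕ) : Reach (repOf (P0 m)) (qRep (m + 2) (by omega)) := by
  have hg : 2 ≤ m + 2 := by omega
  set κ := kap (m + 2) with hκ
  -- good indices
  have hx := cos_thn_tendsto κ
  have h4 : (1 : ℂ) + (Real.cos (2 * phi (m + 2)) : ℂ) ≠ 0 := by
    have h3 := cos2_gt hg
    have : 1 + Real.cos (2 * phi (m + 2)) ≠ 0 := by linarith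
    exact_mod_cast this
  have e1 : ∀ᶠ n in Filter.atTop,
      Complex.cos (thn κ n) + (Real.cos (2 * phi (m + 2)) : ℂ) ≠ 0 :=
    (hx.add tendsto_const_nhds).eventually_ne h4
  have e2 : ∀ᶠ n in Filter.atTop, (1 : ℂ) + Complex.cos (thn κ n) ≠ 0 :=
    (tendsto_const_nhds.add hx).eventually_ne (by norm_num)
  obtain ⟨n0, hn0⟩ := Filter.eventually_atTop.1 ((e1.and e2).and (sin_thn_ne κ))
  have q1 : ∀ n, Complex.cos (thn κ (n + n0)) + (Real.cos (2 * phi (m + 2)) : ℂ) ≠ 0 :=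
    fun n => (hn0 (n + n0) (by omega)).1.1
  have q2 : ∀ n, (1 : ℂ) + Complex.cos (thn κ (n + n0)) ≠ 0 :=
    fun n => (hn0 (n + n0) (by omega)).1.2
  have q3 : ∀ n, Complex.sin (thn κ (n + n0)) ≠ 0 :=
    fun n => (hn0 (n + n0) (by omega)).2
  have hmu : (mu (m + 2) : ℂ) ≠ 0 := by
    have := one_lt_mu hg
    have : mu (m + 2) ≠ 0 := by linarith
    exact_mod_cast this
  set β : ℕ → ℂ := fun n => bet (m + 2) (Complex.cos (thn κ (n + n0))) with hβd
  have hβ : ∀ n, (mu (m + 2) : ℂ) * β n - 1 ≠ 0 := fun n => bet_ne hg (q1 n)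
  have hβ0 : ∀ n, β n ≠ 0 := fun n => div_ne_zero (q2 n) (mul_ne_zero hmu (q1 n))
  have htr : ∀ n, ((mu (m + 2) : ℂ) * β n - 1)⁻¹ * (1 - (mu (m + 2) : ℂ) * β n
      * (Real.cos (2 * phi (m + 2)) : ℂ)) = Complex.cos (thn κ (n + n0)) :=
    fun n => bet_trace hg (q1 n)
  have hshift : ∀ {f : ℕ → ℂ} {l : ℂ}, Filter.Tendsto f Filter.atTop (𝓝 l) →
      Filter.Tendsto (fun n => f (n + n0)) Filter.atTop (𝓝 l) :=
    fun h => h.comp (Filter.tendsto_add_atTop_nat n0)
  have hβlim : Filter.Tendsto β Filter.atTop (𝓝 (mu (m + 2) : ℂ)) :=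
    bet_tendsto hg (hshift hx)
  have hAm : ∀ i j, Filter.Tendsto (fun n => Am (m + 2) (β n) i j) Filter.atTop
      (𝓝 (Am (m + 2) (mu (m + 2)) i j)) :=
    fun i j => (continuousAt_Am hg i j).tendsto.comp hβlim
  -- powers
  have hpow : ∀ i j, (∀ n, (Am (m + 2) (β n) i j).trace = 2 * Complex.cos (thn κ (n + n0))) →
      Filter.Tendsto (fun n => Am (m + 2) (β n) i j ^ kn (n + n0)) Filter.atTop
      (𝓝 ((-(Complex.I * (κ : ℂ))) • Am (m + 2) (mu (m + 2)) i j
        - (-(Complex.I * (κ : ℂ)) * 1 - (-1)) • (1 : Matrix (Fin 2) (Fin 2) ℂ))) := by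
    intro i j ht
    exact tendsto_sl2_pow (hAm i j) (fun n => det_Am _ (hβ n) i j) ht q3
      (hshift (sin_ratio_tendsto κ)) (hshift (cos_kn_tendsto κ)) (hshift hx)
  have tr1 : ∀ i n, (Am (m + 2) (β n) i (i + 1)).trace = 2 * Complex.cos (thn κ (n + n0)) := by
    intro i n
    rw [trace_Am, cos_succ, ← htr n]; ring
  have tr2 : ∀ n, (Am (m + 2) (β n) 0 (m + 2)).trace = 2 * Complex.cos (thn κ (n + n0)) := by
    intro n
    rw [trace_Am, cos_top, ← htr n]; ring
  apply Reach.of_tendsto (l := Filter.atTop) (fun n =>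
    (hb m (β n) (hβ n)).comp (tau (m + 2) (kn (n + n0) : ℤ)).toMonoidHom)
  · intro n
    exact (reach_hb (β n) (hβ n) _ (q3 n) (hβ0 n) (htr n)).trans (Reach.of_aut _ _ (tau_or _))
  · intro i
    apply tendsto_SL
    have h1 : ∀ n, ((((hb m (β n) (hβ n)).comp (tau (m + 2) (kn (n + n0) : ℤ)).toMonoidHom)
        (genA i) : SL(2, ℂ)) : Matrix (Fin 2) (Fin 2) ℂ) = Am (m + 2) (β n) i (i + 1) := by
      intro n
      simp only [MonoidHom.comp_apply, MulEquiv.toMonoidHom_eq_coe, MonoidHom.coe_coe, tau_genA,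
        hb_genA]
      rfl
    simp only [h1]
    have h2 : ((qRep (m + 2) hg (genA i) : SL(2, ℂ)) : Matrix (Fin 2) (Fin 2) ℂ)
        = Am (m + 2) (mu (m + 2)) i (i + 1) := by
      rw [Am_mu hg, qRep, Spin.rep_genA]
      rfl
    rw [h2]
    exact hAm _ _
  · intro i
    apply tendsto_SL
    have h1 : ∀ n, ((((hb m (β n) (hβ n)).comp (tau (m + 2) (kn (n + n0) : ℤ)).toMonoidHom)
        (genB i) : SL(2, ℂ)) : Matrix (Fin 2) (Fin 2) ℂ)
        = Am (m + 2) (β n) (i + 1) (m + 2) * Am (m + 2) (β n) 0 (m + 2) ^ kn (n + n0)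
          * Am (m + 2) (β n) (m + 2) (i + 1) * Am (m + 2) (β n) i (i + 1) ^ kn (n + n0) := by
      intro n
      simp only [MonoidHom.comp_apply, MulEquiv.toMonoidHom_eq_coe, MonoidHom.coe_coe, tau_genB]
      rw [hb_twist (β n) (hβ n) _ (kn_even _) i]
      simp only [Matrix.SpecialLinearGroup.coe_mul, Matrix.SpecialLinearGroup.coe_pow, Asl_coe]
    simp only [h1]
    have h2 : ((qRep (m + 2) hg (genB i) : SL(2, ℂ)) : Matrix (Fin 2) (Fin 2) ℂ)
        = Am (m + 2) (mu (m + 2)) (i + 1) (m + 2)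
          * ((-(Complex.I * (κ : ℂ))) • Am (m + 2) (mu (m + 2)) 0 (m + 2)
            - (-(Complex.I * (κ : ℂ)) * 1 - (-1)) • (1 : Matrix (Fin 2) (Fin 2) ℂ))
          * Am (m + 2) (mu (m + 2)) (m + 2) (i + 1)
          * ((-(Complex.I * (κ : ℂ))) • Am (m + 2) (mu (m + 2)) i (i + 1)
            - (-(Complex.I * (κ : ℂ)) * 1 - (-1)) • (1 : Matrix (Fin 2) (Fin 2) ℂ)) := by
      rw [hκ, ident_top hg, ident_F hg, ident_B hg, qRep, Spin.rep_genB]
      rfl
    rw [h2]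
    exact (((hAm _ _).mul (hpow 0 (m + 2) tr2)).mul (hAm _ _)).mul (hpow i (i + 1) (tr1 i))

/-- The trivial representation is reachable. -/
theorem reach_one (m : ℕ) : Reach (repOf (P0 m)) (1 : SurfaceGroup (m + 2) →* SL(2, ℂ)) := by
  have h := TT.all (m := m) 1 1 (fun _ => 1) (by simp)
  have e : repOf (fun _ : Fin (m + 2) => sngl 1) = 1 := by
    apply surf_hom_ext
    · intro i; simp [sngl]
    · intro i; simp [sngl]
  unfold TT at h
  rwa [e] at h

theorem one_mem_unitary (g : ℕ) :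
    charPoint (1 : SurfaceGroup g →* SL(2, ℂ)) ∈ unitaryCharacters g :=
  ⟨1, fun γ => by simp, rfl⟩

end Pool.Agent.H81
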