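import Pool.Agent.H81.Necklace

/-!
# The Fuchsian necklace and the parametrization of limit sets by the circle
-/

set_option autoImplicit false
set_option linter.unusedSimpArgs false

open scoped MatrixGroups Topology ComplexConjugate

namespace Pool.Agent.H81

variable {g : ℕ}

theorem isSp_M0 (hg : 2 ≤ g) : IsSp (M0 g hg) := ⟨rfl, rfl⟩

theorem isSp_MQ (hg : 2 ≤ g) (t : ℝ) (h1 : 1 < t) (h2 : t < mu g) : IsSp (MQ g hg t h1 h2) :=
  ⟨rfl, rfl⟩

/-- The vector of the unit circle. -/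
def ell : Sp := (-1, 0, 1)

theorem BS_ell (u : Sp) : BS u ell = (u.2.2 - u.1) / 2 := by
  rw [BS_apply]; simp [ell]; ring

theorem M0_v (hg : 2 ≤ g) (k : Fin (2 * (g + 1))) :
    (M0 g hg).v k = circ ((Real.sqrt (mu g) : ℂ) * dr (phi g) k) (Real.sqrt (mu g - 1)) := rfl

theorem normSq_M0 (hg : 2 ≤ g) (k : ℕ) :
    Complex.normSq ((Real.sqrt (mu g) : ℂ) * dr (phi g) k) = mu g := by
  have := one_lt_mu hg
  rw [← Complex.sq_norm, norm_mul, norm_dr, mul_one, Complex.norm_real, Real.norm_eq_abs, sq_abs,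
    Real.sq_sqrt (by linarith)]

theorem M0_ell (hg : 2 ≤ g) (k : Fin (2 * (g + 1))) : BS ((M0 g hg).v k) ell = 0 := by
  rw [M0_v, BS_ell]
  have h1 := one_lt_mu hg
  have h2 : 0 < Real.sqrt (mu g - 1) := Real.sqrt_pos.2 (by linarith)
  simp only [circ]
  rw [normSq_M0 hg, Real.sq_sqrt (by linarith)]
  ring

theorem M0_rf_ell (hg : 2 ≤ g) (k : Fin (2 * (g + 1))) : (M0 g hg).rf k ell = ell := by
  rw [RModel.rf_apply]
  have : (M0 g hg).B ((M0 g hg).v k) ell = 0 := M0_ell hg k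
  rw [this]; simp

theorem M0_evw_ell (hg : 2 ≤ g) (w : List (Fin (2 * (g + 1)))) :
    evw (M0 g hg).rf w ell = ell := by
  induction w with
  | nil => simp
  | cons t w ih =>
    rw [evw_cons]
    show (M0 g hg).rf t (evw (M0 g hg).rf w ell) = ell
    rw [ih, M0_rf_ell]

theorem M0_root_ell (hg : 2 ≤ g) (w : List (Fin (2 * (g + 1)))) (j : Fin (2 * (g + 1))) :
    BS ((M0 g hg).root w j) ell = 0 := by
  have h := (M0 g hg).B_evw w ((M0 g hg).v j) ell
  rw [M0_evw_ell] at h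
  have h2 : (M0 g hg).B ((M0 g hg).v j) ell = 0 := M0_ell hg j
  rw [h2] at h
  exact h

/-- Discs of the Fuchsian model are orthogonal to the unit circle. -/
theorem M0_cen (hg : 2 ≤ g) {p : List (Fin (2 * (g + 1))) × Fin (2 * (g + 1))}
    (hv : Valid (adjC (2 * (g + 1))) p.1 p.2) :
    ‖(M0 g hg).cp p‖ ^ 2 = 1 + (M0 g hg).rp p ^ 2 := by
  have h1 := M0_root_ell hg p.1 p.2
  have h2 := RModel.root_unit (isSp_M0 hg) p.1 p.2
  have h3 := RModel.root_r_pos (isSp_M0 hg) hv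
  rw [BS_ell] at h1
  rw [BS_apply] at h2
  unfold RModel.cp RModel.rp cen rad
  set u := (M0 g hg).root p.1 p.2
  have h4 : u.1 = u.2.2 := by linarith
  rw [norm_div, div_pow, Complex.sq_norm, Complex.normSq_apply, Complex.norm_real,
    Real.norm_eq_abs, sq_abs]
  rw [h4] at h2
  field_simp
  linarith

theorem M0_cen' (hg : 2 ≤ g) {p : List (Fin (2 * (g + 1))) × Fin (2 * (g + 1))}
    (hv : Valid (adjC (2 * (g + 1))) p.1 p.2) :
    1 ≤ ‖(M0 g hg).cp p‖ ∧ ‖(M0 g hg).cp p‖ ≤ 1 + (M0 g hg).rp p := by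
  have h1 := M0_cen hg hv
  have h2 := RModel.rp_pos (isSp_M0 hg) hv
  constructor
  · apply le_of_pow_le_pow_left₀ (n := 2) (by norm_num) (norm_nonneg _)
    rw [h1]; nlinarith
  · apply le_of_pow_le_pow_left₀ (n := 2) (by norm_num) (by positivity)
    rw [h1]; nlinarith

theorem cos_half_phi (hg : 2 ≤ g) : 1 < Real.sqrt (mu g) * Real.cos (phi g / 2) := by
  have h1 := one_lt_mu hg
  have h2 := mu_mul hg
  have h3 := cos_phi_lt hg
  have h4 := cos_phi_ge hg
  have h5 := phi_pos g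
  have h6 := phi_le hg
  have hpi := Real.pi_pos
  have hcpos : 0 < Real.cos (phi g / 2) :=
    Real.cos_pos_of_mem_Ioo ⟨by linarith, by linarith⟩
  have hs : 0 < Real.sqrt (mu g) := Real.sqrt_pos.2 (by linarith)
  apply lt_of_pow_lt_pow_left₀ 2 (by positivity)
  rw [mul_pow, Real.sq_sqrt (by linarith)]
  have h7 : Real.cos (phi g) = 2 * Real.cos (phi g / 2) ^ 2 - 1 := by
    rw [← Real.cos_two_mul]; congr 1; ring
  have h8 : Real.cos (phi g / 2) ^ 2 = (1 + Real.cos (phi g)) / 2 := by linarith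
  rw [h8]
  nlinarith

theorem exists_index (g : ℕ) (K : ℤ) : ∃ i : Fin (2 * (g + 1)), ∀ θ : ℝ,
    Real.cos (θ - (i : ℕ) * phi g) = Real.cos (θ - K * phi g) := by
  have hpos : (0 : ℤ) < ((2 * (g + 1) : ℕ) : ℤ) := by positivity
  have h0 := Int.emod_nonneg K hpos.ne'
  have h1 := Int.emod_lt_of_pos K hpos
  refine ⟨⟨(K % ((2 * (g + 1) : ℕ) : ℤ)).toNat, by omega⟩, fun θ => ?_⟩
  have h2 := Int.emod_add_mul_ediv K ((2 * (g + 1) : ℕ) : ℤ)
  have h3 : (((K % ((2 * (g + 1) : ℕ) : ℤ)).toNat : ℕ) : ℤ) = K % ((2 * (g + 1) : ℕ) : ℤ) :=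
    Int.toNat_of_nonneg h0
  have h4 : (((K % ((2 * (g + 1) : ℕ) : ℤ)).toNat : ℕ) : ℝ)
      + (2 * ((g : ℝ) + 1)) * ((K / ((2 * (g + 1) : ℕ) : ℤ) : ℤ) : ℝ) = K := by
    have : ((((K % ((2 * (g + 1) : ℕ) : ℤ)).toNat : ℕ) : ℤ) +
      ((2 * (g + 1) : ℕ) : ℤ) * (K / ((2 * (g + 1) : ℕ) : ℤ)) : ℤ) = K := by
      rw [h3]; exact h2
    exact_mod_cast this
  have hg1 : ((g : ℝ) + 1) ≠ 0 := by positivity
  have h5 : θ - (((K % ((2 * (g + 1) : ℕ) : ℤ)).toNat : ℕ) : ℝ) * phi g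
      = (θ - K * phi g) + ((K / ((2 * (g + 1) : ℕ) : ℤ) : ℤ) : ℝ) * (2 * Real.pi) := by
    rw [← h4]
    unfold phi
    push_cast
    field_simp
    ring
  show Real.cos (θ - (((K % ((2 * (g + 1) : ℕ) : ℤ)).toNat : ℕ) : ℝ) * phi g) = _
  rw [h5, Real.cos_add_int_mul_two_pi]

theorem norm_sub_unit (θ : ℝ) (φ : ℝ) (k : ℕ) (R : ℝ) :
    ‖Complex.exp (θ * Complex.I) - (R : ℂ) * dr φ k‖ ^ 2
      = 1 + R ^ 2 - 2 * R * Real.cos (θ - k * φ) := by
  rw [Complex.sq_norm, Complex.normSq_apply]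
  simp only [Complex.sub_re, Complex.sub_im, Complex.mul_re, Complex.mul_im, Complex.ofReal_re,
    Complex.ofReal_im, dr_re, dr_im, Complex.exp_ofReal_mul_I_re, Complex.exp_ofReal_mul_I_im]
  rw [Real.cos_sub]
  have h1 := Real.sin_sq_add_cos_sq θ
  have h2 := Real.sin_sq_add_cos_sq (k * φ)
  linear_combination h1 + R ^ 2 * h2

theorem M0_BS_pt (hg : 2 ≤ g) (k : Fin (2 * (g + 1))) (θ : ℝ) :
    BS ((M0 g hg).v k) (pt (Complex.exp (θ * Complex.I)))
      = (Real.sqrt (mu g) * Real.cos (θ - (k : ℕ) * phi g) - 1) / Real.sqrt (mu g - 1) := by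
  have h1 := one_lt_mu hg
  have h2 : 0 < Real.sqrt (mu g - 1) := Real.sqrt_pos.2 (by linarith)
  rw [M0_v, BS_circ_pt _ _ _ h2.ne', ← Complex.sq_norm, norm_sub_unit, Real.sq_sqrt (by linarith),
    Real.sq_sqrt (by linarith)]
  field_simp
  ring

theorem exists_pos_v (hg : 2 ≤ g) {z : ℂ} (hz : ‖z‖ = 1) :
    (∃ i, 0 < BS ((M0 g hg).v i) (pt z)) ∧ (∃ i, BS ((M0 g hg).v i) (pt z) < 0) := by
  obtain ⟨θ, rfl⟩ : ∃ θ : ℝ, z = Complex.exp (θ * Complex.I) := by
    refine ⟨Complex.arg z, ?_⟩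
    have := Complex.norm_mul_exp_arg_mul_I z
    rw [hz] at this
    simpa using this.symm
  have h1 := one_lt_mu hg
  have h2 : 0 < Real.sqrt (mu g - 1) := Real.sqrt_pos.2 (by linarith)
  have hs : 0 < Real.sqrt (mu g) := Real.sqrt_pos.2 (by linarith)
  have hφ := phi_pos g
  have hφ3 := phi_le hg
  have hpi := Real.pi_pos
  set K : ℤ := round (θ / phi g) with hK
  have hd : |θ - K * phi g| ≤ phi g / 2 := by
    have h := abs_sub_round (θ / phi g)
    rw [← hK] at h
    have : θ - K * phi g = (θ / phi g - K) * phi g := by field_simp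
    rw [this, abs_mul, abs_of_pos hφ]
    calc |θ / phi g - K| * phi g ≤ 1 / 2 * phi g := by gcongr
      _ = _ := by ring
  have hcos : Real.cos (phi g / 2) ≤ Real.cos (θ - K * phi g) := by
    rw [← Real.cos_abs (θ - K * phi g)]
    exact Real.cos_le_cos_of_nonneg_of_le_pi (abs_nonneg _) (by linarith) hd
  have hhalf := cos_half_phi hg
  constructor
  · obtain ⟨i, hi⟩ := exists_index g K
    refine ⟨i, ?_⟩
    rw [M0_BS_pt, hi]
    apply div_pos _ h2
    have : Real.sqrt (mu g) * Real.cos (phi g / 2) ≤ Real.sqrt (mu g) * Real.cos (θ - K * phi g) := by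
      gcongr
    linarith
  · obtain ⟨i, hi⟩ := exists_index g (K + (g + 1 : ℕ))
    refine ⟨i, ?_⟩
    rw [M0_BS_pt, hi]
    apply div_neg_of_neg_of_pos _ h2
    have e : θ - ((K + (g + 1 : ℕ) : ℤ) : ℝ) * phi g = (θ - K * phi g) - Real.pi := by
      unfold phi
      push_cast
      have : ((g : ℝ) + 1) ≠ 0 := by positivity
      field_simp
      ring
    rw [e, Real.cos_sub_pi]
    have : 0 < Real.cos (θ - K * phi g) := by
      have : 0 < Real.cos (phi g / 2) := Real.cos_pos_of_mem_Ioo ⟨by linarith, by linarith⟩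
      linarith
    nlinarith

/-- Each point of the unit circle is in the interior of infinitely many discs. -/
theorem M0_interior (hg : 2 ≤ g) {z : ℂ} (hz : ‖z‖ = 1) :
    {p : List (Fin (2 * (g + 1))) × Fin (2 * (g + 1)) |
      Valid (adjC (2 * (g + 1))) p.1 p.2 ∧ ‖z - (M0 g hg).cp p‖ < (M0 g hg).rp p}.Infinite := by
  set M := M0 g hg with hM
  have hinf := M.infinite_pos {x : Sp | x ≠ 0 ∧ BS x x = 0 ∧ BS x ell = 0}
    (by
      rintro x ⟨h1, h2, h3⟩ i
      refine ⟨?_, ?_, ?_⟩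
      · intro h; apply h1
        exact (M.rf i).injective (by rw [h, map_zero])
      · have := M.B_rf i x x
        rw [show M.B = BS from rfl] at this
        rw [this, h2]
      · have := M.B_rf_left i x ell
        rw [show M.B = BS from rfl] at this
        rw [this, hM, M0_rf_ell, h3])
    (by
      rintro x ⟨h1, h2, h3⟩
      rw [BS_ell] at h3
      rw [BS_apply] at h2
      obtain ⟨P, Q, R⟩ := x
      simp only at h2 h3
      have hPR : P = R := by linarith
      subst hPR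
      have hP : P ≠ 0 := by
        rintro rfl
        apply h1
        have e1 : Q.re = 0 := by nlinarith [sq_nonneg Q.re, sq_nonneg Q.im]
        have e2 : Q.im = 0 := by nlinarith [sq_nonneg Q.re, sq_nonneg Q.im]
        have : Q = 0 := Complex.ext e1 e2
        rw [this]; rfl
      set z' : ℂ := Q / P with hz'
      have hnz : ‖z'‖ = 1 := by
        have : ‖z'‖ ^ 2 = 1 := by
          rw [hz', Complex.sq_norm, Complex.normSq_apply, Complex.div_ofReal_re,
            Complex.div_ofReal_im]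
          field_simp
          linarith
        nlinarith [norm_nonneg z']
      have hx : ((P, Q, P) : Sp) = P • pt z' := by
        have hPc : (P : ℂ) ≠ 0 := by exact_mod_cast hP
        have hns : Complex.normSq z' = 1 := by rw [← Complex.sq_norm, hnz]; norm_num
        simp only [pt, hns, Prod.smul_mk, smul_eq_mul, mul_one, Prod.mk.injEq, Complex.real_smul]
        refine ⟨trivial, ?_, trivial⟩
        rw [hz']; field_simp
      obtain ⟨⟨i, hi⟩, ⟨j, hj⟩⟩ := exists_pos_v hg hnz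
      rcases lt_or_gt_of_ne hP with h | h
      · refine ⟨j, ?_⟩
        rw [hx, map_smul, smul_eq_mul]
        exact mul_pos_of_neg_of_neg h hj
      · refine ⟨i, ?_⟩
        rw [hx, map_smul, smul_eq_mul]
        exact mul_pos h hi)
    (pt z)
    (by
      have hns : Complex.normSq z = 1 := by rw [← Complex.sq_norm, hz]; norm_num
      refine ⟨?_, ?_, ?_⟩
      · intro h
        have : (pt z).2.2 = 0 := by rw [h]; rfl
        simp [pt] at this
      · rw [BS_pt_pt]; simp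
      · rw [BS_ell]; simp [pt, hns])
  intro hfin
  apply hinf
  apply (hfin.image fun p => M.root p.1 p.2).subset
  rintro u ⟨⟨w, j, hv, rfl⟩, h⟩
  refine ⟨(w, j), ⟨hv, ?_⟩, rfl⟩
  exact (mem_int_disc_iff (RModel.root_r_pos (isSp_M0 hg) hv)
    (RModel.root_unit (isSp_M0 hg) w j) z).1 h

theorem M0_Lam (hg : 2 ≤ g) : (M0 g hg).Lam = {z : ℂ | ‖z‖ = 1} := by
  ext z
  constructor
  · intro hz
    by_contra hne
    have hne' : ‖z‖ ≠ 1 := hne
    have hpos : 0 < |‖z‖ - 1| := abs_pos.2 (sub_ne_zero.2 hne')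
    obtain ⟨p, hp, hlt⟩ := RModel.exists_small (isSp_M0 hg) hz (fun p hp => hp.1)
      (half_pos hpos)
    have h1 := hp.2
    obtain ⟨h2, h3⟩ := M0_cen' hg hp.1
    have h4 : |‖z‖ - ‖(M0 g hg).cp p‖| ≤ ‖z - (M0 g hg).cp p‖ := abs_norm_sub_norm_le _ _
    have h5 : |‖z‖ - 1| ≤ |‖z‖ - ‖(M0 g hg).cp p‖| + |‖(M0 g hg).cp p‖ - 1| := by
      have : ‖z‖ - 1 = (‖z‖ - ‖(M0 g hg).cp p‖) + (‖(M0 g hg).cp p‖ - 1) := by ring
      rw [this]; exact abs_add_le _ _
    have h6 : |‖(M0 g hg).cp p‖ - 1| ≤ (M0 g hg).rp p := by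
      rw [abs_of_nonneg (by linarith)]; linarith
    linarith
  · intro hz
    apply (M0_interior hg hz).mono
    rintro p ⟨h1, h2⟩
    exact ⟨h1, h2.le⟩

/-! ### The Jordan curve -/

section Jordan

variable {M : RModel (adjC (2 * (g + 1))) Sp}

/-- The parametrization of the limit set by the circle. -/
noncomputable def jor (hg : 2 ≤ g) (M : RModel (adjC (2 * (g + 1))) Sp) (z : Circle) : ℂ :=
  RModel.cmp (M0 g hg) M z

theorem circle_mem_Lam (hg : 2 ≤ g) (z : Circle) : (z : ℂ) ∈ (M0 g hg).Lam := by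
  rw [M0_Lam]; exact Circle.norm_coe z

theorem jor_continuous (hg : 2 ≤ g) (hM : IsSp M) : Continuous (jor hg M) := by
  have h := RModel.cmp_continuousOn (isSp_M0 hg) hM (by
    intro z hz
    rw [M0_Lam] at hz
    exact M0_interior hg hz)
  exact h.comp_continuous continuous_subtype_val (circle_mem_Lam hg)

theorem jor_injective (hg : 2 ≤ g) (hM : IsSp M) : Function.Injective (jor hg M) := by
  intro z z' h
  have := RModel.cmp_injOn (isSp_M0 hg) hM (circle_mem_Lam hg z) (circle_mem_Lam hg z') h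
  exact Circle.ext this

theorem jor_range (hg : 2 ≤ g) (hM : IsSp M) : Set.range (jor hg M) = M.Lam := by
  ext y
  constructor
  · rintro ⟨z, rfl⟩
    exact RModel.cmp_mem (isSp_M0 hg) hM (circle_mem_Lam hg z)
  · intro hy
    obtain ⟨z, hz, h⟩ := RModel.cmp_surj (isSp_M0 hg) hM hy
    rw [M0_Lam] at hz
    refine ⟨⟨z, mem_sphere_zero_iff_norm.2 hz⟩, ?_⟩
    exact h

theorem Lam_isCompact (hg : 2 ≤ g) (hM : IsSp M) : IsCompact M.Lam := by
  rw [← jor_range hg hM]
  exact isCompact_range (jor_continuous hg hM)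

/-- Each disc contains a point of the limit set. -/
theorem disc_meets_Lam (hg : 2 ≤ g) (hM : IsSp M)
    {p : List (Fin (2 * (g + 1))) × Fin (2 * (g + 1))}
    (hv : Valid (adjC (2 * (g + 1))) p.1 p.2) : ∃ z ∈ M.Lam, ‖z - M.cp p‖ ≤ M.rp p := by
  obtain ⟨h1, h2⟩ := M0_cen' hg hv
  set m := (M0 g hg).cp p with hm
  have hm0 : (‖m‖ : ℂ) ≠ 0 := by
    have : ‖m‖ ≠ 0 := by linarith
    exact_mod_cast this
  set z : ℂ := m / ‖m‖ with hz
  have hnz : ‖z‖ = 1 := by
    rw [hz, norm_div, Complex.norm_real, norm_norm, div_self]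
    linarith
  have hzL : z ∈ (M0 g hg).Lam := by rw [M0_Lam]; exact hnz
  have hpz : p ∈ (M0 g hg).PS z := by
    refine ⟨hv, ?_⟩
    rw [← hm]
    have : z - m = z * ((1 - ‖m‖ : ℝ) : ℂ) := by
      rw [hz]; push_cast; field_simp
    rw [this, norm_mul, hnz, one_mul, Complex.norm_real, Real.norm_eq_abs, abs_of_nonpos (by linarith)]
    linarith
  exact ⟨_, RModel.cmp_mem (isSp_M0 hg) hM hzL, (RModel.cmp_spec (isSp_M0 hg) hM hzL hpz).2⟩

end Jordan

end Pool.Agent.H81
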