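import Pool.Agent.H81.Reach

set_option autoImplicit false
set_option linter.unusedSimpArgs false

open scoped MatrixGroups Topology

namespace Pool.Agent.H81

variable {m : ℕ}

/-- Functions on `Fin (m+2)` given by their first two values and the rest. -/
def c2 {α : Type*} (u v : α) (f : Fin m → α) : Fin (m + 2) → α := Fin.cons u (Fin.cons v f)

@[simp] theorem c2_zero {α : Type*} (u v : α) (f : Fin m → α) : c2 u v f 0 = u := rfl
@[simp] theorem c2_one {α : Type*} (u v : α) (f : Fin m → α) : c2 u v f 1 = v := rfl
@[simp] theorem c2_succ {α : Type*} (u v : α) (f : Fin m → α) (i : Fin m) :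
    c2 u v f i.succ.succ = f i := rfl

theorem forall_fin2 {p : Fin (m + 2) → Prop} (h0 : p 0) (h1 : p 1)
    (h2 : ∀ i : Fin m, p i.succ.succ) : ∀ i, p i := by
  intro i
  refine Fin.cases h0 ?_ i
  intro i
  refine Fin.cases h1 ?_ i
  exact h2

theorem ofFn_prod2 {H : Type*} [Group H] (f : Fin (m + 2) → H) :
    (List.ofFn f).prod = f 0 * f 1 * (List.ofFn fun i : Fin m => f i.succ.succ).prod := by
  rw [List.ofFn_succ, List.prod_cons, List.ofFn_succ, List.prod_cons, mul_assoc]
  rfl

/-- The tail of the relator. -/
def tail (m : ℕ) : SurfaceGroup (m + 2) :=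
  (List.ofFn fun i : Fin m =>
    comm (genA i.succ.succ : SurfaceGroup (m + 2)) (genB i.succ.succ)).prod

theorem rel2 : comm (genA 0 : SurfaceGroup (m + 2)) (genB 0) * comm (genA 1) (genB 1) * tail m = 1 := by
  have := rel_eq_one (m + 2)
  rw [ofFn_prod2] at this
  exact this

theorem rel_of_first {x y : Fin (m + 2) → SurfaceGroup (m + 2)}
    (h : comm (x 0) (y 0) * comm (x 1) (y 1) = comm (genA 0) (genB 0) * comm (genA 1) (genB 1))
    (hx : ∀ i : Fin m, x i.succ.succ = genA i.succ.succ)
    (hy : ∀ i : Fin m, y i.succ.succ = genB i.succ.succ) :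
    (List.ofFn fun i => comm (x i) (y i)).prod = 1 := by
  rw [ofFn_prod2, h]
  simp only [hx, hy]
  exact rel2

/-! ### Automorphism `a₀ ↦ a₀ b₀^k` -/

theorem autA_rel (k : ℤ) : (List.ofFn fun i => comm
    (c2 (genA 0 * genB 0 ^ k) (genA 1) (fun i : Fin m => (genA i.succ.succ : SurfaceGroup (m + 2))) i)
    (genB i)).prod = 1 := by
  apply rel_of_first
  · simp only [c2_zero, c2_one, comm]
    group
  · intro i; simp
  · intro i; rfl

def autA (m : ℕ) (k : ℤ) : SurfaceGroup (m + 2) ≃* SurfaceGroup (m + 2) :=
  mkAut (c2 (genA 0 * genB 0 ^ k) (genA 1) (fun i : Fin m => genA i.succ.succ)) genB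
    (c2 (genA 0 * genB 0 ^ (-k)) (genA 1) (fun i : Fin m => genA i.succ.succ)) genB
    (autA_rel k) (autA_rel (-k))
    (by
      apply forall_fin2
      · simp
      · simp only [c2_one, surfLift_genA]
      · intro i; simp only [c2_succ, surfLift_genA])
    (by intro i; simp)
    (by
      apply forall_fin2
      · simp
      · simp only [c2_one, surfLift_genA]
      · intro i; simp only [c2_succ, surfLift_genA])
    (by intro i; simp)

/-! ### Automorphism `b₀ ↦ b₀ a₀^k` -/

theorem autB_rel (k : ℤ) : (List.ofFn fun i => comm (genA i)
    (c2 (genB 0 * genA 0 ^ k) (genB 1) (fun i : Fin m => (genB i.succ.succ : SurfaceGroup (m + 2))) i)).prod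
      = 1 := by
  apply rel_of_first
  · simp only [c2_zero, c2_one, comm]
    group
  · intro i; simp
  · intro i; rfl

def autB (m : ℕ) (k : ℤ) : SurfaceGroup (m + 2) ≃* SurfaceGroup (m + 2) :=
  mkAut genA (c2 (genB 0 * genA 0 ^ k) (genB 1) (fun i : Fin m => genB i.succ.succ))
    genA (c2 (genB 0 * genA 0 ^ (-k)) (genB 1) (fun i : Fin m => genB i.succ.succ))
    (autB_rel k) (autB_rel (-k))
    (by intro i; simp)
    (by
      apply forall_fin2
      · simp
      · simp only [c2_one, surfLift_genB]
      · intro i; simp only [c2_succ, surfLift_genB])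
    (by intro i; simp)
    (by
      apply forall_fin2
      · simp
      · simp only [c2_one, surfLift_genB]
      · intro i; simp only [c2_succ, surfLift_genB])

/-! ### The slide automorphism -/

/-- The curve `z = b₀⁻¹ a₁ b₁ a₁⁻¹`. -/
def zc (m : ℕ) : SurfaceGroup (m + 2) := (genB 0)⁻¹ * genA 1 * genB 1 * (genA 1)⁻¹

theorem autZ_rel : (List.ofFn fun i => comm
    (c2 (genA 0 * zc m) ((zc m)⁻¹ * genA 1)
      (fun i : Fin m => (genA i.succ.succ : SurfaceGroup (m + 2))) i)
    (c2 ((zc m)⁻¹ * genB 0 * zc m) (genB 1)
      (fun i : Fin m => (genB i.succ.succ : SurfaceGroup (m + 2))) i)).prod = 1 := by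
  apply rel_of_first
  · simp only [c2_zero, c2_one, comm, zc]
    group
  · intro i; simp
  · intro i; simp

theorem autZ'_rel : (List.ofFn fun i => comm
    (c2 (genA 0 * (zc m)⁻¹) (zc m * genA 1)
      (fun i : Fin m => (genA i.succ.succ : SurfaceGroup (m + 2))) i)
    (c2 (zc m * genB 0 * (zc m)⁻¹) (genB 1)
      (fun i : Fin m => (genB i.succ.succ : SurfaceGroup (m + 2))) i)).prod = 1 := by
  apply rel_of_first
  · simp only [c2_zero, c2_one, comm, zc]
    group
  · intro i; simp
  · intro i; simp

def autZ (m : ℕ) : SurfaceGroup (m + 2) ≃* SurfaceGroup (m + 2) :=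
  mkAut (c2 (genA 0 * zc m) ((zc m)⁻¹ * genA 1) (fun i : Fin m => genA i.succ.succ))
    (c2 ((zc m)⁻¹ * genB 0 * zc m) (genB 1) (fun i : Fin m => genB i.succ.succ))
    (c2 (genA 0 * (zc m)⁻¹) (zc m * genA 1) (fun i : Fin m => genA i.succ.succ))
    (c2 (zc m * genB 0 * (zc m)⁻¹) (genB 1) (fun i : Fin m => genB i.succ.succ))
    autZ_rel autZ'_rel
    (by
      apply forall_fin2
      · simp only [c2_zero, c2_one, zc, map_mul, map_inv, surfLift_genA, surfLift_genB]
        group
      · simp only [c2_zero, c2_one, zc, map_mul, map_inv, surfLift_genA, surfLift_genB]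
        group
      · intro i; simp only [c2_succ, surfLift_genA])
    (by
      apply forall_fin2
      · simp only [c2_zero, c2_one, zc, map_mul, map_inv, surfLift_genA, surfLift_genB]
        group
      · simp only [c2_one, surfLift_genB]
      · intro i; simp only [c2_succ, surfLift_genB])
    (by
      apply forall_fin2
      · simp only [c2_zero, c2_one, zc, map_mul, map_inv, surfLift_genA, surfLift_genB]
        group
      · simp only [c2_zero, c2_one, zc, map_mul, map_inv, surfLift_genA, surfLift_genB]
        group
      · intro i; simp only [c2_succ, surfLift_genA])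
    (by
      apply forall_fin2
      · simp only [c2_zero, c2_one, zc, map_mul, map_inv, surfLift_genA, surfLift_genB]
        group
      · simp only [c2_one, surfLift_genB]
      · intro i; simp only [c2_succ, surfLift_genB])

/-! ### Swapping the first two handles -/

theorem autS_rel : (List.ofFn fun i => comm
    (c2 (comm (genA 0) (genB 0) * genA 1 * (comm (genA 0) (genB 0))⁻¹) (genA 0)
      (fun i : Fin m => (genA i.succ.succ : SurfaceGroup (m + 2))) i)
    (c2 (comm (genA 0) (genB 0) * genB 1 * (comm (genA 0) (genB 0))⁻¹) (genB 0)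
      (fun i : Fin m => (genB i.succ.succ : SurfaceGroup (m + 2))) i)).prod = 1 := by
  apply rel_of_first
  · simp only [c2_zero, c2_one, comm]
    group
  · intro i; simp
  · intro i; simp

theorem autS'_rel : (List.ofFn fun i => comm
    (c2 (genA 1) ((comm (genA 1) (genB 1))⁻¹ * genA 0 * comm (genA 1) (genB 1))
      (fun i : Fin m => (genA i.succ.succ : SurfaceGroup (m + 2))) i)
    (c2 (genB 1) ((comm (genA 1) (genB 1))⁻¹ * genB 0 * comm (genA 1) (genB 1))
      (fun i : Fin m => (genB i.succ.succ : SurfaceGroup (m + 2))) i)).prod = 1 := by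
  apply rel_of_first
  · simp only [c2_zero, c2_one, comm]
    group
  · intro i; simp
  · intro i; simp

def autS (m : ℕ) : SurfaceGroup (m + 2) ≃* SurfaceGroup (m + 2) :=
  mkAut (c2 (comm (genA 0) (genB 0) * genA 1 * (comm (genA 0) (genB 0))⁻¹) (genA 0)
      (fun i : Fin m => genA i.succ.succ))
    (c2 (comm (genA 0) (genB 0) * genB 1 * (comm (genA 0) (genB 0))⁻¹) (genB 0)
      (fun i : Fin m => genB i.succ.succ))
    (c2 (genA 1) ((comm (genA 1) (genB 1))⁻¹ * genA 0 * comm (genA 1) (genB 1))
      (fun i : Fin m => genA i.succ.succ))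
    (c2 (genB 1) ((comm (genA 1) (genB 1))⁻¹ * genB 0 * comm (genA 1) (genB 1))
      (fun i : Fin m => genB i.succ.succ))
    autS_rel autS'_rel
    (by
      apply forall_fin2
      · simp only [c2_zero, c2_one, comm, map_mul, map_inv, surfLift_genA, surfLift_genB]
      · simp only [c2_zero, c2_one, comm, map_mul, map_inv, surfLift_genA, surfLift_genB]
        group
      · intro i; simp only [c2_succ, surfLift_genA])
    (by
      apply forall_fin2
      · simp only [c2_zero, c2_one, comm, map_mul, map_inv, surfLift_genA, surfLift_genB]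
      · simp only [c2_zero, c2_one, comm, map_mul, map_inv, surfLift_genA, surfLift_genB]
        group
      · intro i; simp only [c2_succ, surfLift_genB])
    (by
      apply forall_fin2
      · simp only [c2_zero, c2_one, comm, map_mul, map_inv, surfLift_genA, surfLift_genB]
        group
      · simp only [c2_zero, c2_one, comm, map_mul, map_inv, surfLift_genA, surfLift_genB]
      · intro i; simp only [c2_succ, surfLift_genA])
    (by
      apply forall_fin2
      · simp only [c2_zero, c2_one, comm, map_mul, map_inv, surfLift_genA, surfLift_genB]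
        group
      · simp only [c2_zero, c2_one, comm, map_mul, map_inv, surfLift_genA, surfLift_genB]
      · intro i; simp only [c2_succ, surfLift_genB])

/-! ### Rotating the handles -/

theorem prod_rotate {H : Type*} [Group H] {n : ℕ} (f : Fin (n + 1) → H)
    (h : (List.ofFn f).prod = 1) : (List.ofFn fun i => f (finRotate (n + 1) i)).prod = 1 := by
  rw [List.ofFn_succ', List.concat_eq_append, List.prod_append, List.prod_singleton]
  rw [List.ofFn_succ, List.prod_cons] at h
  have h1 : (List.ofFn fun i : Fin n => f (finRotate (n + 1) i.castSucc)).prod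
      = (List.ofFn fun i : Fin n => f i.succ).prod := by
    congr 1
    congr 1
    funext i
    congr 1
    rw [finRotate_apply]
    exact Fin.coeSucc_eq_succ
  have h2 : finRotate (n + 1) (Fin.last n) = 0 := finRotate_last
  rw [h1, h2]
  exact mul_eq_one_comm.1 h

theorem prod_rotate_symm {H : Type*} [Group H] {n : ℕ} (f : Fin (n + 1) → H)
    (h : (List.ofFn f).prod = 1) : (List.ofFn fun i => f ((finRotate (n + 1)).symm i)).prod = 1 := by
  rw [List.ofFn_succ, List.prod_cons]
  rw [List.ofFn_succ', List.concat_eq_append, List.prod_append, List.prod_singleton] at h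
  have h1 : (List.ofFn fun i : Fin n => f ((finRotate (n + 1)).symm i.succ)).prod
      = (List.ofFn fun i : Fin n => f i.castSucc).prod := by
    congr 1
    congr 1
    funext i
    congr 1
    rw [Equiv.symm_apply_eq, finRotate_apply]
    exact Fin.coeSucc_eq_succ.symm
  have h2 : (finRotate (n + 1)).symm 0 = Fin.last n := by
    rw [Equiv.symm_apply_eq]; exact finRotate_last.symm
  rw [h1, h2]
  exact mul_eq_one_comm.1 h

def autR (m : ℕ) : SurfaceGroup (m + 2) ≃* SurfaceGroup (m + 2) :=
  mkAut (fun i => genA (finRotate (m + 2) i)) (fun i => genB (finRotate (m + 2) i))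
    (fun i => genA ((finRotate (m + 2)).symm i)) (fun i => genB ((finRotate (m + 2)).symm i))
    (prod_rotate _ (rel_eq_one (m + 2))) (prod_rotate_symm _ (rel_eq_one (m + 2)))
    (by intro i; simp) (by intro i; simp) (by intro i; simp) (by intro i; simp)

/-! ### Orientation -/

variable {g : ℕ}

theorem intersection_comm_left (γ γ' δ : SurfaceGroup g) :
    intersectionNumber (comm γ γ') δ = 0 := by
  simp [intersectionNumber]

theorem intersection_comm_right (γ δ δ' : SurfaceGroup g) :
    intersectionNumber γ (comm δ δ') = 0 := by
  simp [intersectionNumber]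

theorem intersection_zpow_left (γ δ : SurfaceGroup g) (k : ℤ) :
    intersectionNumber (γ ^ k) δ = k * intersectionNumber γ δ := by
  simp only [intersectionNumber, homologyCoord_zpow, Finset.mul_sum]
  apply Finset.sum_congr rfl; intros; ring

theorem intersection_zpow_right (γ δ : SurfaceGroup g) (k : ℤ) :
    intersectionNumber γ (δ ^ k) = k * intersectionNumber γ δ := by
  simp only [intersectionNumber, homologyCoord_zpow, Finset.mul_sum]
  apply Finset.sum_congr rfl; intros; ring

theorem intersection_genB_genA (i j : Fin g) :
    intersectionNumber (genB i : SurfaceGroup g) (genA j) = if i = j then -1 else 0 := by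
  rw [intersection_swap, intersection_genA_genB]
  by_cases h : i = j
  · simp [h]
  · simp [h, Ne.symm h, eq_comm]

theorem z_ne (i : Fin m) : ((0 : Fin (m + 2)) = i.succ.succ) = False := by
  simp [Fin.ext_iff]
theorem ne_z (i : Fin m) : (i.succ.succ = (0 : Fin (m + 2))) = False := by
  simp [Fin.ext_iff]
theorem o_ne (i : Fin m) : ((1 : Fin (m + 2)) = i.succ.succ) = False := by
  simp [Fin.ext_iff]
theorem ne_o (i : Fin m) : (i.succ.succ = (1 : Fin (m + 2))) = False := by
  simp [Fin.ext_iff]
theorem z_ne_o : ((0 : Fin (m + 2)) = 1) = False := by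
  simp [Fin.ext_iff]
theorem o_ne_z : ((1 : Fin (m + 2)) = 0) = False := by
  simp [Fin.ext_iff]

theorem orient_of_cases (φ : SurfaceGroup (m + 2) ≃* SurfaceGroup (m + 2))
    (x0 x1 y0 y1 : SurfaceGroup (m + 2))
    (hx : ∀ i, φ (genA i) = c2 x0 x1 (fun i : Fin m => genA i.succ.succ) i)
    (hy : ∀ i, φ (genB i) = c2 y0 y1 (fun i : Fin m => genB i.succ.succ) i)
    (h1 : ∀ i : Fin m, intersectionNumber x0 (genA i.succ.succ) = 0)
    (h2 : ∀ i : Fin m, intersectionNumber x0 (genB i.succ.succ) = 0)
    (h3 : ∀ i : Fin m, intersectionNumber x1 (genA i.succ.succ) = 0)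
    (h4 : ∀ i : Fin m, intersectionNumber x1 (genB i.succ.succ) = 0)
    (h5 : ∀ i : Fin m, intersectionNumber y0 (genA i.succ.succ) = 0)
    (h6 : ∀ i : Fin m, intersectionNumber y0 (genB i.succ.succ) = 0)
    (h7 : ∀ i : Fin m, intersectionNumber y1 (genA i.succ.succ) = 0)
    (h8 : ∀ i : Fin m, intersectionNumber y1 (genB i.succ.succ) = 0)
    (k1 : intersectionNumber x0 x1 = 0) (k2 : intersectionNumber x0 y0 = 1)
    (k3 : intersectionNumber x0 y1 = 0) (k4 : intersectionNumber x1 y0 = 0)
    (k5 : intersectionNumber x1 y1 = 1) (k6 : intersectionNumber y0 y1 = 0) :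
    OrientationPreserving φ := by
  have self : ∀ x : SurfaceGroup (m + 2), intersectionNumber x x = 0 := by
    intro x; have := intersection_swap x x; omega
  have sw : ∀ {x y : SurfaceGroup (m + 2)}, intersectionNumber x y = 0 →
      intersectionNumber y x = 0 := by
    intro x y h; rw [intersection_swap, h]; rfl
  apply orientationPreserving_of_gens
  · simp only [hx]
    apply forall_fin2
    · apply forall_fin2
      · simpa using self x0
      · simpa using k1
      · intro i; simpa using h1 i
    · apply forall_fin2
      · simpa using sw k1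
      · simpa using self x1
      · intro i; simpa using h3 i
    · intro j
      apply forall_fin2
      · simpa using sw (h1 j)
      · simpa using sw (h3 j)
      · intro i; simpa using intersection_genA_genA _ _
  · simp only [hx, hy]
    apply forall_fin2
    · apply forall_fin2
      · simpa using k2
      · simpa using k3
      · intro i; simpa [z_ne] using h2 i
    · apply forall_fin2
      · simpa using k4
      · simpa using k5
      · intro i; simpa [o_ne] using h4 i
    · intro j
      apply forall_fin2
      · simpa [ne_z] using sw (h5 j)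
      · simpa [ne_o] using sw (h7 j)
      · intro i; simp [intersection_genA_genB]
  · simp only [hy]
    apply forall_fin2
    · apply forall_fin2
      · simpa using self y0
      · simpa using k6
      · intro i; simpa using h6 i
    · apply forall_fin2
      · simpa using sw k6
      · simpa using self y1
      · intro i; simpa using h8 i
    · intro j
      apply forall_fin2
      · simpa using sw (h6 j)
      · simpa using sw (h8 j)
      · intro i; simpa using intersection_genB_genB _ _

theorem autA_or (k : ℤ) : OrientationPreserving (autA m k) := by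
  apply orient_of_cases (autA m k) (genA 0 * genB 0 ^ k) (genA 1) (genB 0) (genB 1)
    (fun i => by simp [autA]) (forall_fin2 (by simp [autA]) (by simp [autA])
      (fun i => by simp only [autA, mkAut_genB, c2_succ])) <;>
  simp [intersection_mul_left, intersection_mul_right,
        intersection_zpow_left, intersection_zpow_right, intersection_genA_genA,
        intersection_genA_genB, intersection_genB_genA, intersection_genB_genB,
        z_ne, o_ne]

theorem autB_or (k : ℤ) : OrientationPreserving (autB m k) := by
  apply orient_of_cases (autB m k) (genA 0) (genA 1) (genB 0 * genA 0 ^ k) (genB 1)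
    (forall_fin2 (by simp [autB]) (by simp [autB])
      (fun i => by simp only [autB, mkAut_genA, c2_succ])) (fun i => by simp [autB]) <;>
  simp [intersection_mul_left, intersection_mul_right,
        intersection_zpow_left, intersection_zpow_right, intersection_genA_genA,
        intersection_genA_genB, intersection_genB_genA, intersection_genB_genB,
        z_ne, o_ne]

theorem autZ_or : OrientationPreserving (autZ m) := by
  apply orient_of_cases (autZ m) (genA 0 * zc m) ((zc m)⁻¹ * genA 1)
    ((zc m)⁻¹ * genB 0 * zc m) (genB 1)
    (fun i => by simp [autZ]) (fun i => by simp [autZ]) <;>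
  simp [zc, intersection_mul_left, intersection_mul_right, intersection_inv_left,
        intersection_inv_right, intersection_genA_genA,
        intersection_genA_genB, intersection_genB_genA, intersection_genB_genB,
        z_ne, o_ne]

theorem autS_or : OrientationPreserving (autS m) := by
  apply orient_of_cases (autS m) (comm (genA 0) (genB 0) * genA 1 * (comm (genA 0) (genB 0))⁻¹)
    (genA 0) (comm (genA 0) (genB 0) * genB 1 * (comm (genA 0) (genB 0))⁻¹) (genB 0)
    (fun i => by simp [autS]) (fun i => by simp [autS]) <;>
  simp [intersection_mul_left, intersection_mul_right, intersection_inv_left,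
        intersection_inv_right, intersection_genA_genA, intersection_comm_left,
        intersection_comm_right,
        intersection_genA_genB, intersection_genB_genA, intersection_genB_genB,
        z_ne, o_ne]

theorem autR_or : OrientationPreserving (autR m) := by
  apply orientationPreserving_of_gens
  · intro i j; simp [autR, intersection_genA_genA]
  · intro i j; simp [autR, intersection_genA_genB]
  · intro i j; simp [autR, intersection_genB_genB]

end Pool.Agent.H81
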