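import Pool.Agent.H81.Tele

/-!
# The twisting automorphisms
-/

set_option autoImplicit false
set_option linter.unusedSimpArgs false

open scoped MatrixGroups Topology

namespace Pool.Agent.H81

variable {g : ℕ}

/-- `Y_i = X_{i+1} X_0^n X_{i+1}⁻¹`. -/
def Yn (g : ℕ) (n : ℤ) (i : ℕ) : SurfaceGroup g :=
  Xn g (i + 1) * (Xn g 0) ^ n * (Xn g (i + 1))⁻¹

/-- The new `b_i`. -/
def twB (g : ℕ) (n : ℤ) (i : Fin g) : SurfaceGroup g := Yn g n i * genB i * genA i ^ n

theorem twist_rel (n : ℤ) : (List.ofFn fun i => comm (genA i) (twB g n i)).prod = 1 := by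
  apply rel_of_telescope _ _ (fun i => Kn g i * Xn g i * (Xn g 0) ^ (-n) * (Xn g i)⁻¹)
  · intro i
    rw [Kn_succ, Xn_succ i, twB, Yn, comm, comm]
    simp only [zpow_neg]
    have hc : genA i * genA i ^ n = genA i ^ n * (genA i : SurfaceGroup g) :=
      (Commute.refl (genA i : SurfaceGroup g)).zpow_right n
    calc _ = genA i * (Xn g (↑i + 1) * Xn g 0 ^ n * (Xn g (↑i + 1))⁻¹ * genB i) *
          (genA i ^ n * (genA i)⁻¹ * (genA i ^ n)⁻¹) *
          (Xn g (↑i + 1) * Xn g 0 ^ n * (Xn g (↑i + 1))⁻¹ * genB i)⁻¹ := by group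
      _ = genA i * (Xn g (↑i + 1) * Xn g 0 ^ n * (Xn g (↑i + 1))⁻¹ * genB i) *
          ((genA i)⁻¹ * (genA i * genA i ^ n) * (genA i)⁻¹ * (genA i ^ n)⁻¹) *
          (Xn g (↑i + 1) * Xn g 0 ^ n * (Xn g (↑i + 1))⁻¹ * genB i)⁻¹ := by group
      _ = _ := by rw [hc]; group
  · have hc : Xn g 0 * Xn g 0 ^ (-n) = Xn g 0 ^ (-n) * Xn g 0 :=
      (Commute.refl (Xn g 0)).zpow_right (-n)
    simp only [Kn_zero, Kn_top, Xn_top, one_mul, inv_one, mul_one]
    rw [hc]; group

theorem twist_aux (n : ℤ) (h : (List.ofFn fun i => comm (genA i) (twB g n i)).prod = 1)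
    (j : ℕ) (hj : j ≤ g) : surfLift genA (twB g n) h (Xn g j) = Xn g j := by
  rw [map_Xn (surfLift genA (twB g n) h) (fun i => (Xn g i)⁻¹) _ j hj]
  · simp
  · intro i
    rw [surfLift_genA, inv_inv, Xn_mul_inv]

theorem twist_inv (n : ℤ) (i : Fin g) :
    surfLift genA (twB g n) (twist_rel n) (twB g (-n) i) = genB i := by
  have hi : (i : ℕ) + 1 ≤ g := i.2
  simp only [twB, Yn, map_mul, map_zpow, map_inv, surfLift_genA, surfLift_genB]
  rw [twist_aux n _ _ hi, twist_aux n _ 0 (Nat.zero_le _)]
  group

/-- The twisting automorphism. -/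
def tau (g : ℕ) (n : ℤ) : SurfaceGroup g ≃* SurfaceGroup g :=
  mkAut genA (twB g n) genA (twB g (-n)) (twist_rel n) (twist_rel (-n))
    (by intro i; simp) (fun i => twist_inv n i) (by intro i; simp)
    (fun i => by
      have := twist_inv (-n) i
      rwa [neg_neg] at this)

@[simp] theorem tau_genA (n : ℤ) (i : Fin g) : tau g n (genA i) = genA i := by simp [tau]
@[simp] theorem tau_genB (n : ℤ) (i : Fin g) : tau g n (genB i) = twB g n i := by simp [tau]

theorem intersection_zpow_left (γ δ : SurfaceGroup g) (n : ℤ) :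
    intersectionNumber (γ ^ n) δ = n * intersectionNumber γ δ := by
  simp only [intersectionNumber, homologyCoord_zpow, Finset.mul_sum]
  apply Finset.sum_congr rfl; intros; ring

theorem intersection_zpow_right (γ δ : SurfaceGroup g) (n : ℤ) :
    intersectionNumber γ (δ ^ n) = n * intersectionNumber γ δ := by
  simp only [intersectionNumber, homologyCoord_zpow, Finset.mul_sum]
  apply Finset.sum_congr rfl; intros; ring

theorem intersection_self (γ : SurfaceGroup g) : intersectionNumber γ γ = 0 := by
  have := intersection_swap γ γ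
  linarith

theorem intersection_Pn (γ : SurfaceGroup g) (n : ℕ) :
    intersectionNumber γ (Pn g n)
      = ∑ i ∈ Finset.range n, intersectionNumber γ (ext1 genA i) := by
  induction n with
  | zero => simp
  | succ n ih =>
    rw [Finset.sum_range_succ, ← ih, ← intersection_mul_right]; rfl

theorem intersection_genA_Xn (i : Fin g) : intersectionNumber (genA i) (Xn g 0) = 0 := by
  rw [Xn_zero, intersection_Pn]
  apply Finset.sum_eq_zero
  intro j hj
  rw [ext1_lt _ (Finset.mem_range.1 hj), intersection_genA_genA]

theorem intersection_genB_Xn (i : Fin g) : intersectionNumber (genB i) (Xn g 0) = -1 := by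
  rw [Xn_zero, intersection_Pn, ← Fin.sum_univ_eq_sum_range
    (fun j => intersectionNumber (genB i) (ext1 genA j))]
  simp only [ext1_fin]
  rw [Finset.sum_eq_single i]
  · rw [intersection_swap, intersection_genA_genB]; simp
  · intro j _ hj
    rw [intersection_swap, intersection_genA_genB]; simp [hj]
  · simp

theorem tau_or (n : ℤ) : OrientationPreserving (tau g n) := by
  apply orientationPreserving_of_gens
  · intro i j; simp [intersection_genA_genA]
  · intro i j
    simp only [tau_genA, tau_genB, twB, Yn, intersection_mul_right, intersection_inv_right,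
      intersection_zpow_right, intersection_genA_Xn, intersection_genA_genA,
      intersection_genA_genB]
    simp
  · intro i j
    simp only [tau_genA, tau_genB, twB, Yn, intersection_mul_right, intersection_inv_right,
      intersection_zpow_right, intersection_mul_left, intersection_inv_left,
      intersection_zpow_left, intersection_self, intersection_genA_genA, intersection_genB_genB,
      intersection_genA_Xn, intersection_genB_Xn, intersection_genA_genB,
      intersection_swap (Xn g 0) (genA j), intersection_swap (Xn g 0) (genB j),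
      intersection_swap (genB i) (genA j)]
    by_cases h : i = j
    · subst h; simp; ring
    · simp [h, Ne.symm h]; ring

end Pool.Agent.H81
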