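import Pool.Agent.H81.Param
import Pool.Agent.H81.Twist

/-!
# Representations trivial on half of the generators
-/

set_option autoImplicit false
set_option linter.unusedSimpArgs false

open scoped MatrixGroups Topology ComplexConjugate

namespace Pool.Agent.H81

variable {g : ℕ}

theorem dr_mul_conj (φ : ℝ) (k : ℕ) : dr φ k * conj (dr φ k) = 1 := by
  rw [Complex.mul_conj, ← Complex.sq_norm, norm_dr]; simp

theorem dr_add (φ : ℝ) (j k : ℕ) : dr φ (j + k) = dr φ j * dr φ k := by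
  unfold dr
  rw [← Complex.exp_add]
  congr 1
  push_cast
  ring

/-- The matrices with parameter `β`. -/
noncomputable def Ep (g : ℕ) (β : ℂ) (i : ℕ) : Matrix (Fin 2) (Fin 2) ℂ :=
  !![1, (mu g : ℂ) * dr (phi g) (2 * i); β * conj (dr (phi g) (2 * i)), 1]

theorem det_Ep (β : ℂ) (i : ℕ) : (Ep g β i).det = 1 - mu g * β := by
  rw [Ep, Matrix.det_fin_two_of]
  linear_combination (-(mu g : ℂ) * β) * dr_mul_conj (phi g) (2 * i)

noncomputable def Am (g : ℕ) (β : ℂ) (i j : ℕ) : Matrix (Fin 2) (Fin 2) ℂ :=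
  (mu g * β - 1 : ℂ)⁻¹ • (Ep g β i * (Ep g β j).adjugate)

theorem Am_mul (β : ℂ) (hβ : (mu g * β - 1 : ℂ) ≠ 0) (i j k : ℕ) :
    Am g β i j * Am g β j k = - Am g β i k := by
  unfold Am
  rw [smul_mul_smul_comm]
  have h1 : Ep g β i * (Ep g β j).adjugate * (Ep g β j * (Ep g β k).adjugate)
      = Ep g β i * ((Ep g β j).adjugate * Ep g β j) * (Ep g β k).adjugate := by
    simp only [mul_assoc]
  rw [h1, Matrix.adjugate_mul, det_Ep, Matrix.mul_smul, mul_one, Matrix.smul_mul, smul_smul,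
    ← neg_smul]
  congr 1
  field_simp
  ring

theorem Am_self (β : ℂ) (hβ : (mu g * β - 1 : ℂ) ≠ 0) (i : ℕ) : Am g β i i = -1 := by
  unfold Am
  rw [Matrix.mul_adjugate, det_Ep, smul_smul]
  have : (mu g * β - 1 : ℂ)⁻¹ * (1 - mu g * β) = -1 := by field_simp; ring
  rw [this]; simp

theorem Am_eq (β : ℂ) (i j : ℕ) : Am g β i j = (mu g * β - 1 : ℂ)⁻¹ •
    !![1 - mu g * β * (dr (phi g) (2 * i) * conj (dr (phi g) (2 * j))),
      mu g * (dr (phi g) (2 * i) - dr (phi g) (2 * j));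
      β * (conj (dr (phi g) (2 * i)) - conj (dr (phi g) (2 * j))),
      1 - mu g * β * (conj (dr (phi g) (2 * i)) * dr (phi g) (2 * j))] := by
  unfold Am Ep
  rw [Matrix.adjugate_fin_two_of, Matrix.mul_fin_two]
  congr 1
  ext a b
  fin_cases a <;> fin_cases b
  · simp; ring
  · simp; ring
  · simp; ring
  · simp; ring

theorem det_Am (β : ℂ) (hβ : (mu g * β - 1 : ℂ) ≠ 0) (i j : ℕ) : (Am g β i j).det = 1 := by
  unfold Am
  rw [Matrix.det_smul, Matrix.det_mul, Matrix.det_adjugate, det_Ep, det_Ep]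
  simp only [Fintype.card_fin]
  field_simp
  ring

/-- The element of `SL(2,ℂ)`. -/
noncomputable def Asl (g : ℕ) (β : ℂ) (hβ : (mu g * β - 1 : ℂ) ≠ 0) (i j : ℕ) : SL(2, ℂ) :=
  ⟨Am g β i j, det_Am β hβ i j⟩

theorem Asl_coe (β : ℂ) (hβ : (mu g * β - 1 : ℂ) ≠ 0) (i j : ℕ) :
    (Asl g β hβ i j : Matrix (Fin 2) (Fin 2) ℂ) = Am g β i j := rfl

theorem Asl_mul (β : ℂ) (hβ : (mu g * β - 1 : ℂ) ≠ 0) (i j k : ℕ) :
    Asl g β hβ i j * Asl g β hβ j k = - Asl g β hβ i k := by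
  apply Subtype.ext
  rw [Matrix.SpecialLinearGroup.coe_mul, Matrix.SpecialLinearGroup.coe_neg, Asl_coe, Asl_coe,
    Asl_coe, Am_mul β hβ]

theorem Asl_self (β : ℂ) (hβ : (mu g * β - 1 : ℂ) ≠ 0) (i : ℕ) : Asl g β hβ i i = -1 := by
  apply Subtype.ext
  rw [Matrix.SpecialLinearGroup.coe_neg, Asl_coe, Am_self β hβ]
  rfl

theorem Asl_inv (β : ℂ) (hβ : (mu g * β - 1 : ℂ) ≠ 0) (i j : ℕ) :
    (Asl g β hβ i j)⁻¹ = Asl g β hβ j i := by
  rw [inv_eq_iff_mul_eq_one, Asl_mul, Asl_self, neg_neg]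

theorem trace_Am (β : ℂ) (i j : ℕ) : (Am g β i j).trace
    = (mu g * β - 1 : ℂ)⁻¹ * (2 - 2 * mu g * β * (Real.cos ((2 * i - 2 * j : ℝ) * phi g) : ℂ)) := by
  rw [Am_eq, Matrix.trace_smul, Matrix.trace_fin_two_of, smul_eq_mul]
  congr 1
  have h1 : dr (phi g) (2 * i) * conj (dr (phi g) (2 * j))
      + conj (dr (phi g) (2 * i)) * dr (phi g) (2 * j)
      = 2 * (Real.cos ((2 * i - 2 * j : ℝ) * phi g) : ℂ) := by
    have e1 : ∀ k : ℕ, dr (phi g) k = (Real.cos (k * phi g) : ℂ) + Real.sin (k * phi g) * Complex.I := by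
      intro k
      apply Complex.ext
      · rw [dr_re]; simp [← Complex.ofReal_cos, ← Complex.ofReal_sin]
      · rw [dr_im]; simp [← Complex.ofReal_cos, ← Complex.ofReal_sin]
    have e2 : ((2 * i - 2 * j : ℝ)) * phi g = ((2 * i : ℕ) : ℝ) * phi g - ((2 * j : ℕ) : ℝ) * phi g := by
      push_cast; ring
    rw [e2, Real.cos_sub, e1, e1]
    simp only [map_add, map_mul, Complex.conj_ofReal, Complex.conj_I]
    push_cast
    linear_combination (-2 * Complex.sin (2 * i * phi g) * Complex.sin (2 * j * phi g))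
      * Complex.I_sq
  linear_combination (-(mu g : ℂ) * β) * h1

/-- The two relevant traces. -/
theorem cos_top (g : ℕ) : Real.cos ((2 * (0 : ℕ) - 2 * (g : ℕ) : ℝ) * phi g)
    = Real.cos (2 * phi g) := by
  have h : ((2 * (0 : ℕ) - 2 * (g : ℕ) : ℝ)) * phi g = 2 * phi g - 2 * Real.pi := by
    unfold phi
    push_cast
    have : ((g : ℝ) + 1) ≠ 0 := by positivity
    field_simp
    ring
  rw [h, Real.cos_sub_two_pi]

theorem cos_succ (g i : ℕ) : Real.cos ((2 * (i : ℕ) - 2 * ((i + 1 : ℕ) : ℕ) : ℝ) * phi g)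
    = Real.cos (2 * phi g) := by
  have h : ((2 * (i : ℕ) - 2 * ((i + 1 : ℕ) : ℕ) : ℝ)) * phi g = - (2 * phi g) := by
    push_cast; ring
  rw [h, Real.cos_neg]

/-! ### The handlebody representations -/

variable {m : ℕ}

/-- The representation `a_i ↦ A_{i,i+1}`, `b_i ↦ 1`. -/
noncomputable def hb (m : ℕ) (β : ℂ) (hβ : (mu (m + 2) * β - 1 : ℂ) ≠ 0) :
    SurfaceGroup (m + 2) →* SL(2, ℂ) :=
  repOf (fun i => sngl (Asl (m + 2) β hβ i (i + 1)))

theorem hb_genA (β : ℂ) (hβ : (mu (m + 2) * β - 1 : ℂ) ≠ 0) (i : Fin (m + 2)) :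
    hb m β hβ (genA i) = Asl (m + 2) β hβ i (i + 1) := by simp [hb, sngl]

theorem hb_genB (β : ℂ) (hβ : (mu (m + 2) * β - 1 : ℂ) ≠ 0) (i : Fin (m + 2)) :
    hb m β hβ (genB i) = 1 := by simp [hb, sngl]

theorem hb_Xn (β : ℂ) (hβ : (mu (m + 2) * β - 1 : ℂ) ≠ 0) (j : ℕ) (hj : j ≤ m + 2) :
    hb m β hβ (Xn (m + 2) j) = Asl (m + 2) β hβ j (m + 2) ∨
    hb m β hβ (Xn (m + 2) j) = - Asl (m + 2) β hβ j (m + 2) := by
  have hsq : ∀ i : ℕ, ((-1 : SL(2, ℂ))) ^ i * (-1) ^ i = 1 := fun i => by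
    rw [← pow_add]; exact Even.neg_one_pow ⟨i, rfl⟩
  have hinv : ∀ i : ℕ, ((-1 : SL(2, ℂ)) ^ i * Asl (m + 2) β hβ 0 i)⁻¹
      = Asl (m + 2) β hβ i 0 * (-1) ^ i := by
    intro i
    rw [mul_inv_rev, Asl_inv]
    congr 1
    rw [inv_eq_iff_mul_eq_one, hsq]
  have key := map_Xn (hb m β hβ) (fun i => (-1) ^ i * Asl (m + 2) β hβ 0 i) (by
    intro i
    rw [hb_genA, hinv, pow_succ]
    have : Asl (m + 2) β hβ ↑i 0 * (-1) ^ (i : ℕ) * ((-1) ^ (i : ℕ) * -1 * Asl (m + 2) β hβ 0 (↑i + 1))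
        = Asl (m + 2) β hβ ↑i 0 * ((-1) ^ (i : ℕ) * (-1) ^ (i : ℕ)) * -1 *
          Asl (m + 2) β hβ 0 (↑i + 1) := by simp only [mul_assoc]
    rw [this, hsq]
    simp only [mul_one, mul_neg, neg_mul]
    rw [Asl_mul, neg_neg]) j hj
  rw [key, hinv]
  have : Asl (m + 2) β hβ j 0 * (-1) ^ j * ((-1) ^ (m + 2) * Asl (m + 2) β hβ 0 (m + 2))
      = Asl (m + 2) β hβ j 0 * (-1) ^ (j + (m + 2)) * Asl (m + 2) β hβ 0 (m + 2) := by
    rw [pow_add _ j (m + 2)]; simp only [mul_assoc]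
  rw [this]
  rcases neg_one_pow_eq_or SL(2, ℂ) (j + (m + 2)) with h | h
  · right; rw [h, mul_one, Asl_mul]
  · left; rw [h, mul_neg, mul_one, neg_mul, Asl_mul, neg_neg]

/-- The twisted representation on `b_i`. -/
theorem hb_twist (β : ℂ) (hβ : (mu (m + 2) * β - 1 : ℂ) ≠ 0) (k : ℕ) (hk : Even k)
    (i : Fin (m + 2)) :
    hb m β hβ (twB (m + 2) (k : ℤ) i) = Asl (m + 2) β hβ (i + 1) (m + 2)
      * Asl (m + 2) β hβ 0 (m + 2) ^ k * Asl (m + 2) β hβ (m + 2) (i + 1)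
      * Asl (m + 2) β hβ i (i + 1) ^ k := by
  have hi := i.2
  simp only [twB, Yn, map_mul, zpow_natCast, map_pow, map_inv, hb_genA, hb_genB, mul_one]
  have h0 : hb m β hβ (Xn (m + 2) 0) ^ k = Asl (m + 2) β hβ 0 (m + 2) ^ k := by
    rcases hb_Xn β hβ 0 (Nat.zero_le _) with h | h
    · rw [h]
    · rw [h, hk.neg_pow]
  rw [h0]
  rcases hb_Xn β hβ (i + 1) (by omega) with h | h
  · rw [h, Asl_inv]
  · rw [h, inv_neg, Asl_inv, neg_mul, neg_mul_neg]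

/-- The handlebody representations are reachable. -/
theorem reach_hb (β : ℂ) (hβ : (mu (m + 2) * β - 1 : ℂ) ≠ 0) (θ : ℂ) (hs : Complex.sin θ ≠ 0)
    (hβ0 : β ≠ 0) (ht : (mu (m + 2) * β - 1 : ℂ)⁻¹ * (1 - mu (m + 2) * β
      * (Real.cos (2 * phi (m + 2)) : ℂ)) = Complex.cos θ) :
    Reach (repOf (P0 m)) (hb m β hβ) := by
  have htr : (Asl (m + 2) β hβ 0 1 : Matrix (Fin 2) (Fin 2) ℂ).trace = 2 * Complex.cos θ := by
    rw [Asl_coe, trace_Am, show ((2 * (0 : ℕ) - 2 * (1 : ℕ) : ℝ)) = (2 * (0 : ℕ) - 2 * ((0 + 1 : ℕ)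
      : ℕ) : ℝ) by simp, cos_succ, ← ht]
    ring
  have hc : Asl (m + 2) β hβ 0 1 1 0 ≠ 0 := by
    show Am (m + 2) β 0 1 1 0 ≠ 0
    rw [Am_eq]
    simp only [Matrix.smul_apply, Matrix.of_apply, Matrix.cons_val', Matrix.cons_val_zero,
      Matrix.cons_val_one, Matrix.cons_val_fin_one, smul_eq_mul]
    refine mul_ne_zero (inv_ne_zero hβ) (mul_ne_zero hβ0 ?_)
    rw [sub_ne_zero]
    intro h
    have h2 := congrArg Complex.re h
    rw [Complex.conj_re, Complex.conj_re, dr_re, dr_re] at h2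
    have h3 := cos_phi_ge (g := m + 2) (by omega)
    have h4 := cos_phi_lt (g := m + 2) (by omega)
    have h5 := Real.cos_two_mul (phi (m + 2))
    simp only [mul_zero, Nat.cast_zero, zero_mul, Real.cos_zero, mul_one, Nat.cast_ofNat] at h2
    nlinarith
  obtain ⟨q, w, hqw⟩ := diag_of_trace _ θ hs htr hc
  exact TT.all q w (fun i => Asl (m + 2) β hβ i (i + 1)) hqw

end Pool.Agent.H81
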