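import Pool.Agent.H81.Handlebody
import Pool.Agent.H81.Angles

/-!
# Matrix identities at the limit parameter
-/

set_option autoImplicit false
set_option linter.unusedSimpArgs false

open scoped MatrixGroups Topology ComplexConjugate

namespace Pool.Agent.H81

variable {g : ℕ}

theorem toM_polar' (u w : Sp) : (toM u).adjugate * toM w + (toM w).adjugate * toM u
    = ((-2 * BS u w : ℝ) : ℂ) • (1 : Matrix (Fin 2) (Fin 2) ℂ) := by
  have hadj : ∀ x : Sp, (toM x).adjugate = toM (x.2.2, -x.2.1, x.1) := by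
    intro x
    unfold toM
    rw [Matrix.adjugate_fin_two_of]
    simp
  have hadj2 : ∀ x : Sp, toM x = (toM (x.2.2, -x.2.1, x.1)).adjugate := by
    intro x
    rw [hadj]
    simp
  rw [hadj u, hadj w, hadj2 w, hadj2 u]
  have := toM_polar (u.2.2, -u.2.1, u.1) (w.2.2, -w.2.1, w.1)
  rw [this]
  congr 2
  rw [BS_apply, BS_apply]
  simp
  ring

/-- `tan φ`. -/
noncomputable def Tt (g : ℕ) : ℝ := mu g * Real.sin (phi g)

theorem Tt_sq (hg : 2 ≤ g) : Tt g ^ 2 = mu g ^ 2 - 1 := by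
  have h1 := mu_mul hg
  have h2 := Real.sin_sq_add_cos_sq (phi g)
  unfold Tt
  linear_combination mu g ^ 2 * h2 - (mu g * Real.cos (phi g) + 1) * h1

theorem Tt_pos (hg : 2 ≤ g) : 0 < Tt g := by
  have h1 := one_lt_mu hg
  unfold Tt
  apply mul_pos (by linarith)
  apply Real.sin_pos_of_pos_of_lt_pi (phi_pos g)
  have := phi_le hg
  have := Real.pi_pos
  linarith

theorem mu_dr_one (hg : 2 ≤ g) : (mu g : ℂ) * dr (phi g) 1 = 1 + Tt g * Complex.I := by
  have h1 := mu_mul hg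
  apply Complex.ext
  · simp only [Complex.mul_re, Complex.ofReal_re, Complex.ofReal_im, dr_re, dr_im, Complex.add_re,
      Complex.one_re, Complex.I_re, Complex.I_im]
    simp [h1]
  · simp only [Complex.mul_im, Complex.ofReal_re, Complex.ofReal_im, dr_re, dr_im, Complex.add_im,
      Complex.one_im, Complex.I_re, Complex.I_im, Tt]
    simp

theorem mu_conj_dr_one (hg : 2 ≤ g) :
    (mu g : ℂ) * conj (dr (phi g) 1) = 1 - Tt g * Complex.I := by
  have h := congrArg conj (mu_dr_one hg)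
  simp only [map_mul, map_add, Complex.conj_ofReal, map_one, Complex.conj_I] at h
  rw [h]; ring

/-- The parameter `κ`. -/
noncomputable def kap (g : ℕ) : ℝ := mu g * Tt g / (2 * (mu g - 1))

theorem toM_ell : toM ell = !![-1, 0; 0, 1] := by
  unfold toM ell; simp

theorem toM_odd_mu (hg : 2 ≤ g) (i : ℕ) :
    toM (uQ g (mu g) (2 * i + 1)) = ((mu g - 1 : ℂ))⁻¹ •
      !![(2 * mu g - 1 : ℂ), (mu g : ℂ) * dr (phi g) (2 * i + 1);
        (mu g : ℂ) * conj (dr (phi g) (2 * i + 1)), 1] := by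
  have h1 := one_lt_mu hg
  rw [toM_odd hg h1 le_rfl]
  have : Real.sqrt (mu g ^ 2 + 1 - 2 * mu g) = mu g - 1 := by
    rw [show mu g ^ 2 + 1 - 2 * mu g = (mu g - 1) ^ 2 by ring]
    exact Real.sqrt_sq (by linarith)
  rw [this]
  congr 1
  push_cast
  rw [one_div]

theorem toM_even_mu (hg : 2 ≤ g) (i : ℕ) :
    toM (uQ g (mu g) (2 * i)) = ((1 / Real.sqrt (mu g ^ 2 - 1) : ℝ) : ℂ) •
      Ep g (mu g) i := by
  rw [toM_even hg (one_lt_mu hg) le_rfl]
  rfl

/-- At `β = μ` the matrices `A_{ij}` are products of two reflections. -/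
theorem Am_mu (hg : 2 ≤ g) (i j : ℕ) :
    Am g (mu g) i j = toM (uQ g (mu g) (2 * i)) * (toM (uQ g (mu g) (2 * j))).adjugate := by
  have h1 := one_lt_mu hg
  have h2 : 0 < mu g ^ 2 - 1 := by nlinarith
  rw [toM_even_mu hg, toM_even_mu hg, Matrix.adjugate_smul, smul_mul_smul_comm]
  unfold Am
  congr 1
  have e : (1 / Real.sqrt (mu g ^ 2 - 1)) * (1 / Real.sqrt (mu g ^ 2 - 1)) = (mu g ^ 2 - 1)⁻¹ := by
    rw [div_mul_div_comm, Real.mul_self_sqrt h2.le]; simp
  have e' : ((1 / Real.sqrt (mu g ^ 2 - 1) : ℝ) : ℂ) * ((1 / Real.sqrt (mu g ^ 2 - 1) : ℝ) : ℂ)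
      = (((mu g ^ 2 - 1)⁻¹ : ℝ) : ℂ) := by rw [← Complex.ofReal_mul, e]
  simp only [Fintype.card_fin, Nat.add_one_sub_one, pow_one]
  rw [e']
  push_cast
  congr 1
  ring

theorem S1 (μ T : ℂ) (hT0 : T ≠ 0) (hμ1 : μ - 1 ≠ 0) :
    (-(Complex.I * (μ * T / (2 * (μ - 1))))) * ((T ^ 2)⁻¹ * (1 - (1 - 2 * T * Complex.I - T ^ 2)))
      - (-(Complex.I * (μ * T / (2 * (μ - 1)))) * 1 - -1) = (μ - 1)⁻¹ := by
  field_simp
  linear_combination (-2 * μ * T) * Complex.I_sq

theorem S2 (μ T : ℂ) (hT0 : T ≠ 0) (hμ1 : μ - 1 ≠ 0) :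
    (-(Complex.I * (μ * T / (2 * (μ - 1))))) * ((T ^ 2)⁻¹ * (1 - (1 + 2 * T * Complex.I - T ^ 2)))
      - (-(Complex.I * (μ * T / (2 * (μ - 1)))) * 1 - -1) = -((μ - 1)⁻¹ * (2 * μ - 1)) := by
  field_simp
  linear_combination (2 * μ * T) * Complex.I_sq

theorem S3 (μ T y : ℂ) (hT0 : T ≠ 0) (hμ1 : μ - 1 ≠ 0) :
    (-(Complex.I * (μ * T / (2 * (μ - 1))))) * ((T ^ 2)⁻¹ * (2 * T * Complex.I * y))
      = (μ - 1)⁻¹ * (μ * y) := by
  field_simp
  linear_combination (-μ * y) * Complex.I_sq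

theorem dr_top_odd (g : ℕ) : dr (phi g) (2 * g + 1) = conj (dr (phi g) 1) := by
  have h : dr (phi g) (2 * g + 1) * dr (phi g) 1 = 1 := by
    rw [← dr_add]
    unfold dr phi
    have : (((2 * g + 1 + 1 : ℕ) : ℝ) * (Real.pi / ((g + 1 : ℕ) : ℝ)) : ℝ) = 2 * Real.pi := by
      push_cast
      have : ((g : ℝ) + 1) ≠ 0 := by positivity
      field_simp
      ring
    rw [this]
    push_cast
    exact Complex.exp_two_pi_mul_I
  have h2 := dr_mul_conj (phi g) 1
  calc dr (phi g) (2 * g + 1) = dr (phi g) (2 * g + 1) * (dr (phi g) 1 * conj (dr (phi g) 1)) := by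
        rw [h2, mul_one]
    _ = _ := by rw [← mul_assoc, h, one_mul]

theorem dr_top_even (g : ℕ) :
    dr (phi g) (2 * g) = conj (dr (phi g) 1) * conj (dr (phi g) 1) := by
  have h := dr_top_odd g
  rw [dr_add] at h
  have h2 := dr_mul_conj (phi g) 1
  calc dr (phi g) (2 * g) = dr (phi g) (2 * g) * (dr (phi g) 1 * conj (dr (phi g) 1)) := by
        rw [h2, mul_one]
    _ = _ := by rw [← mul_assoc, h]

theorem sq_aux {μ T x : ℂ} (h : μ * x = 1 - T * Complex.I) :
    μ * μ * (x * x) = 1 - 2 * T * Complex.I - T ^ 2 := by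
  have : μ * μ * (x * x) = (μ * x) * (μ * x) := by ring
  rw [this, h]
  linear_combination T ^ 2 * Complex.I_sq

theorem sq_aux' {μ T x : ℂ} (h : μ * x = 1 + T * Complex.I) :
    μ * μ * (x * x) = 1 + 2 * T * Complex.I - T ^ 2 := by
  have : μ * μ * (x * x) = (μ * x) * (μ * x) := by ring
  rw [this, h]
  linear_combination T ^ 2 * Complex.I_sq

/-- The limit of the powers of `A_{i,i+1}`. -/
theorem ident_F (hg : 2 ≤ g) (i : ℕ) :
    (-(Complex.I * (kap g : ℂ))) • Am g (mu g) i (i + 1)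
      - (-(Complex.I * (kap g : ℂ)) * 1 - (-1)) • (1 : Matrix (Fin 2) (Fin 2) ℂ)
      = - (toM ell * (toM (uQ g (mu g) (2 * i + 1))).adjugate) := by
  have h1 := one_lt_mu hg
  have hT0 : (Tt g : ℂ) ≠ 0 := by exact_mod_cast (Tt_pos hg).ne'
  have hμ1 : (mu g : ℂ) - 1 ≠ 0 := by
    have : mu g - 1 ≠ 0 := by linarith
    exact_mod_cast this
  have hP : (mu g : ℂ) * mu g - 1 = (Tt g : ℂ) ^ 2 := by
    have := Tt_sq hg
    have h2 : (Tt g : ℂ) ^ 2 = (mu g : ℂ) ^ 2 - 1 := by exact_mod_cast this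
    rw [h2]; ring
  have hE := mu_dr_one hg
  have hEb := mu_conj_dr_one hg
  have hEE := dr_mul_conj (phi g) 1
  have hzz := dr_mul_conj (phi g) (2 * i)
  have hk : (kap g : ℂ) = (mu g : ℂ) * Tt g / (2 * ((mu g : ℂ) - 1)) := by
    unfold kap; push_cast; rfl
  rw [Am_eq, toM_odd_mu hg, toM_ell, Matrix.adjugate_smul, Matrix.adjugate_fin_two_of,
    dr_add _ (2 * i) 1, show 2 * (i + 1) = 2 * i + 1 + 1 by ring, dr_add _ (2 * i + 1) 1,
    dr_add _ (2 * i) 1, hP, hk]
  set z := dr (phi g) (2 * i)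
  set E := dr (phi g) 1
  have w1 : (mu g : ℂ) * mu g * (z * conj (z * E * E)) = 1 - 2 * Tt g * Complex.I - (Tt g : ℂ) ^ 2 := by
    rw [← sq_aux hEb, map_mul, map_mul]
    linear_combination ((mu g : ℂ) * mu g * (conj E * conj E)) * hzz
  have w2 : (mu g : ℂ) * mu g * (conj z * (z * E * E)) = 1 + 2 * Tt g * Complex.I - (Tt g : ℂ) ^ 2 := by
    rw [← sq_aux' hE]
    linear_combination ((mu g : ℂ) * mu g * (E * E)) * hzz
  have w3 : (mu g : ℂ) * (z - z * E * E) = -(2 * Tt g * Complex.I * (z * E)) := by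
    linear_combination (z * E) * (hEb - hE) - (mu g * z) * hEE
  have w4 : (mu g : ℂ) * (conj z - conj (z * E * E)) = 2 * Tt g * Complex.I * (conj z * conj E) := by
    rw [map_mul, map_mul]
    linear_combination (conj z * conj E) * (hE - hEb) - (mu g * conj z) * hEE
  rw [w1, w2, w3, w4]
  simp only [Fintype.card_fin, Nat.add_one_sub_one, pow_one]
  have t1 := S1 (mu g) (Tt g) hT0 hμ1
  have t2 := S2 (mu g) (Tt g) hT0 hμ1
  have t3 := S3 (mu g) (Tt g) (z * E) hT0 hμ1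
  have t4 := S3 (mu g) (Tt g) (conj z * conj E) hT0 hμ1
  ext a b
  fin_cases a <;> fin_cases b
  · simp [Matrix.mul_apply, Fin.sum_univ_two]
    linear_combination t1
  · simp [Matrix.mul_apply, Fin.sum_univ_two]
    linear_combination -t3
  · simp [Matrix.mul_apply, Fin.sum_univ_two]
    linear_combination t4
  · simp [Matrix.mul_apply, Fin.sum_univ_two]
    linear_combination t2

/-- The limit of the powers of `A_{0,g}`. -/
theorem ident_top (hg : 2 ≤ g) :
    (-(Complex.I * (kap g : ℂ))) • Am g (mu g) 0 g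
      - (-(Complex.I * (kap g : ℂ)) * 1 - (-1)) • (1 : Matrix (Fin 2) (Fin 2) ℂ)
      = - (toM (uQ g (mu g) (2 * g + 1)) * (toM ell).adjugate) := by
  have h1 := one_lt_mu hg
  have hT0 : (Tt g : ℂ) ≠ 0 := by exact_mod_cast (Tt_pos hg).ne'
  have hμ1 : (mu g : ℂ) - 1 ≠ 0 := by
    have : mu g - 1 ≠ 0 := by linarith
    exact_mod_cast this
  have hP : (mu g : ℂ) * mu g - 1 = (Tt g : ℂ) ^ 2 := by
    have := Tt_sq hg
    have h2 : (Tt g : ℂ) ^ 2 = (mu g : ℂ) ^ 2 - 1 := by exact_mod_cast this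
    rw [h2]; ring
  have hE := mu_dr_one hg
  have hEb := mu_conj_dr_one hg
  have hEE := dr_mul_conj (phi g) 1
  have hz0 : dr (phi g) (2 * 0) = 1 := by unfold dr; simp
  have hk : (kap g : ℂ) = (mu g : ℂ) * Tt g / (2 * ((mu g : ℂ) - 1)) := by
    unfold kap; push_cast; rfl
  rw [Am_eq, toM_odd_mu hg, toM_ell, Matrix.adjugate_fin_two_of,
    dr_top_odd, dr_top_even, hz0, hP, hk]
  set E := dr (phi g) 1
  have w1 : (mu g : ℂ) * mu g * (1 * conj (conj E * conj E)) = 1 + 2 * Tt g * Complex.I - (Tt g : ℂ) ^ 2 := by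
    rw [← sq_aux' hE, map_mul, Complex.conj_conj]
    ring
  have w2 : (mu g : ℂ) * mu g * (conj 1 * (conj E * conj E)) = 1 - 2 * Tt g * Complex.I - (Tt g : ℂ) ^ 2 := by
    rw [← sq_aux hEb, map_one]
    ring
  have w3 : (mu g : ℂ) * (1 - conj E * conj E) = 2 * Tt g * Complex.I * conj E := by
    linear_combination (conj E) * (hE - hEb) - (mu g : ℂ) * hEE
  have w4 : (mu g : ℂ) * (conj 1 - conj (conj E * conj E)) = - (2 * Tt g * Complex.I * E) := by
    rw [map_mul, Complex.conj_conj, map_one]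
    linear_combination E * (hEb - hE) - (mu g : ℂ) * hEE
  rw [w1, w2, w3, w4]
  have t1 := S1 (mu g) (Tt g) hT0 hμ1
  have t2 := S2 (mu g) (Tt g) hT0 hμ1
  have t3 := S3 (mu g) (Tt g) E hT0 hμ1
  have t4 := S3 (mu g) (Tt g) (conj E) hT0 hμ1
  ext a b
  fin_cases a <;> fin_cases b
  · simp [Matrix.mul_apply, Fin.sum_univ_two]
    linear_combination t2
  · simp [Matrix.mul_apply, Fin.sum_univ_two]
    linear_combination t4
  · simp [Matrix.mul_apply, Fin.sum_univ_two]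
    linear_combination -t3
  · simp [Matrix.mul_apply, Fin.sum_univ_two]
    linear_combination t1

/-- Even circles are orthogonal to the unit circle. -/
theorem BS_even_ell (hg : 2 ≤ g) (i : ℕ) : BS (uQ g (mu g) (2 * i)) ell = 0 := by
  have h1 := one_lt_mu hg
  have e1 : RQ g (mu g) (2 * i) = mu g := if_pos (by omega)
  have e2 : rQ2 g (mu g) (2 * i) = mu g ^ 2 - 1 := if_pos (by omega)
  have hp := rQ2_pos hg h1 le_rfl (2 * i)
  rw [e2] at hp
  rw [BS_ell]
  unfold uQ circ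
  simp only [e1, e2, normSq_dr, Real.sq_sqrt hp.le]
  ring

theorem BS_ell_ell : BS ell ell = 1 := by rw [BS_ell]; simp [ell]

/-- The algebraic identity behind the limit. -/
theorem ident_B (hg : 2 ≤ g) (i : ℕ) :
    Am g (mu g) (i + 1) g * (- (toM (uQ g (mu g) (2 * g + 1)) * (toM ell).adjugate))
      * Am g (mu g) g (i + 1) * (- (toM ell * (toM (uQ g (mu g) (2 * i + 1))).adjugate))
      = - ((toM (uQ g (mu g) (2 * i + 2)) * (toM (uQ g (mu g) (2 * g + 1))).adjugate)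
        * (toM (uQ g (mu g) (2 * i + 2)) * (toM (uQ g (mu g) (2 * i + 1))).adjugate)) := by
  have h1 := one_lt_mu hg
  set S := spQ g hg (mu g) h1 le_rfl
  rw [Am_mu hg, Am_mu hg, show 2 * (i + 1) = 2 * i + 2 by ring]
  have o1 := toM_polar' ell (uQ g (mu g) (2 * g))
  rw [BS_symm, BS_even_ell hg] at o1
  have o2 := toM_polar' ell (uQ g (mu g) (2 * i + 2))
  rw [BS_symm, show 2 * i + 2 = 2 * (i + 1) by ring, BS_even_ell hg,
    show 2 * (i + 1) = 2 * i + 2 by ring] at o2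
  have o3 := toM_polar (uQ g (mu g) (2 * g)) (uQ g (mu g) (2 * g + 1))
  have o3' : BS (uQ g (mu g) (2 * g)) (uQ g (mu g) (2 * g + 1)) = 0 := S.orth _ (by omega)
  rw [o3'] at o3
  have u1 := toM_mul_adj ell BS_ell_ell
  have u2 : (toM (uQ g (mu g) (2 * g))).adjugate * toM (uQ g (mu g) (2 * g)) = -1 :=
    toM_adj_mul _ (S.unit _)
  set X := toM (uQ g (mu g) (2 * i + 2))
  set G := toM (uQ g (mu g) (2 * g))
  set F := toM (uQ g (mu g) (2 * g + 1))
  set f := toM (uQ g (mu g) (2 * i + 1))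
  set U := toM ell
  simp only [mul_zero, Complex.ofReal_zero, zero_smul] at o1 o2 o3
  have r1 : U.adjugate * G = - (G.adjugate * U) := eq_neg_of_add_eq_zero_left o1
  have r2 : X.adjugate * U = - (U.adjugate * X) := eq_neg_of_add_eq_zero_right o2
  have r3 : F * G.adjugate = - (G * F.adjugate) := eq_neg_of_add_eq_zero_right o3
  calc X * G.adjugate * -(F * U.adjugate) * (G * X.adjugate) * -(U * f.adjugate)
      = X * G.adjugate * F * (U.adjugate * G) * (X.adjugate * U) * f.adjugate := by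
        simp only [mul_neg, neg_mul, neg_neg, mul_assoc]
    _ = X * G.adjugate * F * G.adjugate * (U * U.adjugate) * X * f.adjugate := by
        rw [r1, r2]; simp only [mul_neg, neg_mul, neg_neg, mul_assoc]
    _ = - (X * G.adjugate * (F * G.adjugate) * X * f.adjugate) := by
        rw [u1]; simp only [mul_neg, neg_mul, mul_one, mul_assoc]
    _ = X * (G.adjugate * G) * F.adjugate * X * f.adjugate := by
        rw [r3]; simp only [mul_neg, neg_mul, neg_neg, mul_assoc]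
    _ = _ := by rw [u2]; simp only [mul_neg, neg_mul, mul_one, mul_assoc]

end Pool.Agent.H81
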