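import Pool.Agent.H81.Tele

/-!
# The surface group as an index four subgroup of a right-angled Coxeter group
-/

set_option autoImplicit false
set_option linter.unusedSimpArgs false

open scoped MatrixGroups Topology

namespace Pool.Agent.H81

variable {g : ℕ}

/-! ### The two involutive automorphisms -/

def epsA (i : Fin g) : SurfaceGroup g := (Xn g i)⁻¹ * Xn g (i + 1)
def epsB (i : Fin g) : SurfaceGroup g :=
  (Xn g (i + 1))⁻¹ * Kn g (i + 1) * genB i * Xn g (i + 1)

theorem eps_comm (i : Fin g) : comm (epsA i) (epsB i)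
    = ((Xn g i)⁻¹ * (Kn g i)⁻¹ * Xn g i)⁻¹ * ((Xn g (i + 1))⁻¹ * (Kn g (i + 1))⁻¹ * Xn g (i + 1)) := by
  simp only [comm, epsA, epsB, Kn_succ, Xn_succ i]
  group

theorem eps_rel : (List.ofFn fun i : Fin g => comm (epsA i) (epsB i)).prod = 1 := by
  apply rel_of_telescope _ _ (fun i => (Xn g i)⁻¹ * (Kn g i)⁻¹ * Xn g i) eps_comm
  simp

def eps (g : ℕ) : SurfaceGroup g →* SurfaceGroup g := surfLift epsA epsB eps_rel

@[simp] theorem eps_genA (i : Fin g) : eps g (genA i) = epsA i := by simp [eps]
@[simp] theorem eps_genB (i : Fin g) : eps g (genB i) = epsB i := by simp [eps]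

theorem eps_Xn (n : ℕ) (hn : n ≤ g) : eps g (Xn g n) = (Xn g n)⁻¹ := by
  rw [map_Xn (eps g) (fun i => Xn g i) _ n hn]
  · simp
  · intro i; simp [epsA]

theorem eps_Kn (n : ℕ) (hn : n ≤ g) :
    eps g (Kn g n) = (Xn g n)⁻¹ * (Kn g n)⁻¹ * Xn g n := by
  rw [map_Kn (eps g) (fun i => (Xn g i)⁻¹ * (Kn g i)⁻¹ * Xn g i) _ n hn]
  · simp
  · intro i; rw [eps_genA, eps_genB, eps_comm]

def delA (i : Fin g) : SurfaceGroup g := Kn g i * genA i * (Kn g (i + 1))⁻¹
def delB (i : Fin g) : SurfaceGroup g := Kn g (i + 1) * (genB i)⁻¹ * (Kn g (i + 1))⁻¹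

theorem del_comm (i : Fin g) : comm (delA i) (delB i)
    = ((Kn g i)⁻¹)⁻¹ * (Kn g (i + 1))⁻¹ := by
  simp only [comm, delA, delB, Kn_succ]
  group

theorem del_rel : (List.ofFn fun i : Fin g => comm (delA i) (delB i)).prod = 1 := by
  apply rel_of_telescope _ _ (fun i => (Kn g i)⁻¹) del_comm
  simp

def del (g : ℕ) : SurfaceGroup g →* SurfaceGroup g := surfLift delA delB del_rel

@[simp] theorem del_genA (i : Fin g) : del g (genA i) = delA i := by simp [del]
@[simp] theorem del_genB (i : Fin g) : del g (genB i) = delB i := by simp [del]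

theorem del_Kn (n : ℕ) (hn : n ≤ g) : del g (Kn g n) = (Kn g n)⁻¹ := by
  rw [map_Kn (del g) (fun i => (Kn g i)⁻¹) _ n hn]
  · simp
  · intro i; rw [del_genA, del_genB, del_comm]

theorem del_Xn (n : ℕ) (hn : n ≤ g) : del g (Xn g n) = Kn g n * Xn g n := by
  rw [map_Xn (del g) (fun i => (Xn g i)⁻¹ * (Kn g i)⁻¹) _ n hn]
  · simp
  · intro i; rw [del_genA, delA, Xn_succ i]; group

theorem eps_eps (x : SurfaceGroup g) : eps g (eps g x) = x := by
  have : (eps g).comp (eps g) = MonoidHom.id _ := by
    apply surf_hom_ext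
    · intro i
      have hi : (i : ℕ) + 1 ≤ g := i.2
      have hi' : (i : ℕ) ≤ g := i.2.le
      simp only [MonoidHom.comp_apply, eps_genA, epsA, map_mul, map_inv, eps_Xn _ hi, eps_Xn _ hi',
        MonoidHom.id_apply, inv_inv, Xn_mul_inv]
    · intro i
      have hi : (i : ℕ) + 1 ≤ g := i.2
      simp only [MonoidHom.comp_apply, eps_genB, epsB, map_mul, map_inv, eps_Xn _ hi, eps_Kn _ hi,
        MonoidHom.id_apply, inv_inv]
      group
  exact DFunLike.congr_fun this x

theorem del_del (x : SurfaceGroup g) : del g (del g x) = x := by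
  have : (del g).comp (del g) = MonoidHom.id _ := by
    apply surf_hom_ext
    · intro i
      have hi : (i : ℕ) + 1 ≤ g := i.2
      have hi' : (i : ℕ) ≤ g := i.2.le
      simp only [MonoidHom.comp_apply, del_genA, delA, map_mul, map_inv, del_Kn _ hi, del_Kn _ hi',
        MonoidHom.id_apply, inv_inv]
      group
    · intro i
      have hi : (i : ℕ) + 1 ≤ g := i.2
      simp only [MonoidHom.comp_apply, del_genB, delB, map_mul, map_inv, del_Kn _ hi,
        MonoidHom.id_apply, inv_inv]
      group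
  exact DFunLike.congr_fun this x

theorem eps_del (x : SurfaceGroup g) : eps g (del g x) = del g (eps g x) := by
  have : (eps g).comp (del g) = (del g).comp (eps g) := by
    apply surf_hom_ext
    · intro i
      have hi : (i : ℕ) + 1 ≤ g := i.2
      have hi' : (i : ℕ) ≤ g := i.2.le
      simp only [MonoidHom.comp_apply, eps_genA, del_genA, delA, epsA, map_mul, map_inv,
        eps_Xn _ hi, eps_Xn _ hi', eps_Kn _ hi, eps_Kn _ hi', del_Xn _ hi, del_Xn _ hi']
      group
    · intro i
      have hi : (i : ℕ) + 1 ≤ g := i.2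
      simp only [MonoidHom.comp_apply, eps_genB, del_genB, delB, epsB, map_mul, map_inv,
        eps_Xn _ hi, eps_Kn _ hi, del_Xn _ hi, del_Kn _ hi]
      group
  exact DFunLike.congr_fun this x

/-! ### Coxeter data -/

/-- Involutions in a group indexed by the sides of a `2g+2`-gon (the indices `2i` are the `e_i`
and the indices `2i+1` are the `f_i`), such that neighbours commute. -/
structure Cox (g : ℕ) (H : Type*) [Group H] where
  s : ℕ → H
  sq : ∀ k, k < 2 * (g + 1) → s k * s k = 1
  nb : ∀ k, k + 1 < 2 * (g + 1) → s k * s (k + 1) = s (k + 1) * s k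
  nb0 : s 0 * s (2 * g + 1) = s (2 * g + 1) * s 0

namespace Cox

variable {H : Type*} [Group H] (c : Cox g H)

def e (i : ℕ) : H := c.s (2 * i)
def f (i : ℕ) : H := c.s (2 * i + 1)

theorem e_sq {i : ℕ} (hi : i ≤ g) : c.e i * c.e i = 1 := c.sq _ (by omega)
theorem f_sq {i : ℕ} (hi : i ≤ g) : c.f i * c.f i = 1 := c.sq _ (by omega)
theorem e_inv {i : ℕ} (hi : i ≤ g) : (c.e i)⁻¹ = c.e i := inv_eq_of_mul_eq_one_left (c.e_sq hi)
theorem f_inv {i : ℕ} (hi : i ≤ g) : (c.f i)⁻¹ = c.f i := inv_eq_of_mul_eq_one_left (c.f_sq hi)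
theorem ef {i : ℕ} (hi : i ≤ g) : c.e i * c.f i = c.f i * c.e i := c.nb _ (by omega)
theorem fe {i : ℕ} (hi : i < g) : c.f i * c.e (i + 1) = c.e (i + 1) * c.f i :=
  c.nb (2 * i + 1) (by omega)
theorem e0f : c.e 0 * c.f g = c.f g * c.e 0 := c.nb0

/-- The image of `K_i`. -/
def Z (i : ℕ) : H := c.f g * c.e i * c.f g * c.e i

theorem Z_aux {a b : H} (h : a * b = b * a) (ha : a * a = 1) (hb : b * b = 1) :
    b * a * b * a = 1 := by
  calc b * a * b * a = (b * a) * (b * a) := by group
    _ = (b * a) * (a * b) := by rw [h]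
    _ = b * (a * a) * b := by group
    _ = 1 := by rw [ha, mul_one, hb]

theorem Z_zero : c.Z 0 = 1 := Z_aux c.e0f (c.e_sq (Nat.zero_le _)) (c.f_sq le_rfl)

theorem Z_top : c.Z g = 1 := Z_aux (c.ef le_rfl) (c.e_sq le_rfl) (c.f_sq le_rfl)

theorem comm_ab {i : ℕ} (hi : i < g) :
    comm (c.e i * c.e (i + 1)) (c.e (i + 1) * c.f g * c.e (i + 1) * c.f i)
      = (c.Z i)⁻¹ * c.Z (i + 1) := by
  have h1 := c.e_sq (show i + 1 ≤ g by omega)
  have h2 := c.e_sq hi.le
  have h3 := c.f_sq hi.le
  have h4 := c.f_sq (le_refl g)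
  have h5 := c.fe hi
  have h6 := c.ef hi.le
  have i1 := c.e_inv (show i + 1 ≤ g by omega)
  have i2 := c.e_inv hi.le
  have i3 := c.f_inv hi.le
  have i4 := c.f_inv (le_refl g)
  unfold comm Z
  simp only [mul_inv_rev, i1, i2, i3, i4]
  set a := c.e i
  set b := c.e (i + 1)
  set F := c.f g
  set f := c.f i
  calc a * b * (b * F * b * f) * (b * a) * (f * (b * (F * b)))
      = a * (b * b) * F * b * f * b * a * f * b * F * b := by group
    _ = a * F * b * (f * b) * a * f * b * F * b := by rw [h1]; group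
    _ = a * F * (b * b) * f * a * f * b * F * b := by rw [h5]; group
    _ = a * F * (f * (a * f)) * b * F * b := by rw [h1]; group
    _ = a * F * ((f * f) * a) * b * F * b := by rw [h6]; group
    _ = a * F * a * b * F * b := by rw [h3]; group
    _ = a * (F * a) * 1 * (b * F * b) := by group
    _ = a * (F * a) * (F * F) * (b * F * b) := by rw [h4]
    _ = _ := by group

/-- The homomorphism from the surface group. -/
def theta : SurfaceGroup g →* H :=
  surfLift (fun i => c.e i * c.e (i + 1)) (fun i => c.e (i + 1) * c.f g * c.e (i + 1) * c.f i) (by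
    apply rel_of_telescope _ _ c.Z (fun i => c.comm_ab i.2)
    rw [Z_zero, Z_top])

@[simp] theorem theta_genA (i : Fin g) : c.theta (genA i) = c.e i * c.e (i + 1) := by
  simp [theta]
@[simp] theorem theta_genB (i : Fin g) :
    c.theta (genB i) = c.e (i + 1) * c.f g * c.e (i + 1) * c.f i := by
  simp [theta]

theorem theta_Xn (n : ℕ) (hn : n ≤ g) : c.theta (Xn g n) = c.e n * c.e g := by
  rw [map_Xn c.theta c.e _ n hn, c.e_inv hn]
  intro i; rw [theta_genA, c.e_inv i.2.le]

theorem theta_Kn (n : ℕ) (hn : n ≤ g) : c.theta (Kn g n) = c.Z n := by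
  rw [map_Kn c.theta c.Z _ n hn, Z_zero]
  · simp
  · intro i; rw [theta_genA, theta_genB, c.comm_ab i.2]

theorem conj_e (x : SurfaceGroup g) : c.e g * c.theta x = c.theta (eps g x) * c.e g := by
  have hg := c.e_sq (le_refl g)
  have : (MulAut.conj (c.e g)).toMonoidHom.comp c.theta = c.theta.comp (eps g) := by
    apply surf_hom_ext
    · intro i
      have hi : (i : ℕ) + 1 ≤ g := i.2
      have hi' : (i : ℕ) ≤ g := i.2.le
      simp only [MonoidHom.comp_apply, MulEquiv.toMonoidHom_eq_coe, MonoidHom.coe_coe,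
        MulAut.conj_apply]
      simp only [theta_genA, eps_genA, epsA, map_mul, map_inv, c.theta_Xn _ hi,
        c.theta_Xn _ hi', mul_inv_rev, c.e_inv hi', c.e_inv hi, c.e_inv le_rfl]
      group
    · intro i
      have hi : (i : ℕ) + 1 ≤ g := i.2
      have hi' : (i : ℕ) ≤ g := i.2.le
      simp only [MonoidHom.comp_apply, MulEquiv.toMonoidHom_eq_coe, MonoidHom.coe_coe,
        MulAut.conj_apply]
      simp only [theta_genB, eps_genB, epsB, map_mul, map_inv, c.theta_Xn _ hi,
        c.theta_Xn _ hi', mul_inv_rev, c.e_inv hi', c.e_inv hi, c.e_inv le_rfl, c.theta_Kn _ hi, Z]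
      have h1 := c.e_sq hi
      have h4 := c.f_sq (le_refl g)
      have h5 := c.fe i.2
      set a := c.e g
      set b := c.e (i + 1)
      set F := c.f g
      set f := c.f i
      symm
      calc a * b * (F * b * F * b) * (b * F * b * f) * (b * a)
          = a * b * F * b * F * (b * b) * F * b * f * b * a := by group
        _ = a * b * F * b * (F * F) * b * f * b * a := by rw [h1]; group
        _ = a * b * F * (b * b) * f * b * a := by rw [h4]; group
        _ = a * b * F * (f * b) * a := by rw [h1]; group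
        _ = _ := by rw [h5]; group
  have h := DFunLike.congr_fun this x
  simp only [MonoidHom.comp_apply, MulEquiv.toMonoidHom_eq_coe, MonoidHom.coe_coe,
    MulAut.conj_apply] at h
  rw [← h]; group

theorem conj_f (x : SurfaceGroup g) : c.f g * c.theta x = c.theta (del g x) * c.f g := by
  have : (MulAut.conj (c.f g)).toMonoidHom.comp c.theta = c.theta.comp (del g) := by
    apply surf_hom_ext
    · intro i
      have hi : (i : ℕ) + 1 ≤ g := i.2
      have hi' : (i : ℕ) ≤ g := i.2.le
      simp only [MonoidHom.comp_apply, MulEquiv.toMonoidHom_eq_coe, MonoidHom.coe_coe,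
        MulAut.conj_apply]
      simp only [theta_genA, del_genA, delA, map_mul, map_inv, c.theta_Kn _ hi,
        c.theta_Kn _ hi', Z, mul_inv_rev, c.e_inv hi', c.e_inv hi, c.f_inv le_rfl]
      have h1 := c.e_sq hi
      have h2 := c.e_sq hi'
      have h4 := c.f_sq (le_refl g)
      set a := c.e i
      set b := c.e (i + 1)
      set F := c.f g
      symm
      calc F * a * F * a * (a * b) * (b * (F * (b * F)))
          = F * a * F * (a * a) * (b * b) * F * b * F := by group
        _ = F * a * (F * F) * b * F := by rw [h1, h2]; group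
        _ = _ := by rw [h4]; group
    · intro i
      have hi : (i : ℕ) + 1 ≤ g := i.2
      have hi' : (i : ℕ) ≤ g := i.2.le
      simp only [MonoidHom.comp_apply, MulEquiv.toMonoidHom_eq_coe, MonoidHom.coe_coe,
        MulAut.conj_apply]
      simp only [theta_genB, del_genB, delB, map_mul, map_inv, c.theta_Kn _ hi,
        c.theta_Kn _ hi', Z, mul_inv_rev, c.e_inv hi', c.e_inv hi, c.f_inv le_rfl, c.f_inv hi']
      have h1 := c.e_sq hi
      have h4 := c.f_sq (le_refl g)
      set b := c.e (i + 1)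
      set F := c.f g
      set f := c.f i
      symm
      calc F * b * F * b * (f * (b * (F * b))) * (b * (F * (b * F)))
          = F * b * F * b * f * b * F * (b * b) * F * b * F := by group
        _ = F * b * F * b * f * b * (F * F) * b * F := by rw [h1]; group
        _ = F * b * F * b * f * (b * b) * F := by rw [h4]; group
        _ = _ := by rw [h1]; group
  have h := DFunLike.congr_fun this x
  simp only [MonoidHom.comp_apply, MulEquiv.toMonoidHom_eq_coe, MonoidHom.coe_coe,
    MulAut.conj_apply] at h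
  rw [← h]; group

/-- Every letter is in the image of the surface group up to `e_g` or `f_g`. -/
theorem letter_e {i : ℕ} (hi : i ≤ g) : c.e i = c.theta (Xn g i) * c.e g := by
  rw [c.theta_Xn i hi, mul_assoc, c.e_sq le_rfl, mul_one]

theorem letter_f {i : ℕ} (hi : i ≤ g) : ∃ y : SurfaceGroup g, c.f i = c.theta y * c.f g := by
  rcases hi.lt_or_eq with h | rfl
  · refine ⟨(Kn g (i + 1) * genB ⟨i, h⟩)⁻¹, ?_⟩
    rw [map_inv, map_mul, c.theta_Kn _ h, theta_genB]
    have h1 := c.e_sq (show i + 1 ≤ g from h)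
    have h4 := c.f_sq (le_refl g)
    simp only [Z]
    have : c.f g * c.e (i + 1) * c.f g * c.e (i + 1) *
        (c.e (i + 1) * c.f g * c.e (i + 1) * c.f i) = c.f g * c.f i := by
      set b := c.e (i + 1)
      set F := c.f g
      set f := c.f i
      calc F * b * F * b * (b * F * b * f) = F * b * F * (b * b) * F * b * f := by group
        _ = F * b * (F * F) * b * f := by rw [h1]; group
        _ = F * (b * b) * f := by rw [h4]; group
        _ = _ := by rw [h1]; group
    rw [this, mul_inv_rev, c.f_inv hi, c.f_inv le_rfl, mul_assoc, c.f_sq le_rfl, mul_one]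
  · exact ⟨1, by simp⟩

/-- The value of a word. -/
def ev (w : List (Fin (2 * (g + 1)))) : H := (w.map fun k : Fin (2 * (g + 1)) => c.s k).prod

/-- Number of even, resp. odd, letters. -/
def cntE (w : List (Fin (2 * (g + 1)))) : ℕ :=
  w.countP fun k : Fin (2 * (g + 1)) => (k : ℕ) % 2 = 0
def cntF (w : List (Fin (2 * (g + 1)))) : ℕ :=
  w.countP fun k : Fin (2 * (g + 1)) => (k : ℕ) % 2 = 1

theorem word_decomp (w : List (Fin (2 * (g + 1)))) : ∃ γ : SurfaceGroup g,
    c.ev w = c.theta γ * c.e g ^ (cntE w) * c.f g ^ (cntF w) := by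
  induction w with
  | nil => exact ⟨1, by simp [ev, cntE, cntF]⟩
  | cons k w ih =>
    obtain ⟨γ, hγ⟩ := ih
    have hk := k.2
    have hev : c.ev (k :: w) = c.s k * c.ev w := by simp [ev]
    have hcomm0 : Commute (c.f g) (c.e g) := (c.ef le_rfl).symm
    have hcomm : Commute (c.f g) (c.e g ^ (cntE w)) := hcomm0.pow_right _
    rcases Nat.mod_two_eq_zero_or_one (k : ℕ) with h | h
    · have hcE : cntE (k :: w) = cntE w + 1 := by simp [cntE, h]
      have hcF : cntF (k :: w) = cntF w := by simp [cntF, h]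
      obtain ⟨i, hi⟩ : ∃ i, (k : ℕ) = 2 * i := ⟨(k : ℕ) / 2, by omega⟩
      have hle : i ≤ g := by omega
      refine ⟨Xn g i * eps g γ, ?_⟩
      rw [hev, hcE, hcF, hγ, hi]
      change c.e i * _ = _
      rw [c.letter_e hle, map_mul]
      calc _ = c.theta (Xn g i) * (c.e g * c.theta γ) * c.e g ^ cntE w * c.f g ^ cntF w := by
            group
        _ = _ := by rw [c.conj_e, pow_succ']; simp only [mul_assoc]
    · have hcE : cntE (k :: w) = cntE w := by simp [cntE, h]
      have hcF : cntF (k :: w) = cntF w + 1 := by simp [cntF, h]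
      obtain ⟨i, hi⟩ : ∃ i, (k : ℕ) = 2 * i + 1 := ⟨(k : ℕ) / 2, by omega⟩
      have hle : i ≤ g := by omega
      obtain ⟨y, hy⟩ := c.letter_f hle
      refine ⟨y * del g γ, ?_⟩
      rw [hev, hcE, hcF, hγ, hi]
      change c.f i * _ = _
      rw [hy, map_mul]
      calc _ = c.theta y * (c.f g * c.theta γ) * c.e g ^ cntE w * c.f g ^ cntF w := by
            group
        _ = c.theta y * c.theta (del g γ) * (c.f g * c.e g ^ cntE w) * c.f g ^ cntF w := by
            rw [c.conj_f]; group
        _ = _ := by rw [hcomm.eq, pow_succ']; simp only [mul_assoc]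

theorem word_even (w : List (Fin (2 * (g + 1)))) (hE : Even (cntE w)) (hF : Even (cntF w)) :
    ∃ γ : SurfaceGroup g, c.ev w = c.theta γ := by
  obtain ⟨γ, hγ⟩ := c.word_decomp w
  refine ⟨γ, ?_⟩
  obtain ⟨a, ha⟩ := hE
  obtain ⟨b, hb⟩ := hF
  rw [hγ, ha, hb, ← two_mul, ← two_mul, pow_mul, pow_mul, pow_two, pow_two, c.e_sq le_rfl,
    c.f_sq le_rfl]
  simp

end Cox

/-! ### The regular representation -/

/-- `K_{i+1} b_i`. -/
def Yw (g : ℕ) (i : ℕ) : SurfaceGroup g := Kn g (i + 1) * ext1 genB i

theorem Kn_top_succ : Kn g (g + 1) = 1 := by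
  rw [Kn, prodN_succ]
  have : prodN (fun n => comm (ext1 (genA : Fin g → SurfaceGroup g) n) (ext1 genB n)) g = 1 :=
    Kn_top
  rw [this]
  simp [ext1, comm]

theorem Yw_top : Yw g g = 1 := by simp [Yw, Kn_top_succ, ext1]

theorem del_Yw (i : ℕ) (hi : i ≤ g) : del g (Yw g i) = (Yw g i)⁻¹ := by
  rcases hi.lt_or_eq with h | rfl
  · rw [Yw, map_mul, del_Kn _ h, ext1_lt _ h, del_genB, delB]
    group
  · simp [Yw_top]

theorem eps_Yw (i : ℕ) (hi : i < g) :
    eps g (Yw g i) = (Xn g (i + 1))⁻¹ * genB ⟨i, hi⟩ * Xn g (i + 1) := by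
  rw [Yw, map_mul, eps_Kn _ hi, ext1_lt _ hi, eps_genB, epsB]
  group

noncomputable def permE (g : ℕ) (i : ℕ) (hi : i ≤ g) : Equiv.Perm (SurfaceGroup g) :=
  Function.Involutive.toPerm (fun x => Xn g i * eps g x) (by
    intro x
    show Xn g i * eps g (Xn g i * eps g x) = x
    rw [map_mul, eps_eps, eps_Xn i hi]; group)

noncomputable def permF (g : ℕ) (i : ℕ) (hi : i ≤ g) : Equiv.Perm (SurfaceGroup g) :=
  Function.Involutive.toPerm (fun x => (Yw g i)⁻¹ * del g x) (by
    intro x
    show (Yw g i)⁻¹ * del g ((Yw g i)⁻¹ * del g x) = x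
    rw [map_mul, del_del, map_inv, del_Yw i hi]; group)

noncomputable def permS (g : ℕ) (k : ℕ) : Equiv.Perm (SurfaceGroup g) :=
  if h : k < 2 * (g + 1) then
    if k % 2 = 0 then permE g (k / 2) (by omega) else permF g (k / 2) (by omega)
  else 1

theorem permE_apply (i : ℕ) (hi : i ≤ g) (x : SurfaceGroup g) :
    permE g i hi x = Xn g i * eps g x := rfl
theorem permF_apply (i : ℕ) (hi : i ≤ g) (x : SurfaceGroup g) :
    permF g i hi x = (Yw g i)⁻¹ * del g x := rfl

theorem permS_even (i : ℕ) (hi : i ≤ g) : permS g (2 * i) = permE g i hi := by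
  unfold permS
  rw [dif_pos (by omega), if_pos (by omega)]
  congr 1
  omega

theorem permS_odd (i : ℕ) (hi : i ≤ g) : permS g (2 * i + 1) = permF g i hi := by
  unfold permS
  rw [dif_pos (by omega), if_neg (by omega)]
  congr 1
  omega

theorem permEF (i : ℕ) (hi : i ≤ g) : permE g i hi * permF g i hi = permF g i hi * permE g i hi := by
  ext x
  simp only [Equiv.Perm.mul_apply, permE_apply, permF_apply, map_mul, map_inv, eps_del]
  rw [← mul_assoc, ← mul_assoc]
  congr 1
  rw [del_Xn i hi]
  rcases hi.lt_or_eq with h | rfl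
  · rw [eps_Yw i h, Yw, ext1_lt _ h]
    have h1 := Kn_succ (⟨i, h⟩ : Fin g)
    have h2 := Xn_succ (⟨i, h⟩ : Fin g)
    simp only at h1 h2
    rw [h1, h2, comm]
    group
  · simp [Yw_top]

theorem permFE (i : ℕ) (hi : i < g) : permF g i hi.le * permE g (i + 1) hi
    = permE g (i + 1) hi * permF g i hi.le := by
  ext x
  simp only [Equiv.Perm.mul_apply, permE_apply, permF_apply, map_mul, map_inv, eps_del]
  rw [← mul_assoc, ← mul_assoc]
  congr 1
  rw [del_Xn _ hi, eps_Yw i hi, Yw, ext1_lt _ hi]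
  group

theorem permE0 : permE g 0 (Nat.zero_le _) * permF g g le_rfl
    = permF g g le_rfl * permE g 0 (Nat.zero_le _) := by
  ext x
  simp only [Equiv.Perm.mul_apply, permE_apply, permF_apply, map_mul, map_inv, eps_del, Yw_top]
  rw [← mul_assoc, ← mul_assoc]
  congr 1
  rw [del_Xn _ (Nat.zero_le _)]
  simp

/-- The Coxeter data in the permutation group of the surface group. -/
noncomputable def regCox (g : ℕ) : Cox g (Equiv.Perm (SurfaceGroup g)) where
  s := permS g
  sq := by
    intro k hk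
    rcases Nat.mod_two_eq_zero_or_one k with h | h
    · obtain ⟨i, rfl⟩ : ∃ i, k = 2 * i := ⟨k / 2, by omega⟩
      rw [permS_even i (by omega)]
      ext x
      simp only [Equiv.Perm.mul_apply, permE_apply, map_mul, eps_eps, eps_Xn i (by omega : i ≤ g)]
      simp
    · obtain ⟨i, rfl⟩ : ∃ i, k = 2 * i + 1 := ⟨k / 2, by omega⟩
      rw [permS_odd i (by omega)]
      ext x
      simp only [Equiv.Perm.mul_apply, permF_apply, map_mul, del_del, map_inv,
        del_Yw i (by omega : i ≤ g)]
      simp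
  nb := by
    intro k hk
    rcases Nat.mod_two_eq_zero_or_one k with h | h
    · obtain ⟨i, rfl⟩ : ∃ i, k = 2 * i := ⟨k / 2, by omega⟩
      rw [permS_even i (by omega), permS_odd i (by omega), permEF]
    · obtain ⟨i, rfl⟩ : ∃ i, k = 2 * i + 1 := ⟨k / 2, by omega⟩
      rw [permS_odd i (by omega), show 2 * i + 1 + 1 = 2 * (i + 1) by ring,
        permS_even (i + 1) (by omega), permFE i (by omega)]
  nb0 := by
    have h0 := permS_even (g := g) 0 (Nat.zero_le _)
    rw [mul_zero] at h0
    rw [h0, permS_odd g le_rfl, permE0]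

theorem regCox_theta (γ x : SurfaceGroup g) : (regCox g).theta γ x = γ * x := by
  let L : SurfaceGroup g →* Equiv.Perm (SurfaceGroup g) := MulAction.toPermHom _ _
  have hL : ∀ γ x, L γ x = γ * x := fun γ x => rfl
  have : (regCox g).theta = L := by
    apply surf_hom_ext
    · intro i
      ext x
      rw [Cox.theta_genA, hL]
      simp only [Cox.e, regCox]
      rw [permS_even i i.2.le, permS_even (i + 1) i.2, Equiv.Perm.mul_apply, permE_apply,
        permE_apply, map_mul, eps_eps, eps_Xn _ i.2, ← mul_assoc, Xn_mul_inv]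
    · intro i
      ext x
      rw [Cox.theta_genB, hL]
      simp only [Cox.e, Cox.f, regCox]
      rw [permS_even (i + 1) i.2, permS_odd g le_rfl, permS_odd i i.2.le]
      simp only [Equiv.Perm.mul_apply, permE_apply, permF_apply, Yw_top, inv_one, one_mul,
        map_mul, map_inv, eps_del, del_del, eps_eps, del_Yw i i.2.le, eps_Xn _ i.2, del_Xn _ i.2,
        eps_Kn _ i.2]
      rw [Yw, ext1_fin]
      group
  rw [this, hL]

theorem regCox_theta_injective (γ : SurfaceGroup g) (h : (regCox g).theta γ = 1) : γ = 1 := by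
  have := regCox_theta γ 1
  rw [h] at this
  simpa using this.symm

end Pool.Agent.H81
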