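import Pool.Agent.H81.Dense2

/-!
# Matrix lemmas
-/

set_option autoImplicit false
set_option linter.unusedSimpArgs false

open scoped MatrixGroups Topology ComplexConjugate

namespace Pool.Agent.H81

/-- Cayley-Hamilton in `SL(2,ℂ)`. -/
theorem sl2_sq (A : Matrix (Fin 2) (Fin 2) ℂ) (hdet : A.det = 1) (x : ℂ)
    (hx : A.trace = 2 * x) : A * A = (2 * x) • A - 1 := by
  rw [Matrix.det_fin_two] at hdet
  rw [Matrix.trace_fin_two] at hx
  ext i j
  rw [Matrix.mul_apply, Fin.sum_univ_two, ← hx]
  fin_cases i <;> fin_cases j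
  · simp; linear_combination -hdet
  · simp; ring
  · simp; ring
  · simp; linear_combination -hdet

/-- Powers of elements of `SL(2,ℂ)`. -/
theorem sl2_pow (A : Matrix (Fin 2) (Fin 2) ℂ) (hdet : A.det = 1) (θ : ℂ)
    (hx : A.trace = 2 * Complex.cos θ) (n : ℕ) :
    Complex.sin θ • A ^ n = Complex.sin (n * θ) • A
      - (Complex.sin (n * θ) * Complex.cos θ - Complex.cos (n * θ) * Complex.sin θ) • 1 := by
  have h2 := sl2_sq A hdet _ hx
  induction n with
  | zero =>
    simp
  | succ n ih =>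
    have e1 : Complex.sin (((n + 1 : ℕ) : ℂ) * θ)
        = Complex.sin (n * θ) * Complex.cos θ + Complex.cos (n * θ) * Complex.sin θ := by
      push_cast; rw [add_mul, one_mul, Complex.sin_add]
    have e2 : Complex.cos (((n + 1 : ℕ) : ℂ) * θ)
        = Complex.cos (n * θ) * Complex.cos θ - Complex.sin (n * θ) * Complex.sin θ := by
      push_cast; rw [add_mul, one_mul, Complex.cos_add]
    have hsc := Complex.sin_sq_add_cos_sq θ
    rw [pow_succ, ← smul_mul_assoc, ih, sub_mul, smul_mul_assoc, h2, smul_mul_assoc, one_mul,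
      e1, e2]
    have e3 : (Complex.sin (n * θ) * Complex.cos θ + Complex.cos (n * θ) * Complex.sin θ)
        * Complex.cos θ - (Complex.cos (n * θ) * Complex.cos θ - Complex.sin (n * θ) * Complex.sin θ)
        * Complex.sin θ = Complex.sin (n * θ) := by
      linear_combination Complex.sin (n * θ) * hsc
    rw [e3, smul_sub, smul_smul, ← sub_eq_zero]
    module

theorem sl2_pow' (A : Matrix (Fin 2) (Fin 2) ℂ) (hdet : A.det = 1) (θ : ℂ)
    (hx : A.trace = 2 * Complex.cos θ) (hs : Complex.sin θ ≠ 0) (n : ℕ) :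
    A ^ n = (Complex.sin (n * θ) / Complex.sin θ) • A
      - ((Complex.sin (n * θ) / Complex.sin θ) * Complex.cos θ - Complex.cos (n * θ)) • 1 := by
  have h := sl2_pow A hdet θ hx n
  have h2 : A ^ n = (Complex.sin θ)⁻¹ • (Complex.sin θ • A ^ n) := by
    rw [smul_smul, inv_mul_cancel₀ hs, one_smul]
  rw [h2, h, smul_sub, smul_smul, smul_smul]
  congr 2
  · rw [div_eq_mul_inv]; ring
  · field_simp

/-- Diagonalization. -/
theorem diag_of_trace (A : SL(2, ℂ)) (θ : ℂ) (hs : Complex.sin θ ≠ 0)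
    (hx : (A : Matrix (Fin 2) (Fin 2) ℂ).trace = 2 * Complex.cos θ) (hc : A 1 0 ≠ 0) :
    ∃ (q : SL(2, ℂ)) (w : ℂˣ), A = q * Dh w * q⁻¹ := by
  set w : ℂ := Complex.exp (θ * Complex.I) with hw
  set w' : ℂ := Complex.exp (-θ * Complex.I) with hw'
  have hww : w * w' = 1 := by
    rw [hw, hw', ← Complex.exp_add]; simp
  have hw0 : w ≠ 0 := Complex.exp_ne_zero _
  have hinv : w⁻¹ = w' := by field_simp; exact hww.symm
  have hsum : w + w' = 2 * Complex.cos θ := by
    rw [Complex.cos, hw, hw']; ring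
  have hdiff : w - w' = 2 * Complex.I * Complex.sin θ := by
    rw [Complex.sin, hw, hw']
    linear_combination (Complex.exp (θ * Complex.I) - Complex.exp (-θ * Complex.I)) * Complex.I_sq
  have hdet := A.2
  rw [Matrix.det_fin_two] at hdet
  rw [Matrix.trace_fin_two] at hx
  set a : ℂ := A 0 0 with ha
  set b : ℂ := A 0 1 with hb
  set c : ℂ := A 1 0 with hcd
  set d : ℂ := A 1 1 with hd
  have hdet' : a * d - b * c = 1 := hdet
  have hx' : a + d = w + w' := by rw [hsum]; exact hx
  have hD : c * (w - w') ≠ 0 := by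
    apply mul_ne_zero hc
    rw [hdiff]
    exact mul_ne_zero (mul_ne_zero two_ne_zero Complex.I_ne_zero) hs
  set D : ℂ := c * (w - w') with hDd
  obtain ⟨q, hq⟩ : ∃ q : SL(2, ℂ),
      (q : Matrix (Fin 2) (Fin 2) ℂ) = !![w - d, (w' - d) / D; c, c / D] := by
    refine ⟨⟨!![w - d, (w' - d) / D; c, c / D], ?_⟩, rfl⟩
    rw [Matrix.det_fin_two_of]
    field_simp
    rw [hDd]; ring
  refine ⟨q, Units.mk0 w hw0, ?_⟩
  · rw [eq_mul_inv_iff_mul_eq]
    apply Subtype.ext
    rw [Matrix.SpecialLinearGroup.coe_mul, Matrix.SpecialLinearGroup.coe_mul, Dh_coe, hq,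
      Matrix.eta_fin_two (A : Matrix (Fin 2) (Fin 2) ℂ)]
    show !![a, b; c, d] * !![w - d, (w' - d) / D; c, c / D]
      = !![w - d, (w' - d) / D; c, c / D] * _
    rw [Matrix.mul_fin_two, Matrix.mul_fin_two]
    simp only [Units.val_mk0, hinv, mul_zero, add_zero, zero_add]
    have hq1 : w * w - (a + d) * w + 1 = 0 := by rw [hx']; linear_combination -hww
    have hq2 : w' * w' - (a + d) * w' + 1 = 0 := by rw [hx']; linear_combination -hww
    ext i j
    fin_cases i <;> fin_cases j
    · simp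
      linear_combination -hq1 - hdet'
    · simp
      field_simp
      linear_combination -hq2 - hdet'
    · simp
      ring
    · simp
      field_simp
      ring

end Pool.Agent.H81
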