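import Pool.Agent.H81.Handle

set_option autoImplicit false
set_option linter.unusedSimpArgs false

open scoped MatrixGroups Topology

namespace Pool.Agent.H81

variable {m : ℕ}

/-- Commuting pairs in `SL(2,ℂ)`. -/
abbrev CP : Type := {p : SL(2, ℂ) × SL(2, ℂ) // Commute p.1 p.2}

theorem comm_eq_one {H : Type*} [Group H] {x y : H} (h : Commute x y) : comm x y = 1 := by
  unfold comm
  rw [h.eq]; group

/-- The representation sending each handle to a commuting pair. -/
def repOf (P : Fin (m + 2) → CP) : SurfaceGroup (m + 2) →* SL(2, ℂ) :=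
  surfLift (fun i => (P i).1.1) (fun i => (P i).1.2) (by
    apply List.prod_eq_one
    intro x hx
    rw [List.mem_ofFn] at hx
    obtain ⟨i, rfl⟩ := hx
    exact comm_eq_one (P i).2)

@[simp] theorem repOf_genA (P : Fin (m + 2) → CP) (i) : repOf P (genA i) = (P i).1.1 := by
  simp [repOf]

@[simp] theorem repOf_genB (P : Fin (m + 2) → CP) (i) : repOf P (genB i) = (P i).1.2 := by
  simp [repOf]

/-- Reachability between tuples of commuting pairs. -/
def TT (P Q : Fin (m + 2) → CP) : Prop := Reach (repOf P) (repOf Q)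

theorem TT.refl (P : Fin (m + 2) → CP) : TT P P := Reach.refl _

theorem TT.trans {P Q R : Fin (m + 2) → CP} (h1 : TT P Q) (h2 : TT Q R) : TT P R :=
  Reach.trans h1 h2

theorem TT.of_tendsto {ι : Type*} {l : Filter ι} [l.NeBot] {P : Fin (m + 2) → CP}
    (Q : ι → Fin (m + 2) → CP) (Q' : Fin (m + 2) → CP) (h : ∀ n, TT P (Q n))
    (hl : Filter.Tendsto Q l (𝓝 Q')) : TT P Q' := by
  apply Reach.of_tendsto (l := l) (fun n => repOf (Q n)) (repOf Q') h
  · intro i
    simp only [repOf_genA]
    exact ((continuous_fst.comp continuous_subtype_val).tendsto _).comp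
      (((continuous_apply i).tendsto _).comp hl)
  · intro i
    simp only [repOf_genB]
    exact ((continuous_snd.comp continuous_subtype_val).tendsto _).comp
      (((continuous_apply i).tendsto _).comp hl)

theorem TT.isClosed (P : Fin (m + 2) → CP) : IsClosed {Q | TT P Q} := by
  rw [isClosed_iff_clusterPt]
  intro Q hQ
  have : (𝓝 Q ⊓ Filter.principal {Q | TT P Q}).NeBot := hQ
  have : (Filter.comap (fun x : {Q // TT P Q} => x.1) (𝓝 Q)).NeBot := by
    rw [Filter.comap_neBot_iff]
    intro t ht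
    have := (Filter.inf_principal_neBot_iff.1 this) t ht
    obtain ⟨x, hx1, hx2⟩ := this
    exact ⟨⟨x, hx2⟩, hx1⟩
  exact TT.of_tendsto (l := Filter.comap (fun x : {Q // TT P Q} => x.1) (𝓝 Q))
    (fun x => x.1) Q (fun x => x.2) Filter.tendsto_comap

theorem TT.of_aut {P Q : Fin (m + 2) → CP} (φ : SurfaceGroup (m + 2) ≃* SurfaceGroup (m + 2))
    (hφ : OrientationPreserving φ) (h : (repOf P).comp φ.toMonoidHom = repOf Q) : TT P Q := by
  unfold TT
  rw [← h]
  exact Reach.of_aut _ _ hφ

/-- Conjugating a commuting pair. -/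
def conjCP (k : SL(2, ℂ)) (p : CP) : CP :=
  ⟨(k * p.1.1 * k⁻¹, k * p.1.2 * k⁻¹), by
    have := p.2.eq
    show k * p.1.1 * k⁻¹ * (k * p.1.2 * k⁻¹) = k * p.1.2 * k⁻¹ * (k * p.1.1 * k⁻¹)
    calc _ = k * (p.1.1 * p.1.2) * k⁻¹ := by group
      _ = k * (p.1.2 * p.1.1) * k⁻¹ := by rw [this]
      _ = _ := by group⟩

theorem TT.conj (P : Fin (m + 2) → CP) (k : SL(2, ℂ)) : TT P (fun i => conjCP k (P i)) := by
  apply Reach.of_conj k
  intro γ
  have : repOf (fun i => conjCP k (P i)) = (MulAut.conj k).toMonoidHom.comp (repOf P) := by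
    apply surf_hom_ext
    · intro i; simp [conjCP]
    · intro i; simp [conjCP]
  rw [this]; simp

/-! ### Permuting the handles -/

theorem repOf_autR (P : Fin (m + 2) → CP) :
    (repOf P).comp (autR m).toMonoidHom = repOf (P ∘ finRotate (m + 2)) := by
  apply surf_hom_ext
  · intro i; simp [autR]
  · intro i; simp [autR]

theorem repOf_autS (P : Fin (m + 2) → CP) :
    (repOf P).comp (autS m).toMonoidHom = repOf (P ∘ Equiv.swap 0 1) := by
  have hc : comm (P 0).1.1 (P 0).1.2 = 1 := comm_eq_one (P 0).2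
  have e : ∀ i : Fin m, Equiv.swap (0 : Fin (m + 2)) 1 i.succ.succ = i.succ.succ := by
    intro i
    apply Equiv.swap_apply_of_ne_of_ne
    · simp [Fin.ext_iff]
    · simp [Fin.ext_iff]
  have hcomm : repOf P (comm (genA 0) (genB 0)) = 1 := by
    simp only [comm, map_mul, map_inv, repOf_genA, repOf_genB]
    exact hc
  apply surf_hom_ext
  · apply forall_fin2
    · simp [autS, hcomm]
    · simp [autS]
    · intro i
      simp only [autS, MonoidHom.comp_apply, MulEquiv.toMonoidHom_eq_coe, MonoidHom.coe_coe,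
        mkAut_genA, c2_succ, repOf_genA, Function.comp, e]
  · apply forall_fin2
    · simp [autS, hcomm]
    · simp [autS]
    · intro i
      simp only [autS, MonoidHom.comp_apply, MulEquiv.toMonoidHom_eq_coe, MonoidHom.coe_coe,
        mkAut_genB, c2_succ, repOf_genB, Function.comp, e]

/-- A permutation of handles is realized if some automorphism does it for all tuples. -/
def Realizable (σ : Equiv.Perm (Fin (m + 2))) : Prop :=
  ∃ φ : SurfaceGroup (m + 2) ≃* SurfaceGroup (m + 2), OrientationPreserving φ ∧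
    ∀ P : Fin (m + 2) → CP, (repOf P).comp φ.toMonoidHom = repOf (P ∘ σ)

theorem real_all (σ : Equiv.Perm (Fin (m + 2))) : Realizable σ := by
  have h := Equiv.Perm.closure_cycle_adjacent_swap (isCycle_finRotate (n := m))
    (support_finRotate (n := m)) 0
  have hσ : σ ∈ Subgroup.closure ({finRotate (m + 2), Equiv.swap 0 (finRotate (m + 2) 0)} :
      Set (Equiv.Perm (Fin (m + 2)))) := by rw [h]; exact Subgroup.mem_top σ
  induction hσ using Subgroup.closure_induction with
  | mem x hx =>
    rcases hx with rfl | hx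
    · exact ⟨autR m, autR_or, repOf_autR⟩
    · rw [Set.mem_singleton_iff] at hx
      subst hx
      refine ⟨autS m, autS_or, ?_⟩
      intro P
      rw [repOf_autS]
      simp
  | one => exact ⟨MulEquiv.refl _, orientationPreserving_refl, fun P => rfl⟩
  | mul x y _ _ hx hy =>
    obtain ⟨φ, h1, h2⟩ := hx
    obtain ⟨ψ, h3, h4⟩ := hy
    refine ⟨ψ.trans φ, h3.trans h1, ?_⟩
    intro P
    have : (repOf P).comp (ψ.trans φ).toMonoidHom
        = ((repOf P).comp φ.toMonoidHom).comp ψ.toMonoidHom := rfl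
    rw [this, h2, h4]
    rfl
  | inv x _ hx =>
    obtain ⟨φ, h1, h2⟩ := hx
    refine ⟨φ.symm, h1.symm, ?_⟩
    intro P
    have := h2 (P ∘ (x⁻¹ : Equiv.Perm (Fin (m + 2))))
    have h3 : (P ∘ (x⁻¹ : Equiv.Perm (Fin (m + 2)))) ∘ x = P := by
      funext i; simp
    rw [h3] at this
    rw [← this]
    ext γ : 1
    simp

theorem TT.perm (P : Fin (m + 2) → CP) (σ : Equiv.Perm (Fin (m + 2))) : TT P (P ∘ σ) := by
  obtain ⟨φ, h1, h2⟩ := real_all σ
  exact TT.of_aut φ h1 (h2 P)

end Pool.Agent.H81
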