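import Pool.Agent.H81.Moves

set_option autoImplicit false
set_option linter.unusedSimpArgs false

open scoped MatrixGroups Topology

namespace Pool.Agent.H81

variable {m : ℕ}

/-- `SL(2,ℤ)` acting on commuting pairs. -/
def actCP (γ : SL(2, ℤ)) (p : CP) : CP :=
  ⟨(p.1.1 ^ (γ 0 0) * p.1.2 ^ (γ 0 1), p.1.1 ^ (γ 1 0) * p.1.2 ^ (γ 1 1)), by
    have h := p.2
    apply Commute.mul_left
    · apply Commute.mul_right
      · exact ((Commute.refl _).zpow_right _).zpow_left _
      · exact (h.zpow_right _).zpow_left _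
    · apply Commute.mul_right
      · exact (h.symm.zpow_right _).zpow_left _
      · exact ((Commute.refl _).zpow_right _).zpow_left _⟩

theorem zpow_aux {H : Type*} [Group H] {x y : H} (h : Commute x y) (p q r s a b : ℤ) :
    (x ^ p * y ^ q) ^ a * (x ^ r * y ^ s) ^ b = x ^ (a * p + b * r) * y ^ (a * q + b * s) := by
  have h1 : (x ^ p * y ^ q) ^ a = x ^ (a * p) * y ^ (a * q) := by
    rw [((h.zpow_right q).zpow_left p).mul_zpow, ← zpow_mul, ← zpow_mul, mul_comm p, mul_comm q]
  have h2 : (x ^ r * y ^ s) ^ b = x ^ (b * r) * y ^ (b * s) := by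
    rw [((h.zpow_right s).zpow_left r).mul_zpow, ← zpow_mul, ← zpow_mul, mul_comm r, mul_comm s]
  rw [h1, h2, zpow_add, zpow_add]
  have h3 : y ^ (a * q) * x ^ (b * r) = x ^ (b * r) * y ^ (a * q) :=
    ((h.symm.zpow_right (b * r)).zpow_left (a * q)).eq
  calc _ = x ^ (a * p) * (y ^ (a * q) * x ^ (b * r)) * y ^ (b * s) := by group
    _ = _ := by rw [h3]; group

theorem actCP_mul (γ δ : SL(2, ℤ)) (p : CP) : actCP (γ * δ) p = actCP γ (actCP δ p) := by
  apply Subtype.ext
  simp only [actCP, Matrix.SpecialLinearGroup.coe_mul, Matrix.mul_apply, Fin.sum_univ_two,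
    Prod.mk.injEq]
  constructor
  · rw [zpow_aux p.2]
  · rw [zpow_aux p.2]

theorem actCP_one (p : CP) : actCP 1 p = p := by
  apply Subtype.ext
  simp [actCP]

/-- An element of `SL(2,ℤ)` acting on the first handle is realized by an automorphism. -/
def RealH (m : ℕ) (γ : SL(2, ℤ)) : Prop :=
  ∃ φ : SurfaceGroup (m + 2) ≃* SurfaceGroup (m + 2), OrientationPreserving φ ∧
    ∀ P : Fin (m + 2) → CP, (repOf P).comp φ.toMonoidHom
      = repOf (Function.update P 0 (actCP γ (P 0)))

theorem RealH.mul {γ δ : SL(2, ℤ)} (h1 : RealH m γ) (h2 : RealH m δ) : RealH m (γ * δ) := by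
  obtain ⟨φ, hφ, h1⟩ := h1
  obtain ⟨ψ, hψ, h2⟩ := h2
  refine ⟨φ.trans ψ, hφ.trans hψ, ?_⟩
  intro P
  have : (repOf P).comp (φ.trans ψ).toMonoidHom
      = ((repOf P).comp ψ.toMonoidHom).comp φ.toMonoidHom := rfl
  rw [this, h2, h1]
  congr 1
  simp [actCP_mul]

theorem RealH.inv {γ : SL(2, ℤ)} (h1 : RealH m γ) : RealH m γ⁻¹ := by
  obtain ⟨φ, hφ, h1⟩ := h1
  refine ⟨φ.symm, hφ.symm, ?_⟩
  intro P
  have h2 := h1 (Function.update P 0 (actCP γ⁻¹ (P 0)))
  have h3 : Function.update (Function.update P 0 (actCP γ⁻¹ (P 0))) 0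
      (actCP γ ((Function.update P 0 (actCP γ⁻¹ (P 0))) 0)) = P := by
    rw [Function.update_idem, Function.update_self, ← actCP_mul, mul_inv_cancel, actCP_one]
    exact Function.update_eq_self 0 P
  rw [h3] at h2
  rw [← h2]
  ext γ : 1
  simp

theorem realH_T : RealH m ModularGroup.T := by
  refine ⟨autA m 1, autA_or 1, ?_⟩
  intro P
  have h1 : ∀ i : Fin m, i.succ.succ ≠ (0 : Fin (m + 2)) := by
    intro i; simp [Fin.ext_iff]
  apply surf_hom_ext
  · apply forall_fin2
    · simp [autA, actCP, ModularGroup.coe_T]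
    · simp [autA]
    · intro i
      simp only [autA, MonoidHom.comp_apply, MulEquiv.toMonoidHom_eq_coe, MonoidHom.coe_coe,
        mkAut_genA, c2_succ, repOf_genA, Function.update_of_ne (h1 i)]
  · apply forall_fin2
    · simp [autA, actCP, ModularGroup.coe_T]
    · simp [autA]
    · intro i
      simp only [autA, MonoidHom.comp_apply, MulEquiv.toMonoidHom_eq_coe, MonoidHom.coe_coe,
        mkAut_genB, repOf_genB, Function.update_of_ne (h1 i)]

/-- The lower triangular elementary matrix. -/
def lowerU : SL(2, ℤ) := ⟨!![1, 0; 1, 1], by simp [Matrix.det_fin_two]⟩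

theorem realH_U : RealH m lowerU := by
  refine ⟨autB m 1, autB_or 1, ?_⟩
  intro P
  have h1 : ∀ i : Fin m, i.succ.succ ≠ (0 : Fin (m + 2)) := by
    intro i; simp [Fin.ext_iff]
  have hc := (P 0).2.eq
  apply surf_hom_ext
  · apply forall_fin2
    · simp [autB, actCP, lowerU]
    · simp [autB]
    · intro i
      simp only [autB, MonoidHom.comp_apply, MulEquiv.toMonoidHom_eq_coe, MonoidHom.coe_coe,
        mkAut_genA, repOf_genA, Function.update_of_ne (h1 i)]
  · apply forall_fin2
    · simp [autB, actCP, lowerU, hc]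
    · simp [autB]
    · intro i
      simp only [autB, MonoidHom.comp_apply, MulEquiv.toMonoidHom_eq_coe, MonoidHom.coe_coe,
        mkAut_genB, c2_succ, repOf_genB, Function.update_of_ne (h1 i)]

theorem realH_S : RealH m ModularGroup.S := by
  have h : (ModularGroup.S : SL(2, ℤ)) = ModularGroup.T⁻¹ * lowerU * ModularGroup.T⁻¹ := by
    rw [eq_mul_inv_iff_mul_eq, eq_inv_mul_iff_mul_eq]
    ext i j
    fin_cases i <;> fin_cases j <;>
      simp [lowerU, ModularGroup.coe_S, ModularGroup.coe_T, Matrix.mul_apply, Fin.sum_univ_two]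
  rw [h]
  exact (realH_T.inv.mul realH_U).mul realH_T.inv

theorem realH_all (γ : SL(2, ℤ)) : RealH m γ := by
  have hγ : γ ∈ Subgroup.closure ({ModularGroup.S, ModularGroup.T} : Set SL(2, ℤ)) := by
    rw [SpecialLinearGroup.SL2Z_generators]; exact Subgroup.mem_top γ
  induction hγ using Subgroup.closure_induction with
  | mem x hx =>
    rcases hx with rfl | hx
    · exact realH_S
    · rw [Set.mem_singleton_iff] at hx
      subst hx
      exact realH_T
  | one => exact ⟨MulEquiv.refl _, orientationPreserving_refl, fun P => by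
      rw [actCP_one, Function.update_eq_self]; rfl⟩
  | mul x y _ _ hx hy => exact hx.mul hy
  | inv x _ hx => exact hx.inv

theorem TT.act0 (P : Fin (m + 2) → CP) (γ : SL(2, ℤ)) :
    TT P (Function.update P 0 (actCP γ (P 0))) := by
  obtain ⟨φ, h1, h2⟩ := realH_all (m := m) γ
  exact TT.of_aut φ h1 (h2 P)

theorem exists_perm (i j : Fin (m + 2)) (hij : i ≠ j) :
    ∃ σ : Equiv.Perm (Fin (m + 2)), σ 0 = i ∧ σ 1 = j := by
  have h01 : (0 : Fin (m + 2)) ≠ 1 := by simp [Fin.ext_iff]
  set j' := Equiv.swap 0 i j with hj'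
  have h2 : j' ≠ 0 := by
    intro h
    apply hij
    have : Equiv.swap 0 i j' = Equiv.swap 0 i 0 := by rw [h]
    rw [hj', Equiv.swap_apply_self, Equiv.swap_apply_left] at this
    exact this.symm
  refine ⟨Equiv.swap 0 i * Equiv.swap 1 j', ?_, ?_⟩
  · rw [Equiv.Perm.mul_apply, Equiv.swap_apply_of_ne_of_ne h01 h2.symm, Equiv.swap_apply_left]
  · rw [Equiv.Perm.mul_apply, Equiv.swap_apply_left, hj', Equiv.swap_apply_self]

/-- Transport of a move at the handles `0`, `1` to arbitrary handles. -/
theorem TT.transport {P : Fin (m + 2) → CP} {v : CP} (σ : Equiv.Perm (Fin (m + 2)))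
    (k : Fin (m + 2)) (h : TT (P ∘ σ) (Function.update (P ∘ σ) k v)) :
    TT P (Function.update P (σ k) v) := by
  have h1 := TT.perm P σ
  have h2 := TT.perm (Function.update (P ∘ σ) k v) σ⁻¹
  have h3 : (Function.update (P ∘ σ) k v) ∘ (σ⁻¹ : Equiv.Perm _) = Function.update P (σ k) v := by
    funext x
    simp only [Function.comp]
    by_cases hx : x = σ k
    · subst hx; simp
    · have : σ⁻¹ x ≠ k := by
        intro h; apply hx; rw [← h]; simp
      rw [Function.update_of_ne this, Function.update_of_ne hx]; simp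
  rw [h3] at h2
  exact (h1.trans h).trans h2

theorem TT.act (P : Fin (m + 2) → CP) (i : Fin (m + 2)) (γ : SL(2, ℤ)) :
    TT P (Function.update P i (actCP γ (P i))) := by
  have h01 : (0 : Fin (m + 2)) ≠ 1 := by simp [Fin.ext_iff]
  have : TT P (Function.update P (Equiv.swap 0 i 0) (actCP γ (P i))) := by
    apply TT.transport
    have := TT.act0 (P ∘ Equiv.swap 0 i) γ
    simpa using this
  simpa using this

/-- A commuting pair with trivial second component. -/
def sngl (x : SL(2, ℂ)) : CP := ⟨(x, 1), Commute.one_right x⟩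

theorem TT.mul01 (P : Fin (m + 2) → CP) (x : SL(2, ℂ)) (hP : P 1 = sngl x) :
    TT P (Function.update P 1 (sngl ((P 0).1.2 * x))) := by
  have h10 : (1 : Fin (m + 2)) ≠ 0 := by simp [Fin.ext_iff]
  have hs0 : ∀ i : Fin m, i.succ.succ ≠ (0 : Fin (m + 2)) := by
    intro i; simp [Fin.ext_iff]
  have hs1 : ∀ i : Fin m, i.succ.succ ≠ (1 : Fin (m + 2)) := by
    intro i; simp [Fin.ext_iff]
  set Q := Function.update P 1 (sngl ((P 0).1.2 * x)) with hQ
  have h1 : (repOf P).comp (autZ m).toMonoidHom
      = repOf (Function.update Q 0 (actCP ModularGroup.T⁻¹ (Q 0))) := by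
    have hz : repOf P (zc m) = ((P 0).1.2)⁻¹ := by
      simp [zc, hP, sngl]
    have hcc := ((P 0).2.symm.eq)
    have hQ0 : Q 0 = P 0 := by rw [hQ, Function.update_of_ne h10.symm]
    apply surf_hom_ext
    · apply forall_fin2
      · simp [autZ, hz, hQ0, actCP, ModularGroup.coe_T_inv]
      · simp [autZ, hz, hQ, sngl, Function.update_of_ne h10, hP]
      · intro i
        simp only [autZ, MonoidHom.comp_apply, MulEquiv.toMonoidHom_eq_coe, MonoidHom.coe_coe,
          mkAut_genA, c2_succ, repOf_genA, hQ, Function.update_of_ne (hs0 i),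
          Function.update_of_ne (hs1 i)]
    · apply forall_fin2
      · simp [autZ, hz, hQ0, actCP, ModularGroup.coe_T_inv]
      · simp [autZ, hz, hQ, sngl, Function.update_of_ne h10, hP]
      · intro i
        simp only [autZ, MonoidHom.comp_apply, MulEquiv.toMonoidHom_eq_coe, MonoidHom.coe_coe,
          mkAut_genB, c2_succ, repOf_genB, hQ, Function.update_of_ne (hs0 i),
          Function.update_of_ne (hs1 i)]
  have h2 := TT.of_aut (autZ m) autZ_or h1
  have h3 := TT.act0 (Function.update Q 0 (actCP ModularGroup.T⁻¹ (Q 0))) ModularGroup.T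
  have h4 : Function.update (Function.update Q 0 (actCP ModularGroup.T⁻¹ (Q 0))) 0
      (actCP ModularGroup.T ((Function.update Q 0 (actCP ModularGroup.T⁻¹ (Q 0))) 0)) = Q := by
    rw [Function.update_idem, Function.update_self, ← actCP_mul, mul_inv_cancel, actCP_one]
    exact Function.update_eq_self 0 Q
  rw [h4] at h3
  exact h2.trans h3

theorem TT.mul (P : Fin (m + 2) → CP) {i j : Fin (m + 2)} (hij : i ≠ j) (x : SL(2, ℂ))
    (hP : P j = sngl x) : TT P (Function.update P j (sngl ((P i).1.2 * x))) := by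
  obtain ⟨σ, h0, h1⟩ := exists_perm i j hij
  have := TT.transport (P := P) (v := sngl ((P i).1.2 * x)) σ 1 (by
    have := TT.mul01 (P ∘ σ) x (by simp [h1, hP])
    simpa [h0] using this)
  rwa [h1] at this

/-- Left multiplication of the handle `j` by a primitive product of the handle `i`. -/
theorem TT.mul_act (P : Fin (m + 2) → CP) {i j : Fin (m + 2)} (hij : i ≠ j) (x : SL(2, ℂ))
    (hP : P j = sngl x) (γ : SL(2, ℤ)) :
    TT P (Function.update P j (sngl ((actCP γ (P i)).1.2 * x))) := by
  have h1 := TT.act P i γ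
  set P1 := Function.update P i (actCP γ (P i)) with hP1
  have h2 := TT.mul P1 hij x (by rw [hP1, Function.update_of_ne hij.symm, hP])
  have hP1i : P1 i = actCP γ (P i) := by rw [hP1, Function.update_self]
  rw [hP1i] at h2
  set P2 := Function.update P1 j (sngl ((actCP γ (P i)).1.2 * x)) with hP2
  have h3 := TT.act P2 i γ⁻¹
  have hP2i : P2 i = actCP γ (P i) := by rw [hP2, Function.update_of_ne hij, hP1i]
  rw [hP2i, ← actCP_mul, inv_mul_cancel, actCP_one] at h3
  have h4 : Function.update P2 i (P i)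
      = Function.update P j (sngl ((actCP γ (P i)).1.2 * x)) := by
    rw [hP2, hP1, Function.update_comm hij.symm, Function.update_idem, Function.update_eq_self]
  rw [h4] at h3
  exact (h1.trans h2).trans h3

end Pool.Agent.H81
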