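import Pool.Agent.H81.Curve

/-!
# The two necklaces of circles
-/

set_option autoImplicit false
set_option linter.unusedSimpArgs false

open scoped MatrixGroups Topology ComplexConjugate

namespace Pool.Agent.H81

/-- Neighbours in a cycle. -/
def adjC (n : ℕ) (i j : Fin n) : Prop :=
  (i : ℕ) + 1 = j ∨ (j : ℕ) + 1 = i ∨ ((i : ℕ) = 0 ∧ (j : ℕ) + 1 = n) ∨
    ((j : ℕ) = 0 ∧ (i : ℕ) + 1 = n)

instance (n : ℕ) : DecidableRel (adjC n) := fun i j => by unfold adjC; infer_instance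

theorem adjC_symm {n : ℕ} (i j : Fin n) (h : adjC n i j) : adjC n j i := by
  unfold adjC at *; tauto

theorem adjC_irr {n : ℕ} (hn : 2 ≤ n) (i : Fin n) : ¬ adjC n i i := by
  unfold adjC; omega

/-- A model from a configuration of circles. -/
noncomputable def mkModel {ι : Type*} [DecidableEq ι] {adj : ι → ι → Prop} [DecidableRel adj]
    (m : ι → ℂ) (r : ι → ℝ) (C : ℝ) (hr : ∀ i, 0 < r i) (hC : ∀ i, r i ≤ C) (hC0 : 0 < C)
    (hadj : ∀ i j, adj i j → ‖m i - m j‖ ^ 2 = r i ^ 2 + r j ^ 2)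
    (hnon : ∀ i j, i ≠ j → ¬ adj i j → (r i + r j) ^ 2 < ‖m i - m j‖ ^ 2)
    (hs : ∀ i j, adj i j → adj j i) (hirr : ∀ i, ¬ adj i i) : RModel adj Sp where
  B := BS
  sy := BS_symm
  v := fun i => circ (m i) (r i)
  one := by
    intro i
    rw [BS_circ_circ _ _ _ _ (hr i).ne' (hr i).ne']
    have := (hr i).ne'
    simp
    field_simp
    ring
  zer := by
    intro i j h
    rw [BS_circ_circ _ _ _ _ (hr i).ne' (hr j).ne', ← Complex.sq_norm, hadj i j h]
    simp
  neg := by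
    intro i j h1 h2
    rw [BS_circ_circ _ _ _ _ (hr i).ne' (hr j).ne', ← Complex.sq_norm]
    have h3 := hr i
    have h4 := hr j
    rw [div_lt_iff₀ (by positivity)]
    have := hnon i j h1 h2
    linarith
  x0 := inft
  c := 1 / (2 * C)
  hc := by positivity
  hx0 := by
    intro i
    rw [BS_inft]
    have h3 := hr i
    have : 1 / C ≤ 1 / r i := one_div_le_one_div_of_le h3 (hC i)
    show -(1 / r i) / 2 ≤ -(1 / (2 * C))
    have h4 : 1 / (2 * C) = 1 / C / 2 := by field_simp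
    rw [h4]; linarith
  adj_symm := hs
  adj_irr := hirr

/-- Directions. -/
noncomputable def dr (φ : ℝ) (k : ℕ) : ℂ := Complex.exp ((k * φ : ℝ) * Complex.I)

theorem norm_dr (φ : ℝ) (k : ℕ) : ‖dr φ k‖ = 1 := Complex.norm_exp_ofReal_mul_I _

theorem dr_re (φ : ℝ) (k : ℕ) : (dr φ k).re = Real.cos (k * φ) := Complex.exp_ofReal_mul_I_re _
theorem dr_im (φ : ℝ) (k : ℕ) : (dr φ k).im = Real.sin (k * φ) := Complex.exp_ofReal_mul_I_im _

theorem norm_sub_dr (φ : ℝ) (j k : ℕ) (R R' : ℝ) :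
    ‖(R : ℂ) * dr φ j - (R' : ℂ) * dr φ k‖ ^ 2
      = R ^ 2 + R' ^ 2 - 2 * R * R' * Real.cos (((j : ℝ) - k) * φ) := by
  rw [Complex.sq_norm, Complex.normSq_apply]
  simp only [Complex.sub_re, Complex.sub_im, Complex.mul_re, Complex.mul_im, Complex.ofReal_re,
    Complex.ofReal_im, dr_re, dr_im]
  rw [show ((j : ℝ) - k) * φ = j * φ - k * φ by ring, Real.cos_sub]
  have h1 := Real.sin_sq_add_cos_sq (j * φ)
  have h2 := Real.sin_sq_add_cos_sq (k * φ)
  linear_combination R ^ 2 * h1 + R' ^ 2 * h2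

/-- Cosine bound. -/
theorem cos_bound {N m D : ℕ} (hN : 0 < N) (h1 : m ≤ D) (h2 : D + m ≤ 2 * N) :
    Real.cos (D * (Real.pi / N)) ≤ Real.cos (m * (Real.pi / N)) := by
  have hNR : (0 : ℝ) < N := by exact_mod_cast hN
  have hpi := Real.pi_pos
  have hφ : 0 < Real.pi / N := by positivity
  have key : ∀ D : ℕ, m ≤ D → D ≤ N → Real.cos (D * (Real.pi / N)) ≤ Real.cos (m * (Real.pi / N)) := by
    intro D h1 h2
    apply Real.cos_le_cos_of_nonneg_of_le_pi
    · positivity
    · have : (D : ℝ) ≤ N := by exact_mod_cast h2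
      calc (D : ℝ) * (Real.pi / N) ≤ N * (Real.pi / N) := by gcongr
        _ = Real.pi := by field_simp
    · have : (m : ℝ) ≤ D := by exact_mod_cast h1
      gcongr
  by_cases h3 : D ≤ N
  · exact key D h1 h3
  · push Not at h3
    have h4 : D ≤ 2 * N := by omega
    have h5 := key (2 * N - D) (by omega) (by omega)
    rw [Nat.cast_sub h4] at h5
    have : ((2 * N : ℕ) - (D : ℝ)) * (Real.pi / N) = 2 * Real.pi - D * (Real.pi / N) := by
      push_cast
      field_simp
    rw [this, Real.cos_two_pi_sub] at h5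
    exact h5

theorem cos_adj {N : ℕ} (hN : 0 < N) (i j : Fin (2 * N)) (h : adjC (2 * N) i j) :
    Real.cos (((i : ℕ) - (j : ℕ) : ℝ) * (Real.pi / N)) = Real.cos (Real.pi / N) := by
  have hNR : (0 : ℝ) < N := by exact_mod_cast hN
  rcases h with h | h | ⟨h1, h2⟩ | ⟨h1, h2⟩
  · have : ((j : ℕ) : ℝ) = (i : ℕ) + 1 := by exact_mod_cast h.symm
    rw [this, show ((i : ℕ) - ((i : ℕ) + 1) : ℝ) * (Real.pi / N) = -(Real.pi / N) by ring,
      Real.cos_neg]
  · have : ((i : ℕ) : ℝ) = (j : ℕ) + 1 := by exact_mod_cast h.symm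
    rw [this, show (((j : ℕ) + 1) - (j : ℕ) : ℝ) * (Real.pi / N) = (Real.pi / N) by ring]
  · have e1 : ((i : ℕ) : ℝ) = 0 := by exact_mod_cast h1
    have e2 : ((j : ℕ) : ℝ) = 2 * N - 1 := by
      have : ((j : ℕ) : ℝ) + 1 = 2 * N := by exact_mod_cast h2
      linarith
    rw [e1, e2, show ((0 : ℝ) - (2 * N - 1)) * (Real.pi / N) = Real.pi / N - 2 * Real.pi by
      field_simp; ring, Real.cos_sub_two_pi]
  · have e1 : ((j : ℕ) : ℝ) = 0 := by exact_mod_cast h1
    have e2 : ((i : ℕ) : ℝ) = 2 * N - 1 := by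
      have : ((i : ℕ) : ℝ) + 1 = 2 * N := by exact_mod_cast h2
      linarith
    rw [e1, e2, show ((2 * N - 1 : ℝ) - 0) * (Real.pi / N) = 2 * Real.pi - Real.pi / N by
      field_simp; ring, Real.cos_two_pi_sub]

/-- Cosine bound in terms of indices. -/
theorem cos_nonadj {N : ℕ} (hN : 0 < N) (i j : Fin (2 * N)) (m : ℕ)
    (h : m ≤ (max (i : ℕ) j - min (i : ℕ) j) ∧ (max (i : ℕ) j - min (i : ℕ) j) + m ≤ 2 * N) :
    Real.cos (((i : ℕ) - (j : ℕ) : ℝ) * (Real.pi / N)) ≤ Real.cos (m * (Real.pi / N)) := by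
  have key := cos_bound hN h.1 h.2
  rcases le_total (i : ℕ) (j : ℕ) with hij | hij
  · rw [max_eq_right hij, min_eq_left hij, Nat.cast_sub hij] at key
    rw [← Real.cos_neg]
    rw [show -(((i : ℕ) - (j : ℕ) : ℝ) * (Real.pi / N)) = ((j : ℕ) - (i : ℕ) : ℝ) * (Real.pi / N) by
      ring]
    exact key
  · rw [max_eq_left hij, min_eq_right hij, Nat.cast_sub hij] at key
    exact key

theorem cos_two (x : ℝ) : Real.cos ((2 : ℕ) * x) = 2 * Real.cos x ^ 2 - 1 := by
  push_cast; exact Real.cos_two_mul x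

theorem cos_three (x : ℝ) : Real.cos ((3 : ℕ) * x) = 4 * Real.cos x ^ 3 - 3 * Real.cos x := by
  push_cast; exact Real.cos_three_mul x

/-! ### The constants -/

/-- `φ = π / N`, `N = g + 1`. -/
noncomputable def phi (g : ℕ) : ℝ := Real.pi / ((g + 1 : ℕ) : ℝ)
noncomputable def mu (g : ℕ) : ℝ := 1 / Real.cos (phi g)

theorem phi_pos (g : ℕ) : 0 < phi g := by
  unfold phi; have := Real.pi_pos; positivity

theorem phi_le {g : ℕ} (hg : 2 ≤ g) : phi g ≤ Real.pi / 3 := by
  unfold phi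
  have := Real.pi_pos
  have : (3 : ℝ) ≤ ((g + 1 : ℕ) : ℝ) := by exact_mod_cast (by omega : 3 ≤ g + 1)
  gcongr

theorem cos_phi_ge {g : ℕ} (hg : 2 ≤ g) : 1 / 2 ≤ Real.cos (phi g) := by
  rw [← Real.cos_pi_div_three]
  have := Real.pi_pos
  apply Real.cos_le_cos_of_nonneg_of_le_pi (phi_pos g).le (by linarith) (phi_le hg)

theorem cos_phi_lt {g : ℕ} (hg : 2 ≤ g) : Real.cos (phi g) < 1 := by
  rw [← Real.cos_zero]
  have := Real.pi_pos
  exact Real.cos_lt_cos_of_nonneg_of_le_pi le_rfl (by linarith [phi_le hg]) (phi_pos g)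

theorem mu_mul {g : ℕ} (hg : 2 ≤ g) : mu g * Real.cos (phi g) = 1 := by
  have := cos_phi_ge hg
  unfold mu
  rw [one_div, inv_mul_cancel₀]
  linarith

theorem one_lt_mu {g : ℕ} (hg : 2 ≤ g) : 1 < mu g := by
  have h1 := cos_phi_ge hg
  have h2 := cos_phi_lt hg
  unfold mu
  rw [lt_div_iff₀ (by linarith)]
  linarith

theorem mu_le {g : ℕ} (hg : 2 ≤ g) : mu g ≤ 2 := by
  have h1 := cos_phi_ge hg
  unfold mu
  rw [div_le_iff₀ (by linarith)]
  linarith

/-! ### The Fuchsian model -/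

/-- The Fuchsian necklace. -/
noncomputable def M0 (g : ℕ) (hg : 2 ≤ g) : RModel (adjC (2 * (g + 1))) Sp :=
  mkModel (fun k => (Real.sqrt (mu g) : ℂ) * dr (phi g) k) (fun _ => Real.sqrt (mu g - 1))
    (Real.sqrt (mu g - 1))
    (fun _ => Real.sqrt_pos.2 (by linarith [one_lt_mu hg])) (fun _ => le_rfl)
    (Real.sqrt_pos.2 (by linarith [one_lt_mu hg]))
    (by
      intro i j h
      have h1 := one_lt_mu hg
      have h2 := mu_mul hg
      rw [norm_sub_dr, phi, cos_adj (Nat.succ_pos g) i j h, Real.sq_sqrt (by linarith),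
        Real.sq_sqrt (by linarith)]
      rw [phi] at h2
      have h3 : Real.sqrt (mu g) * Real.sqrt (mu g) = mu g := Real.mul_self_sqrt (by linarith)
      linear_combination (-2 * Real.cos (Real.pi / ((g + 1 : ℕ) : ℝ))) * h3 - 2 * h2)
    (by
      intro i j h1 h2
      have h3 := one_lt_mu hg
      have h4 := mu_mul hg
      have h5 := cos_phi_lt hg
      have h6 := cos_phi_ge hg
      have hb := cos_nonadj (Nat.succ_pos g) i j 2 (by
        unfold adjC at h2
        have : (i : ℕ) ≠ j := fun h => h1 (Fin.ext h)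
        omega)
      rw [cos_two] at hb
      rw [norm_sub_dr]
      unfold phi at *
      set x := Real.cos (((i : ℕ) - (j : ℕ) : ℝ) * (Real.pi / ((g + 1 : ℕ) : ℝ))) with hx
      set c := Real.cos (Real.pi / ((g + 1 : ℕ) : ℝ)) with hc
      have e1 : Real.sqrt (mu g) ^ 2 = mu g := Real.sq_sqrt (by linarith)
      have e2 : Real.sqrt (mu g - 1) ^ 2 = mu g - 1 := Real.sq_sqrt (by linarith)
      have e3 : 2 * Real.sqrt (mu g) * Real.sqrt (mu g) * x = 2 * (mu g) * x := by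
        linear_combination (2 * x) * e1
      rw [e3, e1, show (Real.sqrt (mu g - 1) + Real.sqrt (mu g - 1)) ^ 2
        = 4 * Real.sqrt (mu g - 1) ^ 2 by ring, e2]
      have hx' : mu g * x ≤ mu g * (2 * c ^ 2 - 1) := by gcongr
      have : mu g * (2 * c ^ 2 - 1) = 2 * c - mu g := by linear_combination (2 * c) * h4
      linarith)
    adjC_symm (adjC_irr (by omega))

/-- The radii of the quasi-Fuchsian necklace. -/
noncomputable def RQ (g : ℕ) (t : ℝ) (k : ℕ) : ℝ := if k % 2 = 0 then t else mu g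
noncomputable def rQ2 (g : ℕ) (t : ℝ) (k : ℕ) : ℝ :=
  if k % 2 = 0 then t ^ 2 - 1 else mu g ^ 2 + 1 - 2 * t

theorem rQ2_pos {g : ℕ} (hg : 2 ≤ g) {t : ℝ} (h1 : 1 < t) (h2 : t ≤ mu g) (k : ℕ) :
    0 < rQ2 g t k := by
  have h3 := one_lt_mu hg
  unfold rQ2
  split_ifs
  · nlinarith
  · nlinarith [mul_pos (show 0 < mu g - 1 by linarith) (show 0 < mu g - 1 by linarith)]

/-- The key inequality between an even and an odd circle. -/
theorem mixed_ineq {t μ c x a b : ℝ} (h1 : 1 < t) (h2 : t < μ) (h3 : 1 < μ) (h4 : μ * c = 1)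
    (h5 : c < 1) (h6 : 1 / 2 ≤ c) (h7 : t ^ 2 * c ^ 2 < 1) (hx : x ≤ 4 * c ^ 3 - 3 * c)
    (ha : a ^ 2 = t ^ 2 - 1) (hb : b ^ 2 = μ ^ 2 + 1 - 2 * t) (hb0 : 0 < b) :
    (a + b) ^ 2 < t ^ 2 + μ ^ 2 - 2 * t * μ * x := by
  have hm : t * μ * x ≤ t * μ * (4 * c ^ 3 - 3 * c) := by gcongr
  have e : t * μ * (4 * c ^ 3 - 3 * c) = t * (4 * c ^ 2 - 3) := by
    linear_combination (t * (4 * c ^ 2 - 3)) * h4
  have hab : a * b < t * (4 - 4 * c ^ 2) := by
    have hc2 : 0 < 1 - c ^ 2 := by nlinarith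
    have hpos : 0 < t * (4 - 4 * c ^ 2) := by nlinarith
    apply lt_of_pow_lt_pow_left₀ 2 hpos.le
    rw [mul_pow, ha, hb]
    have k1 : t ^ 2 - 1 < t ^ 2 * (1 - c ^ 2) := by nlinarith
    have k2 : μ ^ 2 + 1 - 2 * t < μ ^ 2 - 1 := by linarith
    have k3 : μ ^ 2 - 1 ≤ 4 * (1 - c ^ 2) := by
      have : μ ^ 2 - 1 = μ ^ 2 * (1 - c ^ 2) := by
        have : μ ^ 2 * c ^ 2 = 1 := by rw [← mul_pow, h4]; ring
        linarith
      rw [this]
      have hm2 : μ ≤ 2 := by nlinarith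
      have : μ ^ 2 ≤ 4 := by nlinarith
      nlinarith
    have k4 : 0 < t ^ 2 - 1 := by nlinarith
    have k5 : 0 < μ ^ 2 + 1 - 2 * t := by rw [← hb]; positivity
    calc (t ^ 2 - 1) * (μ ^ 2 + 1 - 2 * t) < (t ^ 2 * (1 - c ^ 2)) * (4 * (1 - c ^ 2)) := by
          apply mul_lt_mul k1 (by linarith) k5 (by positivity)
      _ ≤ (t * (4 - 4 * c ^ 2)) ^ 2 := by
          have : (t * (4 - 4 * c ^ 2)) ^ 2 = 16 * (t ^ 2 * (1 - c ^ 2) ^ 2) := by ring
          rw [this]
          have : 0 ≤ t ^ 2 * (1 - c ^ 2) ^ 2 := by positivity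
          nlinarith
  have : (a + b) ^ 2 = t ^ 2 + μ ^ 2 - 2 * t + 2 * (a * b) := by
    linear_combination ha + hb
  rw [this]
  nlinarith

/-- The quasi-Fuchsian necklaces. -/
noncomputable def MQ (g : ℕ) (hg : 2 ≤ g) (t : ℝ) (h1 : 1 < t) (h2 : t < mu g) :
    RModel (adjC (2 * (g + 1))) Sp :=
  mkModel (fun k => (RQ g t k : ℂ) * dr (phi g) k) (fun k => Real.sqrt (rQ2 g t k))
    2
    (fun k => Real.sqrt_pos.2 (rQ2_pos hg h1 h2.le k))
    (by
      intro k
      rw [Real.sqrt_le_left (by norm_num)]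
      have h3 := one_lt_mu hg
      have h4 := mu_le hg
      unfold rQ2
      split_ifs <;> nlinarith)
    (by norm_num)
    (by
      intro i j h
      have h3 := one_lt_mu hg
      have h4 := mu_mul hg
      rw [norm_sub_dr, phi, cos_adj (Nat.succ_pos g) i j h, Real.sq_sqrt (rQ2_pos hg h1 h2.le _).le,
        Real.sq_sqrt (rQ2_pos hg h1 h2.le _).le]
      rw [phi] at h4
      unfold adjC at h
      unfold RQ rQ2
      rcases Nat.mod_two_eq_zero_or_one (i : ℕ) with hi | hi <;>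
      rcases Nat.mod_two_eq_zero_or_one (j : ℕ) with hj | hj
      · omega
      · rw [if_pos hi, if_neg (by omega), if_pos hi, if_neg (by omega)]
        linear_combination (-2 * t) * h4
      · rw [if_neg (by omega), if_pos hj, if_neg (by omega), if_pos hj]
        linear_combination (-2 * t) * h4
      · omega)
    (by
      intro i j hij hnadj
      have h3 := one_lt_mu hg
      have h4 := mu_mul hg
      have h5 := cos_phi_lt hg
      have h6 := cos_phi_ge hg
      have hne : (i : ℕ) ≠ j := fun h => hij (Fin.ext h)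
      have hb := cos_nonadj (Nat.succ_pos g) i j 2 (by unfold adjC at hnadj; omega)
      have hb3 : (i : ℕ) % 2 ≠ (j : ℕ) % 2 →
          Real.cos (((i : ℕ) - (j : ℕ) : ℝ) * (Real.pi / ((g + 1 : ℕ) : ℝ)))
            ≤ Real.cos ((3 : ℕ) * (Real.pi / ((g + 1 : ℕ) : ℝ))) := by
        intro hpar
        apply cos_nonadj (Nat.succ_pos g) i j 3
        unfold adjC at hnadj; omega
      rw [cos_two] at hb
      rw [cos_three] at hb3
      rw [norm_sub_dr]
      unfold phi at *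
      set x := Real.cos (((i : ℕ) - (j : ℕ) : ℝ) * (Real.pi / ((g + 1 : ℕ) : ℝ))) with hx
      set c := Real.cos (Real.pi / ((g + 1 : ℕ) : ℝ)) with hc
      have p1 := rQ2_pos hg h1 h2.le i
      have p2 := rQ2_pos hg h1 h2.le j
      have s1 := Real.sq_sqrt p1.le
      have s2 := Real.sq_sqrt p2.le
      have q1 := Real.sqrt_pos.2 p1
      have q2 := Real.sqrt_pos.2 p2
      have htc : t * c < 1 := by rw [← h4]; gcongr
      have htc2 : t ^ 2 * c ^ 2 < 1 := by
        have : 0 < t * c := by positivity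
        nlinarith
      rcases Nat.mod_two_eq_zero_or_one (i : ℕ) with hi | hi <;>
      rcases Nat.mod_two_eq_zero_or_one (j : ℕ) with hj | hj
      · have e1 : RQ g t i = t := if_pos hi
        have e2 : RQ g t j = t := if_pos hj
        have e3 : rQ2 g t i = t ^ 2 - 1 := if_pos hi
        have e4 : rQ2 g t j = t ^ 2 - 1 := if_pos hj
        rw [e3] at s1 q1
        rw [e4] at s2 q2
        rw [e1, e2, e3, e4]
        have hx' : t ^ 2 * x ≤ t ^ 2 * (2 * c ^ 2 - 1) := by gcongr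
        have : (Real.sqrt (t ^ 2 - 1) + Real.sqrt (t ^ 2 - 1)) ^ 2 = 4 * (t ^ 2 - 1) := by
          rw [← two_mul, mul_pow, s1]; ring
        rw [this]
        linarith
      · have e1 : RQ g t i = t := if_pos hi
        have e2 : RQ g t j = mu g := if_neg (by omega)
        have e3 : rQ2 g t i = t ^ 2 - 1 := if_pos hi
        have e4 : rQ2 g t j = mu g ^ 2 + 1 - 2 * t := if_neg (by omega)
        have hx3 := hb3 (by omega)
        rw [e3] at s1 q1
        rw [e4] at s2 q2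
        rw [e1, e2, e3, e4]
        exact mixed_ineq h1 h2 h3 h4 h5 h6 htc2 hx3 s1 s2 q2
      · have e1 : RQ g t i = mu g := if_neg (by omega)
        have e2 : RQ g t j = t := if_pos hj
        have e3 : rQ2 g t i = mu g ^ 2 + 1 - 2 * t := if_neg (by omega)
        have e4 : rQ2 g t j = t ^ 2 - 1 := if_pos hj
        have hx3 := hb3 (by omega)
        rw [e3] at s1 q1
        rw [e4] at s2 q2
        rw [e1, e2, e3, e4]
        have := mixed_ineq h1 h2 h3 h4 h5 h6 htc2 hx3 s2 s1 q1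
        linarith
      · have e1 : RQ g t i = mu g := if_neg (by omega)
        have e2 : RQ g t j = mu g := if_neg (by omega)
        have e3 : rQ2 g t i = mu g ^ 2 + 1 - 2 * t := if_neg (by omega)
        have e4 : rQ2 g t j = mu g ^ 2 + 1 - 2 * t := if_neg (by omega)
        rw [e3] at s1 q1
        rw [e4] at s2 q2
        rw [e1, e2, e3, e4]
        have hx' : mu g ^ 2 * x ≤ mu g ^ 2 * (2 * c ^ 2 - 1) := by gcongr
        have : (Real.sqrt (mu g ^ 2 + 1 - 2 * t) + Real.sqrt (mu g ^ 2 + 1 - 2 * t)) ^ 2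
            = 4 * (mu g ^ 2 + 1 - 2 * t) := by
          rw [← two_mul, mul_pow, s1]; ring
        rw [this]
        have h7 : mu g ^ 2 * c ^ 2 = 1 := by
          rw [← mul_pow, h4]; ring
        linarith)
    adjC_symm (adjC_irr (by omega))

end Pool.Agent.H81
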