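import Pool.Agent.H81.QF
import Pool.Agent.H81.Mat

/-!
# The one-parameter family of necklaces and its limit
-/

set_option autoImplicit false
set_option linter.unusedSimpArgs false

open scoped MatrixGroups Topology ComplexConjugate

namespace Pool.Agent.H81

variable {g : ℕ}

/-- The circles of the necklace with parameter `t`. -/
noncomputable def uQ (g : ℕ) (t : ℝ) (k : ℕ) : Sp :=
  circ ((RQ g t k : ℂ) * dr (phi g) k) (Real.sqrt (rQ2 g t k))

theorem BS_adjQ (hg : 2 ≤ g) {t : ℝ} (h1 : 1 < t) (h2 : t ≤ mu g)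
    (i j : Fin (2 * (g + 1))) (h : adjC (2 * (g + 1)) i j) : BS (uQ g t i) (uQ g t j) = 0 := by
  have h3 := one_lt_mu hg
  have h4 := mu_mul hg
  unfold uQ
  rw [BS_circ_circ _ _ _ _ (Real.sqrt_pos.2 (rQ2_pos hg h1 h2 _)).ne'
    (Real.sqrt_pos.2 (rQ2_pos hg h1 h2 _)).ne', ← Complex.sq_norm,
    norm_sub_dr, phi, cos_adj (Nat.succ_pos g) i j h, Real.sq_sqrt (rQ2_pos hg h1 h2 _).le,
    Real.sq_sqrt (rQ2_pos hg h1 h2 _).le]
  rw [phi] at h4
  have : rQ2 g t i + rQ2 g t j - (RQ g t i ^ 2 + RQ g t j ^ 2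
      - 2 * RQ g t i * RQ g t j * Real.cos (Real.pi / ((g + 1 : ℕ) : ℝ))) = 0 := by
    unfold adjC at h
    unfold RQ rQ2
    rcases Nat.mod_two_eq_zero_or_one (i : ℕ) with hi | hi <;>
    rcases Nat.mod_two_eq_zero_or_one (j : ℕ) with hj | hj
    · omega
    · rw [if_pos hi, if_neg (by omega), if_pos hi, if_neg (by omega)]
      linear_combination (2 * t) * h4
    · rw [if_neg (by omega), if_pos hj, if_neg (by omega), if_pos hj]
      linear_combination (2 * t) * h4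
    · omega
  rw [this, zero_div]

/-- The chain of circles with parameter `t ∈ (1, μ]`. -/
noncomputable def spQ (g : ℕ) (hg : 2 ≤ g) (t : ℝ) (h1 : 1 < t) (h2 : t ≤ mu g) : Spin g where
  u := uQ g t
  unit := by
    intro k
    have := (Real.sqrt_pos.2 (rQ2_pos hg h1 h2 k)).ne'
    unfold uQ
    rw [BS_circ_circ _ _ _ _ this this]
    simp
    field_simp
    ring
  orth := by
    intro k hk
    exact BS_adjQ hg h1 h2 ⟨k, by omega⟩ ⟨k + 1, hk⟩ (by unfold adjC; simp)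
  orth0 := by
    exact BS_adjQ hg h1 h2 ⟨0, by omega⟩ ⟨2 * g + 1, by omega⟩
      (by unfold adjC; right; right; left; simp; ring)

theorem qf_spQ (hg : 2 ≤ g) {t : ℝ} (h1 : 1 < t) (h2 : t < mu g) :
    IsQuasiFuchsian (spQ g hg t h1 h2.le).rep :=
  isQuasiFuchsian_rep hg (isSp_MQ hg t h1 h2) _ (fun _ => rfl)

theorem normSq_dr (φ : ℝ) (k : ℕ) (R : ℝ) : Complex.normSq ((R : ℂ) * dr φ k) = R ^ 2 := by
  rw [← Complex.sq_norm, norm_mul, norm_dr, mul_one, Complex.norm_real, Real.norm_eq_abs, sq_abs]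

theorem toM_even (hg : 2 ≤ g) {t : ℝ} (h1 : 1 < t) (h2 : t ≤ mu g) (i : ℕ) :
    toM (uQ g t (2 * i)) = ((1 / Real.sqrt (t ^ 2 - 1) : ℝ) : ℂ) •
      !![1, (t : ℂ) * dr (phi g) (2 * i); (t : ℂ) * conj (dr (phi g) (2 * i)), 1] := by
  have e1 : RQ g t (2 * i) = t := if_pos (by omega)
  have e2 : rQ2 g t (2 * i) = t ^ 2 - 1 := if_pos (by omega)
  have hp := rQ2_pos hg h1 h2 (2 * i)
  rw [e2] at hp
  have hs := (Real.sqrt_pos.2 hp).ne'
  have hsc : ((Real.sqrt (t ^ 2 - 1) : ℝ) : ℂ) ≠ 0 := by exact_mod_cast hs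
  unfold uQ toM circ
  simp only [e1, e2, normSq_dr, Real.sq_sqrt hp.le]
  ext a b
  fin_cases a <;> fin_cases b
  · simp
  · simp; field_simp
  · simp; field_simp
  · simp

theorem toM_odd (hg : 2 ≤ g) {t : ℝ} (h1 : 1 < t) (h2 : t ≤ mu g) (i : ℕ) :
    toM (uQ g t (2 * i + 1)) = ((1 / Real.sqrt (mu g ^ 2 + 1 - 2 * t) : ℝ) : ℂ) •
      !![(2 * t - 1 : ℂ), (mu g : ℂ) * dr (phi g) (2 * i + 1);
        (mu g : ℂ) * conj (dr (phi g) (2 * i + 1)), 1] := by
  have e1 : RQ g t (2 * i + 1) = mu g := if_neg (by omega)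
  have e2 : rQ2 g t (2 * i + 1) = mu g ^ 2 + 1 - 2 * t := if_neg (by omega)
  have hp := rQ2_pos hg h1 h2 (2 * i + 1)
  rw [e2] at hp
  have hs := (Real.sqrt_pos.2 hp).ne'
  have hsc : ((Real.sqrt (mu g ^ 2 + 1 - 2 * t) : ℝ) : ℂ) ≠ 0 := by exact_mod_cast hs
  unfold uQ toM circ
  simp only [e1, e2, normSq_dr, Real.sq_sqrt hp.le]
  ext a b
  fin_cases a <;> fin_cases b
  · simp; field_simp; ring
  · simp; field_simp
  · simp; field_simp
  · simp

/-! ### Convergence of the quasi-Fuchsian representations -/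

theorem continuousAt_toM (hg : 2 ≤ g) (k : ℕ) {t₀ : ℝ} (h1 : 1 < t₀) (h2 : t₀ ≤ mu g) :
    ContinuousAt (fun t => toM (uQ g t k)) t₀ := by
  have hp := rQ2_pos hg h1 h2 k
  have hs := (Real.sqrt_pos.2 hp).ne'
  have hR : ContinuousAt (fun t => RQ g t k) t₀ := by
    unfold RQ
    split_ifs
    · exact continuousAt_id
    · exact continuousAt_const
  have hr : ContinuousAt (fun t => rQ2 g t k) t₀ := by
    unfold rQ2
    split_ifs
    · fun_prop
    · fun_prop
  have hsq : ContinuousAt (fun t => Real.sqrt (rQ2 g t k)) t₀ := hr.sqrt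
  have hm : ContinuousAt (fun t => (RQ g t k : ℂ) * dr (phi g) k) t₀ :=
    (Complex.continuous_ofReal.continuousAt.comp hR).mul continuousAt_const
  have hsc : ContinuousAt (fun t => ((Real.sqrt (rQ2 g t k) : ℝ) : ℂ)) t₀ :=
    Complex.continuous_ofReal.continuousAt.comp hsq
  have hsne : ((Real.sqrt (rQ2 g t₀ k) : ℝ) : ℂ) ≠ 0 := by exact_mod_cast hs
  have q1 : ContinuousAt (fun t => (RQ g t k : ℂ) * dr (phi g) k / (Real.sqrt (rQ2 g t k) : ℂ)) t₀ :=
    hm.div hsc hsne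
  have q2 : ContinuousAt (fun t => (Complex.normSq ((RQ g t k : ℂ) * dr (phi g) k)
      - Real.sqrt (rQ2 g t k) ^ 2) / Real.sqrt (rQ2 g t k)) t₀ :=
    ((Complex.continuous_normSq.continuousAt.comp hm).sub (hsq.pow 2)).div hsq hs
  have q3 : ContinuousAt (fun t => 1 / Real.sqrt (rQ2 g t k)) t₀ := continuousAt_const.div hsq hs
  apply continuousAt_pi.2
  intro a
  apply continuousAt_pi.2
  intro b
  fin_cases a <;> fin_cases b
  · exact Complex.continuous_ofReal.continuousAt.comp q2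
  · exact q1
  · exact Complex.continuous_conj.continuousAt.comp q1
  · exact Complex.continuous_ofReal.continuousAt.comp q3

theorem tendsto_SL {ι : Type*} {l : Filter ι} {f : ι → SL(2, ℂ)} {A : SL(2, ℂ)}
    (h : Filter.Tendsto (fun n => (f n : Matrix (Fin 2) (Fin 2) ℂ)) l
      (𝓝 (A : Matrix (Fin 2) (Fin 2) ℂ))) : Filter.Tendsto f l (𝓝 A) :=
  tendsto_subtype_rng.2 h

theorem tendsto_neg_SL {ι : Type*} {l : Filter ι} {f : ι → SL(2, ℂ)} {A : SL(2, ℂ)}
    (h : Filter.Tendsto f l (𝓝 A)) : Filter.Tendsto (fun n => - f n) l (𝓝 (-A)) := by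
  apply tendsto_SL
  simp only [Matrix.SpecialLinearGroup.coe_neg]
  exact ((continuous_subtype_val.tendsto A).comp h).neg

theorem tendsto_br (hg : 2 ≤ g) (i j : ℕ) (t : ℕ → ℝ) (h1 : ∀ n, 1 < t n) (h2 : ∀ n, t n ≤ mu g)
    (ht : Filter.Tendsto t Filter.atTop (𝓝 (mu g))) :
    Filter.Tendsto (fun n => (spQ g hg (t n) (h1 n) (h2 n)).br i j) Filter.atTop
      (𝓝 ((spQ g hg (mu g) (one_lt_mu hg) le_rfl).br i j)) := by
  apply tendsto_SL
  have c1 := (continuousAt_toM hg i (one_lt_mu hg) le_rfl).tendsto.comp ht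
  have c2 := (continuousAt_toM hg j (one_lt_mu hg) le_rfl).tendsto.comp ht
  have hadj : Continuous (fun A : Matrix (Fin 2) (Fin 2) ℂ => A.adjugate) :=
    continuous_id.matrix_adjugate
  exact c1.mul ((hadj.tendsto _).comp c2)

/-- The limiting representation. -/
noncomputable def qRep (g : ℕ) (hg : 2 ≤ g) : SurfaceGroup g →* SL(2, ℂ) :=
  (spQ g hg (mu g) (one_lt_mu hg) le_rfl).rep

theorem qRep_mem_closure (hg : 2 ≤ g) :
    charPoint (qRep g hg) ∈ closure (quasiFuchsianCharacters g) := by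
  have hmu := one_lt_mu hg
  set t : ℕ → ℝ := fun n => mu g - (mu g - 1) * (1 / ((n : ℝ) + 1 + 1)) with ht
  have hn : ∀ n : ℕ, 0 < 1 / ((n : ℝ) + 1 + 1) ∧ 1 / ((n : ℝ) + 1 + 1) < 1 := by
    intro n
    have : (0 : ℝ) ≤ n := Nat.cast_nonneg n
    refine ⟨by positivity, ?_⟩
    rw [div_lt_one (by positivity)]
    linarith
  have h1 : ∀ n, 1 < t n := by
    intro n
    obtain ⟨a, b⟩ := hn n
    simp only [ht]
    nlinarith
  have h2 : ∀ n, t n < mu g := by
    intro n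
    obtain ⟨a, b⟩ := hn n
    simp only [ht]
    nlinarith
  have hlim : Filter.Tendsto t Filter.atTop (𝓝 (mu g)) := by
    have h0 : Filter.Tendsto (fun n : ℕ => 1 / ((n : ℝ) + 1)) Filter.atTop (𝓝 0) :=
      tendsto_one_div_add_atTop_nhds_zero_nat
    have h0' : Filter.Tendsto (fun n : ℕ => 1 / (((n + 1 : ℕ) : ℝ) + 1)) Filter.atTop (𝓝 0) :=
      h0.comp (Filter.tendsto_add_atTop_nat 1)
    have h3 : Filter.Tendsto (fun n : ℕ => mu g - (mu g - 1) * (1 / (((n + 1 : ℕ) : ℝ) + 1)))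
        Filter.atTop (𝓝 (mu g - (mu g - 1) * 0)) :=
      tendsto_const_nhds.sub (tendsto_const_nhds.mul h0')
    rw [mul_zero, sub_zero] at h3
    refine h3.congr (fun n => ?_)
    simp only [ht]
    push_cast
    rfl
  have hlim2 : Filter.Tendsto (fun n => charPoint (spQ g hg (t n) (h1 n) (h2 n).le).rep)
      Filter.atTop (𝓝 (charPoint (qRep g hg))) := by
    apply tendsto_charPoint
    · intro i
      simp only [qRep, Spin.rep_genA, Spin.A]
      exact tendsto_br hg _ _ t h1 (fun n => (h2 n).le) hlim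
    · intro i
      simp only [qRep, Spin.rep_genB, Spin.Bm]
      exact tendsto_neg_SL ((tendsto_br hg _ _ t h1 (fun n => (h2 n).le) hlim).mul
        (tendsto_br hg _ _ t h1 (fun n => (h2 n).le) hlim))
  refine mem_closure_of_tendsto hlim2 (Filter.Eventually.of_forall fun n => ?_)
  exact ⟨_, qf_spQ hg (h1 n) (h2 n), rfl⟩

end Pool.Agent.H81
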