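import Mathlib

/-!
# Right-angled reflection groups: combinatorics of roots
-/

set_option autoImplicit false
set_option linter.unusedSimpArgs false
set_option linter.unusedSectionVars false

namespace Pool.Agent.H81

section Comb

variable {ι : Type*} [DecidableEq ι] (adj : ι → ι → Prop) [DecidableRel adj]

/-- Sign of the pairing of the simple root `i` with the root `w · v_j`. -/
def sig : List ι → ι → ι → SignType
  | [], j, i => if i = j then 1 else if adj i j then 0 else -1
  | t :: w, j, i => if i = t then 1 else if adj i t then sig w j i else -1

/-- Valid paths. -/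
def Valid : List ι → ι → Prop
  | [], _ => True
  | t :: w, j => Valid w j ∧ sig adj w j t = -1

/-- Action of a simple reflection on paths. -/
def act (s : ι) : List ι → ι → Option (List ι)
  | [], j => if s = j then none else if adj s j then some [] else some [s]
  | t :: w, j => if s = t then some w else if adj s t then (act s w j).map (t :: ·)
      else some (s :: t :: w)

variable {adj}

theorem sig_act (hsymm : ∀ i j, adj i j → adj j i) (hirr : ∀ i, ¬ adj i i) (s : ι) :
    ∀ (w : List ι) (j : ι) (w' : List ι), act adj s w j = some w' → ∀ t, adj s t →
      sig adj w' j t = sig adj w j t := by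
  intro w
  induction w with
  | nil =>
    intro j w' h t hst
    simp only [act] at h
    have hts : t ≠ s := by rintro rfl; exact hirr _ hst
    split_ifs at h with h1 h2
    · simp only [Option.some.injEq] at h; subst h; rfl
    · simp only [Option.some.injEq] at h; subst h
      simp only [sig]
      rw [if_neg hts, if_pos (hsymm _ _ hst)]
  | cons t' w ih =>
    intro j w' h t hst
    have hts : t ≠ s := by rintro rfl; exact hirr _ hst
    simp only [act] at h
    split_ifs at h with h1 h2
    · simp only [Option.some.injEq] at h; subst h
      subst h1
      simp only [sig]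
      rw [if_neg hts, if_pos (hsymm _ _ hst)]
    · rw [Option.map_eq_some_iff] at h
      obtain ⟨w'', h3, rfl⟩ := h
      simp only [sig]
      rw [ih j w'' h3 t hst]
    · simp only [Option.some.injEq] at h; subst h
      show sig adj (s :: t' :: w) j t = _
      rw [sig, if_neg hts, if_pos (hsymm _ _ hst)]

theorem act_none (hsymm : ∀ i j, adj i j → adj j i) (hirr : ∀ i, ¬ adj i i) (s : ι) :
    ∀ (w : List ι) (j : ι), Valid adj w j → act adj s w j = none → w = [] ∧ j = s := by
  intro w
  induction w with
  | nil =>
    intro j _ h
    simp only [act] at h
    split_ifs at h with h1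
    exact ⟨rfl, h1.symm⟩
  | cons t w ih =>
    intro j hv h
    simp only [act] at h
    split_ifs at h with h1 h2
    rw [Option.map_eq_none_iff] at h
    obtain ⟨rfl, rfl⟩ := ih j hv.1 h
    have := hv.2
    simp only [sig] at this
    have hts : t ≠ j := by rintro rfl; exact hirr _ h2
    rw [if_neg hts, if_pos (hsymm _ _ h2)] at this
    exact absurd this (by decide)

theorem act_valid (hsymm : ∀ i j, adj i j → adj j i) (hirr : ∀ i, ¬ adj i i) (s : ι) :
    ∀ (w : List ι) (j : ι) (w' : List ι), Valid adj w j → act adj s w j = some w' →
      Valid adj w' j := by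
  intro w
  induction w with
  | nil =>
    intro j w' hv h
    simp only [act] at h
    split_ifs at h with h1 h2
    · simp only [Option.some.injEq] at h; subst h; trivial
    · simp only [Option.some.injEq] at h; subst h
      refine ⟨trivial, ?_⟩
      simp only [sig]
      rw [if_neg h1, if_neg h2]
  | cons t w ih =>
    intro j w' hv h
    simp only [act] at h
    split_ifs at h with h1 h2
    · simp only [Option.some.injEq] at h; subst h; exact hv.1
    · rw [Option.map_eq_some_iff] at h
      obtain ⟨w'', h3, rfl⟩ := h
      refine ⟨ih j w'' hv.1 h3, ?_⟩
      rw [sig_act hsymm hirr s w j w'' h3 t h2]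
      exact hv.2
    · simp only [Option.some.injEq] at h; subst h
      refine ⟨hv, ?_⟩
      rw [sig, if_neg h1, if_neg h2]

/-- Model independent sign of the pairing of two roots. -/
def sgn (adj : ι → ι → Prop) [DecidableRel adj] : List ι → ι → List ι → ι → SignType
  | [], j, w', j' => sig adj w' j' j
  | t :: w, j, w', j' => match act adj t w' j' with
    | none => 1
    | some w'' => sgn adj w j w'' j'

/-- Evaluation of a word in a group. -/
def evw {H : Type*} [Group H] (s : ι → H) (w : List ι) : H := (w.map s).prod

@[simp] theorem evw_nil {H : Type*} [Group H] (s : ι → H) : evw s [] = 1 := by simp [evw]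
@[simp] theorem evw_cons {H : Type*} [Group H] (s : ι → H) (t : ι) (w : List ι) :
    evw s (t :: w) = s t * evw s w := by simp [evw]
@[simp] theorem evw_append {H : Type*} [Group H] (s : ι → H) (w w' : List ι) :
    evw s (w ++ w') = evw s w * evw s w' := by simp [evw]

theorem evw_reverse {H : Type*} [Group H] (s : ι → H) (hs : ∀ i, s i * s i = 1) (w : List ι) :
    evw s w.reverse = (evw s w)⁻¹ := by
  induction w with
  | nil => simp
  | cons t w ih =>
    rw [List.reverse_cons, evw_append, ih, evw_cons s t w, mul_inv_rev]
    congr 1
    simp only [evw_cons, evw_nil, mul_one]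
    exact (inv_eq_of_mul_eq_one_left (hs t)).symm

/-- The reflection attached to a path. -/
def refp {H : Type*} [Group H] (s : ι → H) (w : List ι) (j : ι) : H :=
  evw s w * s j * (evw s w)⁻¹

/-- A family of involutions such that neighbours commute. -/
structure IsCox {H : Type*} [Group H] (adj : ι → ι → Prop) (s : ι → H) : Prop where
  sq : ∀ i, s i * s i = 1
  cm : ∀ i j, adj i j → s i * s j = s j * s i

theorem refp_act {H : Type*} [Group H] {s : ι → H} (hc : IsCox adj s) (i : ι) :
    ∀ (w : List ι) (j : ι) (w' : List ι), act adj i w j = some w' →
      refp s w' j = s i * refp s w j * s i := by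
  have hinv : ∀ i, (s i)⁻¹ = s i := fun i => inv_eq_of_mul_eq_one_left (hc.sq i)
  intro w
  induction w with
  | nil =>
    intro j w' h
    simp only [act] at h
    split_ifs at h with h1 h2
    · simp only [Option.some.injEq] at h; subst h
      simp only [refp, evw_nil, one_mul, inv_one, mul_one]
      rw [hc.cm i j h2, mul_assoc, hc.sq, mul_one]
    · simp only [Option.some.injEq] at h; subst h
      simp only [refp, evw_cons, evw_nil, one_mul, inv_one, mul_one, hinv]
  | cons t w ih =>
    intro j w' h
    simp only [act] at h
    split_ifs at h with h1 h2
    · simp only [Option.some.injEq] at h; subst h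
      subst h1
      simp only [refp, evw_cons, mul_inv_rev, hinv]
      calc _ = 1 * (evw s w * s j * (evw s w)⁻¹) * 1 := by group
        _ = (s i * s i) * (evw s w * s j * (evw s w)⁻¹) * (s i * s i) := by rw [hc.sq]
        _ = _ := by group
    · rw [Option.map_eq_some_iff] at h
      obtain ⟨w'', h3, rfl⟩ := h
      have := ih j w'' h3
      simp only [refp, evw_cons, mul_inv_rev, hinv] at this ⊢
      have hit := hc.cm i t h2
      calc s t * evw s w'' * s j * ((evw s w'')⁻¹ * s t)
          = s t * (evw s w'' * s j * (evw s w'')⁻¹) * s t := by group
        _ = s t * (s i * (evw s w * s j * (evw s w)⁻¹) * s i) * s t := by rw [this]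
        _ = (s t * s i) * (evw s w * s j * (evw s w)⁻¹) * (s i * s t) := by group
        _ = (s i * s t) * (evw s w * s j * (evw s w)⁻¹) * (s t * s i) := by rw [hit]
        _ = _ := by group
    · simp only [Option.some.injEq] at h; subst h
      simp only [refp, evw_cons, mul_inv_rev, hinv]
      group

end Comb

end Pool.Agent.H81
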