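import Pool.Agent.H81.Basic

/-!
# Telescoping products and the tails `X_i`, `K_i`
-/

set_option autoImplicit false
set_option linter.unusedSimpArgs false

open scoped MatrixGroups Topology

namespace Pool.Agent.H81

variable {g : ℕ} {H : Type*} [Group H]

/-- Ordered product of the first `n` values. -/
def prodN (F : ℕ → H) : ℕ → H
  | 0 => 1
  | n + 1 => prodN F n * F n

@[simp] theorem prodN_zero (F : ℕ → H) : prodN F 0 = 1 := rfl
theorem prodN_succ (F : ℕ → H) (n : ℕ) : prodN F (n + 1) = prodN F n * F n := rfl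

theorem ofFn_eq_prodN (F : ℕ → H) (n : ℕ) :
    (List.ofFn fun i : Fin n => F i).prod = prodN F n := by
  induction n with
  | zero => simp
  | succ n ih =>
    rw [List.ofFn_succ', List.concat_eq_append, List.prod_append, List.prod_singleton, prodN_succ]
    rw [← ih]
    rfl

theorem prodN_telescope (F Z : ℕ → H) (n : ℕ) (h : ∀ i < n, F i = (Z i)⁻¹ * Z (i + 1)) :
    prodN F n = (Z 0)⁻¹ * Z n := by
  induction n with
  | zero => simp
  | succ n ih =>
    rw [prodN_succ, ih (fun i hi => h i (by omega)), h n (by omega)]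
    group

theorem prodN_congr (F F' : ℕ → H) (n : ℕ) (h : ∀ i < n, F i = F' i) :
    prodN F n = prodN F' n := by
  induction n with
  | zero => rfl
  | succ n ih =>
    rw [prodN_succ, prodN_succ, ih (fun i hi => h i (by omega)), h n (by omega)]

theorem map_prodN {H' : Type*} [Group H'] (f : H →* H') (F : ℕ → H) (n : ℕ) :
    f (prodN F n) = prodN (fun i => f (F i)) n := by
  induction n with
  | zero => simp
  | succ n ih => rw [prodN_succ, prodN_succ, map_mul, ih]

/-- Extension of a finite family by `1`. -/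
def ext1 (x : Fin g → H) (i : ℕ) : H := if h : i < g then x ⟨i, h⟩ else 1

@[simp] theorem ext1_fin (x : Fin g → H) (i : Fin g) : ext1 x i = x i := by
  simp [ext1]

theorem ext1_lt (x : Fin g → H) {i : ℕ} (h : i < g) : ext1 x i = x ⟨i, h⟩ := by
  simp [ext1, h]

theorem rel_of_telescope (x y : Fin g → H) (Z : ℕ → H)
    (h : ∀ i : Fin g, comm (x i) (y i) = (Z i)⁻¹ * Z (i + 1)) (hZ : Z 0 = Z g) :
    (List.ofFn fun i => comm (x i) (y i)).prod = 1 := by
  have h1 : (List.ofFn fun i => comm (x i) (y i)).prod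
      = prodN (fun n => comm (ext1 x n) (ext1 y n)) g := by
    rw [← ofFn_eq_prodN]
    simp
  rw [h1, prodN_telescope _ Z g, hZ]
  · simp
  · intro i hi
    have := h ⟨i, hi⟩
    simpa [ext1_lt _ hi] using this

/-! ### The elements `P_i`, `X_i`, `K_i` of the surface group -/

/-- `a_0 a_1 ⋯ a_{i-1}`. -/
def Pn (g : ℕ) (i : ℕ) : SurfaceGroup g := prodN (ext1 genA) i

/-- `X_i = a_i a_{i+1} ⋯ a_{g-1}`. -/
def Xn (g : ℕ) (i : ℕ) : SurfaceGroup g := (Pn g i)⁻¹ * Pn g g

/-- `K_i = [a_0,b_0] ⋯ [a_{i-1},b_{i-1}]`. -/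
def Kn (g : ℕ) (i : ℕ) : SurfaceGroup g := prodN (fun n => comm (ext1 genA n) (ext1 genB n)) i

@[simp] theorem Xn_top : Xn g g = 1 := by simp [Xn]
@[simp] theorem Kn_zero : Kn g 0 = 1 := rfl
@[simp] theorem Pn_zero : Pn g 0 = 1 := rfl
@[simp] theorem Kn_top : Kn g g = 1 := by
  rw [Kn, ← ofFn_eq_prodN]
  simpa using rel_eq_one g

theorem Xn_zero : Xn g 0 = Pn g g := by simp [Xn]

theorem Pn_succ (i : Fin g) : Pn g (i + 1) = Pn g i * genA i := by
  rw [Pn, prodN_succ, ext1_fin]; rfl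

theorem Kn_succ (i : Fin g) : Kn g (i + 1) = Kn g i * comm (genA i) (genB i) := by
  rw [Kn, prodN_succ, ext1_fin, ext1_fin]; rfl

theorem Xn_succ (i : Fin g) : Xn g i = genA i * Xn g (i + 1) := by
  simp only [Xn, Pn_succ]
  group

theorem Xn_mul_inv (i : Fin g) : Xn g i * (Xn g (i + 1))⁻¹ = genA i := by
  rw [Xn_succ]; group

/-- Image of `P_i` under a homomorphism. -/
theorem map_Pn (f : SurfaceGroup g →* H) (Z : ℕ → H)
    (h : ∀ i : Fin g, f (genA i) = (Z i)⁻¹ * Z (i + 1)) (n : ℕ) (hn : n ≤ g) :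
    f (Pn g n) = (Z 0)⁻¹ * Z n := by
  rw [Pn, map_prodN]
  apply prodN_telescope
  intro i hi
  have := h ⟨i, by omega⟩
  simpa [ext1_lt _ (show i < g by omega)] using this

theorem map_Xn (f : SurfaceGroup g →* H) (Z : ℕ → H)
    (h : ∀ i : Fin g, f (genA i) = (Z i)⁻¹ * Z (i + 1)) (n : ℕ) (hn : n ≤ g) :
    f (Xn g n) = (Z n)⁻¹ * Z g := by
  rw [Xn, map_mul, map_inv, map_Pn f Z h n hn, map_Pn f Z h g le_rfl]
  group

theorem map_Kn (f : SurfaceGroup g →* H) (Z : ℕ → H)
    (h : ∀ i : Fin g, comm (f (genA i)) (f (genB i)) = (Z i)⁻¹ * Z (i + 1)) (n : ℕ) (hn : n ≤ g) :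
    f (Kn g n) = (Z 0)⁻¹ * Z n := by
  rw [Kn, map_prodN]
  apply prodN_telescope
  intro i hi
  have := h ⟨i, by omega⟩
  simpa [comm, ext1_lt _ (show i < g by omega)] using this

end Pool.Agent.H81
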