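import Pool.Agent.H81.Act
import Pool.Agent.H81.Tele

/-!
# Representations of the surface group from right-angled necklaces of circles
-/

set_option autoImplicit false
set_option linter.unusedSimpArgs false

open scoped MatrixGroups Topology ComplexConjugate

namespace Pool.Agent.H81

variable {g : ℕ}

/-- A cyclic chain of pairwise orthogonal circles. -/
structure Spin (g : ℕ) where
  u : ℕ → Sp
  unit : ∀ k, BS (u k) (u k) = 1
  orth : ∀ k, k + 1 < 2 * (g + 1) → BS (u k) (u (k + 1)) = 0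
  orth0 : BS (u 0) (u (2 * g + 1)) = 0

namespace Spin

variable (S : Spin g)

theorem det (k : ℕ) : (toM (S.u k)).det = -1 := by rw [det_toM, S.unit]; simp

/-- The product of two reflections, as an element of `SL(2,ℂ)`. -/
noncomputable def br (i j : ℕ) : SL(2, ℂ) := pr (toM (S.u i)) (toM (S.u j)) (S.det i) (S.det j)

theorem br_coe (i j : ℕ) : (S.br i j : Matrix (Fin 2) (Fin 2) ℂ)
    = toM (S.u i) * (toM (S.u j)).adjugate := rfl

theorem br_mul (i j k : ℕ) : S.br i j * S.br j k = - S.br i k := by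
  apply Subtype.ext
  rw [Matrix.SpecialLinearGroup.coe_mul, Matrix.SpecialLinearGroup.coe_neg, br_coe, br_coe, br_coe]
  calc _ = toM (S.u i) * ((toM (S.u j)).adjugate * toM (S.u j)) * (toM (S.u k)).adjugate := by
        simp only [mul_assoc]
    _ = _ := by rw [toM_adj_mul _ (S.unit j)]; simp

theorem br_self (i : ℕ) : S.br i i = -1 := by
  apply Subtype.ext
  rw [Matrix.SpecialLinearGroup.coe_neg, br_coe, toM_mul_adj _ (S.unit i)]
  rfl

theorem br_inv (i j : ℕ) : (S.br i j)⁻¹ = S.br j i := by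
  rw [inv_eq_iff_mul_eq_one, br_mul, br_self, neg_neg]

theorem br_orth {i j : ℕ} (h : BS (S.u i) (S.u j) = 0) : S.br i j = - S.br j i := by
  apply Subtype.ext
  rw [Matrix.SpecialLinearGroup.coe_neg, br_coe, br_coe]
  have := toM_polar (S.u i) (S.u j)
  rw [h] at this
  rw [eq_neg_iff_add_eq_zero, this]
  simp

theorem br_orth' {i j : ℕ} (h : BS (S.u i) (S.u j) = 0) : S.br j i = - S.br i j := by
  rw [S.br_orth h, neg_neg]

/-- Images of the generators. -/
noncomputable def A (i : ℕ) : SL(2, ℂ) := S.br (2 * i) (2 * i + 2)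
noncomputable def Bm (i : ℕ) : SL(2, ℂ) :=
  -(S.br (2 * i + 2) (2 * g + 1) * S.br (2 * i + 2) (2 * i + 1))

noncomputable def Z (i : ℕ) : SL(2, ℂ) := S.br (2 * g + 1) (2 * i) * S.br (2 * g + 1) (2 * i)

theorem Z_of_orth {i : ℕ} (h : BS (S.u (2 * i)) (S.u (2 * g + 1)) = 0) : S.Z i = -1 := by
  unfold Z
  conv_lhs => rw [S.br_orth' h]
  rw [neg_mul_neg]
  nth_rewrite 2 [S.br_orth h]
  rw [mul_neg, S.br_mul, S.br_self, neg_neg]

theorem comm_AB {i : ℕ} (hi : i < g) :
    comm (S.A i) (S.Bm i) = (S.Z i)⁻¹ * S.Z (i + 1) := by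
  have o1 : BS (S.u (2 * i)) (S.u (2 * i + 1)) = 0 := S.orth _ (by omega)
  have o2 : BS (S.u (2 * i + 1)) (S.u (2 * i + 2)) = 0 := S.orth _ (by omega)
  unfold comm A Bm Z
  rw [show 2 * (i + 1) = 2 * i + 2 by ring]
  rw [inv_neg, mul_inv_rev, mul_inv_rev, S.br_inv, S.br_inv, S.br_inv, S.br_inv]
  set e := 2 * i
  set e' := 2 * i + 2
  set f := 2 * i + 1
  set F := 2 * g + 1
  have s2 : S.br e' f * S.br e' e = S.br f e := by
    rw [S.br_orth' o2, neg_mul, S.br_mul, neg_neg]
  have s3 : S.br f e * S.br f e' = S.br e e' := by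
    rw [S.br_orth' o1, neg_mul, S.br_mul, neg_neg]
  calc S.br e e' * -(S.br e' F * S.br e' f) * S.br e' e * -(S.br f e' * S.br F e')
      = (S.br e e' * S.br e' F) * ((S.br e' f * S.br e' e) * S.br f e') * S.br F e' := by
        simp only [mul_neg, neg_mul, neg_neg, mul_assoc]
    _ = - (S.br e F * S.br e e' * S.br F e') := by
        rw [s2, s3, S.br_mul]; simp only [neg_mul]
    _ = S.br e F * (S.br e F * S.br F e') * S.br F e' := by
        rw [S.br_mul]; simp only [neg_mul, mul_neg]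
    _ = _ := by simp only [mul_assoc]

/-- The representation attached to a chain. -/
noncomputable def rep : SurfaceGroup g →* SL(2, ℂ) :=
  surfLift (fun i => S.A i) (fun i => S.Bm i) (by
    apply rel_of_telescope _ _ S.Z (fun i => S.comm_AB i.2)
    have o1 : BS (S.u (2 * g)) (S.u (2 * g + 1)) = 0 := S.orth _ (by omega)
    have o2 : BS (S.u (2 * 0)) (S.u (2 * g + 1)) = 0 := S.orth0
    rw [S.Z_of_orth o1, S.Z_of_orth o2])

@[simp] theorem rep_genA (i : Fin g) : S.rep (genA i) = S.A i := by simp [rep]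
@[simp] theorem rep_genB (i : Fin g) : S.rep (genB i) = S.Bm i := by simp [rep]

theorem TH_br (i j : ℕ) (x : Sp) : TH (S.br i j) x
    = (fun y => y - (2 * BS (S.u i) y) • S.u i) ((fun y => y - (2 * BS (S.u j) y) • S.u j) x) :=
  TH_pr _ _ x (S.unit i) (S.unit j) (S.det i) (S.det j)

end Spin

end Pool.Agent.H81
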