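import Pool.Agent.H81.Fuchs
import Pool.Agent.H81.Spin
import Pool.Agent.H81.Invol

/-!
# Right-angled necklaces give quasi-Fuchsian representations
-/

set_option autoImplicit false
set_option linter.unusedSimpArgs false

open scoped MatrixGroups Topology ComplexConjugate

namespace Pool.Agent.H81

variable {g : ℕ}

theorem Cox.isCox {H : Type*} [Group H] (c : Cox g H) :
    IsCox (adjC (2 * (g + 1))) (fun k : Fin (2 * (g + 1)) => c.s k) where
  sq := fun i => c.sq i i.2
  cm := by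
    intro i j h
    rcases h with h | h | ⟨h1, h2⟩ | ⟨h1, h2⟩
    · rw [← h]; exact c.nb i (by omega)
    · rw [← h]; exact (c.nb j (by omega)).symm
    · have : (j : ℕ) = 2 * g + 1 := by omega
      rw [h1, this]; exact c.nb0
    · have : (i : ℕ) = 2 * g + 1 := by omega
      rw [h1, this]; exact c.nb0.symm

theorem Cox.ev_eq {H : Type*} [Group H] (c : Cox g H) (w : List (Fin (2 * (g + 1)))) :
    c.ev w = evw (fun k : Fin (2 * (g + 1)) => c.s k) w := rfl

/-- Elements of the surface group are given by words, uniformly. -/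
theorem Cox.theta_word {H₁ H₂ : Type*} [Group H₁] [Group H₂] (c₁ : Cox g H₁) (c₂ : Cox g H₂)
    (γ : SurfaceGroup g) : ∃ w, c₁.theta γ = c₁.ev w ∧ c₂.theta γ = c₂.ev w := by
  let K : Subgroup (SurfaceGroup g) :=
    { carrier := {γ | ∃ w, c₁.theta γ = c₁.ev w ∧ c₂.theta γ = c₂.ev w}
      mul_mem' := by
        rintro a b ⟨w, h1, h2⟩ ⟨w', h3, h4⟩
        refine ⟨w ++ w', ?_, ?_⟩
        · rw [map_mul, h1, h3, Cox.ev_eq, Cox.ev_eq, Cox.ev_eq, evw_append]
        · rw [map_mul, h2, h4, Cox.ev_eq, Cox.ev_eq, Cox.ev_eq, evw_append]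
      one_mem' := ⟨[], by simp [Cox.ev_eq], by simp [Cox.ev_eq]⟩
      inv_mem' := by
        rintro a ⟨w, h1, h2⟩
        refine ⟨w.reverse, ?_, ?_⟩
        · rw [map_inv, h1, Cox.ev_eq, Cox.ev_eq, evw_reverse _ c₁.isCox.sq]
        · rw [map_inv, h2, Cox.ev_eq, Cox.ev_eq, evw_reverse _ c₂.isCox.sq] }
  apply surf_closure g K
  · intro i
    have hi := i.2
    refine ⟨[⟨2 * i, by omega⟩, ⟨2 * i + 2, by omega⟩], ?_, ?_⟩
    · rw [Cox.theta_genA, Cox.ev_eq]; simp [Cox.e, evw, mul_add]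
    · rw [Cox.theta_genA, Cox.ev_eq]; simp [Cox.e, evw, mul_add]
  · intro i
    have hi := i.2
    refine ⟨[⟨2 * i + 2, by omega⟩, ⟨2 * g + 1, by omega⟩, ⟨2 * i + 2, by omega⟩,
      ⟨2 * i + 1, by omega⟩], ?_, ?_⟩
    · rw [Cox.theta_genB, Cox.ev_eq]; simp [Cox.e, Cox.f, evw, mul_add, mul_assoc]
    · rw [Cox.theta_genB, Cox.ev_eq]; simp [Cox.e, Cox.f, evw, mul_add, mul_assoc]

variable {M : RModel (adjC (2 * (g + 1))) Sp}

/-- The Coxeter data of a model. -/
noncomputable def coxM (M : RModel (adjC (2 * (g + 1))) Sp) : Cox g (Sp ≃ₗ[ℝ] Sp) where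
  s := fun k => if h : k < 2 * (g + 1) then M.rf ⟨k, h⟩ else 1
  sq := by
    intro k hk
    rw [dif_pos hk]; exact M.rf_sq _
  nb := by
    intro k hk
    rw [dif_pos hk, dif_pos (by omega)]
    exact M.isCox.cm _ _ (by unfold adjC; simp)
  nb0 := by
    rw [dif_pos (by omega), dif_pos (by omega)]
    exact M.isCox.cm _ _ (by unfold adjC; right; right; left; simp; ring)

theorem coxM_s (k : Fin (2 * (g + 1))) : (coxM M).s k = M.rf k := by
  simp [coxM]

theorem coxM_s' {k : ℕ} (hk : k < 2 * (g + 1)) : (coxM M).s k = M.rf ⟨k, hk⟩ := by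
  simp [coxM, hk]

theorem coxM_ev (w : List (Fin (2 * (g + 1)))) : (coxM M).ev w = evw M.rf w := by
  rw [Cox.ev_eq]
  congr 1
  funext k
  exact coxM_s k

/-- The reflection of a path, explicitly. -/
theorem refp_apply {ι : Type*} [DecidableEq ι] {adj : ι → ι → Prop} [DecidableRel adj]
    {V : Type*} [AddCommGroup V] [Module ℝ V] (M : RModel adj V) (w : List ι) (j : ι) (x : V) :
    refp M.rf w j x = x - (2 * M.B (M.root w j) x) • M.root w j := by
  have h1 : refp M.rf w j x = evw M.rf w (M.rf j ((evw M.rf w)⁻¹ x)) := rfl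
  rw [h1, M.rf_apply, map_sub, map_smul]
  have h2 : evw M.rf w ((evw M.rf w)⁻¹ x) = x := by
    show (evw M.rf w * (evw M.rf w)⁻¹) x = x
    rw [mul_inv_cancel]; rfl
  have h3 : M.B (M.v j) ((evw M.rf w)⁻¹ x) = M.B (M.root w j) x := by
    rw [M.sy, M.B_evw_inv, M.sy]; rfl
  rw [h2, h3]; rfl

section Main

variable (hg : 2 ≤ g) (hM : IsSp M) (S : Spin g) (hS : ∀ k : Fin (2 * (g + 1)), M.v k = S.u k)

include hM hS in
theorem TH_br_eq {i j : ℕ} (hi : i < 2 * (g + 1)) (hj : j < 2 * (g + 1)) :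
    TH (S.br i j) = (coxM M).s i * (coxM M).s j := by
  ext1 x
  rw [S.TH_br, coxM_s' hi, coxM_s' hj]
  show _ = M.rf ⟨i, hi⟩ (M.rf ⟨j, hj⟩ x)
  rw [M.rf_apply, M.rf_apply, hM.hB, hS, hS]

include hM hS in
theorem TH_rep (γ : SurfaceGroup g) : TH (S.rep γ) = (coxM M).theta γ := by
  have : TH.comp S.rep = (coxM M).theta := by
    apply surf_hom_ext
    · intro i
      have hi := i.2
      rw [MonoidHom.comp_apply, S.rep_genA, Cox.theta_genA, Spin.A,
        TH_br_eq hM S hS (by omega) (by omega)]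
      rfl
    · intro i
      have hi := i.2
      rw [MonoidHom.comp_apply, S.rep_genB, Cox.theta_genB, Spin.Bm, TH_neg, map_mul,
        TH_br_eq hM S hS (by omega) (by omega), TH_br_eq hM S hS (by omega) (by omega)]
      simp only [Cox.e, Cox.f, mul_assoc]
      rfl
  exact DFunLike.congr_fun this γ

include hM hS in
theorem TH_word (γ : SurfaceGroup g) : ∃ w, TH (S.rep γ) = evw M.rf w := by
  obtain ⟨w, h1, -⟩ := Cox.theta_word (coxM M) (coxM M) γ
  exact ⟨w, by rw [TH_rep hM S hS, h1, coxM_ev]⟩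

include hM hS in
theorem rep_dichotomy (γ : SurfaceGroup g) :
    γ = 1 ∨ ∃ i, 0 < BS (M.v i) (TH (S.rep γ) inft) := by
  obtain ⟨w, h1, h2⟩ := Cox.theta_word (coxM M) (regCox g) γ
  rcases M.word_dichotomy (regCox g).isCox w with ⟨-, h4⟩ | ⟨i, hi⟩
  · left
    apply regCox_theta_injective
    rw [h2, Cox.ev_eq, h4]
  · right
    refine ⟨i, ?_⟩
    rw [TH_rep hM S hS, h1, coxM_ev]
    rw [hM.hB, hM.hx] at hi
    exact hi

include hM in
theorem v_inft_neg (i : Fin (2 * (g + 1))) : BS (M.v i) inft < 0 := by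
  have := M.hx0 i
  have hc := M.hc
  rw [hM.hB, hM.hx] at this
  linarith

include hM hS in
theorem rep_injective (γ : SurfaceGroup g) (h : S.rep γ = 1 ∨ S.rep γ = -1) : γ = 1 := by
  have hT : TH (S.rep γ) = 1 := by
    rcases h with h | h
    · rw [h, map_one]
    · rw [h, TH_neg, map_one]
  rcases rep_dichotomy hM S hS γ with h1 | ⟨i, hi⟩
  · exact h1
  · rw [hT] at hi
    have := v_inft_neg hM i
    exact absurd hi (not_lt.2 this.le)

theorem continuous_entry (i j : Fin 2) : Continuous fun A : SL(2, ℂ) => A i j :=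
  (continuous_apply j).comp ((continuous_apply i).comp continuous_subtype_val)

theorem continuous_TH_inft (v : Sp) : Continuous fun A : SL(2, ℂ) => BS v (TH A inft) := by
  have h : ∀ A : SL(2, ℂ), BS v (TH A inft)
      = v.2.1.re * (A 0 0 * conj (A 1 0)).re + v.2.1.im * (A 0 0 * conj (A 1 0)).im
        - (v.1 * Complex.normSq (A 1 0) + v.2.2 * Complex.normSq (A 0 0)) / 2 := by
    intro A
    rw [TH_apply, actF_inft, BS_apply]
    rfl
  simp only [h]
  have c00 := continuous_entry 0 0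
  have c10 := continuous_entry 1 0
  have n00 := Complex.continuous_normSq.comp c00
  have n10 := Complex.continuous_normSq.comp c10
  have cc := c00.mul (Complex.continuous_conj.comp c10)
  have cr := Complex.continuous_re.comp cc
  have ci := Complex.continuous_im.comp cc
  exact ((continuous_const.mul cr).add (continuous_const.mul ci)).sub
    (((continuous_const.mul n10).add (continuous_const.mul n00)).div_const 2)

include hM hS in
theorem rep_discrete : DiscreteTopology S.rep.range := by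
  rw [discreteTopology_iff_isOpen_singleton_one]
  have hO : IsOpen {A : SL(2, ℂ) | ∀ i, BS (M.v i) (TH A inft) < 0} := by
    simp only [Set.ofPred_forall]
    apply isOpen_iInter_of_finite
    intro i
    exact isOpen_lt (continuous_TH_inft _) continuous_const
  have : ({1} : Set S.rep.range)
      = Subtype.val ⁻¹' {A : SL(2, ℂ) | ∀ i, BS (M.v i) (TH A inft) < 0} := by
    ext ⟨A, γ, rfl⟩
    simp only [Set.mem_singleton_iff, Set.mem_preimage, Set.mem_ofPred_eq]
    constructor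
    · intro h i
      have h' : S.rep γ = 1 := congrArg Subtype.val h
      rw [h', map_one]
      exact v_inft_neg hM i
    · intro h
      rcases rep_dichotomy hM S hS γ with h1 | ⟨i, hi⟩
      · apply Subtype.ext
        show S.rep γ = 1
        rw [h1, map_one]
      · exact absurd hi (not_lt.2 (h i).le)
  rw [this]
  exact hO.preimage continuous_subtype_val

/-! ### The limit set -/

theorem cnt_conj (w : List (Fin (2 * (g + 1)))) (j : Fin (2 * (g + 1))) :
    Cox.cntE (w ++ [j] ++ w.reverse) = 2 * Cox.cntE w + Cox.cntE [j] ∧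
    Cox.cntF (w ++ [j] ++ w.reverse) = 2 * Cox.cntF w + Cox.cntF [j] := by
  unfold Cox.cntE Cox.cntF
  simp only [List.countP_append, List.countP_reverse]
  constructor <;> ring

theorem evw_conj (w : List (Fin (2 * (g + 1)))) (j : Fin (2 * (g + 1))) :
    evw M.rf (w ++ [j] ++ w.reverse) = refp M.rf w j := by
  rw [evw_append, evw_append, evw_reverse _ M.rf_sq]
  simp [refp]

include hM hS in
/-- Products of two reflections of the same colour come from the surface group. -/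
theorem exists_rep (p q : List (Fin (2 * (g + 1))) × Fin (2 * (g + 1)))
    (h : (p.2 : ℕ) % 2 = (q.2 : ℕ) % 2) :
    ∃ γ, TH (S.rep γ) = refp M.rf p.1 p.2 * refp M.rf q.1 q.2 := by
  obtain ⟨γ, hγ⟩ := (coxM M).word_even
    ((p.1 ++ [p.2] ++ p.1.reverse) ++ (q.1 ++ [q.2] ++ q.1.reverse))
    (by
      have h1 := (cnt_conj p.1 p.2).1
      have h2 := (cnt_conj q.1 q.2).1
      have h3 : Cox.cntE ((p.1 ++ [p.2] ++ p.1.reverse) ++ (q.1 ++ [q.2] ++ q.1.reverse))
          = Cox.cntE (p.1 ++ [p.2] ++ p.1.reverse) + Cox.cntE (q.1 ++ [q.2] ++ q.1.reverse) := by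
        unfold Cox.cntE; rw [List.countP_append]
      have h4 : Cox.cntE [p.2] = Cox.cntE [q.2] := by
        simp only [Cox.cntE, List.countP_singleton, h]
      rw [h3, h1, h2, h4]
      exact ⟨Cox.cntE p.1 + Cox.cntE q.1 + Cox.cntE [q.2], by ring⟩)
    (by
      have h1 := (cnt_conj p.1 p.2).2
      have h2 := (cnt_conj q.1 q.2).2
      have h3 : Cox.cntF ((p.1 ++ [p.2] ++ p.1.reverse) ++ (q.1 ++ [q.2] ++ q.1.reverse))
          = Cox.cntF (p.1 ++ [p.2] ++ p.1.reverse) + Cox.cntF (q.1 ++ [q.2] ++ q.1.reverse) := by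
        unfold Cox.cntF; rw [List.countP_append]
      have h4 : Cox.cntF [p.2] = Cox.cntF [q.2] := by
        simp only [Cox.cntF, List.countP_singleton, h]
      rw [h3, h1, h2, h4]
      exact ⟨Cox.cntF p.1 + Cox.cntF q.1 + Cox.cntF [q.2], by ring⟩)
  refine ⟨γ, ?_⟩
  rw [TH_rep hM S hS, ← hγ, coxM_ev, evw_append, evw_conj, evw_conj]

include hM in
theorem pair_pt {p : List (Fin (2 * (g + 1))) × Fin (2 * (g + 1))}
    (hv : Valid (adjC (2 * (g + 1))) p.1 p.2) (z : ℂ) :
    (0 ≤ BS (M.root p.1 p.2) (pt z) ↔ ‖z - M.cp p‖ ≤ M.rp p) ∧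
    (0 < BS (M.root p.1 p.2) (pt z) ↔ ‖z - M.cp p‖ < M.rp p) :=
  ⟨mem_disc_iff (RModel.root_r_pos hM hv) (RModel.root_unit hM _ _) z,
    mem_int_disc_iff (RModel.root_r_pos hM hv) (RModel.root_unit hM _ _) z⟩

include hM hS in
/-- The key step: for two discs of the same colour inside `U`, the product of the two
reflections moves a point of `U` into `U`. -/
theorem key_move {U : Set (OnePoint ℂ)} {z : ℂ} {ε : ℝ}
    (hU : ∀ y : ℂ, ‖y - z‖ < ε → (y : OnePoint ℂ) ∈ U)
    {p q : List (Fin (2 * (g + 1))) × Fin (2 * (g + 1))} (hp : p ∈ M.PS z) (hq : q ∈ M.PS z)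
    (hpε : M.rp p < ε / 2) (hqε : M.rp q < ε / 2) (hlt : M.rp p < M.rp q)
    (hpar : (p.2 : ℕ) % 2 = (q.2 : ℕ) % 2) :
    ∃ A ∈ S.rep.range, (moebius A '' U ∩ U).Nonempty ∧
      TH A = refp M.rf p.1 p.2 * refp M.rf q.1 q.2 := by
  obtain ⟨γ, hγ⟩ := exists_rep hM S hS p q hpar
  refine ⟨S.rep γ, ⟨γ, rfl⟩, ?_, hγ⟩
  have hq0 := RModel.rp_pos hM hq.1
  -- a point of the circle of `q` outside the disc of `p`
  obtain ⟨x, hx1, hx2⟩ : ∃ x : ℂ, ‖x - M.cp q‖ = M.rp q ∧ M.rp p < ‖x - M.cp p‖ := by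
    by_contra hcon
    push Not at hcon
    have h1 := hcon (M.cp q + (M.rp q : ℂ)) (by
      rw [add_sub_cancel_left, Complex.norm_real, Real.norm_eq_abs, abs_of_pos hq0])
    have h2 := hcon (M.cp q - (M.rp q : ℂ)) (by
      rw [sub_sub_cancel_left, norm_neg, Complex.norm_real, Real.norm_eq_abs, abs_of_pos hq0])
    have h3 : ‖((2 * M.rp q : ℝ) : ℂ)‖ ≤ M.rp p + M.rp p := by
      have e : ((2 * M.rp q : ℝ) : ℂ) = (M.cp q + (M.rp q : ℂ) - M.cp p)
          - (M.cp q - (M.rp q : ℂ) - M.cp p) := by push_cast; ring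
      rw [e]
      exact (norm_sub_le _ _).trans (add_le_add h1 h2)
    rw [Complex.norm_real, Real.norm_eq_abs, abs_of_pos (by positivity)] at h3
    linarith
  have hxU : (x : OnePoint ℂ) ∈ U := by
    apply hU
    have e : x - z = (x - M.cp q) - (z - M.cp q) := by ring
    rw [e]
    have := norm_sub_le (x - M.cp q) (z - M.cp q)
    have := hq.2
    linarith
  have hBq : BS (M.root q.1 q.2) (pt x) = 0 := by
    apply le_antisymm
    · by_contra h
      push Not at h
      have := ((pair_pt hM hq.1 x).2).1 h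
      linarith
    · exact ((pair_pt hM hq.1 x).1).2 hx1.le
  have hBp : BS (M.root p.1 p.2) (pt x) < 0 := by
    by_contra h
    push Not at h
    have := ((pair_pt hM hp.1 x).1).1 h
    linarith
  have himg : TH (S.rep γ) (np x) = refp M.rf p.1 p.2 (pt x) := by
    rw [hγ]
    show refp M.rf p.1 p.2 (refp M.rf q.1 q.2 (pt x)) = _
    rw [refp_apply M q.1 q.2, hM.hB, hBq]
    simp
  obtain ⟨l, hl, hnp⟩ := TH_np (S.rep γ) x
  have hBimg : 0 < BS (M.root p.1 p.2) (np (moebius (S.rep γ) x)) := by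
    have h1 : BS (M.root p.1 p.2) (refp M.rf p.1 p.2 (pt x)) = - BS (M.root p.1 p.2) (pt x) := by
      rw [refp_apply M p.1 p.2, hM.hB, map_sub, map_smul, RModel.root_unit hM, smul_eq_mul]
      ring
    rw [← himg, hnp, map_smul, smul_eq_mul] at h1
    have h2 : 0 < l * BS (M.root p.1 p.2) (np (moebius (S.rep γ) x)) := by rw [h1]; linarith
    exact (mul_pos_iff_of_pos_left hl).1 h2
  refine ⟨moebius (S.rep γ) x, ⟨x, hxU, rfl⟩, ?_⟩
  revert hBimg
  induction moebius (S.rep γ) x using OnePoint.rec with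
  | infty =>
    intro h
    rw [np_infty, BS_inft] at h
    have := RModel.root_r_pos hM hp.1
    linarith
  | coe y =>
    intro h
    apply hU
    have h1 := ((pair_pt hM hp.1 y).2).1 h
    have e : y - z = (y - M.cp p) - (z - M.cp p) := by ring
    rw [e]
    have := norm_sub_le (y - M.cp p) (z - M.cp p)
    have := hp.2
    linarith

include hM hS in
theorem Lam_subset_limitSet {z : ℂ} (hz : z ∈ M.Lam) :
    (z : OnePoint ℂ) ∈ limitSet S.rep.range := by
  intro U hU hfin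
  have h1 : (fun y : ℂ => (y : OnePoint ℂ)) ⁻¹' U ∈ 𝓝 z :=
    OnePoint.continuous_coe.continuousAt.preimage_mem_nhds hU
  obtain ⟨ε, hε, hball⟩ := Metric.mem_nhds_iff.1 h1
  have hU' : ∀ y : ℂ, ‖y - z‖ < ε → (y : OnePoint ℂ) ∈ U := by
    intro y hy
    exact hball (by rw [Metric.mem_ball, dist_eq_norm]; exact hy)
  -- small discs
  have hsmall : (M.PS z \ {p | Valid (adjC (2 * (g + 1))) p.1 p.2 ∧ ε / 2 ≤ M.rp p}).Infinite :=
    hz.sdiff (RModel.finite_rp hM (half_pos hε))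
  -- pigeonhole on colours
  obtain ⟨c, hc⟩ : ∃ c : ℕ, ({p ∈ M.PS z \ {p | Valid (adjC (2 * (g + 1))) p.1 p.2 ∧
      ε / 2 ≤ M.rp p} | (p.2 : ℕ) % 2 = c}).Infinite := by
    by_contra hcon
    push Not at hcon
    apply hsmall
    apply ((hcon 0).union (hcon 1)).subset
    intro p hp
    rcases Nat.mod_two_eq_zero_or_one (p.2 : ℕ) with h | h
    · left; exact ⟨hp, h⟩
    · right; exact ⟨hp, h⟩
  set P := {p ∈ M.PS z \ {p | Valid (adjC (2 * (g + 1))) p.1 p.2 ∧
      ε / 2 ≤ M.rp p} | (p.2 : ℕ) % 2 = c} with hP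
  have hPs : ∀ p ∈ P, M.rp p < ε / 2 := by
    intro p hp
    by_contra h
    push Not at h
    exact hp.1.2 ⟨hp.1.1.1, h⟩
  obtain ⟨q, hq⟩ := hc.nonempty
  have hq0 := RModel.rp_pos hM hq.1.1.1
  have hP2 : (P \ {p | Valid (adjC (2 * (g + 1))) p.1 p.2 ∧ M.rp q ≤ M.rp p}).Infinite :=
    hc.sdiff (RModel.finite_rp hM hq0)
  set P2 := P \ {p | Valid (adjC (2 * (g + 1))) p.1 p.2 ∧ M.rp q ≤ M.rp p} with hP2d
  have hF : (TH '' {A : SL(2, ℂ) | A ∈ S.rep.range ∧ (moebius A '' U ∩ U).Nonempty}).Finite :=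
    hfin.image _
  -- the numerical invariant
  have hF2 := hF.image (fun T : Sp ≃ₗ[ℝ] Sp =>
    - BS ((T * (refp M.rf q.1 q.2)⁻¹ : Sp ≃ₗ[ℝ] Sp) inft) inft)
  obtain ⟨C, hC⟩ := hF2.bddAbove
  apply hP2
  apply (M.finite_paths (C + 1)).subset
  intro p hp
  have hpv := hp.1.1.1.1
  refine ⟨hpv, ?_⟩
  have hlt : M.rp p < M.rp q := by
    by_contra h
    push Not at h
    exact hp.2 ⟨hpv, h⟩
  obtain ⟨A, hA, hne, hTH⟩ := key_move hM S hS hU' hp.1.1.1 hq.1.1 (hPs p hp.1) (hPs q hq) hlt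
    (by rw [hp.1.2, hq.2])
  have h2 : - BS ((TH A * (refp M.rf q.1 q.2)⁻¹ : Sp ≃ₗ[ℝ] Sp) inft) inft ≤ C :=
    hC ⟨TH A, ⟨A, ⟨hA, hne⟩, rfl⟩, rfl⟩
  rw [hTH, mul_inv_cancel_right, refp_apply M p.1 p.2, hM.hB] at h2
  have h3 : BS inft inft = 0 := by rw [BS_inft]; simp [inft]
  simp only [map_sub, map_smul, LinearMap.sub_apply, LinearMap.smul_apply, h3, smul_eq_mul] at h2
  rw [hM.hB, hM.hx]
  have h4 : BS (M.root p.1 p.2) inft < 0 := by
    have := M.Rp_neg ⟨p.1, p.2, hpv, rfl⟩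
    rw [hM.hB, hM.hx] at this
    exact this
  nlinarith [sq_nonneg (BS (M.root p.1 p.2) inft + 1 / 4)]

include hM in
/-- All discs lie in a fixed ball. -/
theorem discs_bounded : ∃ R : ℝ, ∀ p : List (Fin (2 * (g + 1))) × Fin (2 * (g + 1)),
    Valid (adjC (2 * (g + 1))) p.1 p.2 → ‖M.cp p‖ + M.rp p ≤ R := by
  obtain ⟨C, hC⟩ := (Set.finite_range
    (fun i : Fin (2 * (g + 1)) => ‖cen (M.v i)‖ + rad (M.v i))).bddAbove
  refine ⟨C + 1 / M.c, ?_⟩
  rintro ⟨w, j⟩ hv
  have hc := M.hc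
  have hrp : M.rp (w, j) ≤ 1 / (2 * M.c) := by
    have h1 := RModel.root_r_ge hM hv
    have h2 : (0 : ℝ) ≤ w.length := Nat.cast_nonneg _
    unfold RModel.rp rad
    apply one_div_le_one_div_of_le (by positivity)
    have : 2 * M.c * 1 ≤ 2 * M.c * (1 + 2 * (w.length : ℝ)) := by
      apply mul_le_mul_of_nonneg_left _ (by positivity)
      linarith
    simp only at h1 ⊢
    linarith
  obtain ⟨i, hi⟩ : ∃ i, sig (adjC (2 * (g + 1))) w j i = 1 := by
    rcases w with _ | ⟨t, w⟩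
    · exact ⟨j, by simp [sig]⟩
    · exact ⟨t, by simp [sig]⟩
  have hpos := (M.inv w j hv).pos i hi
  have hvi : 0 < (M.v i).2.2 := by
    have := v_inft_neg hM i
    rw [BS_inft] at this
    linarith
  have hvu : BS (M.v i) (M.v i) = 1 := by rw [← hM.hB]; exact M.one i
  have hcl := cen_close hvi (RModel.root_r_pos hM hv) hvu (RModel.root_unit hM w j)
    (by rw [← hM.hB]; linarith)
  have h3 : ‖M.cp (w, j)‖ ≤ ‖cen (M.v i)‖ + (rad (M.v i) + M.rp (w, j)) := by
    have e : M.cp (w, j) = cen (M.v i) - (cen (M.v i) - cen (M.root w j)) := by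
      show cen (M.root w j) = _
      ring
    rw [e]
    refine (norm_sub_le _ _).trans ?_
    gcongr
    exact hcl
  have h4 : ‖cen (M.v i)‖ + rad (M.v i) ≤ C := hC ⟨i, rfl⟩
  have h5 : 1 / M.c = 1 / (2 * M.c) + 1 / (2 * M.c) := by field_simp; norm_num
  rw [h5]
  linarith

include hg hM in
/-- Away from the limit set only finitely many discs are met. -/
theorem finite_discs (z : OnePoint ℂ) (hz : ∀ y : ℂ, y ∈ M.Lam → (y : OnePoint ℂ) ≠ z) :
    ∃ U ∈ 𝓝 z, {p : List (Fin (2 * (g + 1))) × Fin (2 * (g + 1)) |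
      Valid (adjC (2 * (g + 1))) p.1 p.2 ∧ ∃ y ∈ U, 0 ≤ BS (M.root p.1 p.2) (np y)}.Finite := by
  induction z using OnePoint.rec with
  | infty =>
    obtain ⟨R, hR⟩ := discs_bounded hM
    refine ⟨((fun y : ℂ => (y : OnePoint ℂ)) '' Metric.closedBall 0 R)ᶜ, ?_, ?_⟩
    · apply IsOpen.mem_nhds
      · rw [OnePoint.isOpen_compl_image_coe]
        exact ⟨Metric.isClosed_closedBall, isCompact_closedBall 0 R⟩
      · rintro ⟨y, -, hy⟩
        exact OnePoint.coe_ne_infty y hy
    · convert Set.finite_empty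
      rw [Set.eq_empty_iff_forall_notMem]
      rintro p ⟨hv, y, hy, h⟩
      induction y using OnePoint.rec with
      | infty =>
        rw [np_infty, BS_inft] at h
        have := RModel.root_r_pos hM hv
        linarith
      | coe y =>
        apply hy
        refine ⟨y, ?_, rfl⟩
        rw [mem_closedBall_zero_iff]
        have h1 := ((pair_pt hM hv y).1).1 h
        have e : y = (y - M.cp p) + M.cp p := by ring
        rw [e]
        refine (norm_add_le _ _).trans ?_
        linarith [hR p hv]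
  | coe z =>
    have hzL : z ∉ M.Lam := fun h => hz z h rfl
    have hcl : IsClosed M.Lam := (Lam_isCompact hg hM).isClosed
    obtain ⟨ε, hε, hball⟩ := Metric.mem_nhds_iff.1 (hcl.isOpen_compl.mem_nhds hzL)
    refine ⟨(fun y : ℂ => (y : OnePoint ℂ)) '' Metric.ball z (ε / 2), ?_, ?_⟩
    · apply OnePoint.isOpenEmbedding_coe.isOpenMap.image_mem_nhds
      exact Metric.ball_mem_nhds z (half_pos hε)
    · apply (RModel.finite_rp hM (show 0 < ε / 4 by positivity)).subset
      rintro p ⟨hv, _, ⟨y, hy, rfl⟩, h⟩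
      refine ⟨hv, ?_⟩
      by_contra hlt
      push Not at hlt
      have h1 := ((pair_pt hM hv y).1).1 h
      obtain ⟨x, hx, hx2⟩ := disc_meets_Lam hg hM hv
      have : x ∈ Metric.ball z ε := by
        rw [Metric.mem_ball, dist_eq_norm] at hy ⊢
        have e : x - z = (x - M.cp p) - (y - M.cp p) + (y - z) := by ring
        rw [e]
        have h2 := norm_add_le ((x - M.cp p) - (y - M.cp p)) (y - z)
        have h3 := norm_sub_le (x - M.cp p) (y - M.cp p)
        linarith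
      exact hball this hx

theorem finite_fiber (T : Sp ≃ₗ[ℝ] Sp) : (TH ⁻¹' {T}).Finite := by
  rcases Set.eq_empty_or_nonempty (TH ⁻¹' {T}) with h | ⟨A, hA⟩
  · rw [h]; exact Set.finite_empty
  · apply (Set.toFinite {A, -A}).subset
    intro B hB
    have h1 : TH (A⁻¹ * B) = 1 := by
      rw [map_mul, map_inv]
      have e1 : TH A = T := hA
      have e2 : TH B = T := hB
      rw [e1, e2, inv_mul_cancel]
    rcases TH_ker _ h1 with h2 | h2
    · left
      exact (inv_mul_eq_one.1 h2).symm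
    · right
      rw [inv_mul_eq_iff_eq_mul] at h2
      rw [Set.mem_singleton_iff, h2]; simp

include hg hM hS in
theorem limitSet_subset (z : OnePoint ℂ) (hz : z ∈ limitSet S.rep.range) :
    ∃ y ∈ M.Lam, (y : OnePoint ℂ) = z := by
  by_contra hcon
  push Not at hcon
  obtain ⟨U, hU, hfin⟩ := finite_discs hg hM z hcon
  apply hz U hU
  -- the finite set of roots whose discs meet `U`
  have hAU : {u : Sp | u ∈ M.Rp ∧ ∃ y ∈ U, 0 ≤ BS u (np y)}.Finite := by
    apply (hfin.image fun p => M.root p.1 p.2).subset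
    rintro u ⟨⟨w, j, hv, rfl⟩, h⟩
    exact ⟨(w, j), ⟨hv, h⟩, rfl⟩
  set AU := {u : Sp | u ∈ M.Rp ∧ ∃ y ∈ U, 0 ≤ BS u (np y)} with hAUd
  obtain ⟨n, hn⟩ : ∃ n : ℕ, AU.encard ≤ n := by
    obtain ⟨n, hn⟩ := hAU.exists_encard_eq_coe
    exact ⟨n, hn.le⟩
  apply ((M.finite_words (n + n)).preimage' (fun T _ => finite_fiber T)).subset
  rintro A ⟨⟨γ, rfl⟩, ⟨_, ⟨y, hy, rfl⟩, hyU⟩⟩
  obtain ⟨w, hw⟩ := TH_word hM S hS γ
  refine ⟨⟨w, hw⟩, ?_⟩
  obtain ⟨l, hl, hnp⟩ := TH_np (S.rep γ) y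
  have hsub : M.NT (TH (S.rep γ)) ⊆ AU ∪ (fun u => - TH (S.rep γ) u) '' AU := by
    rintro b ⟨hb1, hb2⟩
    by_cases h : 0 ≤ BS b (np (moebius (S.rep γ) y))
    · left; exact ⟨hb1, _, hyU, h⟩
    · right
      push Not at h
      refine ⟨- (TH (S.rep γ))⁻¹ b, ⟨hb2, y, hy, ?_⟩, ?_⟩
      · rw [map_neg, LinearMap.neg_apply]
        have h1 := M.B_evw_inv w b (np y)
        rw [hM.hB, ← hw, hnp, map_smul, smul_eq_mul] at h1
        rw [h1]
        have := mul_neg_of_pos_of_neg hl h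
        linarith
      · show - TH (S.rep γ) (- (TH (S.rep γ))⁻¹ b) = b
        rw [map_neg, neg_neg]
        show (TH (S.rep γ) * (TH (S.rep γ))⁻¹) b = b
        rw [mul_inv_cancel]; rfl
  calc (M.NT (TH (S.rep γ))).encard
      ≤ (AU ∪ (fun u => - TH (S.rep γ) u) '' AU).encard := Set.encard_le_encard hsub
    _ ≤ AU.encard + ((fun u => - TH (S.rep γ) u) '' AU).encard := Set.encard_union_le _ _
    _ ≤ AU.encard + AU.encard := add_le_add_right (Set.encard_image_le _ _) _
    _ ≤ (n : ℕ∞) + n := by gcongr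
    _ = ((n + n : ℕ) : ℕ∞) := by push_cast; rfl

include hg hM hS in
theorem limitSet_eq : limitSet S.rep.range = (fun y : ℂ => (y : OnePoint ℂ)) '' M.Lam := by
  ext z
  constructor
  · intro hz
    obtain ⟨y, hy, h⟩ := limitSet_subset hg hM S hS z hz
    exact ⟨y, hy, h⟩
  · rintro ⟨y, hy, rfl⟩
    exact Lam_subset_limitSet hM S hS hy

include hg hM hS in
/-- Right-angled necklaces give quasi-Fuchsian representations. -/
theorem isQuasiFuchsian_rep : IsQuasiFuchsian S.rep where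
  injective := rep_injective hM S hS
  discrete := rep_discrete hM S hS
  jordan := by
    refine ⟨fun z => (jor hg M z : OnePoint ℂ), ?_, ?_, ?_⟩
    · exact OnePoint.continuous_coe.comp (jor_continuous hg hM)
    · exact OnePoint.coe_injective.comp (jor_injective hg hM)
    · rw [limitSet_eq hg hM S hS, ← jor_range hg hM]
      ext y
      simp

end Main

end Pool.Agent.H81
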