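import Pool.Agent.H81.Paths

/-!
# Reflection groups generated by hyperbolic reflections: roots
-/

set_option autoImplicit false
set_option linter.unusedSimpArgs false
set_option linter.unusedSectionVars false

namespace Pool.Agent.H81

variable {ι : Type*} [DecidableEq ι] {adj : ι → ι → Prop} [DecidableRel adj]
  {V : Type*} [AddCommGroup V] [Module ℝ V]

/-- Unit vectors whose pairings are `0` for neighbours and `< -1` otherwise, and a reference
vector pairing negatively with all of them. -/
structure RModel (adj : ι → ι → Prop) (V : Type*) [AddCommGroup V] [Module ℝ V] where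
  B : V →ₗ[ℝ] V →ₗ[ℝ] ℝ
  sy : ∀ x y, B x y = B y x
  v : ι → V
  one : ∀ i, B (v i) (v i) = 1
  zer : ∀ i j, adj i j → B (v i) (v j) = 0
  neg : ∀ i j, i ≠ j → ¬ adj i j → B (v i) (v j) < -1
  x0 : V
  c : ℝ
  hc : 0 < c
  hx0 : ∀ i, B (v i) x0 ≤ -c
  adj_symm : ∀ i j, adj i j → adj j i
  adj_irr : ∀ i, ¬ adj i i

namespace RModel

variable (M : RModel adj V)

/-- The reflection in a unit vector. -/
noncomputable def rf (i : ι) : V ≃ₗ[ℝ] V :=
  LinearEquiv.ofInvolutive
    (LinearMap.id - (2 : ℝ) • (M.B (M.v i)).smulRight (M.v i)) (by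
      intro x
      simp only [LinearMap.sub_apply, LinearMap.id_apply, LinearMap.smul_apply,
        LinearMap.smulRight_apply, map_sub, map_smul, smul_eq_mul, M.one]
      module)

theorem rf_apply (i : ι) (x : V) : M.rf i x = x - (2 * M.B (M.v i) x) • M.v i := by
  show x - (2 : ℝ) • (M.B (M.v i) x • M.v i) = _
  rw [smul_smul]

theorem rf_sq (i : ι) : M.rf i * M.rf i = 1 := by
  ext x
  show M.rf i (M.rf i x) = x
  rw [rf_apply, rf_apply]
  simp only [map_sub, map_smul, smul_eq_mul, M.one]
  module

theorem rf_rf (i : ι) (x : V) : M.rf i (M.rf i x) = x := by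
  have := DFunLike.congr_fun (M.rf_sq i) x
  exact this

theorem B_rf (i : ι) (x y : V) : M.B (M.rf i x) (M.rf i y) = M.B x y := by
  rw [rf_apply, rf_apply]
  simp only [map_sub, map_smul, smul_eq_mul, LinearMap.sub_apply, LinearMap.smul_apply, M.one,
    M.sy x (M.v i)]
  ring

theorem B_rf_left (i : ι) (x y : V) : M.B (M.rf i x) y = M.B x (M.rf i y) := by
  rw [← M.B_rf i x (M.rf i y), rf_rf]

theorem rf_self (i : ι) : M.rf i (M.v i) = - M.v i := by
  rw [rf_apply, M.one]; module

theorem rf_adj {i j : ι} (h : adj i j) : M.rf i (M.v j) = M.v j := by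
  rw [rf_apply, M.zer i j h]; simp

theorem isCox : IsCox adj M.rf where
  sq := M.rf_sq
  cm := by
    intro i j h
    ext x
    show M.rf i (M.rf j x) = M.rf j (M.rf i x)
    have h1 := M.zer i j h
    have h2 := M.zer j i (M.adj_symm _ _ h)
    rw [rf_apply, rf_apply, rf_apply, rf_apply]
    simp only [map_sub, map_smul, smul_eq_mul, h1, h2]
    module

/-- The root of a path. -/
noncomputable def root (w : List ι) (j : ι) : V := evw M.rf w (M.v j)

@[simp] theorem root_nil (j : ι) : M.root [] j = M.v j := by simp [root]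

theorem root_cons (t : ι) (w : List ι) (j : ι) : M.root (t :: w) j = M.rf t (M.root w j) := by
  simp [root]

theorem root_cons' (t : ι) (w : List ι) (j : ι) :
    M.root (t :: w) j = M.root w j - (2 * M.B (M.v t) (M.root w j)) • M.v t := by
  rw [root_cons, rf_apply]

/-- The invariants of roots. -/
structure Inv (w : List ι) (j : ι) : Prop where
  pos : ∀ i, sig adj w j i = 1 → 1 ≤ M.B (M.v i) (M.root w j)
  zero : ∀ i, sig adj w j i = 0 → M.B (M.v i) (M.root w j) = 0
  neg : ∀ i, sig adj w j i = -1 → M.B (M.v i) (M.root w j) < -1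
  cl : ∀ i, sig adj w j i = 1 → ∀ k, k ≠ i → ¬ adj i k → sig adj w j k = -1 ∧
    M.B (M.v i) (M.root w j) ≤ - M.B (M.v k) (M.root w j)
  h : M.c * (1 + 2 * w.length) ≤ - M.B (M.root w j) M.x0

theorem inv (w : List ι) (j : ι) (hv : Valid adj w j) : M.Inv w j := by
  induction w with
  | nil =>
    constructor
    · intro i hi
      simp only [sig] at hi
      split_ifs at hi with h1 h2
      · subst h1; rw [root_nil, M.one]
    · intro i hi
      simp only [sig] at hi
      split_ifs at hi with h1 h2
      · rw [root_nil, M.zer i j h2]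
    · intro i hi
      simp only [sig] at hi
      split_ifs at hi with h1 h2
      · rw [root_nil]; exact M.neg i j h1 h2
    · intro i hi k hk hik
      simp only [sig] at hi
      split_ifs at hi with h1 h2
      · subst h1
        have hki : ¬ adj k i := fun h => hik (M.adj_symm _ _ h)
        refine ⟨by simp only [sig]; rw [if_neg hk, if_neg hki], ?_⟩
        rw [root_nil, M.one]
        have := M.neg k i hk hki
        linarith
    · simp only [root_nil, List.length_nil]
      have := M.hx0 j
      norm_num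
      linarith
  | cons t w ih =>
    have I := ih hv.1
    set u := M.root w j with hu
    set b := M.B (M.v t) u with hb
    have hbt : b < -1 := I.neg t hv.2
    have hcalc : ∀ i, M.B (M.v i) (M.root (t :: w) j)
        = M.B (M.v i) u - 2 * b * M.B (M.v i) (M.v t) := by
      intro i
      rw [root_cons', ← hu, ← hb]
      simp only [map_sub, map_smul, smul_eq_mul]
    have htt : M.B (M.v t) (M.root (t :: w) j) = -b := by
      rw [hcalc, M.one]; ring
    have hadj : ∀ i, adj i t → M.B (M.v i) (M.root (t :: w) j) = M.B (M.v i) u := by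
      intro i hi
      rw [hcalc, M.zer i t hi]; ring
    -- the nonadjacent case
    have hnon : ∀ i, i ≠ t → ¬ adj i t → M.B (M.v i) (M.root (t :: w) j) ≤ b := by
      intro i hit hnit
      have hc := M.neg i t hit hnit
      rw [hcalc]
      have hle : M.B (M.v i) u ≤ -b := by
        rcases hs : sig adj w j i with _ | _ | _
        · have := I.zero i hs; rw [this]; linarith
        · have := I.neg i hs; linarith
        · have hnit' : ¬ adj i t := hnit
          exact (I.cl i hs t hit.symm hnit').2
      nlinarith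
    constructor
    · intro i hi
      simp only [sig] at hi
      split_ifs at hi with h1 h2
      · subst h1; rw [htt]; linarith
      · rw [hadj i h2]; exact I.pos i hi
    · intro i hi
      simp only [sig] at hi
      split_ifs at hi with h1 h2
      · rw [hadj i h2]; exact I.zero i hi
    · intro i hi
      simp only [sig] at hi
      split_ifs at hi with h1 h2
      · rw [hadj i h2]; exact I.neg i hi
      · have := hnon i h1 h2; linarith
    · intro i hi k hk hik
      have hki : ¬ adj k i := fun h => hik (M.adj_symm _ _ h)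
      simp only [sig] at hi
      split_ifs at hi with h1 h2
      · subst h1
        refine ⟨by simp only [sig]; rw [if_neg hk, if_neg hki], ?_⟩
        rw [htt]
        have := hnon k hk hki
        linarith
      · have hkt : k ≠ t := by rintro rfl; exact hik h2
        by_cases h3 : adj k t
        · obtain ⟨h4, h5⟩ := I.cl i hi k hk hik
          refine ⟨by simp only [sig]; rw [if_neg hkt, if_pos h3]; exact h4, ?_⟩
          rw [hadj i h2, hadj k h3]; exact h5
        · obtain ⟨h4, h5⟩ := I.cl i hi k hk hik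
          refine ⟨by simp only [sig]; rw [if_neg hkt, if_neg h3], ?_⟩
          rw [hadj i h2, hcalc k]
          have hneg := M.neg k t hkt h3
          have : 0 < 2 * b * M.B (M.v k) (M.v t) := by nlinarith
          linarith
    · have h1 := I.h
      have h2 := M.hx0 t
      rw [root_cons', ← hu, ← hb]
      simp only [map_sub, map_smul, smul_eq_mul, LinearMap.sub_apply, LinearMap.smul_apply,
        List.length_cons, Nat.cast_add, Nat.cast_one]
      have hc := M.hc
      nlinarith

/-- `act` computes reflections of roots. -/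
theorem root_act (s : ι) : ∀ (w : List ι) (j : ι) (w' : List ι), act adj s w j = some w' →
    M.root w' j = M.rf s (M.root w j) := by
  intro w
  induction w with
  | nil =>
    intro j w' h
    simp only [act] at h
    split_ifs at h with h1 h2
    · simp only [Option.some.injEq] at h; subst h
      rw [root_nil, M.rf_adj h2]
    · simp only [Option.some.injEq] at h; subst h
      rw [root_cons]
  | cons t w ih =>
    intro j w' h
    simp only [act] at h
    split_ifs at h with h1 h2
    · simp only [Option.some.injEq] at h; subst h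
      subst h1
      rw [root_cons, rf_rf]
    · rw [Option.map_eq_some_iff] at h
      obtain ⟨w'', h3, rfl⟩ := h
      rw [root_cons, root_cons, ih j w'' h3]
      have := DFunLike.congr_fun (M.isCox.cm s t h2) (M.root w j)
      exact this.symm
    · simp only [Option.some.injEq] at h; subst h
      rw [root_cons]

include M in
theorem act_none' {s : ι} {w : List ι} {j : ι} (hv : Valid adj w j)
    (h : act adj s w j = none) : w = [] ∧ j = s := act_none M.adj_symm M.adj_irr s w j hv h

include M in
theorem act_valid' {s : ι} {w : List ι} {j : ι} {w' : List ι} (hv : Valid adj w j)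
    (h : act adj s w j = some w') : Valid adj w' j :=
  act_valid M.adj_symm M.adj_irr s w j w' hv h

/-- The sign of the pairing of two roots is combinatorial. -/
theorem sgn_spec : ∀ (w : List ι) (j : ι) (w' : List ι) (j' : ι), Valid adj w j →
    Valid adj w' j' →
    (sgn adj w j w' j' = 1 → 1 ≤ M.B (M.root w j) (M.root w' j')) ∧
    (sgn adj w j w' j' = 0 → M.B (M.root w j) (M.root w' j') = 0) ∧
    (sgn adj w j w' j' = -1 → M.B (M.root w j) (M.root w' j') < -1) := by
  intro w
  induction w with
  | nil =>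
    intro j w' j' _ hv'
    have I := M.inv w' j' hv'
    rw [root_nil]
    exact ⟨I.pos j, I.zero j, I.neg j⟩
  | cons t w ih =>
    intro j w' j' hv hv'
    rw [sgn, root_cons, B_rf_left]
    rcases hact : act adj t w' j' with _ | w''
    · obtain ⟨rfl, rfl⟩ := M.act_none' hv' hact
      have hneg := (M.inv w j hv.1).neg _ hv.2
      refine ⟨?_, ?_, ?_⟩
      · intro _
        rw [root_nil, rf_self, map_neg, M.sy]
        linarith
      · intro h
        exact absurd (show (1 : SignType) = 0 from h) (by decide)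
      · intro h
        exact absurd (show (1 : SignType) = -1 from h) (by decide)
    · rw [← M.root_act t w' j' w'' hact]
      exact ih j w'' j' hv.1 (M.act_valid' hv' hact)

theorem lt_iff_sgn {w : List ι} {j : ι} {w' : List ι} {j' : ι} (hv : Valid adj w j)
    (hv' : Valid adj w' j') :
    M.B (M.root w j) (M.root w' j') < -1 ↔ sgn adj w j w' j' = -1 := by
  obtain ⟨h1, h2, h3⟩ := M.sgn_spec w j w' j' hv hv'
  constructor
  · intro h
    rcases hs : sgn adj w j w' j' with _ | _ | _
    · have := h2 hs; rw [this] at h; norm_num at h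
    · rfl
    · have := h1 hs; linarith
  · exact h3

theorem lt_or_ge {w : List ι} {j : ι} {w' : List ι} {j' : ι} (hv : Valid adj w j)
    (hv' : Valid adj w' j') :
    M.B (M.root w j) (M.root w' j') < -1 ∨ 0 ≤ M.B (M.root w j) (M.root w' j') := by
  obtain ⟨h1, h2, h3⟩ := M.sgn_spec w j w' j' hv hv'
  rcases hs : sgn adj w j w' j' with _ | _ | _
  · right; rw [h2 hs]
  · left; exact h3 hs
  · right; linarith [h1 hs]

/-- Positive roots. -/
def Rp : Set V := {u | ∃ w j, Valid adj w j ∧ M.root w j = u}

theorem v_mem (i : ι) : M.v i ∈ M.Rp := ⟨[], i, trivial, M.root_nil i⟩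

theorem Rp_neg {u : V} (hu : u ∈ M.Rp) : M.B u M.x0 < 0 := by
  obtain ⟨w, j, hv, rfl⟩ := hu
  have := (M.inv w j hv).h
  have hc := M.hc
  have : 0 < M.c * (1 + 2 * (w.length : ℝ)) := by positivity
  linarith

theorem rf_Rp {u : V} (hu : u ∈ M.Rp) (s : ι) (hs : u ≠ M.v s) : M.rf s u ∈ M.Rp := by
  obtain ⟨w, j, hv, rfl⟩ := hu
  rcases hact : act adj s w j with _ | w'
  · obtain ⟨rfl, rfl⟩ := M.act_none' hv hact
    exact absurd (M.root_nil j) hs
  · exact ⟨w', j, M.act_valid' hv hact, M.root_act s w j w' hact⟩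

/-- The set of all roots is invariant. -/
theorem evw_Rp (w : List ι) {u : V} (hu : u ∈ M.Rp) :
    evw M.rf w u ∈ M.Rp ∨ - evw M.rf w u ∈ M.Rp := by
  induction w with
  | nil => left; simpa using hu
  | cons t w ih =>
    rw [evw_cons]
    show M.rf t (evw M.rf w u) ∈ M.Rp ∨ - M.rf t (evw M.rf w u) ∈ M.Rp
    rcases ih with h | h
    · by_cases ht : evw M.rf w u = M.v t
      · right; rw [ht, rf_self, neg_neg]; exact M.v_mem t
      · left; exact M.rf_Rp h t ht
    · by_cases ht : - evw M.rf w u = M.v t
      · left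
        rw [show evw M.rf w u = - M.v t by rw [← ht, neg_neg], map_neg, rf_self, neg_neg]
        exact M.v_mem t
      · right
        rw [← map_neg]
        exact M.rf_Rp h t ht

theorem B_evw (w : List ι) (x y : V) : M.B (evw M.rf w x) (evw M.rf w y) = M.B x y := by
  induction w with
  | nil => simp
  | cons t w ih =>
    rw [evw_cons]
    show M.B (M.rf t (evw M.rf w x)) (M.rf t (evw M.rf w y)) = _
    rw [B_rf, ih]

/-- Exchange: either a root stays positive along a word, or a letter can be deleted. -/
theorem exchange {H : Type*} [Group H] {s : ι → H} (hc : IsCox adj s) :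
    ∀ (w : List ι) (w₁ : List ι) (j : ι), Valid adj w₁ j →
      (∃ w₂, Valid adj w₂ j ∧ evw M.rf w (M.root w₂ j) = M.root w₁ j) ∨
      (∃ w', w'.length + 1 = w.length ∧ refp M.rf w₁ j * evw M.rf w = evw M.rf w' ∧
        refp s w₁ j * evw s w = evw s w') := by
  intro w
  induction w with
  | nil =>
    intro w₁ j hv
    left
    exact ⟨w₁, hv, by simp⟩
  | cons t w ih =>
    intro w₁ j hv
    rcases hact : act adj t w₁ j with _ | w₂
    · obtain ⟨rfl, rfl⟩ := M.act_none' hv hact
      right
      refine ⟨w, rfl, ?_, ?_⟩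
      · simp only [refp, evw_nil, one_mul, inv_one, mul_one, evw_cons]
        rw [← mul_assoc, M.rf_sq, one_mul]
      · simp only [refp, evw_nil, one_mul, inv_one, mul_one, evw_cons]
        rw [← mul_assoc, hc.sq, one_mul]
    · have hv2 := M.act_valid' hv hact
      rcases ih w₂ j hv2 with ⟨w₃, hv3, h3⟩ | ⟨w', hl, h3, h4⟩
      · left
        refine ⟨w₃, hv3, ?_⟩
        rw [evw_cons]
        show M.rf t (evw M.rf w (M.root w₃ j)) = _
        rw [h3, M.root_act t w₁ j w₂ hact, rf_rf]
      · right
        refine ⟨t :: w', by simp [hl], ?_, ?_⟩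
        · rw [refp_act M.isCox t w₁ j w₂ hact] at h3
          rw [evw_cons, evw_cons, ← h3]
          calc _ = 1 * refp M.rf w₁ j * (M.rf t * evw M.rf w) := by group
            _ = (M.rf t * M.rf t) * refp M.rf w₁ j * (M.rf t * evw M.rf w) := by rw [M.rf_sq]
            _ = _ := by group
        · rw [refp_act hc t w₁ j w₂ hact] at h4
          rw [evw_cons, evw_cons, ← h4]
          calc _ = 1 * refp s w₁ j * (s t * evw s w) := by group
            _ = (s t * s t) * refp s w₁ j * (s t * evw s w) := by rw [hc.sq]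
            _ = _ := by group

/-- A word is trivial or moves the reference point across a simple wall. -/
theorem word_dichotomy {H : Type*} [Group H] {s : ι → H} (hc : IsCox adj s) (w : List ι) :
    (evw M.rf w = 1 ∧ evw s w = 1) ∨ ∃ i, 0 < M.B (M.v i) (evw M.rf w M.x0) := by
  induction hn : w.length using Nat.strong_induction_on generalizing w with
  | _ n ih =>
    rcases w with _ | ⟨t, w⟩
    · left; simp
    · rcases M.exchange hc w [] t trivial with ⟨w₂, hv2, h2⟩ | ⟨w', hl, h3, h4⟩
      · right
        refine ⟨t, ?_⟩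
        rw [evw_cons]
        show 0 < M.B (M.v t) (M.rf t (evw M.rf w M.x0))
        rw [← B_rf_left, rf_self, map_neg, LinearMap.neg_apply]
        rw [root_nil] at h2
        rw [← h2, M.B_evw]
        have := M.Rp_neg ⟨w₂, t, hv2, rfl⟩
        linarith
      · simp only [refp, evw_nil, one_mul, inv_one, mul_one] at h3 h4
        rw [evw_cons, evw_cons, h3, h4]
        exact ih w'.length (by simp only [List.length_cons] at hn; omega) w' rfl

/-! ### Inversion sets -/

/-- The inversion set of an isometry. -/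
def NT (T : V ≃ₗ[ℝ] V) : Set V := {u | u ∈ M.Rp ∧ - T⁻¹ u ∈ M.Rp}

theorem inv_evw (w : List ι) : (evw M.rf w)⁻¹ = evw M.rf w.reverse :=
  (evw_reverse M.rf M.rf_sq w).symm

theorem B_evw_inv (w : List ι) (x y : V) :
    M.B ((evw M.rf w)⁻¹ x) y = M.B x (evw M.rf w y) := by
  rw [← M.B_evw w ((evw M.rf w)⁻¹ x) y]
  congr 2
  show (evw M.rf w * (evw M.rf w)⁻¹) x = x
  rw [mul_inv_cancel]; rfl

theorem exists_mem_NT (w : List ι) (h : evw M.rf w ≠ 1) : ∃ i, M.v i ∈ M.NT (evw M.rf w) := by
  rcases M.word_dichotomy M.isCox w with h1 | ⟨i, hi⟩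
  · exact absurd h1.1 h
  · refine ⟨i, M.v_mem i, ?_⟩
    have h2 : (evw M.rf w)⁻¹ (M.v i) ∈ M.Rp ∨ - (evw M.rf w)⁻¹ (M.v i) ∈ M.Rp := by
      rw [inv_evw]; exact M.evw_Rp _ (M.v_mem i)
    rcases h2 with h2 | h2
    · have := M.Rp_neg h2
      rw [B_evw_inv] at this
      linarith
    · exact h2

/-- Removing a simple inversion. -/
theorem NT_rf {T : V ≃ₗ[ℝ] V} {i : ι} (hi : M.v i ∈ M.NT T) :
    M.rf i '' M.NT (M.rf i * T) ⊆ M.NT T \ {M.v i} := by
  rintro _ ⟨u, ⟨h1, h2⟩, rfl⟩
  have hinv : (M.rf i)⁻¹ = M.rf i := inv_eq_of_mul_eq_one_left (M.rf_sq i)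
  have h2' : - T⁻¹ (M.rf i u) ∈ M.Rp := by
    rw [mul_inv_rev, hinv] at h2; exact h2
  have hne : u ≠ M.v i := by
    rintro rfl
    rw [rf_self, map_neg, neg_neg] at h2'
    have := M.Rp_neg h2'
    have h3 := M.Rp_neg hi.2
    rw [map_neg, LinearMap.neg_apply] at h3
    linarith
  refine ⟨⟨M.rf_Rp h1 i hne, h2'⟩, ?_⟩
  intro h
  rw [Set.mem_singleton_iff] at h
  have : u = - M.v i := by rw [← M.rf_rf i u, h, rf_self]
  rw [this] at h1
  have h4 := M.Rp_neg h1
  have h5 := M.Rp_neg (M.v_mem i)
  rw [map_neg, LinearMap.neg_apply] at h4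
  linarith

theorem finite_words [Finite ι] (n : ℕ) :
    {T : V ≃ₗ[ℝ] V | (∃ w, T = evw M.rf w) ∧ (M.NT T).encard ≤ n}.Finite := by
  induction n with
  | zero =>
    apply (Set.finite_singleton (1 : V ≃ₗ[ℝ] V)).subset
    rintro T ⟨⟨w, rfl⟩, h⟩
    rw [Set.mem_singleton_iff]
    by_contra hne
    obtain ⟨i, hi⟩ := M.exists_mem_NT w hne
    simp only [Nat.cast_zero, nonpos_iff_eq_zero, Set.encard_eq_zero] at h
    rw [h] at hi
    exact hi
  | succ n ih =>
    have hfin : (⋃ i : ι, (fun T => M.rf i * T) ''
        {T : V ≃ₗ[ℝ] V | (∃ w, T = evw M.rf w) ∧ (M.NT T).encard ≤ n}).Finite :=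
      Set.finite_iUnion fun i => ih.image _
    apply ((Set.finite_singleton (1 : V ≃ₗ[ℝ] V)).union hfin).subset
    rintro T ⟨⟨w, rfl⟩, h⟩
    by_cases hne : evw M.rf w = 1
    · left; exact hne
    · right
      obtain ⟨i, hi⟩ := M.exists_mem_NT w hne
      rw [Set.mem_iUnion]
      refine ⟨i, M.rf i * evw M.rf w, ⟨⟨i :: w, by rw [evw_cons]⟩, ?_⟩, ?_⟩
      · have h1 := Set.encard_le_encard (M.NT_rf hi)
        rw [(M.rf i).injective.encard_image] at h1
        have h2 := Set.encard_sdiff_singleton_add_one hi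
        have h3 : (M.NT (evw M.rf w) \ {M.v i}).encard + 1 ≤ (n : ℕ∞) + 1 := by
          rw [h2]; simpa using h
        have h4 : (M.NT (evw M.rf w) \ {M.v i}).encard ≤ (n : ℕ∞) :=
          (ENat.add_le_add_iff_right (by simp)).1 h3
        exact h1.trans h4
      · show M.rf i * (M.rf i * evw M.rf w) = _
        rw [← mul_assoc, M.rf_sq, one_mul]

/-! ### Finiteness of short paths -/

theorem finite_paths [Finite ι] (C : ℝ) :
    {p : List ι × ι | Valid adj p.1 p.2 ∧ - M.B (M.root p.1 p.2) M.x0 ≤ C}.Finite := by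
  have : Fintype ι := Fintype.ofFinite ι
  obtain ⟨n, hn⟩ := exists_nat_ge (C / M.c)
  apply ((List.finite_length_le ι n).prod (Set.finite_univ (α := ι))).subset
  rintro ⟨w, j⟩ ⟨hv, h⟩
  refine ⟨?_, trivial⟩
  show w.length ≤ n
  have h1 := (M.inv w j hv).h
  have hc := M.hc
  have h2 : M.c * (1 + 2 * (w.length : ℝ)) ≤ C := h1.trans h
  have h3 : (1 + 2 * (w.length : ℝ)) ≤ C / M.c := by
    rw [le_div_iff₀ hc]; linarith
  have h4 : (w.length : ℝ) ≤ n := by
    have : (0 : ℝ) ≤ w.length := Nat.cast_nonneg _
    linarith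
  exact_mod_cast h4

/-- If `x` sees a simple root positively, whatever the group element applied, then it sees
infinitely many roots positively. -/
theorem infinite_pos (S : Set V) (hS : ∀ x ∈ S, ∀ i, M.rf i x ∈ S)
    (hS2 : ∀ x ∈ S, ∃ i, 0 < M.B (M.v i) x) (x : V) (hx : x ∈ S) :
    {u | u ∈ M.Rp ∧ 0 < M.B u x}.Infinite := by
  intro hfin
  induction hn : hfin.toFinset.card using Nat.strong_induction_on generalizing x with
  | _ n ih =>
    obtain ⟨i, hi⟩ := hS2 x hx
    have hsub : M.rf i '' {u | u ∈ M.Rp ∧ 0 < M.B u (M.rf i x)}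
        ⊆ {u | u ∈ M.Rp ∧ 0 < M.B u x} \ {M.v i} := by
      rintro _ ⟨u, ⟨h1, h2⟩, rfl⟩
      have hne : u ≠ M.v i := by
        rintro rfl
        rw [← B_rf_left, rf_self, map_neg, LinearMap.neg_apply] at h2
        linarith
      refine ⟨⟨M.rf_Rp h1 i hne, ?_⟩, ?_⟩
      · rw [B_rf_left]; exact h2
      · intro h
        rw [Set.mem_singleton_iff] at h
        have : u = - M.v i := by rw [← M.rf_rf i u, h, rf_self]
        rw [this] at h1
        have h4 := M.Rp_neg h1
        have h5 := M.Rp_neg (M.v_mem i)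
        rw [map_neg, LinearMap.neg_apply] at h4
        linarith
    have hfin1 : (M.rf i '' {u | u ∈ M.Rp ∧ 0 < M.B u (M.rf i x)}).Finite :=
      (hfin.subset Set.sdiff_subset).subset hsub
    have hfin2 : {u | u ∈ M.Rp ∧ 0 < M.B u (M.rf i x)}.Finite :=
      Set.Finite.of_finite_image hfin1 (M.rf i).injective.injOn
    have hlt : hfin2.toFinset.card < n := by
      rw [← hn, ← Set.ncard_eq_toFinset_card _ hfin2, ← Set.ncard_eq_toFinset_card _ hfin,
        ← Set.ncard_image_of_injective _ (M.rf i).injective]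
      apply Set.ncard_lt_ncard _ hfin
      refine ⟨hsub.trans Set.sdiff_subset, fun h => ?_⟩
      have := hsub (h (⟨M.v_mem i, hi⟩ : M.v i ∈ {u | u ∈ M.Rp ∧ 0 < M.B u x}))
      exact this.2 rfl
    exact ih _ hlt (M.rf i x) (hS x hx i) hfin2 rfl

end RModel

end Pool.Agent.H81
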