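import Pool.Agent.H81.Basic

set_option autoImplicit false

open scoped MatrixGroups Topology

namespace Pool.Agent.H81

variable {g : ℕ}

/-- `ρ' ` is reachable from `ρ` if `[ρ']` lies in the closure of the mapping class group orbit
of `[ρ]`. -/
def Reach (ρ ρ' : SurfaceGroup g →* SL(2, ℂ)) : Prop :=
  charPoint ρ' ∈ closure (modOrbit (charPoint ρ))

theorem charPoint_val (ρ : SurfaceGroup g →* SL(2, ℂ)) : (charPoint ρ).1 = character ρ := rfl

/-- Precomposition with an automorphism, as a map of the character variety. -/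
def precomp (φ : SurfaceGroup g ≃* SurfaceGroup g) (x : CharVar g) : CharVar g :=
  ⟨fun γ => x.1 (φ γ), by
    obtain ⟨ρ, hρ⟩ := x.2
    refine ⟨ρ.comp φ.toMonoidHom, ?_⟩
    funext γ
    rw [← hρ]
    rfl⟩

theorem continuous_precomp (φ : SurfaceGroup g ≃* SurfaceGroup g) : Continuous (precomp φ) := by
  apply Continuous.subtype_mk
  exact continuous_pi fun γ => (continuous_apply (φ γ)).comp continuous_subtype_val

theorem mem_modOrbit_iff {x y : CharVar g} :
    y ∈ modOrbit x ↔ ∃ φ : SurfaceGroup g ≃* SurfaceGroup g, OrientationPreserving φ ∧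
      y = precomp φ x := by
  constructor
  · rintro ⟨φ, h1, h2⟩
    exact ⟨φ, h1, Subtype.ext (funext h2)⟩
  · rintro ⟨φ, h1, rfl⟩
    exact ⟨φ, h1, fun γ => rfl⟩

theorem self_mem_modOrbit (x : CharVar g) : x ∈ modOrbit x :=
  mem_modOrbit_iff.2 ⟨MulEquiv.refl _, orientationPreserving_refl, rfl⟩

theorem precomp_mem_modOrbit {φ : SurfaceGroup g ≃* SurfaceGroup g}
    (hφ : OrientationPreserving φ) {x y : CharVar g} (hy : y ∈ modOrbit x) :
    precomp φ y ∈ modOrbit x := by
  obtain ⟨ψ, h1, rfl⟩ := mem_modOrbit_iff.1 hy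
  exact mem_modOrbit_iff.2 ⟨φ.trans ψ, hφ.trans h1, rfl⟩

theorem precomp_mem_closure {φ : SurfaceGroup g ≃* SurfaceGroup g}
    (hφ : OrientationPreserving φ) {x y : CharVar g} (hy : y ∈ closure (modOrbit x)) :
    precomp φ y ∈ closure (modOrbit x) := by
  have h : precomp φ y ∈ closure (precomp φ '' modOrbit x) :=
    image_closure_subset_closure_image (continuous_precomp φ) ⟨y, hy, rfl⟩
  apply closure_mono _ h
  rintro _ ⟨z, hz, rfl⟩
  exact precomp_mem_modOrbit hφ hz

theorem modOrbit_subset_closure {x y : CharVar g} (hy : y ∈ closure (modOrbit x)) :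
    modOrbit y ⊆ closure (modOrbit x) := by
  intro z hz
  obtain ⟨φ, h1, rfl⟩ := mem_modOrbit_iff.1 hz
  exact precomp_mem_closure h1 hy

theorem closure_modOrbit_subset {x y : CharVar g} (hy : y ∈ closure (modOrbit x)) :
    closure (modOrbit y) ⊆ closure (modOrbit x) :=
  closure_minimal (modOrbit_subset_closure hy) isClosed_closure

theorem Reach.refl (ρ : SurfaceGroup g →* SL(2, ℂ)) : Reach ρ ρ :=
  subset_closure (self_mem_modOrbit _)

theorem Reach.trans {ρ₁ ρ₂ ρ₃ : SurfaceGroup g →* SL(2, ℂ)} (h1 : Reach ρ₁ ρ₂)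
    (h2 : Reach ρ₂ ρ₃) : Reach ρ₁ ρ₃ :=
  closure_modOrbit_subset h1 h2

theorem Reach.of_aut (ρ : SurfaceGroup g →* SL(2, ℂ)) (φ : SurfaceGroup g ≃* SurfaceGroup g)
    (hφ : OrientationPreserving φ) : Reach ρ (ρ.comp φ.toMonoidHom) :=
  subset_closure (mem_modOrbit_iff.2 ⟨φ, hφ, rfl⟩)

theorem Reach.of_char_eq {ρ ρ' : SurfaceGroup g →* SL(2, ℂ)} (h : character ρ' = character ρ) :
    Reach ρ ρ' := by
  have : charPoint ρ' = charPoint ρ := Subtype.ext h
  unfold Reach
  rw [this]
  exact Reach.refl ρ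

/-- Conjugate representations have the same character. -/
theorem Reach.of_conj {ρ ρ' : SurfaceGroup g →* SL(2, ℂ)} (k : SL(2, ℂ))
    (h : ∀ γ, ρ' γ = k * ρ γ * k⁻¹) : Reach ρ ρ' := by
  apply Reach.of_char_eq
  funext γ
  simp only [character, h]
  rw [Matrix.SpecialLinearGroup.coe_mul, Matrix.SpecialLinearGroup.coe_mul, Matrix.trace_mul_comm,
    ← mul_assoc, ← Matrix.SpecialLinearGroup.coe_mul]
  simp

/-! ### Continuity of characters in the images of the generators -/

/-- Evaluation of a group word is continuous in the images of the generators. -/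
theorem continuous_word {α : Type*} {G : Type*} [Group G] [TopologicalSpace G]
    [IsTopologicalGroup G] (w : FreeGroup α) :
    Continuous (fun f : α → G => FreeGroup.lift f w) := by
  induction w using FreeGroup.induction_on with
  | C1 => simpa using continuous_const
  | of x => simpa using continuous_apply x
  | inv_of x ih =>
    simp only [map_inv, FreeGroup.lift_apply_of]
    exact (continuous_apply x).inv
  | mul x y hx hy =>
    simp only [map_mul]
    exact hx.mul hy

/-- If the images of the generators converge, so do the characters. -/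
theorem tendsto_charPoint {ι : Type*} {l : Filter ι} (ρ : ι → (SurfaceGroup g →* SL(2, ℂ)))
    (ρ' : SurfaceGroup g →* SL(2, ℂ))
    (ha : ∀ i, Filter.Tendsto (fun n => ρ n (genA i)) l (𝓝 (ρ' (genA i))))
    (hb : ∀ i, Filter.Tendsto (fun n => ρ n (genB i)) l (𝓝 (ρ' (genB i)))) :
    Filter.Tendsto (fun n => charPoint (ρ n)) l (𝓝 (charPoint ρ')) := by
  rw [tendsto_subtype_rng]
  rw [tendsto_pi_nhds]
  intro γ
  obtain ⟨w, rfl⟩ := PresentedGroup.mk_surjective _ γ
  have hw : ∀ σ : SurfaceGroup g →* SL(2, ℂ),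
      σ (PresentedGroup.mk _ w) = FreeGroup.lift (fun x => σ (PresentedGroup.of x)) w := by
    intro σ
    have : (σ.comp (PresentedGroup.mk ({relator g} : Set (FreeGroup (Gen g))))) =
        FreeGroup.lift (fun x => σ (PresentedGroup.of x)) := by
      ext x
      simp [PresentedGroup.of]
    rw [← this]; rfl
  have h1 : Filter.Tendsto (fun n => fun x : Gen g => ρ n (PresentedGroup.of x)) l
      (𝓝 (fun x : Gen g => ρ' (PresentedGroup.of x))) := by
    rw [tendsto_pi_nhds]
    rintro (i | i)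
    · exact ha i
    · exact hb i
  have h2 := ((continuous_word (G := SL(2, ℂ)) w).tendsto _).comp h1
  have h3 : Continuous (fun A : SL(2, ℂ) => Matrix.trace (A : Matrix (Fin 2) (Fin 2) ℂ)) :=
    continuous_subtype_val.matrix_trace
  have h4 := (h3.tendsto _).comp h2
  simp only [charPoint_val, character, hw]
  exact h4

/-- Reachability is closed under limits of generators. -/
theorem Reach.of_tendsto {ι : Type*} {l : Filter ι} [l.NeBot] {ρ₀ : SurfaceGroup g →* SL(2, ℂ)}
    (ρ : ι → (SurfaceGroup g →* SL(2, ℂ))) (ρ' : SurfaceGroup g →* SL(2, ℂ))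
    (h : ∀ n, Reach ρ₀ (ρ n))
    (ha : ∀ i, Filter.Tendsto (fun n => ρ n (genA i)) l (𝓝 (ρ' (genA i))))
    (hb : ∀ i, Filter.Tendsto (fun n => ρ n (genB i)) l (𝓝 (ρ' (genB i)))) :
    Reach ρ₀ ρ' :=
  isClosed_closure.mem_of_tendsto (tendsto_charPoint ρ ρ' ha hb) (Filter.Eventually.of_forall h)

end Pool.Agent.H81
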