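import Pool.Agent.H81.RModel

/-!
# The space of circles
-/

set_option autoImplicit false
set_option linter.unusedSimpArgs false

open scoped MatrixGroups Topology ComplexConjugate

namespace Pool.Agent.H81

/-- The space of hermitian `2 × 2` matrices `((p, q), (q̄, r))`. -/
abbrev Sp : Type := ℝ × ℂ × ℝ

/-- The Lorentz form. -/
noncomputable def Bf (x y : Sp) : ℝ :=
  (x.2.1 * conj y.2.1).re - (x.1 * y.2.2 + x.2.2 * y.1) / 2

theorem Bf_eq (x y : Sp) : Bf x y = x.2.1.re * y.2.1.re + x.2.1.im * y.2.1.im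
    - (x.1 * y.2.2 + x.2.2 * y.1) / 2 := by
  unfold Bf
  simp [Complex.mul_re]

/-- The Lorentz form as a bilinear map. -/
noncomputable def BS : Sp →ₗ[ℝ] Sp →ₗ[ℝ] ℝ :=
  LinearMap.mk₂ ℝ Bf
    (by intro x y z; simp [Bf_eq]; ring)
    (by intro c x y; simp [Bf_eq]; ring)
    (by intro x y z; simp [Bf_eq]; ring)
    (by intro c x y; simp [Bf_eq]; ring)

theorem BS_apply (x y : Sp) : BS x y = x.2.1.re * y.2.1.re + x.2.1.im * y.2.1.im
    - (x.1 * y.2.2 + x.2.2 * y.1) / 2 := by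
  rw [← Bf_eq]; rfl

theorem BS_symm (x y : Sp) : BS x y = BS y x := by
  rw [BS_apply, BS_apply]; ring

/-- The vector of the circle of centre `m` and radius `r`. -/
noncomputable def circ (m : ℂ) (r : ℝ) : Sp := ((Complex.normSq m - r ^ 2) / r, m / r, 1 / r)

/-- The light-like vector of a point. -/
noncomputable def pt (z : ℂ) : Sp := (Complex.normSq z, z, 1)

/-- The light-like vector of the point at infinity. -/
def inft : Sp := (1, 0, 0)

theorem BS_circ_circ (m m' : ℂ) (r r' : ℝ) (hr : r ≠ 0) (hr' : r' ≠ 0) :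
    BS (circ m r) (circ m' r') = (r ^ 2 + r' ^ 2 - Complex.normSq (m - m')) / (2 * r * r') := by
  rw [BS_apply]
  simp only [circ, Complex.normSq_apply, Complex.sub_re, Complex.sub_im, Complex.div_ofReal_re,
    Complex.div_ofReal_im]
  field_simp
  ring

theorem BS_circ_pt (m z : ℂ) (r : ℝ) (hr : r ≠ 0) :
    BS (circ m r) (pt z) = (r ^ 2 - Complex.normSq (z - m)) / (2 * r) := by
  rw [BS_apply]
  simp only [circ, pt, Complex.normSq_apply, Complex.sub_re, Complex.sub_im,
    Complex.div_ofReal_re, Complex.div_ofReal_im]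
  field_simp
  ring

theorem BS_pt_pt (z w : ℂ) : BS (pt z) (pt w) = - Complex.normSq (z - w) / 2 := by
  rw [BS_apply]
  simp only [pt, Complex.normSq_apply, Complex.sub_re, Complex.sub_im]
  ring

theorem BS_inft (x : Sp) : BS x inft = - x.2.2 / 2 := by
  rw [BS_apply]
  simp [inft]; ring

/-- Centre and radius of a vector. -/
noncomputable def cen (u : Sp) : ℂ := u.2.1 / u.2.2
noncomputable def rad (u : Sp) : ℝ := 1 / u.2.2

theorem rad_pos {u : Sp} (h : 0 < u.2.2) : 0 < rad u := by unfold rad; positivity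

theorem circ_cen_rad {u : Sp} (h : 0 < u.2.2) (h1 : BS u u = 1) : circ (cen u) (rad u) = u := by
  rw [BS_apply] at h1
  obtain ⟨p, q, r⟩ := u
  simp only at h h1
  have hr : r ≠ 0 := h.ne'
  have hrc : (r : ℂ) ≠ 0 := by exact_mod_cast hr
  simp only [circ, cen, rad, Complex.normSq_apply, Complex.div_ofReal_re, Complex.div_ofReal_im,
    Prod.mk.injEq]
  refine ⟨?_, ?_, ?_⟩
  · field_simp
    linear_combination h1
  · push_cast
    field_simp
  · field_simp

theorem cen_circ (m : ℂ) {r : ℝ} (hr : 0 < r) : cen (circ m r) = m := by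
  have hrc : (r : ℂ) ≠ 0 := by exact_mod_cast hr.ne'
  simp only [cen, circ]
  push_cast
  field_simp

theorem rad_circ (m : ℂ) {r : ℝ} (hr : 0 < r) : rad (circ m r) = r := by
  simp only [rad, circ]
  field_simp

/-- Pairing of two unit vectors in terms of centres and radii. -/
theorem BS_unit {u v : Sp} (hu : 0 < u.2.2) (hv : 0 < v.2.2) (hu1 : BS u u = 1)
    (hv1 : BS v v = 1) :
    BS u v = (rad u ^ 2 + rad v ^ 2 - ‖cen u - cen v‖ ^ 2) / (2 * rad u * rad v) := by
  conv_lhs => rw [← circ_cen_rad hu hu1, ← circ_cen_rad hv hv1]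
  rw [BS_circ_circ _ _ _ _ (rad_pos hu).ne' (rad_pos hv).ne', Complex.sq_norm]

theorem BS_unit_pt {u : Sp} (hu : 0 < u.2.2) (hu1 : BS u u = 1) (z : ℂ) :
    BS u (pt z) = (rad u ^ 2 - ‖z - cen u‖ ^ 2) / (2 * rad u) := by
  conv_lhs => rw [← circ_cen_rad hu hu1]
  rw [BS_circ_pt _ _ _ (rad_pos hu).ne', Complex.sq_norm]

theorem mem_disc_iff {u : Sp} (hu : 0 < u.2.2) (hu1 : BS u u = 1) (z : ℂ) :
    0 ≤ BS u (pt z) ↔ ‖z - cen u‖ ≤ rad u := by
  rw [BS_unit_pt hu hu1]
  have hr := rad_pos hu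
  rw [le_div_iff₀ (by positivity), zero_mul, sub_nonneg]
  exact pow_le_pow_iff_left₀ (norm_nonneg _) hr.le (by norm_num)

theorem mem_int_disc_iff {u : Sp} (hu : 0 < u.2.2) (hu1 : BS u u = 1) (z : ℂ) :
    0 < BS u (pt z) ↔ ‖z - cen u‖ < rad u := by
  rw [BS_unit_pt hu hu1]
  have hr := rad_pos hu
  rw [lt_div_iff₀ (by positivity), zero_mul, sub_pos]
  exact pow_lt_pow_iff_left₀ (norm_nonneg _) hr.le (by norm_num)

theorem lt_neg_one_iff {u v : Sp} (hu : 0 < u.2.2) (hv : 0 < v.2.2) (hu1 : BS u u = 1)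
    (hv1 : BS v v = 1) : BS u v < -1 ↔ rad u + rad v < ‖cen u - cen v‖ := by
  rw [BS_unit hu hv hu1 hv1]
  have h1 := rad_pos hu
  have h2 := rad_pos hv
  rw [div_lt_iff₀ (by positivity)]
  constructor
  · intro h
    apply lt_of_pow_lt_pow_left₀ 2 (norm_nonneg _)
    linarith
  · intro h
    have : (rad u + rad v) ^ 2 < ‖cen u - cen v‖ ^ 2 := by
      apply pow_lt_pow_left₀ h (by positivity) (by norm_num)
    linarith

/-- If the pairing is at least `1`, the centres are close. -/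
theorem cen_close {u v : Sp} (hu : 0 < u.2.2) (hv : 0 < v.2.2) (hu1 : BS u u = 1)
    (hv1 : BS v v = 1) (h : 0 ≤ BS u v) : ‖cen u - cen v‖ ≤ rad u + rad v := by
  by_contra h2
  push Not at h2
  have := (lt_neg_one_iff hu hv hu1 hv1).2 h2
  linarith

end Pool.Agent.H81
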